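import Pool.Agent.Lib.MP_0bb41e_ag.Setup

section

/-!
# Basic facts on `Setup`: symmetries, transcendence degree
-/

namespace Pool.Agent.Lib.MP_0bb41e_ag

variable {K : Type} [Field K] [Algebra ℂ K]

theorem Setup.trdeg_ge (S : Setup K) : (3 : Cardinal) ≤ Algebra.trdeg ℂ K := by
  have := S.indep.cardinalMk_le_trdeg
  simpa using this

/-- The general principle: if all elements of a generating set are algebraic over a subring, then
everything is. -/
theorem isAlgebraic_of_adjoin_eq_top {A : Subalgebra ℂ K} {s : Set K}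
    (hs : IntermediateField.adjoin ℂ s = ⊤) (h : ∀ y ∈ s, IsAlgebraic A y) (y : K) :
    IsAlgebraic A y := by
  have hy : y ∈ IntermediateField.adjoin ℂ s := by rw [hs]; trivial
  induction hy using IntermediateField.adjoin_induction with
  | mem x hx => exact h x hx
  | algebraMap c => exact isAlgebraic_algebraMap (⟨algebraMap ℂ K c, A.algebraMap_mem c⟩ : A)
  | add x y _ _ hx hy => exact hx.add hy
  | inv x _ hx => exact hx.inv
  | mul x y _ _ hx hy => exact hx.mul hy

theorem Setup.algebraic_of (S : Setup K) {A : Subalgebra ℂ K} (h : ∀ i, IsAlgebraic A (S.x i))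
    (y : K) : IsAlgebraic A y := by
  refine isAlgebraic_of_adjoin_eq_top S.gen ?_ y
  intro y hy
  rcases hy with rfl | ⟨i, rfl⟩
  · apply IsAlgebraic.of_pow (n := 2) (by norm_num)
    rw [S.rel]
    exact (((h 0).pow 2).mul (h 1)).add (((h 1).pow 2).mul (h 2)) |>.add (((h 2).pow 2).mul (h 0))
  · exact h i

theorem Setup.indep_of (S : Setup K) {x' : Fin 3 → K}
    (h : ∀ i, IsAlgebraic (Algebra.adjoin ℂ (Set.range x')) (S.x i)) :
    AlgebraicIndependent ℂ x' := by
  have : Algebra.IsAlgebraic (Algebra.adjoin ℂ (Set.range x')) K :=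
    ⟨fun y => S.algebraic_of h y⟩
  refine (Algebra.IsAlgebraic.isTranscendenceBasis_of_le_trdeg_of_finite ℂ x' ?_).1
  simpa using S.trdeg_ge

theorem Setup.isTranscendenceBasis (S : Setup K) : IsTranscendenceBasis ℂ S.x := by
  have : Algebra.IsAlgebraic (Algebra.adjoin ℂ (Set.range S.x)) K := by
    refine ⟨fun y => S.algebraic_of (fun i => ?_) y⟩
    exact isAlgebraic_algebraMap
      (⟨S.x i, Algebra.subset_adjoin ⟨i, rfl⟩⟩ : Algebra.adjoin ℂ (Set.range S.x))
  refine Algebra.IsAlgebraic.isTranscendenceBasis_of_le_trdeg_of_finite ℂ S.x ?_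
  simpa using S.trdeg_ge

theorem Setup.trdeg_eq (S : Setup K) : Algebra.trdeg ℂ K = (3 : Cardinal) := by
  have := S.isTranscendenceBasis.cardinalMk_eq_trdeg
  rw [← this]
  simp

theorem Setup.aeval_ne_zero (S : Setup K) {P : MvPolynomial (Fin 3) ℂ} (hP : P ≠ 0) :
    MvPolynomial.aeval S.x P ≠ 0 := by
  intro h
  exact hP ((algebraicIndependent_iff.1 S.indep) P h)

theorem Setup.x_ne_algebraMap (S : Setup K) (i : Fin 3) (c : ℂ) : S.x i ≠ algebraMap ℂ K c := by
  intro h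
  have h1 : (MvPolynomial.X i - MvPolynomial.C c : MvPolynomial (Fin 3) ℂ) ≠ 0 := by
    intro h0
    have := congrArg (MvPolynomial.eval (fun _ => c + 1)) h0
    simp at this
  apply S.aeval_ne_zero h1
  simp [h]

theorem Setup.x_ne_zero (S : Setup K) (i : Fin 3) : S.x i ≠ 0 := by
  simpa using S.x_ne_algebraMap i 0

theorem Setup.x_ne_one (S : Setup K) (i : Fin 3) : S.x i ≠ 1 := by
  simpa using S.x_ne_algebraMap i 1

theorem Setup.x_sub_one_ne (S : Setup K) (i : Fin 3) : S.x i - 1 ≠ 0 :=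
  sub_ne_zero.2 (S.x_ne_one i)

theorem Setup.z_ne_zero (S : Setup K) : S.z ≠ 0 := by
  intro h
  have h1 : (MvPolynomial.X 0 ^ 2 * MvPolynomial.X 1 + MvPolynomial.X 1 ^ 2 * MvPolynomial.X 2 +
    MvPolynomial.X 2 ^ 2 * MvPolynomial.X 0 : MvPolynomial (Fin 3) ℂ) ≠ 0 := by
    intro h0
    have := congrArg (MvPolynomial.eval (fun _ => (1 : ℂ))) h0
    norm_num at this
  apply S.aeval_ne_zero h1
  simp only [map_add, map_mul, map_pow, MvPolynomial.aeval_X]
  rw [← S.rel, h]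
  ring

/-- Rotation of the coordinates. -/
def Setup.rot (S : Setup K) : Setup K where
  x := ![S.x 1, S.x 2, S.x 0]
  z := S.z
  indep := by
    have h := S.indep.comp (![1, 2, 0] : Fin 3 → Fin 3) (by decide)
    convert h using 1
    ext i; fin_cases i <;> rfl
  rel := by
    simp only [Matrix.cons_val_zero, Matrix.cons_val_one, Matrix.cons_val]
    rw [S.rel]; ring
  gen := by
    have : Set.range (![S.x 1, S.x 2, S.x 0] : Fin 3 → K) = Set.range S.x := by
      ext y
      simp only [Set.mem_range, Fin.exists_fin_succ, Matrix.cons_val_zero, Matrix.cons_val_succ]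
      simp
      tauto
    rw [this]
    exact S.gen

/-- Inversion of the coordinates (combined with a transposition). -/
def Setup.inv (S : Setup K) : Setup K where
  x := ![(S.x 1)⁻¹, (S.x 0)⁻¹, (S.x 2)⁻¹]
  z := S.z * ((S.x 0)⁻¹ * (S.x 1)⁻¹ * (S.x 2)⁻¹)
  indep := by
    apply S.indep_of
    have key : ∀ j : Fin 3, IsAlgebraic (Algebra.adjoin ℂ
        (Set.range (![(S.x 1)⁻¹, (S.x 0)⁻¹, (S.x 2)⁻¹] : Fin 3 → K)))
        ((![(S.x 1)⁻¹, (S.x 0)⁻¹, (S.x 2)⁻¹] : Fin 3 → K) j) := by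
      intro j
      exact isAlgebraic_algebraMap
        (⟨_, Algebra.subset_adjoin ⟨j, rfl⟩⟩ : Algebra.adjoin ℂ
        (Set.range (![(S.x 1)⁻¹, (S.x 0)⁻¹, (S.x 2)⁻¹] : Fin 3 → K)))
    intro i
    rw [← IsAlgebraic.inv_iff]
    fin_cases i
    · exact key 1
    · exact key 0
    · exact key 2
  rel := by
    have h0 := S.x_ne_zero 0
    have h1 := S.x_ne_zero 1
    have h2 := S.x_ne_zero 2
    simp only [Matrix.cons_val_zero, Matrix.cons_val_one, Matrix.cons_val]
    rw [mul_pow, S.rel]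
    field_simp
    ring
  gen := by
    rw [eq_top_iff, ← S.gen, IntermediateField.adjoin_le_iff]
    set F := IntermediateField.adjoin ℂ (insert (S.z * ((S.x 0)⁻¹ * (S.x 1)⁻¹ * (S.x 2)⁻¹))
      (Set.range ![(S.x 1)⁻¹, (S.x 0)⁻¹, (S.x 2)⁻¹])) with hF
    have hj : ∀ j : Fin 3, (![(S.x 1)⁻¹, (S.x 0)⁻¹, (S.x 2)⁻¹] : Fin 3 → K) j ∈ F := by
      intro j
      exact IntermediateField.subset_adjoin _ _ (Or.inr ⟨j, rfl⟩)
    have h1 : S.x 1 ∈ F := by simpa using F.inv_mem (hj 0)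
    have h0 : S.x 0 ∈ F := by simpa using F.inv_mem (hj 1)
    have h2 : S.x 2 ∈ F := by simpa using F.inv_mem (hj 2)
    rintro y (rfl | ⟨i, rfl⟩)
    · have hz : S.z * ((S.x 0)⁻¹ * (S.x 1)⁻¹ * (S.x 2)⁻¹) ∈ F :=
        IntermediateField.subset_adjoin _ _ (Or.inl rfl)
      have := F.mul_mem hz (F.mul_mem (F.mul_mem h0 h1) h2)
      have h : S.z * ((S.x 0)⁻¹ * (S.x 1)⁻¹ * (S.x 2)⁻¹) * (S.x 0 * S.x 1 * S.x 2) = S.z := by
        have h0 := S.x_ne_zero 0
        have h1 := S.x_ne_zero 1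
        have h2 := S.x_ne_zero 2
        field_simp
      rw [h] at this
      exact this
    · fin_cases i
      · exact h0
      · exact h1
      · exact h2

@[simp] theorem Setup.rot_x0 (S : Setup K) : S.rot.x 0 = S.x 1 := rfl
@[simp] theorem Setup.rot_x1 (S : Setup K) : S.rot.x 1 = S.x 2 := rfl
@[simp] theorem Setup.rot_x2 (S : Setup K) : S.rot.x 2 = S.x 0 := rfl
@[simp] theorem Setup.rot_z (S : Setup K) : S.rot.z = S.z := rfl
@[simp] theorem Setup.inv_x0 (S : Setup K) : S.inv.x 0 = (S.x 1)⁻¹ := rfl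
@[simp] theorem Setup.inv_x1 (S : Setup K) : S.inv.x 1 = (S.x 0)⁻¹ := rfl
@[simp] theorem Setup.inv_x2 (S : Setup K) : S.inv.x 2 = (S.x 2)⁻¹ := rfl
@[simp] theorem Setup.inv_z (S : Setup K) :
    S.inv.z = S.z * ((S.x 0)⁻¹ * (S.x 1)⁻¹ * (S.x 2)⁻¹) := rfl

end Pool.Agent.Lib.MP_0bb41e_ag
end

section

/-!
# The charts of the double cover of `(ℙ¹)³`
-/

namespace Pool.Agent.Lib.MP_0bb41e_ag

open MvPolynomial

variable {K : Type} [Field K] [Algebra ℂ K]

/-- Three elements over which `x₀, x₁, x₂, z` are algebraic are algebraically independent. -/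
theorem Setup.ch_indep_of_alg (S : Setup K) (y : Fin 3 → K)
    (h : ∀ i, IsAlgebraic (Algebra.adjoin ℂ (Set.range y)) (S.x i))
    (hz : IsAlgebraic (Algebra.adjoin ℂ (Set.range y)) S.z) : AlgebraicIndependent ℂ y := by
  have key : ∀ t : K, IsAlgebraic (Algebra.adjoin ℂ (Set.range y)) t := by
    intro t
    have ht : t ∈ IntermediateField.adjoin ℂ (insert S.z (Set.range S.x)) := by
      rw [S.gen]; trivial
    induction ht using IntermediateField.adjoin_induction with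
    | mem t ht =>
      rcases ht with rfl | ⟨i, rfl⟩
      · exact hz
      · exact h i
    | algebraMap c => exact (isAlgebraic_algebraMap (A := K) (algebraMap ℂ _ c) :
        IsAlgebraic (Algebra.adjoin ℂ (Set.range y)) _)
    | add a b _ _ ha hb => exact ha.add hb
    | inv a _ ha => exact ha.inv
    | mul a b _ _ ha hb => exact ha.mul hb
  haveI : Algebra.IsAlgebraic (Algebra.adjoin ℂ (Set.range y)) K := ⟨key⟩
  have h3 := S.indep.cardinalMk_le_trdeg
  exact (Algebra.IsAlgebraic.isTranscendenceBasis_of_le_trdeg_of_finite ℂ y h3).1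

theorem Setup.ch_x_ne (S : Setup K) (i : Fin 3) : S.x i ≠ 0 := S.indep.ne_zero i

theorem Setup.ch_a_ne (S : Setup K) (I : Fin 3 → Bool) (i : Fin 3) : S.a I i ≠ 0 := by
  unfold Setup.a
  split
  · exact inv_ne_zero (S.ch_x_ne i)
  · exact S.ch_x_ne i

theorem Setup.a_indep (S : Setup K) (I : Fin 3 → Bool) : AlgebraicIndependent ℂ (S.a I) := by
  have hx : ∀ i, IsAlgebraic (Algebra.adjoin ℂ (Set.range (S.a I))) (S.x i) := by
    intro i
    have h1 : IsAlgebraic (Algebra.adjoin ℂ (Set.range (S.a I))) (S.a I i) :=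
      (isAlgebraic_algebraMap (A := K) (⟨S.a I i, Algebra.subset_adjoin ⟨i, rfl⟩⟩ :
        Algebra.adjoin ℂ (Set.range (S.a I))))
    unfold Setup.a at h1 ⊢
    split at h1
    · simpa using h1.inv
    · exact h1
  refine S.ch_indep_of_alg _ hx ?_
  have h2 : IsAlgebraic (Algebra.adjoin ℂ (Set.range (S.a I))) (S.z ^ 2) := by
    rw [S.rel]
    exact ((((hx 0).pow 2).mul (hx 1)).add (((hx 1).pow 2).mul (hx 2))).add
      (((hx 2).pow 2).mul (hx 0))
  exact h2.of_pow two_pos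

theorem Setup.w_sq (S : Setup K) (I : Fin 3 → Bool) :
    S.w I ^ 2 = MvPolynomial.aeval (S.a I) (branch I) := by
  have h0 := S.ch_x_ne 0
  have h1 := S.ch_x_ne 1
  have h2 := S.ch_x_ne 2
  have hz := S.rel
  unfold Setup.w branch Setup.a
  simp only [map_sum, map_prod, map_pow, aeval_X, mul_pow, Fin.sum_univ_three, Fin.prod_univ_three]
  rw [hz]
  cases hI0 : I 0 <;> cases hI1 : I 1 <;> cases hI2 : I 2 <;>
    simp [expo, hI0, hI1, hI2] <;> field_simp <;> ring

theorem Setup.ch_w_mem (S : Setup K) (I : Fin 3 → Bool) : S.w I ∈ S.ring I :=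
  Algebra.subset_adjoin (Set.mem_insert _ _)

theorem Setup.ch_a_mem (S : Setup K) (I : Fin 3 → Bool) (i : Fin 3) : S.a I i ∈ S.ring I :=
  Algebra.subset_adjoin (Set.mem_insert_of_mem _ ⟨i, rfl⟩)

theorem Setup.ch_aeval_mem (S : Setup K) (I : Fin 3 → Bool) (p : MvPolynomial (Fin 3) ℂ) :
    MvPolynomial.aeval (S.a I) p ∈ S.ring I := by
  induction p using MvPolynomial.induction_on with
  | C c => simpa using (S.ring I).algebraMap_mem c
  | add p q hp hq => simpa using add_mem hp hq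
  | mul_X p i hp => simpa using mul_mem hp (S.ch_a_mem I i)

theorem Setup.mem_ring_iff (S : Setup K) (I : Fin 3 → Bool) (y : K) :
    y ∈ S.ring I ↔ ∃ p q : MvPolynomial (Fin 3) ℂ,
      y = MvPolynomial.aeval (S.a I) p + MvPolynomial.aeval (S.a I) q * S.w I := by
  constructor
  · intro hy
    unfold Setup.ring at hy
    induction hy using Algebra.adjoin_induction with
    | mem t ht =>
      rcases ht with rfl | ⟨i, rfl⟩
      · exact ⟨0, 1, by simp⟩
      · exact ⟨X i, 0, by simp⟩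
    | algebraMap c => exact ⟨C c, 0, by simp⟩
    | add a b _ _ ha hb =>
      obtain ⟨p, q, rfl⟩ := ha
      obtain ⟨p', q', rfl⟩ := hb
      exact ⟨p + p', q + q', by simp only [map_add]; ring⟩
    | mul a b _ _ ha hb =>
      obtain ⟨p, q, rfl⟩ := ha
      obtain ⟨p', q', rfl⟩ := hb
      refine ⟨p * p' + q * q' * branch I, p * q' + q * p', ?_⟩
      simp only [map_add, map_mul]
      rw [← S.w_sq I]
      ring
  · rintro ⟨p, q, rfl⟩
    exact add_mem (S.ch_aeval_mem I p) (mul_mem (S.ch_aeval_mem I q) (S.ch_w_mem I))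

/-- The ch_cubic. -/
noncomputable def ch_cubic : MvPolynomial (Fin 3) ℂ := X 0 ^ 2 * X 1 + X 1 ^ 2 * X 2 + X 2 ^ 2 * X 0

theorem ch_cubic_homogeneous : ch_cubic.IsHomogeneous 3 := by
  unfold ch_cubic
  refine ((?_ : MvPolynomial.IsHomogeneous _ 3).add (?_ : MvPolynomial.IsHomogeneous _ 3)).add
    (?_ : MvPolynomial.IsHomogeneous _ 3)
  · exact ((isHomogeneous_X ℂ 0).pow 2).mul (isHomogeneous_X ℂ 1)
  · exact ((isHomogeneous_X ℂ 1).pow 2).mul (isHomogeneous_X ℂ 2)
  · exact ((isHomogeneous_X ℂ 2).pow 2).mul (isHomogeneous_X ℂ 0)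

theorem ch_cubic_ne : ch_cubic ≠ 0 := by
  intro h
  have := congrArg (MvPolynomial.eval (fun _ => (1 : ℂ))) h
  simp [ch_cubic] at this
  norm_num at this

theorem ch_sq_ne_mul_cubic (p q : MvPolynomial (Fin 3) ℂ) (hq : q ≠ 0) : p ^ 2 ≠ q ^ 2 * ch_cubic := by
  intro h
  have hp : p ≠ 0 := by
    rintro rfl
    have : q ^ 2 * ch_cubic = 0 := by rw [← h]; simp
    exact (mul_ne_zero (pow_ne_zero 2 hq) ch_cubic_ne) this
  have h1 := congrArg MvPolynomial.totalDegree h
  rw [pow_two, pow_two, totalDegree_mul_of_isDomain hp hp,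
    totalDegree_mul_of_isDomain (mul_ne_zero hq hq) ch_cubic_ne, totalDegree_mul_of_isDomain hq hq,
    ch_cubic_homogeneous.totalDegree ch_cubic_ne] at h1
  omega

theorem Setup.ch_z_notMem (S : Setup K) :
    S.z ∉ IntermediateField.adjoin ℂ (Set.range S.x) := by
  intro hz
  rw [IntermediateField.mem_adjoin_iff_div] at hz
  obtain ⟨r, hr, s, hs, h⟩ := hz
  rw [Algebra.adjoin_range_eq_range_aeval] at hr hs
  obtain ⟨p, rfl⟩ := hr
  obtain ⟨q, rfl⟩ := hs
  change S.z = MvPolynomial.aeval S.x p / MvPolynomial.aeval S.x q at h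
  have hc : S.z ^ 2 = MvPolynomial.aeval S.x ch_cubic := by
    rw [S.rel]; simp [ch_cubic]
  have hc0 : S.z ≠ 0 := by
    intro h0
    rw [h0] at hc
    apply ch_cubic_ne
    apply S.indep.eq_zero_of_aeval_eq_zero
    rw [← hc]; simp
  have hq : (MvPolynomial.aeval S.x) q ≠ 0 := by
    intro h0
    rw [h0] at h
    simp at h
    exact hc0 h
  have hq' : q ≠ 0 := by rintro rfl; simp at hq
  apply ch_sq_ne_mul_cubic p q hq'
  apply S.indep
  simp only [map_mul, map_pow]
  rw [← hc, h]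
  field_simp

theorem Setup.ch_z_ne (S : Setup K) : S.z ≠ 0 := by
  intro h
  apply S.ch_z_notMem
  rw [h]
  exact zero_mem _

theorem Setup.ch_a_mem_field (S : Setup K) (I : Fin 3 → Bool) (i : Fin 3) :
    S.a I i ∈ IntermediateField.adjoin ℂ (Set.range S.x) := by
  have h : S.x i ∈ IntermediateField.adjoin ℂ (Set.range S.x) :=
    IntermediateField.subset_adjoin _ _ ⟨i, rfl⟩
  unfold Setup.a
  split
  · exact inv_mem h
  · exact h

theorem Setup.ch_aeval_mem_field (S : Setup K) (I : Fin 3 → Bool) (p : MvPolynomial (Fin 3) ℂ) :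
    MvPolynomial.aeval (S.a I) p ∈ IntermediateField.adjoin ℂ (Set.range S.x) := by
  induction p using MvPolynomial.induction_on with
  | C c => simpa using (IntermediateField.adjoin ℂ (Set.range S.x)).algebraMap_mem c
  | add p q hp hq => simpa using add_mem hp hq
  | mul_X p i hp => simpa using mul_mem hp (S.ch_a_mem_field I i)

theorem Setup.ch_w_notMem (S : Setup K) (I : Fin 3 → Bool) :
    S.w I ∉ IntermediateField.adjoin ℂ (Set.range S.x) := by
  intro h
  apply S.ch_z_notMem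
  have h1 : (∏ i, (if I i then (S.x i)⁻¹ else 1)) ∈
      IntermediateField.adjoin ℂ (Set.range S.x) := by
    apply prod_mem
    intro i _
    have h : S.x i ∈ IntermediateField.adjoin ℂ (Set.range S.x) :=
      IntermediateField.subset_adjoin _ _ ⟨i, rfl⟩
    split
    · exact inv_mem h
    · exact one_mem _
  have h2 : (∏ i, (if I i then (S.x i)⁻¹ else 1)) ≠ 0 := by
    rw [Finset.prod_ne_zero_iff]
    intro i _
    split
    · exact inv_ne_zero (S.ch_x_ne i)
    · exact one_ne_zero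
  have h3 : S.z = S.w I / (∏ i, (if I i then (S.x i)⁻¹ else 1)) := by
    unfold Setup.w
    rw [mul_div_cancel_right₀ _ h2]
  rw [h3]
  exact div_mem h h1

theorem Setup.rep_unique (S : Setup K) (I : Fin 3 → Bool) (p q : MvPolynomial (Fin 3) ℂ)
    (h : MvPolynomial.aeval (S.a I) p + MvPolynomial.aeval (S.a I) q * S.w I = 0) :
    p = 0 ∧ q = 0 := by
  have hq : q = 0 := by
    by_contra hq
    have hq' : MvPolynomial.aeval (S.a I) q ≠ 0 := fun h0 =>
      hq ((S.a_indep I).eq_zero_of_aeval_eq_zero _ h0)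
    apply S.ch_w_notMem I
    have : S.w I = - MvPolynomial.aeval (S.a I) p / MvPolynomial.aeval (S.a I) q := by
      field_simp
      linear_combination h
    rw [this]
    exact div_mem (neg_mem (S.ch_aeval_mem_field I p)) (S.ch_aeval_mem_field I q)
  subst hq
  refine ⟨(S.a_indep I).eq_zero_of_aeval_eq_zero _ ?_, rfl⟩
  simpa using h

theorem Setup.ch_w_ne (S : Setup K) (I : Fin 3 → Bool) : S.w I ≠ 0 := by
  intro h
  apply S.ch_w_notMem I
  rw [h]
  exact zero_mem _

theorem Setup.ch_adjoin_eq_top (S : Setup K) (I : Fin 3 → Bool) :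
    IntermediateField.adjoin ℂ (insert (S.w I) (Set.range (S.a I))) = ⊤ := by
  rw [eq_top_iff, ← S.gen, IntermediateField.adjoin_le_iff]
  set L := IntermediateField.adjoin ℂ (insert (S.w I) (Set.range (S.a I))) with hL
  have hx : ∀ i, S.x i ∈ L := by
    intro i
    have h : S.a I i ∈ L := IntermediateField.subset_adjoin _ _ (Set.mem_insert_of_mem _ ⟨i, rfl⟩)
    unfold Setup.a at h
    split at h
    · simpa using inv_mem h
    · exact h
  have hw : S.w I ∈ L := IntermediateField.subset_adjoin _ _ (Set.mem_insert _ _)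
  have h1 : (∏ i, (if I i then (S.x i)⁻¹ else 1)) ∈ L := by
    apply prod_mem
    intro i _
    split
    · exact inv_mem (hx i)
    · exact one_mem _
  have h2 : (∏ i, (if I i then (S.x i)⁻¹ else 1)) ≠ 0 := by
    rw [Finset.prod_ne_zero_iff]
    intro i _
    split
    · exact inv_ne_zero (S.ch_x_ne i)
    · exact one_ne_zero
  have h3 : S.z = S.w I / (∏ i, (if I i then (S.x i)⁻¹ else 1)) := by
    unfold Setup.w
    rw [mul_div_cancel_right₀ _ h2]
  rintro t (rfl | ⟨i, rfl⟩)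
  · rw [h3]
    exact div_mem hw h1
  · exact hx i

theorem Setup.isFractionRing (S : Setup K) (I : Fin 3 → Bool) : IsFractionRing (S.ring I) K :=
  .of_field _ _ fun t ↦ by
    have ht : t ∈ IntermediateField.adjoin ℂ (insert (S.w I) (Set.range (S.a I))) := by
      rw [S.ch_adjoin_eq_top I]; trivial
    obtain ⟨r, hr, s, hs, h⟩ := IntermediateField.mem_adjoin_iff_div.1 ht
    exact ⟨⟨r, hr⟩, ⟨s, hs⟩, h⟩

/-- The localization of the subalgebra `A` of `K` at the powers of `s`. -/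
def ch_loc (A : Subalgebra ℂ K) (s : K) (hs : s ∈ A) : Subalgebra ℂ K where
  carrier := {b | ∃ k : ℕ, s ^ k * b ∈ A}
  mul_mem' := by
    rintro a b ⟨k, hk⟩ ⟨l, hl⟩
    refine ⟨k + l, ?_⟩
    have : s ^ (k + l) * (a * b) = (s ^ k * a) * (s ^ l * b) := by ring
    rw [this]
    exact mul_mem hk hl
  add_mem' := by
    rintro a b ⟨k, hk⟩ ⟨l, hl⟩
    refine ⟨k + l, ?_⟩
    have : s ^ (k + l) * (a + b) = s ^ l * (s ^ k * a) + s ^ k * (s ^ l * b) := by ring
    rw [this]
    exact add_mem (mul_mem (pow_mem hs l) hk) (mul_mem (pow_mem hs k) hl)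
  algebraMap_mem' := fun r => ⟨0, by simpa using A.algebraMap_mem r⟩

theorem ch_le_loc (A : Subalgebra ℂ K) (s : K) (hs : s ∈ A) : A ≤ ch_loc A s hs :=
  fun a ha => ⟨0, by simpa using ha⟩

theorem ch_inv_mem_loc (A : Subalgebra ℂ K) (s : K) (hs : s ∈ A) : s⁻¹ ∈ ch_loc A s hs := by
  rcases eq_or_ne s 0 with h | h
  · subst h
    simp
  · exact ⟨1, by simpa [h] using one_mem A⟩

theorem ch_isLocalization_loc (A : Subalgebra ℂ K) (s : K) (hs : s ∈ A) (h0 : s ≠ 0) :
    letI := (Subalgebra.inclusion (ch_le_loc A s hs)).toRingHom.toAlgebra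
    IsLocalization.Away (⟨s, hs⟩ : A) (ch_loc A s hs) := by
  letI := (Subalgebra.inclusion (ch_le_loc A s hs)).toRingHom.toAlgebra
  have hmap : ∀ a : A, ((algebraMap A (ch_loc A s hs) a : ch_loc A s hs) : K) = (a : K) := fun a => rfl
  refine ⟨?_, ?_, ?_⟩
  · rintro ⟨_, k, rfl⟩
    apply IsUnit.of_mul_eq_one (⟨(s⁻¹) ^ k, pow_mem (ch_inv_mem_loc A s hs) k⟩ : ch_loc A s hs)
    apply Subtype.ext
    rw [MulMemClass.coe_mul, hmap]
    simp [h0]
  · rintro ⟨b, k, hk⟩
    refine ⟨(⟨s ^ k * b, hk⟩, ⟨(⟨s, hs⟩ : A) ^ k, k, rfl⟩), ?_⟩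
    apply Subtype.ext
    rw [MulMemClass.coe_mul, hmap, hmap]
    simp [mul_comm]
  · intro a b h
    refine ⟨1, ?_⟩
    have h' := congrArg Subtype.val h
    rw [hmap, hmap] at h'
    simpa using Subtype.ext h'

theorem ch_loc_eq (A B : Subalgebra ℂ K) (s : K) (hs : s ∈ A) (hs' : s⁻¹ ∈ B)
    (h0 : s ≠ 0) (hAB : A ≤ ch_loc B s⁻¹ hs') : ch_loc A s hs ≤ ch_loc B s⁻¹ hs' := by
  rintro b ⟨k, hk⟩
  obtain ⟨l, hl⟩ := hAB hk
  refine ⟨l, ?_⟩
  have : s⁻¹ ^ l * b = s⁻¹ ^ k * (s⁻¹ ^ l * (s ^ k * b)) := by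
    have h1 : s⁻¹ ^ k * s ^ k = 1 := by rw [← mul_pow, inv_mul_cancel₀ h0, one_pow]
    calc s⁻¹ ^ l * b = (s⁻¹ ^ k * s ^ k) * (s⁻¹ ^ l * b) := by rw [h1, one_mul]
      _ = _ := by ring
  rw [this]
  exact mul_mem (pow_mem hs' k) hl

/-- Transfer of unique factorization between two charts with a common localization. -/
theorem ch_ufd_transfer (A B : Subalgebra ℂ K) [IsNoetherianRing A] (s : K) (hs : s ∈ A)
    (hs' : s⁻¹ ∈ B) (hp : Prime (⟨s, hs⟩ : A)) (hAB : A ≤ ch_loc B s⁻¹ hs')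
    (hBA : B ≤ ch_loc A s hs) [hB : UniqueFactorizationMonoid B] : UniqueFactorizationMonoid A := by
  have h0 : s ≠ 0 := fun h => hp.ne_zero (Subtype.ext h)
  have h0' : s⁻¹ ≠ 0 := inv_ne_zero h0
  have e : ch_loc A s hs = ch_loc B s⁻¹ hs' := by
    apply le_antisymm (ch_loc_eq A B s hs hs' h0 hAB)
    have := ch_loc_eq B A s⁻¹ hs' (by simpa using hs) h0' (by simpa using hBA)
    simpa using this
  letI := (Subalgebra.inclusion (ch_le_loc A s hs)).toRingHom.toAlgebra
  letI := (Subalgebra.inclusion (ch_le_loc B s⁻¹ hs')).toRingHom.toAlgebra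
  haveI := ch_isLocalization_loc A s hs h0
  haveI := ch_isLocalization_loc B s⁻¹ hs' h0'
  rw [UniqueFactorizationMonoid.iff_of_isLocalizationAway_of_prime hp (ch_loc A s hs)]
  have hB' : UniqueFactorizationMonoid (ch_loc B s⁻¹ hs') :=
    UniqueFactorizationMonoid.of_isLocalization
      (Submonoid.powers (⟨s⁻¹, hs'⟩ : B)) (ch_loc B s⁻¹ hs')
  exact (MulEquiv.uniqueFactorizationMonoid_iff (Subalgebra.equivOfEq _ _ e).toMulEquiv).2 hB'

instance (S : Setup K) (I : Fin 3 → Bool) : IsNoetherianRing (S.ring I) := by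
  have : Algebra.FiniteType ℂ (S.ring I) :=
    Algebra.FiniteType.adjoin_of_finite ((Set.finite_range _).insert _)
  exact Algebra.FiniteType.isNoetherianRing ℂ _

/-- Substitution `X i ↦ 0`. -/
noncomputable def ch_kill (i : Fin 3) : MvPolynomial (Fin 3) ℂ →ₐ[ℂ] MvPolynomial (Fin 3) ℂ :=
  aeval (fun j => if j = i then 0 else X j)

theorem ch_X_dvd_sub_kill (i : Fin 3) (f : MvPolynomial (Fin 3) ℂ) : X i ∣ f - ch_kill i f := by
  induction f using MvPolynomial.induction_on with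
  | C c => simp [ch_kill]
  | add p q hp hq =>
    have : p + q - ch_kill i (p + q) = (p - ch_kill i p) + (q - ch_kill i q) := by
      rw [map_add]; ring
    rw [this]
    exact dvd_add hp hq
  | mul_X p j hp =>
    have : p * X j - ch_kill i (p * X j) = (p - ch_kill i p) * X j + ch_kill i p * (X j - ch_kill i (X j)) := by
      rw [map_mul]; ring
    rw [this]
    refine dvd_add (Dvd.dvd.mul_right hp _) (Dvd.dvd.mul_left ?_ _)
    unfold ch_kill
    rw [aeval_X]
    split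
    · rename_i h
      subst h
      simp
    · simp

theorem ch_X_dvd_of_kill (i : Fin 3) (f : MvPolynomial (Fin 3) ℂ) (h : ch_kill i f = 0) : X i ∣ f := by
  simpa [h] using ch_X_dvd_sub_kill i f

theorem ch_kill_X (i : Fin 3) : ch_kill i (X i) = 0 := by simp [ch_kill]

theorem ch_kill_branch (I : Fin 3 → Bool) (i : Fin 3) :
    ∃ (j : Fin 3) (G : MvPolynomial (Fin 3) ℂ), G ≠ 0 ∧ ch_kill i (branch I) = X j * G ^ 2 := by
  have e0 : ∀ b : Bool, (if b then 2 - 1 else 1 : ℕ) = 1 := by decide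
  unfold branch ch_kill
  simp only [map_sum, map_prod, map_pow, aeval_X, Fin.sum_univ_three, Fin.prod_univ_three]
  have hX : ∀ j : Fin 3, (X j : MvPolynomial (Fin 3) ℂ) ≠ 0 := fun j => X_ne_zero j
  fin_cases i
  · cases h0 : I 0 <;> cases h1 : I 1 <;> cases h2 : I 2
    · exact ⟨2, X 1, hX _, by simp [expo, h0, h1, h2]; ring⟩
    · exact ⟨2, X 1, hX _, by simp [expo, h0, h1, h2]; ring⟩
    · exact ⟨2, 1, one_ne_zero, by simp [expo, h0, h1, h2]⟩
    · exact ⟨2, 1, one_ne_zero, by simp [expo, h0, h1, h2]⟩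
    · exact ⟨1, 1, one_ne_zero, by simp [expo, h0, h1, h2]⟩
    · exact ⟨1, X 2, hX _, by simp [expo, h0, h1, h2]⟩
    · exact ⟨1, 1, one_ne_zero, by simp [expo, h0, h1, h2]⟩
    · exact ⟨1, X 2, hX _, by simp [expo, h0, h1, h2]⟩
  · cases h0 : I 0 <;> cases h1 : I 1 <;> cases h2 : I 2
    · exact ⟨0, X 2, hX _, by simp [expo, h0, h1, h2]⟩
    · exact ⟨0, 1, one_ne_zero, by simp [expo, h0, h1, h2]⟩
    · exact ⟨2, 1, one_ne_zero, by simp [expo, h0, h1, h2]⟩
    · exact ⟨2, 1, one_ne_zero, by simp [expo, h0, h1, h2]⟩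
    · exact ⟨0, X 2, hX _, by simp [expo, h0, h1, h2]⟩
    · exact ⟨0, 1, one_ne_zero, by simp [expo, h0, h1, h2]⟩
    · exact ⟨2, X 0, hX _, by simp [expo, h0, h1, h2]; ring⟩
    · exact ⟨2, X 0, hX _, by simp [expo, h0, h1, h2]; ring⟩
  · cases h0 : I 0 <;> cases h1 : I 1 <;> cases h2 : I 2
    · exact ⟨1, X 0, hX _, by simp [expo, h0, h1, h2]; ring⟩
    · exact ⟨0, 1, one_ne_zero, by simp [expo, h0, h1, h2]⟩
    · exact ⟨1, X 0, hX _, by simp [expo, h0, h1, h2]; ring⟩
    · exact ⟨0, X 1, hX _, by simp [expo, h0, h1, h2]⟩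
    · exact ⟨1, 1, one_ne_zero, by simp [expo, h0, h1, h2]⟩
    · exact ⟨0, 1, one_ne_zero, by simp [expo, h0, h1, h2]⟩
    · exact ⟨1, 1, one_ne_zero, by simp [expo, h0, h1, h2]⟩
    · exact ⟨0, X 1, hX _, by simp [expo, h0, h1, h2]⟩

theorem ch_X_dvd_of_norm (I : Fin 3 → Bool) (i : Fin 3) (p q : MvPolynomial (Fin 3) ℂ)
    (h : X i ∣ p ^ 2 - q ^ 2 * branch I) : X i ∣ p ∧ X i ∣ q := by
  obtain ⟨j, G, hG, hk⟩ := ch_kill_branch I i
  have h1 : (ch_kill i p) ^ 2 = (ch_kill i q) ^ 2 * (X j * G ^ 2) := by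
    obtain ⟨t, ht⟩ := h
    have := congrArg (ch_kill i) ht
    rw [map_sub, map_mul, map_mul, map_pow, map_pow, ch_kill_X, hk, zero_mul, sub_eq_zero] at this
    exact this
  have hXj : (X j : MvPolynomial (Fin 3) ℂ) ≠ 0 := X_ne_zero j
  have hq : ch_kill i q = 0 := by
    by_contra hq
    have hp : ch_kill i p ≠ 0 := by
      intro hp
      rw [hp] at h1
      have h2 : (ch_kill i q) ^ 2 * (X j * G ^ 2) ≠ 0 :=
        mul_ne_zero (pow_ne_zero _ hq) (mul_ne_zero hXj (pow_ne_zero _ hG))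
      apply h2
      rw [← h1]; ring
    have h2 := congrArg (MvPolynomial.degreeOf j) h1
    rw [degreeOf_pow_eq j _ 2 hp, degreeOf_mul_eq (pow_ne_zero _ hq)
      (mul_ne_zero hXj (pow_ne_zero _ hG)), degreeOf_mul_eq hXj (pow_ne_zero _ hG),
      degreeOf_pow_eq j _ 2 hq, degreeOf_pow_eq j _ 2 hG] at h2
    have h3 : degreeOf j (X j : MvPolynomial (Fin 3) ℂ) = 1 := by
      rw [degreeOf_X]; simp
    rw [h3] at h2
    omega
  have hp : ch_kill i p = 0 := by
    rw [hq] at h1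
    simpa using h1
  exact ⟨ch_X_dvd_of_kill i p hp, ch_X_dvd_of_kill i q hq⟩

theorem Setup.ch_prime_a (S : Setup K) (I : Fin 3 → Bool) (i : Fin 3) :
    Prime (⟨S.a I i, S.ch_a_mem I i⟩ : S.ring I) := by
  refine ⟨fun h => S.ch_a_ne I i (congrArg Subtype.val h), ?_, ?_⟩
  · intro h
    obtain ⟨u, hu⟩ := isUnit_iff_exists_inv.1 h
    obtain ⟨p, q, hpq⟩ := (S.mem_ring_iff I u).1 u.2
    have h1 : S.a I i * (u : K) = 1 := congrArg Subtype.val hu
    have h2 := S.rep_unique I (X i * p - 1) (X i * q) (by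
      simp only [map_sub, map_mul, aeval_X, map_one]
      rw [hpq] at h1
      linear_combination h1)
    have h3 : (X i : MvPolynomial (Fin 3) ℂ) * p = 1 := sub_eq_zero.1 h2.1
    exact (X_prime (i := i) (R := ℂ)).not_isUnit (IsUnit.of_mul_eq_one _ h3)
  · rintro u v ⟨t, ht⟩
    obtain ⟨p, q, hpq⟩ := (S.mem_ring_iff I u).1 u.2
    obtain ⟨p', q', hpq'⟩ := (S.mem_ring_iff I v).1 v.2
    obtain ⟨p'', q'', hpq''⟩ := (S.mem_ring_iff I t).1 t.2
    have h1 : (u : K) * v = S.a I i * t := congrArg Subtype.val ht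
    rw [hpq, hpq', hpq''] at h1
    have h2 := S.rep_unique I (p * p' + q * q' * branch I - X i * p'')
      (p * q' + q * p' - X i * q'') (by
      simp only [map_sub, map_mul, map_add, aeval_X]
      rw [← S.w_sq I]
      linear_combination h1)
    have h3 : p * p' + q * q' * branch I = X i * p'' := sub_eq_zero.1 h2.1
    have h4 : p * q' + q * p' = X i * q'' := sub_eq_zero.1 h2.2
    have h5 : X i ∣ (p ^ 2 - q ^ 2 * branch I) * (p' ^ 2 - q' ^ 2 * branch I) := by
      refine ⟨X i * p'' ^ 2 - X i * q'' ^ 2 * branch I, ?_⟩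
      have : (p ^ 2 - q ^ 2 * branch I) * (p' ^ 2 - q' ^ 2 * branch I) =
          (p * p' + q * q' * branch I) ^ 2 - (p * q' + q * p') ^ 2 * branch I := by ring
      rw [this, h3, h4]
      ring
    have key : ∀ (y : S.ring I) (a b : MvPolynomial (Fin 3) ℂ),
        (y : K) = MvPolynomial.aeval (S.a I) a + MvPolynomial.aeval (S.a I) b * S.w I →
        X i ∣ a ^ 2 - b ^ 2 * branch I → (⟨S.a I i, S.ch_a_mem I i⟩ : S.ring I) ∣ y := by
      intro y a b hy hd
      obtain ⟨⟨c, rfl⟩, ⟨d, rfl⟩⟩ := ch_X_dvd_of_norm I i a b hd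
      refine ⟨⟨MvPolynomial.aeval (S.a I) c + MvPolynomial.aeval (S.a I) d * S.w I,
        (S.mem_ring_iff I _).2 ⟨c, d, rfl⟩⟩, Subtype.ext ?_⟩
      rw [hy]
      simp only [map_mul, aeval_X, MulMemClass.mk_mul_mk]
      ring
    rcases (X_prime (i := i) (R := ℂ)).dvd_or_dvd h5 with h6 | h6
    · exact Or.inl (key u p q hpq h6)
    · exact Or.inr (key v p' q' hpq' h6)

/-- Change the chart in the `i`-th coordinate. -/
def ch_flip (I : Fin 3 → Bool) (i : Fin 3) : Fin 3 → Bool := Function.update I i (!I i)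

theorem ch_flip_flip (I : Fin 3 → Bool) (i : Fin 3) : ch_flip (ch_flip I i) i = I := by
  unfold ch_flip
  simp

theorem Setup.ch_a_flip (S : Setup K) (I : Fin 3 → Bool) (i : Fin 3) :
    S.a (ch_flip I i) i = (S.a I i)⁻¹ := by
  unfold Setup.a ch_flip
  rw [Function.update_self]
  cases I i <;> simp

theorem Setup.ch_a_flip_ne (S : Setup K) (I : Fin 3 → Bool) (i j : Fin 3) (h : j ≠ i) :
    S.a (ch_flip I i) j = S.a I j := by
  unfold Setup.a ch_flip
  rw [Function.update_of_ne h]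

theorem Setup.ch_w_flip (S : Setup K) (I : Fin 3 → Bool) (i : Fin 3) :
    S.w (ch_flip I i) = S.w I * (if I i then S.x i else (S.x i)⁻¹) := by
  have hx := S.ch_x_ne i
  unfold Setup.w
  rw [← Finset.mul_prod_erase Finset.univ _ (Finset.mem_univ i),
    ← Finset.mul_prod_erase Finset.univ (fun i => if I i then (S.x i)⁻¹ else 1)
      (Finset.mem_univ i)]
  have h1 : ∏ j ∈ Finset.univ.erase i, (if ch_flip I i j then (S.x j)⁻¹ else 1) =
      ∏ j ∈ Finset.univ.erase i, (if I j then (S.x j)⁻¹ else 1) := by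
    apply Finset.prod_congr rfl
    intro j hj
    unfold ch_flip
    rw [Function.update_of_ne (Finset.ne_of_mem_erase hj)]
  rw [h1]
  have h2 : ch_flip I i i = !I i := by unfold ch_flip; rw [Function.update_self]
  rw [h2]
  cases I i
  · simp; ring
  · simp; field_simp

theorem Setup.ch_ring_le_loc (S : Setup K) (I : Fin 3 → Bool) (i : Fin 3)
    (h : (S.a I i)⁻¹ ∈ S.ring (ch_flip I i)) : S.ring I ≤ ch_loc (S.ring (ch_flip I i)) (S.a I i)⁻¹ h := by
  have ha : ∀ j, S.a I j ∈ ch_loc (S.ring (ch_flip I i)) (S.a I i)⁻¹ h := by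
    intro j
    by_cases hj : j = i
    · subst hj
      have := ch_inv_mem_loc (S.ring (ch_flip I j)) (S.a I j)⁻¹ h
      simpa using this
    · rw [← S.ch_a_flip_ne I i j hj]
      exact ch_le_loc _ _ _ (S.ch_a_mem _ _)
  unfold Setup.ring
  rw [Algebra.adjoin_le_iff]
  rintro t (rfl | ⟨j, rfl⟩)
  · have h1 : S.w I = S.w (ch_flip I i) * (if I i then (S.x i)⁻¹ else S.x i) := by
      rw [S.ch_w_flip]
      have hx := S.ch_x_ne i
      cases I i <;> simp <;> field_simp
    have h2 : (if I i then (S.x i)⁻¹ else S.x i) = S.a I i := rfl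
    rw [h1, h2]
    exact mul_mem (ch_le_loc _ _ _ (S.ch_w_mem _)) (ha i)
  · exact ha j

theorem Setup.ch_ufd_flip (S : Setup K) (I : Fin 3 → Bool) (i : Fin 3)
    (h : UniqueFactorizationMonoid (S.ring (ch_flip I i))) :
    UniqueFactorizationMonoid (S.ring I) := by
  have h1 : (S.a I i)⁻¹ ∈ S.ring (ch_flip I i) := by
    rw [← S.ch_a_flip]
    exact S.ch_a_mem _ _
  refine ch_ufd_transfer (S.ring I) (S.ring (ch_flip I i)) (S.a I i) (S.ch_a_mem I i) h1 (S.ch_prime_a I i)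
    (S.ch_ring_le_loc I i h1) ?_
  have h2 := S.ch_ring_le_loc (ch_flip I i) i (by rw [ch_flip_flip, S.ch_a_flip, inv_inv]; exact S.ch_a_mem I i)
  simpa only [ch_flip_flip, S.ch_a_flip, inv_inv] using h2

/-- The ch_cubic is irreducible. -/
theorem ch_cubic_irreducible : Irreducible ch_cubic := by
  rw [← MulEquiv.irreducible_iff (MvPolynomial.finSuccEquiv ℂ 2).toMulEquiv]
  have h1 : (MvPolynomial.finSuccEquiv ℂ 2) ch_cubic =
      Polynomial.C (X 0) * Polynomial.X ^ 2 + Polynomial.C (X 1 ^ 2) * Polynomial.X +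
        Polynomial.C (X 0 ^ 2 * X 1) := by
    unfold ch_cubic
    have e1 : (1 : Fin 3) = Fin.succ 0 := rfl
    have e2 : (2 : Fin 3) = Fin.succ 1 := rfl
    rw [e1, e2]
    simp only [map_add, map_mul, map_pow, finSuccEquiv_X_zero, finSuccEquiv_X_succ]
    ring
  change Irreducible ((MvPolynomial.finSuccEquiv ℂ 2) ch_cubic)
  rw [h1]
  set f : Polynomial (MvPolynomial (Fin 2) ℂ) :=
    Polynomial.C (X 0) * Polynomial.X ^ 2 + Polynomial.C (X 1 ^ 2) * Polynomial.X +
        Polynomial.C (X 0 ^ 2 * X 1) with hf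
  have hX0 : (X 0 : MvPolynomial (Fin 2) ℂ) ≠ 0 := X_ne_zero 0
  have hdeg : f.natDegree = 2 := Polynomial.natDegree_quadratic hX0
  have hlead : f.leadingCoeff = X 0 := Polynomial.leadingCoeff_quadratic hX0
  have c0 : f.coeff 0 = X 0 ^ 2 * X 1 := by
    rw [hf, Polynomial.coeff_add, Polynomial.coeff_add, Polynomial.coeff_C_mul,
      Polynomial.coeff_C_mul, Polynomial.coeff_X_pow, Polynomial.coeff_X, Polynomial.coeff_C]
    simp
  have c1 : f.coeff 1 = X 1 ^ 2 := by
    rw [hf, Polynomial.coeff_add, Polynomial.coeff_add, Polynomial.coeff_C_mul,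
      Polynomial.coeff_C_mul, Polynomial.coeff_X_pow, Polynomial.coeff_X, Polynomial.coeff_C]
    simp
  have c2 : f.coeff 2 = X 0 := by
    have := hlead
    rw [Polynomial.leadingCoeff, hdeg] at this
    exact this
  have hP : (Ideal.span {(X 1 : MvPolynomial (Fin 2) ℂ)}).IsPrime := by
    rw [Ideal.span_singleton_prime (X_ne_zero 1)]
    exact X_prime
  have h10 : ¬ (X 1 : MvPolynomial (Fin 2) ℂ) ∣ X 0 := by
    rw [X_dvd_X]; decide
  have h01 : ¬ (X 0 : MvPolynomial (Fin 2) ℂ) ∣ X 1 := by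
    rw [X_dvd_X]; decide
  refine Polynomial.irreducible_of_eisenstein_criterion hP ?_ ?_ ?_ ?_ ?_
  · rw [hlead, Ideal.mem_span_singleton]
    exact h10
  · intro n hn
    rw [Polynomial.degree_eq_natDegree (by rintro h; rw [h] at hdeg; simp at hdeg), hdeg] at hn
    have hn' : n < 2 := by exact_mod_cast hn
    rw [Ideal.mem_span_singleton]
    interval_cases n
    · rw [c0]; exact dvd_mul_left _ _
    · rw [c1]; exact dvd_pow_self _ two_ne_zero
  · rw [Polynomial.degree_eq_natDegree (by rintro h; rw [h] at hdeg; simp at hdeg), hdeg]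
    norm_num
  · rw [c0, Ideal.span_singleton_pow, Ideal.mem_span_singleton]
    intro h
    rw [pow_two (X 1 : MvPolynomial (Fin 2) ℂ)] at h
    have h2 : (X 1 : MvPolynomial (Fin 2) ℂ) ∣ X 0 ^ 2 :=
      (mul_dvd_mul_iff_right (X_ne_zero 1)).1 h
    exact h10 ((X_prime (i := (1 : Fin 2)) (R := ℂ)).dvd_of_dvd_pow h2)
  · intro r hr
    rw [Polynomial.C_dvd_iff_dvd_coeff] at hr
    have h2 := hr 2
    have h1 := hr 1
    rw [c2] at h2
    rw [c1] at h1
    obtain ⟨s, hs⟩ := h2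
    rcases (X_prime (i := (0 : Fin 2)) (R := ℂ)).irreducible.isUnit_or_isUnit hs with h | h
    · exact h
    · exfalso
      have h3 : (X 0 : MvPolynomial (Fin 2) ℂ) ∣ X 1 ^ 2 := by
        refine dvd_trans ?_ h1
        rw [hs]
        exact (IsUnit.dvd_mul_right h).1 dvd_rfl
      exact h01 ((X_prime (i := (0 : Fin 2)) (R := ℂ)).dvd_of_dvd_pow h3)

theorem ch_cubic_prime : Prime ch_cubic := ch_cubic_irreducible.prime

/-- The chart with no coordinate inverted. -/
abbrev ch_I0 : Fin 3 → Bool := fun _ => false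

theorem ch_branch_I0 : branch ch_I0 = ch_cubic := by
  unfold branch ch_cubic ch_I0
  simp [expo, Fin.sum_univ_three, Fin.prod_univ_three]
  ring

theorem Setup.ch_w_I0 (S : Setup K) : S.w ch_I0 = S.z := by
  unfold Setup.w ch_I0
  simp

theorem Setup.ch_z_mem (S : Setup K) : S.z ∈ S.ring ch_I0 := by
  rw [← S.ch_w_I0]; exact S.ch_w_mem _

theorem Setup.ch_z_sq (S : Setup K) : S.z ^ 2 = MvPolynomial.aeval (S.a ch_I0) ch_cubic := by
  rw [← S.ch_w_I0, ← ch_branch_I0]; exact S.w_sq _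

theorem Setup.ch_prime_z (S : Setup K) : Prime (⟨S.z, S.ch_z_mem⟩ : S.ring ch_I0) := by
  refine ⟨fun h => S.ch_z_ne (congrArg Subtype.val h), ?_, ?_⟩
  · intro h
    obtain ⟨u, hu⟩ := isUnit_iff_exists_inv.1 h
    obtain ⟨p, q, hpq⟩ := (S.mem_ring_iff ch_I0 u).1 u.2
    have h1 : S.z * (u : K) = 1 := congrArg Subtype.val hu
    have h2 := S.rep_unique ch_I0 (q * ch_cubic - 1) p (by
      simp only [map_sub, map_mul, map_one]
      rw [← S.ch_z_sq, S.ch_w_I0]
      rw [hpq, S.ch_w_I0] at h1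
      linear_combination h1)
    have h3 : q * ch_cubic = 1 := sub_eq_zero.1 h2.1
    exact ch_cubic_prime.not_isUnit (IsUnit.of_mul_eq_one q (by rw [mul_comm]; exact h3))
  · rintro u v ⟨t, ht⟩
    obtain ⟨p, q, hpq⟩ := (S.mem_ring_iff ch_I0 u).1 u.2
    obtain ⟨p', q', hpq'⟩ := (S.mem_ring_iff ch_I0 v).1 v.2
    obtain ⟨p'', q'', hpq''⟩ := (S.mem_ring_iff ch_I0 t).1 t.2
    have h1 : (u : K) * v = S.z * t := congrArg Subtype.val ht
    rw [S.ch_w_I0] at hpq hpq' hpq''
    rw [hpq, hpq', hpq''] at h1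
    have h2 := S.rep_unique ch_I0 (p * p' + q * q' * ch_cubic - ch_cubic * q'')
      (p * q' + q * p' - p'') (by
      simp only [map_sub, map_mul, map_add]
      rw [← S.ch_z_sq, S.ch_w_I0]
      linear_combination h1)
    have h3 : p * p' + q * q' * ch_cubic = ch_cubic * q'' := sub_eq_zero.1 h2.1
    have h4 : p * q' + q * p' = p'' := sub_eq_zero.1 h2.2
    have h5 : ch_cubic ∣ (p ^ 2 - q ^ 2 * ch_cubic) * (p' ^ 2 - q' ^ 2 * ch_cubic) := by
      refine ⟨ch_cubic * q'' ^ 2 - p'' ^ 2, ?_⟩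
      have : (p ^ 2 - q ^ 2 * ch_cubic) * (p' ^ 2 - q' ^ 2 * ch_cubic) =
          (p * p' + q * q' * ch_cubic) ^ 2 - (p * q' + q * p') ^ 2 * ch_cubic := by ring
      rw [this, h3, h4]
      ring
    have key : ∀ (y : S.ring ch_I0) (a b : MvPolynomial (Fin 3) ℂ),
        (y : K) = MvPolynomial.aeval (S.a ch_I0) a + MvPolynomial.aeval (S.a ch_I0) b * S.z →
        ch_cubic ∣ a ^ 2 - b ^ 2 * ch_cubic → (⟨S.z, S.ch_z_mem⟩ : S.ring ch_I0) ∣ y := by
      intro y a b hy hd
      have hd' : ch_cubic ∣ a ^ 2 := by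
        have := dvd_add hd (Dvd.intro_left (b ^ 2) rfl : ch_cubic ∣ b ^ 2 * ch_cubic)
        simpa using this
      obtain ⟨c, rfl⟩ := ch_cubic_prime.dvd_of_dvd_pow hd'
      refine ⟨⟨MvPolynomial.aeval (S.a ch_I0) b + MvPolynomial.aeval (S.a ch_I0) c * S.w ch_I0,
        (S.mem_ring_iff ch_I0 _).2 ⟨b, c, rfl⟩⟩, Subtype.ext ?_⟩
      rw [hy]
      simp only [map_mul, MulMemClass.mk_mul_mk]
      rw [← S.ch_z_sq, S.ch_w_I0]
      ring
    rcases ch_cubic_prime.dvd_or_dvd h5 with h6 | h6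
    · exact Or.inl (key u p q hpq h6)
    · exact Or.inr (key v p' q' hpq' h6)

/-- The coordinates `x_i / z`. -/
noncomputable def Setup.ch_y (S : Setup K) (i : Fin 3) : K := S.x i / S.z

theorem Setup.ch_cubic_y (S : Setup K) : MvPolynomial.aeval S.ch_y ch_cubic = S.z⁻¹ := by
  have hz := S.ch_z_ne
  have h := S.rel
  simp only [ch_cubic, map_add, map_mul, map_pow, aeval_X, Setup.ch_y]
  field_simp
  linear_combination -h

theorem Setup.ch_y_indep (S : Setup K) : AlgebraicIndependent ℂ S.ch_y := by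
  have hy : ∀ t ∈ Algebra.adjoin ℂ (Set.range S.ch_y),
      IsAlgebraic (Algebra.adjoin ℂ (Set.range S.ch_y)) t := fun t ht =>
    (isAlgebraic_algebraMap (A := K) (⟨t, ht⟩ : Algebra.adjoin ℂ (Set.range S.ch_y)))
  have hz : IsAlgebraic (Algebra.adjoin ℂ (Set.range S.ch_y)) S.z := by
    have h1 : S.z⁻¹ ∈ Algebra.adjoin ℂ (Set.range S.ch_y) := by
      rw [← S.ch_cubic_y, Algebra.adjoin_range_eq_range_aeval]
      exact ⟨ch_cubic, rfl⟩
    simpa using (hy _ h1).inv
  refine S.ch_indep_of_alg S.ch_y (fun i => ?_) hz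
  have h1 : S.x i = S.ch_y i * S.z := by
    unfold Setup.ch_y
    rw [div_mul_cancel₀ _ S.ch_z_ne]
  rw [h1]
  exact (hy _ (Algebra.subset_adjoin ⟨i, rfl⟩)).mul hz

theorem Setup.ch_ufd_base (S : Setup K) : UniqueFactorizationMonoid (S.ring ch_I0) := by
  have hB : UniqueFactorizationMonoid (Algebra.adjoin ℂ (Set.range S.ch_y)) :=
    (MulEquiv.uniqueFactorizationMonoid_iff S.ch_y_indep.aevalEquiv.toMulEquiv).1 inferInstance
  have hz' : S.z⁻¹ ∈ Algebra.adjoin ℂ (Set.range S.ch_y) := by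
    rw [← S.ch_cubic_y, Algebra.adjoin_range_eq_range_aeval]
    exact ⟨ch_cubic, rfl⟩
  have hz : S.z ∈ ch_loc (Algebra.adjoin ℂ (Set.range S.ch_y)) S.z⁻¹ hz' := by
    simpa using ch_inv_mem_loc (Algebra.adjoin ℂ (Set.range S.ch_y)) S.z⁻¹ hz'
  refine ch_ufd_transfer (S.ring ch_I0) (Algebra.adjoin ℂ (Set.range S.ch_y)) S.z S.ch_z_mem hz'
    S.ch_prime_z ?_ ?_
  · unfold Setup.ring
    rw [Algebra.adjoin_le_iff]
    rintro t (rfl | ⟨j, rfl⟩)
    · rw [S.ch_w_I0]; exact hz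
    · have h1 : S.a ch_I0 j = S.ch_y j * S.z := by
        unfold Setup.ch_y Setup.a ch_I0
        simp [S.ch_z_ne]
      rw [h1]
      exact mul_mem (ch_le_loc _ _ _ (Algebra.subset_adjoin ⟨j, rfl⟩)) hz
  · rw [Algebra.adjoin_le_iff]
    rintro t ⟨j, rfl⟩
    have h1 : S.ch_y j = S.a ch_I0 j * S.z⁻¹ := by
      unfold Setup.ch_y Setup.a ch_I0
      simp [div_eq_mul_inv]
    rw [h1]
    exact mul_mem (ch_le_loc _ _ _ (S.ch_a_mem _ _)) (ch_inv_mem_loc _ _ _)

theorem Setup.ufd (S : Setup K) (I : Fin 3 → Bool) : UniqueFactorizationMonoid (S.ring I) := by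
  have step : ∀ (J : Fin 3 → Bool) (i : Fin 3) (b : Bool),
      UniqueFactorizationMonoid (S.ring J) →
        UniqueFactorizationMonoid (S.ring (Function.update J i b)) := by
    intro J i b h
    by_cases hb : b = J i
    · rw [hb, Function.update_eq_self]; exact h
    · have hb' : b = !J i := by
        cases b <;> cases hJ : J i <;> simp_all
      apply S.ch_ufd_flip _ i
      have : ch_flip (Function.update J i b) i = J := by
        have h1 : Function.update J i b = ch_flip J i := by unfold ch_flip; rw [hb']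
        rw [h1, ch_flip_flip]
      rw [this]
      exact h
  have h := step _ 2 (I 2) (step _ 1 (I 1) (step ch_I0 0 (I 0) S.ch_ufd_base))
  have e : Function.update (Function.update (Function.update ch_I0 0 (I 0)) 1 (I 1)) 2 (I 2) = I := by
    funext j
    fin_cases j <;> simp [Function.update]
  rw [e] at h
  exact h

end Pool.Agent.Lib.MP_0bb41e_ag
end
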