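import Mathlib

/-!
# Projective models, log Calabi-Yau pairs of index one, dlt modifications, dual complexes

Everything is expressed inside the function field `K` (over `ℂ`), in the language of Zariski:
a (scheme) point of a projective variety with function field `K` is identified with its local
ring, a `ℂ`-subalgebra of `K`.
-/

namespace Pool.Agent.Lib.MP_0bb41e_ag

variable {K : Type} [Field K] [Algebra ℂ K]

/-- A projective variety with function field `K`: the closure in `ℙ^N` of the image of
`(f 0 : ... : f N)`, where the `f i` are nonzero elements of `K` whose ratios generate `K`. -/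
structure ProjModel (K : Type) [Field K] [Algebra ℂ K] where
  /-- dimension of the ambient projective space -/
  N : ℕ
  /-- homogeneous coordinate functions -/
  f : Fin (N + 1) → K
  ne_zero : ∀ i, f i ≠ 0
  gen : ∀ i, IntermediateField.adjoin ℂ (Set.range fun j => f j / f i) = ⊤

/-- The coordinate ring of the affine chart `x_i ≠ 0`, as a subalgebra of the function field. -/
def ProjModel.chart (X : ProjModel K) (i : Fin (X.N + 1)) : Subalgebra ℂ K :=
  Algebra.adjoin ℂ (Set.range fun j => X.f j / X.f i)

/-- The localization of the subalgebra `A` of `K` at the prime ideal `P`, inside `K`. -/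
def localize (A : Subalgebra ℂ K) (P : Ideal A) (hP : P.IsPrime) : Subalgebra ℂ K where
  carrier := {x | ∃ a b : A, b ∉ P ∧ x = (a : K) / (b : K)}
  mul_mem' := by
    rintro x y ⟨a, b, hb, rfl⟩ ⟨c, d, hd, rfl⟩
    exact ⟨a * c, b * d, fun h => (hP.mem_or_mem h).elim hb hd, by
      push_cast; rw [div_mul_div_comm]⟩
  add_mem' := by
    rintro x y ⟨a, b, hb, rfl⟩ ⟨c, d, hd, rfl⟩
    have hb0 : (b : K) ≠ 0 := fun h => hb (by
      have : b = 0 := Subtype.ext h
      rw [this]; exact P.zero_mem)
    have hd0 : (d : K) ≠ 0 := fun h => hd (by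
      have : d = 0 := Subtype.ext h
      rw [this]; exact P.zero_mem)
    exact ⟨a * d + b * c, b * d, fun h => (hP.mem_or_mem h).elim hb hd, by
      push_cast; rw [div_add_div _ _ hb0 hd0]⟩
  algebraMap_mem' := fun r => ⟨algebraMap ℂ A r, 1, fun h => hP.ne_top
    ((Ideal.eq_top_iff_one P).2 h), by simp⟩

/-- The (scheme) points of the projective variety `X`, identified with their local rings. -/
def ProjModel.IsPoint (X : ProjModel K) (O : Subalgebra ℂ K) : Prop :=
  ∃ (i : Fin (X.N + 1)) (P : Ideal (X.chart i)) (hP : P.IsPrime), O = localize (X.chart i) P hP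

/-- `X` is a normal variety: all its local rings are integrally closed. -/
def ProjModel.IsNormal (X : ProjModel K) : Prop :=
  ∀ O : Subalgebra ℂ K, X.IsPoint O → IsIntegrallyClosed O

/-- The nonunits of a subring of the field `K` (the maximal ideal, if it is a local ring). -/
def nonunitsIn (O : Subalgebra ℂ K) : Set K := {x | x ∈ O ∧ (x = 0 ∨ x⁻¹ ∉ O)}

/-- The local ring `R` dominates the local ring `O`. -/
def Dominates (R O : Subalgebra ℂ K) : Prop := O ≤ R ∧ nonunitsIn O ⊆ nonunitsIn R

/-- There is a birational morphism `Y → X` inducing the identity on the function field `K`. -/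
def ProjModel.MapsTo (Y X : ProjModel K) : Prop :=
  ∀ O, Y.IsPoint O → ∃ O', X.IsPoint O' ∧ Dominates O O'

/-- `R` is a discrete valuation ring with fraction field `K`. -/
def IsDVR (R : Subalgebra ℂ K) : Prop := IsDiscreteValuationRing R ∧ IsFractionRing R K

/-- Prime divisors of a normal variety: the points whose local ring is a discrete valuation
ring. -/
def ProjModel.IsPrimeDivisor (X : ProjModel K) (D : Subalgebra ℂ K) : Prop :=
  X.IsPoint D ∧ IsDVR D

/-- `R` is (the local ring of) a prime divisor over `X`: a prime divisor on some normal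
projective variety `Y` with a birational morphism `Y → X`. -/
def ProjModel.IsDivisorOver (X : ProjModel K) (R : Subalgebra ℂ K) : Prop :=
  ∃ Y : ProjModel K, Y.IsNormal ∧ Y.MapsTo X ∧ Y.IsPrimeDivisor R

/-- Rational `n`-forms on a variety with function field `K`: alternating `K`-multilinear functions
of `n` rational vector fields (derivations of `K` over `ℂ`). -/
abbrev RatForm (K : Type) [Field K] [Algebra ℂ K] (n : ℕ) : Type :=
  Derivation ℂ K K [⋀^Fin n]→ₗ[K] K

/-- The linear map sending a rational vector field `D` to `(D a_1, ..., D a_n)`. -/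
def evalAt {n : ℕ} (a : Fin n → K) : Derivation ℂ K K →ₗ[K] Fin n → K where
  toFun D i := D (a i)
  map_add' _ _ := rfl
  map_smul' _ _ := rfl

/-- The form `d a_1 ∧ ... ∧ d a_n`: its value at the vector fields `D_1, ..., D_n` is the
determinant of the matrix `(D_i a_j)`. -/
noncomputable def dwedge {n : ℕ} (a : Fin n → K) : RatForm K n :=
  Matrix.detRowAlternating.compLinearMap (evalAt a)

/-- The lattice of `n`-forms which are regular at the local ring `R`: all `R`-linear combinations
of forms `d a_1 ∧ ... ∧ d a_n` with `a_i ∈ R`. -/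
noncomputable def formLattice (n : ℕ) (R : Subalgebra ℂ K) : Submodule R (RatForm K n) :=
  Submodule.span R (Set.range fun a : Fin n → R => dwedge fun i => (a i : K))

/-- The rational `n`-form `ω` has order at least `k` along the prime divisor with local
ring `R`. -/
def OrdGE {n : ℕ} (R : Subalgebra ℂ K) (ω : RatForm K n) (k : ℤ) : Prop :=
  ∀ ϖ : R, Irreducible ϖ → ∃ η ∈ formLattice n R, ω = ((ϖ : K) ^ k) • η

/-- The rational `n`-form `ω` has order exactly `k` along the prime divisor with local
ring `R`. -/
def HasOrd {n : ℕ} (R : Subalgebra ℂ K) (ω : RatForm K n) (k : ℤ) : Prop :=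
  OrdGE R ω k ∧ ¬ OrdGE R ω (k + 1)

/-- The rational function `g` has valuation `k` at the discrete valuation ring `R`. -/
def HasVal (R : Subalgebra ℂ K) (g : K) (k : ℤ) : Prop :=
  ∃ ϖ u : R, Irreducible ϖ ∧ IsUnit u ∧ g = (ϖ : K) ^ k * (u : K)

/-- A log Calabi-Yau pair `(X, B)` of index one and dimension `n` with function field `K`.
`B` is the set of components of the boundary (all with coefficient one), and `Ω` is a rational
`n`-form with divisor `-B`, i.e. it realizes `K_X + B ∼ 0`. Discrepancies are
`a(E, X, B) = ord_E Ω`, and `lc` says that the pair is log canonical. -/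
structure LogCYPair (K : Type) [Field K] [Algebra ℂ K] (n : ℕ) where
  /-- the underlying variety -/
  X : ProjModel K
  /-- the components of the boundary -/
  B : Set (Subalgebra ℂ K)
  /-- the volume form -/
  vol : RatForm K n
  dim : Algebra.trdeg ℂ K = n
  normal : X.IsNormal
  finite : B.Finite
  prime : ∀ D ∈ B, X.IsPrimeDivisor D
  div_in : ∀ D ∈ B, HasOrd D vol (-1)
  div_out : ∀ D, X.IsPrimeDivisor D → D ∉ B → HasOrd D vol 0
  lc : ∀ R, X.IsDivisorOver R → OrdGE R vol (-1)

/-- `X` is `ℚ`-factorial: for every prime divisor `D` some positive multiple `m D` is locally, at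
every point `O`, the divisor of a rational function. -/
def ProjModel.IsQFactorial (X : ProjModel K) : Prop :=
  ∀ D, X.IsPrimeDivisor D → ∃ m : ℕ, 0 < m ∧ ∀ O, X.IsPoint O → ∃ g : K, g ≠ 0 ∧
    ∀ E, X.IsPrimeDivisor E → O ≤ E → (E = D → HasVal E g m) ∧ (E ≠ D → HasVal E g 0)

/-- The pair `(X, B)` (reduced boundary with set of components `B`) has simple normal crossings
at the point with local ring `O`: the ring `O` is regular, with a regular system of parameters
`x` such that every component of `B` through the point is given in `O` by one of the `x i`. -/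
def ProjModel.IsSNCAt (_X : ProjModel K) (B : Set (Subalgebra ℂ K)) (O : Subalgebra ℂ K) : Prop :=
  ∃ (d : ℕ) (x : Fin d → O), ringKrullDim O = d ∧
    (∀ y : O, (y : K) ∈ nonunitsIn O ↔ y ∈ Ideal.span (Set.range x)) ∧
    ∀ D ∈ B, O ≤ D → ∃ i, ∀ y : O, (y : K) ∈ nonunitsIn D ↔ y ∈ Ideal.span {x i}

/-- `(Y, BY) → (X, B)` is a dlt modification: `Y` is normal, projective, `ℚ`-factorial and maps
to `X`, `BY` consists of the strict transform of `B` and all exceptional prime divisors,
`K_Y + BY` is the pullback of `K_X + B` (i.e. the divisor of the volume form on `Y` is `-BY`), and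
`(Y, BY)` is dlt: every divisor over `Y` with discrepancy `≤ -1` has its centre (the point of
`Y` it dominates) in the simple normal crossing locus. -/
structure IsDltModification {n : ℕ} (P : LogCYPair K n) (Y : ProjModel K)
    (BY : Set (Subalgebra ℂ K)) : Prop where
  normal : Y.IsNormal
  mapsTo : Y.MapsTo P.X
  boundary : ∀ D, D ∈ BY ↔ Y.IsPrimeDivisor D ∧ (D ∈ P.B ∨ ¬ P.X.IsPoint D)
  div_in : ∀ D ∈ BY, HasOrd D P.vol (-1)
  div_out : ∀ D, Y.IsPrimeDivisor D → D ∉ BY → HasOrd D P.vol 0
  qfact : Y.IsQFactorial
  dlt : ∀ R, Y.IsDivisorOver R → ¬ OrdGE R P.vol 0 →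
    ∀ O, Y.IsPoint O → Dominates R O → Y.IsSNCAt BY O

/-- (Generic points of) strata of `(Y, BY)` other than `Y`: irreducible components of
intersections of components of `BY`. -/
def IsStratum (Y : ProjModel K) (BY : Set (Subalgebra ℂ K)) (W : Subalgebra ℂ K) : Prop :=
  ∃ J : Set (Subalgebra ℂ K), J.Nonempty ∧ J ⊆ BY ∧ Y.IsPoint W ∧ (∀ D ∈ J, W ≤ D) ∧
    ∀ W', Y.IsPoint W' → (∀ D ∈ J, W' ≤ D) → W ≤ W' → W' = W

/-- The subvariety with generic point `W` is rational: its function field, the residue field of
`W`, is a purely transcendental extension of `ℂ`. -/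
def IsRationalPoint (W : Subalgebra ℂ K) : Prop :=
  ∃ (d : ℕ) (φ : W →ₐ[ℂ] FractionRing (MvPolynomial (Fin d) ℂ)), Function.Surjective φ

/-- The geometric realization of the order complex of a set `S` in a partially ordered set. -/
def orderComplex {P : Type} [PartialOrder P] (S : Set P) : Set (P →₀ ℝ) :=
  {w | (∀ p, 0 ≤ w p) ∧ (w.support : Set P) ⊆ S ∧ IsChain (· ≤ ·) (w.support : Set P) ∧
    (w.sum fun _ c => c) = 1}

/-- The dual complex of `(Y, BY)` (more precisely its barycentric subdivision): the realization
of the order complex of the poset of strata. -/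
def dualComplex (Y : ProjModel K) (BY : Set (Subalgebra ℂ K)) : Set (Subalgebra ℂ K →₀ ℝ) :=
  orderComplex {W | IsStratum Y BY W}

/-- The compact polyhedra `S` and `T` are PL homeomorphic: there is a bijection between them
whose graph is a finite union of convex polytopes. -/
def PLHomeomorphic {V W : Type} [AddCommGroup V] [Module ℝ V] [AddCommGroup W] [Module ℝ W]
    (S : Set V) (T : Set W) : Prop :=
  ∃ φ : V → W, Set.BijOn φ S T ∧ ∃ C : Set (Set (V × W)), C.Finite ∧ (∀ c ∈ C, c.Finite) ∧
    {p : V × W | p.1 ∈ S ∧ p.2 = φ p.1} = ⋃ c ∈ C, convexHull ℝ c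

/-- The PL sphere of dimension `m`: the boundary of the standard `(m + 1)`-simplex. -/
def plSphere (m : ℕ) : Set (Fin (m + 2) → ℝ) :=
  {u | (∀ i, 0 ≤ u i) ∧ ∑ i, u i = 1 ∧ ∃ i, u i = 0}

/-- The form `d t_1 / t_1 ∧ ... ∧ d t_n / t_n`. Its divisor on `ℙ^n` with affine coordinates `t`
is `-(H_0 + ... + H_n)`. -/
noncomputable def dlogForm {n : ℕ} (t : Fin n → K) : RatForm K n :=
  (∏ i, (t i)⁻¹) • dwedge t

/-- The projective space `ℙ^n` with homogeneous coordinates `(1 : t_1 : ... : t_n)`, for a
system of nonzero generators `t` of the function field `K`. (It is a projective space if the `t_i`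
are algebraically independent.) -/
def projSpace {n : ℕ} (t : Fin n → K) (h0 : ∀ i, t i ≠ 0)
    (hg : IntermediateField.adjoin ℂ (Set.range t) = ⊤) : ProjModel K where
  N := n
  f := Fin.cons 1 t
  ne_zero := by
    intro i
    refine Fin.cases ?_ (fun j => ?_) i
    · simp
    · simpa using h0 j
  gen := by
    intro i
    rw [eq_top_iff, ← hg, IntermediateField.adjoin_le_iff]
    rintro _ ⟨j, rfl⟩
    have hi : (Fin.cons 1 t : Fin (n + 1) → K) i ≠ 0 := by
      refine Fin.cases ?_ (fun j => ?_) i
      · simp
      · simpa using h0 j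
    have h1 := IntermediateField.subset_adjoin ℂ
      (Set.range fun j => (Fin.cons 1 t : Fin (n + 1) → K) j / (Fin.cons 1 t : Fin (n + 1) → K) i)
      ⟨Fin.succ j, rfl⟩
    have h2 := IntermediateField.subset_adjoin ℂ
      (Set.range fun j => (Fin.cons 1 t : Fin (n + 1) → K) j / (Fin.cons 1 t : Fin (n + 1) → K) i)
      ⟨0, rfl⟩
    have h3 := IntermediateField.div_mem _ h1 h2
    simp only [Fin.cons_succ, Fin.cons_zero] at h3
    have h4 : t j / (Fin.cons 1 t : Fin (n + 1) → K) i /
        (1 / (Fin.cons 1 t : Fin (n + 1) → K) i) = t j := by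
      field_simp
    rw [h4] at h3
    exact h3

/-- The index one log Calabi-Yau pair is log rational, i.e. crepant birational equivalent to
`(ℙ^n, H_0 + ... + H_n)`: there are coordinates `t` on a projective space with the same function
field and a normal projective variety `Y` with birational morphisms `p : Y → X`, `q : Y → ℙ^n` such
that `p^*(K_X + B) = q^*(K_{ℙ^n} + H_0 + ... + H_n)`. As `K_X + B` is the divisor of zero for the
canonical divisor defined by the volume form, and likewise for `dlogForm t`, this says that the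
two forms have the same divisor on `Y`. -/
def LogCYPair.IsLogRational {n : ℕ} (P : LogCYPair K n) : Prop :=
  ∃ (t : Fin n → K) (h0 : ∀ i, t i ≠ 0)
    (hg : IntermediateField.adjoin ℂ (Set.range t) = ⊤) (Y : ProjModel K),
    AlgebraicIndependent ℂ t ∧ Y.IsNormal ∧ Y.MapsTo P.X ∧ Y.MapsTo (projSpace t h0 hg) ∧
    ∀ D, Y.IsPrimeDivisor D → ∀ k : ℤ, HasOrd D P.vol k ↔ HasOrd D (dlogForm t) k

/-- The hypothesis of the log rationality conjecture: the pair `P` of dimension `n` has a dlt
modification `(Y, BY)` such that `Y` and all other strata are rational and the dual complex of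
`(Y, BY)` is PL homeomorphic to the sphere of dimension `n - 1`. -/
def LogCYPair.ConjHyp {n : ℕ} (P : LogCYPair K n) : Prop :=
  ∃ (Y : ProjModel K) (BY : Set (Subalgebra ℂ K)), IsDltModification P Y BY ∧
    IsRationalPoint (⊤ : Subalgebra ℂ K) ∧
    (∀ W : Subalgebra ℂ K, IsStratum Y BY W → IsRationalPoint W) ∧
    PLHomeomorphic (dualComplex Y BY) (plSphere (n - 1))

end Pool.Agent.Lib.MP_0bb41e_ag
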