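import Pool.Agent.Lib.MP_0bb41e_ag.KTwoSpec

/-!
# Unramified symbols of a purely transcendental field of degree three over `ℂ` are trivial
-/

set_option autoImplicit false
set_option linter.style.haveILetI false

namespace Pool.Agent.Lib.MP_0bb41e_ag

open Polynomial WithZero

section Deriv

variable {E K : Type} [Field E] [Field K] [Algebra ℂ K]

lemma isDVR_of_isPV {φ : E →+* K} {x : K} (h : IsRat φ x) {π : E[X]} (hπ : Irreducible π)
    {v : Valuation K ℤᵐ⁰} (hv : IsPV φ x π v) (hc : ∀ c : ℂ, v (algebraMap ℂ K c) ≤ 1) :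
    ∃ p : Kˣ, vord v p = 1 ∧ IsDVR (vring v hc) := by
  have hp : vord v (Units.mk0 (π.eval₂ φ x) (h.inj π hπ.ne_zero)) = 1 := by
    unfold vord
    rw [Units.val_mk0, hv.self, log_exp]
    norm_num
  exact ⟨_, hp, isDVR_vring v hc hp⟩

lemma deriv_stable {φ : E →+* K} {x : K} (h : IsRat φ x) {π : E[X]} (hπ : Irreducible π)
    {v : Valuation K ℤᵐ⁰} (hv : IsPV φ x π v) (hc : ∀ c : ℂ, v (algebraMap ℂ K c) ≤ 1)
    (D : Derivation ℂ K K) (hE : ∀ e : E, D (φ e) ∈ vring v hc) (hx : D x ∈ vring v hc) :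
    ∀ y ∈ vring v hc, D y ∈ vring v hc := by
  have hφ : ∀ e : E, φ e ∈ vring v hc := by
    intro e
    have := hv.le_one (C e)
    rwa [eval₂_C] at this
  have hxm : x ∈ vring v hc := by
    have := hv.le_one X
    rwa [eval₂_X] at this
  have hpoly : ∀ f : E[X], D (f.eval₂ φ x) ∈ vring v hc := by
    intro f
    induction f using Polynomial.induction_on' with
    | add p q hp hq =>
      rw [eval₂_add, map_add]
      exact Subalgebra.add_mem _ hp hq
    | monomial n a =>
      rw [eval₂_monomial, Derivation.leibniz, Derivation.leibniz_pow]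
      refine Subalgebra.add_mem _ ?_ ?_
      · rw [smul_eq_mul]
        refine Subalgebra.mul_mem _ (hφ a) ?_
        apply Subalgebra.nsmul_mem
        rw [smul_eq_mul]
        exact Subalgebra.mul_mem _ (Subalgebra.pow_mem _ hxm _) hx
      · rw [smul_eq_mul]
        exact Subalgebra.mul_mem _ (Subalgebra.pow_mem _ hxm _) (hE a)
  intro y hy
  obtain ⟨f, g, hg, -, e⟩ := hv.exists_frac h hπ hy
  have hg0 : g.eval₂ φ x ≠ 0 := h.inj g (by rintro rfl; exact hg (dvd_zero _))
  have e1 : f.eval₂ φ x = y * g.eval₂ φ x := by rw [e, div_mul_cancel₀ _ hg0]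
  have e2 := congrArg D e1
  rw [Derivation.leibniz, smul_eq_mul, smul_eq_mul] at e2
  have e3 : D y = (D (f.eval₂ φ x) - y * D (g.eval₂ φ x)) * (g.eval₂ φ x)⁻¹ := by
    rw [e2, add_sub_cancel_left]
    field_simp
  rw [e3]
  refine Subalgebra.mul_mem _ (Subalgebra.sub_mem _ (hpoly f)
    (Subalgebra.mul_mem _ hy (hpoly g))) ?_
  rw [mem_vring, map_inv₀, hv.eq_one hg, inv_one]

/-- Derivation stability of the constants. -/
lemma deriv_adjoin (R : Subalgebra ℂ K) (S : Set K) (D : Derivation ℂ K K)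
    (hS : ∀ s ∈ S, D s ∈ R) (hR : ∀ y ∈ IntermediateField.adjoin ℂ S, y ∈ R) :
    ∀ y ∈ IntermediateField.adjoin ℂ S, D y ∈ R := by
  intro y hy
  induction hy using IntermediateField.adjoin_induction with
  | mem x hx => exact hS x hx
  | algebraMap x => rw [Derivation.map_algebraMap]; exact Subalgebra.zero_mem _
  | add x y _ _ hx hy => rw [map_add]; exact Subalgebra.add_mem _ hx hy
  | inv x hx ih =>
    rw [Derivation.leibniz_inv, smul_eq_mul]
    refine Subalgebra.mul_mem _ (Subalgebra.neg_mem _ (Subalgebra.pow_mem _ (hR _ ?_) _)) ih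
    exact inv_mem hx
  | mul x y hx hy ihx ihy =>
    rw [Derivation.leibniz, smul_eq_mul, smul_eq_mul]
    exact Subalgebra.add_mem _ (Subalgebra.mul_mem _ (hR _ hx) ihy)
      (Subalgebra.mul_mem _ (hR _ hy) ihx)

end Deriv

section Fields

variable {K : Type} [Field K] [Algebra ℂ K]

omit [Algebra ℂ K] in
theorem isRat_of {E : Type} [Field E] [Algebra E K] {L : Type} [Field L] (φ : E →+* L)
    (ι : L →+* K) (hφ : ∀ e : E, ι (φ e) = algebraMap E K e) (x : L)
    (hx : Transcendental E (ι x))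
    (hL : ∀ y : L, ι y ∈ IntermediateField.adjoin E {ι x}) : IsRat φ x := by
  have hcomp : ι.comp φ = algebraMap E K := RingHom.ext hφ
  have hev : ∀ f : E[X], ι (f.eval₂ φ x) = aeval (ι x) f := by
    intro f
    rw [Polynomial.hom_eval₂, hcomp]
    rfl
  constructor
  · intro f hf h0
    have := hev f
    rw [h0, map_zero] at this
    exact hf ((transcendental_iff.mp hx) f this.symm)
  · intro y
    obtain ⟨r, s, hrs⟩ := (IntermediateField.mem_adjoin_simple_iff E (ι y)).mp (hL y)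
    by_cases hs : s = 0
    · refine ⟨0, 1, one_ne_zero, ?_⟩
      apply ι.injective
      rw [hrs, hs]
      simp
    · refine ⟨r, s, hs, ?_⟩
      apply ι.injective
      rw [map_div₀, hev, hev, hrs]

variable (w : Fin 3 → K)

/-- The field generated by the `w i`, `i ∈ I`. -/
noncomputable abbrev EE (I : Set (Fin 3)) : IntermediateField ℂ K := IntermediateField.adjoin ℂ (w '' I)

lemma mem_EE {I : Set (Fin 3)} {i : Fin 3} (hi : i ∈ I) : w i ∈ EE w I :=
  IntermediateField.subset_adjoin _ _ ⟨i, hi, rfl⟩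

lemma EE_mono {I J : Set (Fin 3)} (h : I ⊆ J) : EE w I ≤ EE w J :=
  IntermediateField.adjoin.mono _ _ _ (Set.image_mono h)

lemma mem_adjoin_EE {I : Set (Fin 3)} {i : Fin 3} {y : K} (hy : y ∈ EE w (insert i I)) :
    y ∈ IntermediateField.adjoin (EE w I) {w i} := by
  have : EE w (insert i I) ≤
      (IntermediateField.adjoin (EE w I) {w i}).restrictScalars ℂ := by
    rw [IntermediateField.adjoin_le_iff]
    rintro _ ⟨j, hj, rfl⟩
    rw [IntermediateField.coe_restrictScalars]
    rcases hj with rfl | hj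
    · exact IntermediateField.mem_adjoin_simple_self _ _
    · exact IntermediateField.algebraMap_mem _ (⟨w j, mem_EE w hj⟩ : EE w I)
  exact this hy

variable {w} (hw : AlgebraicIndependent ℂ w)
include hw

lemma transcendental_EE {I : Set (Fin 3)} {i : Fin 3} (hi : i ∉ I) :
    Transcendental (EE w I) (w i) := by
  rw [IntermediateField.transcendental_adjoin_iff]
  exact hw.transcendental_adjoin hi

/-- `EE (insert i I)` is rational over `EE I`. -/
theorem isRat_EE {I J : Set (Fin 3)} {i : Fin 3} (hi : i ∉ I) (hJ : J = insert i I)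
    (hIJ : I ⊆ J) (hiJ : i ∈ J) :
    IsRat (IntermediateField.inclusion (EE_mono w hIJ)).toRingHom
      (⟨w i, mem_EE w hiJ⟩ : EE w J) := by
  apply isRat_of (K := K) _ (algebraMap (EE w J) K)
  · intro e; rfl
  · exact transcendental_EE hw hi
  · intro y
    subst hJ
    exact mem_adjoin_EE w y.2

/-- `K` is rational over `EE I`. -/
theorem isRat_EE_top (hgen : IntermediateField.adjoin ℂ (Set.range w) = ⊤) {I : Set (Fin 3)}
    {i : Fin 3} (hi : i ∉ I) (hI : insert i I = Set.univ) :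
    IsRat (algebraMap (EE w I) K) (w i) := by
  apply isRat_of (K := K) _ (RingHom.id K)
  · intro e; rfl
  · exact transcendental_EE hw hi
  · intro y
    apply mem_adjoin_EE w
    rw [hI]
    have : EE w Set.univ = ⊤ := by
      unfold EE
      rw [Set.image_univ, hgen]
    rw [this]
    exact IntermediateField.mem_top

omit hw in
theorem residue_of_H {I : Set (Fin 3)} {i : Fin 3} (hI : insert i I = Set.univ)
    (hrat : IsRat (algebraMap (EE w I) K) (w i)) (hiK : ∃ i : K, i ^ 2 = -1)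
    (a b : Kˣ)
    (H : ∀ R : Subalgebra ℂ K, IsDVR R → (∀ i, w i ∈ R) →
      (∀ D : Derivation ℂ K K, (∀ i, D (w i) ∈ R) → ∀ x ∈ R, D x ∈ R) →
      TameTrivial R (a : K) (b : K))
    {π : (EE w I)[X]} (hπ : Irreducible π) {v : Valuation K ℤᵐ⁰}
    (hv : IsPV (algebraMap (EE w I) K) (w i) π v) : residue v hiK (sym a b) = 0 := by
  have hE : ∀ e : EE w I, v (algebraMap (EE w I) K e) ≤ 1 := by
    intro e
    have := hv.le_one (C e)
    rwa [eval₂_C] at this
  have hc : ∀ c : ℂ, v (algebraMap ℂ K c) ≤ 1 := by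
    intro c
    exact hE (algebraMap ℂ (EE w I) c)
  obtain ⟨p, hp, hdvr⟩ := isDVR_of_isPV hrat hπ hv hc
  refine residue_of_tameTrivial v hc hiK hp a b (H _ hdvr ?_ ?_)
  · intro j
    have hj : j ∈ insert i I := by rw [hI]; trivial
    rcases hj with rfl | hj
    · have := hv.le_one X
      rwa [eval₂_X] at this
    · exact hE ⟨w j, mem_EE w hj⟩
  · intro D hD
    refine deriv_stable hrat hπ hv hc D ?_ (hD i)
    intro e
    refine deriv_adjoin (vring v hc) (w '' I) D ?_ ?_ e e.2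
    · rintro _ ⟨j, -, rfl⟩
      exact hD j
    · intro y hy
      exact hE ⟨y, hy⟩

end Fields

section Complex

variable {L : Type} [Field L]

lemma mem_nsub_of_close {v : Valuation L ℤᵐ⁰} {c : Lˣ} (hc : v (c : L) = 1) (t : L)
    (ht : v ((c : L) - t ^ 2) < 1) : c ∈ nsub v := by
  have hvt2 : v (t ^ 2) = 1 := by
    have : t ^ 2 = (c : L) - ((c : L) - t ^ 2) := by ring
    rw [this, Valuation.map_sub_eq_of_lt_left v (by rw [hc]; exact ht), hc]
  have ht0 : t ≠ 0 := by
    intro h0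
    rw [h0, zero_pow two_ne_zero, map_zero] at hvt2
    exact zero_ne_one hvt2
  refine ⟨Units.mk0 t ht0, c / (Units.mk0 t ht0) ^ 2, ?_, by rw [mul_div_cancel]⟩
  have e : ((c / (Units.mk0 t ht0) ^ 2 : Lˣ) : L) - 1 = ((c : L) - t ^ 2) / t ^ 2 := by
    push_cast
    rw [Units.val_mk0]
    field_simp
  rw [e, map_div₀, hvt2, div_one]
  exact ht

lemma vord_zpow' (v : Valuation L ℤᵐ⁰) (a : Lˣ) (n : ℤ) : vord v (a ^ n) = n * vord v a := by
  unfold vord
  rw [Units.val_zpow_eq_zpow_val, map_zpow₀, log_zpow]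
  simp

theorem mem_nsub_complex {φ : ℂ →+* L} {x : L} (h : IsRat φ x) {π : ℂ[X]} (hπ : Irreducible π)
    {v : Valuation L ℤᵐ⁰} (hv : IsPV φ x π v) {c : Lˣ} {k : ℤ} (hk : vord v c = 2 * k) :
    c ∈ nsub v := by
  set p : Lˣ := Units.mk0 (π.eval₂ φ x) (h.inj π hπ.ne_zero) with hp
  have hvp : vord v p = 1 := by
    unfold vord
    rw [hp, Units.val_mk0, hv.self, log_exp]; norm_num
  set c1 : Lˣ := c * (p ^ (-k)) ^ 2 with hc1
  have hvc1 : v (c1 : L) = 1 := by
    rw [← vord_eq_zero_iff, hc1, vord_mul, pow_two, vord_mul, vord_zpow', hvp, hk]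
    ring
  suffices hmain : c1 ∈ nsub v by
    have e : c = c1 * (p ^ k) ^ 2 := by
      rw [hc1, mul_assoc, ← mul_pow, ← zpow_add, neg_add_cancel, zpow_zero, one_pow, mul_one]
    rw [e]
    exact Subgroup.mul_mem _ hmain (sq_mem_nsub v _)
  obtain ⟨f, g, hg, -, hc1e⟩ := hv.exists_frac h hπ (le_of_eq hvc1)
  obtain ⟨z, hz⟩ := IsAlgClosed.exists_root π (by
    intro h0
    exact hπ.not_isUnit (isUnit_iff_degree_eq_zero.mpr h0))
  have hdvd : ∀ r : ℂ[X], r.eval z = 0 → π ∣ r := by
    intro r hr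
    have h1 : X - C z ∣ π := dvd_iff_isRoot.mpr hz
    have h2 : Associated (X - C z) π :=
      (irreducible_X_sub_C z).associated_of_dvd hπ h1
    exact h2.dvd_iff_dvd_left.mp (dvd_iff_isRoot.mpr hr)
  have hgz : g.eval z ≠ 0 := fun h0 => hg (hdvd g h0)
  obtain ⟨t, ht⟩ := IsAlgClosed.exists_pow_nat_eq (f.eval z / g.eval z) (n := 2) (by norm_num)
  refine mem_nsub_of_close hvc1 (φ t) ?_
  have hg0 : g.eval₂ φ x ≠ 0 := h.inj g (by rintro rfl; exact hg (dvd_zero _))
  have e1 : (c1 : L) - φ t ^ 2 = (f - C (t ^ 2) * g).eval₂ φ x / g.eval₂ φ x := by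
    rw [hc1e, eval₂_sub, eval₂_mul, eval₂_C, map_pow]
    field_simp
  rw [e1, map_div₀, hv.eq_one hg, div_one, hv.lt_one_iff]
  apply hdvd
  rw [eval_sub, eval_mul, eval_C, ht]
  field_simp
  ring

lemma kt_complex (y : KTwo ℂ) : y = 0 := by
  have hy : y ∈ Submodule.span (ZMod 2) (Set.range fun p : ℂˣ × ℂˣ => sym p.1 p.2) := by
    rw [span_sym]; trivial
  induction hy using Submodule.span_induction with
  | mem x hx =>
    obtain ⟨⟨a, b⟩, rfl⟩ := hx
    obtain ⟨t, ht⟩ := IsAlgClosed.exists_pow_nat_eq (a : ℂ) (n := 2) (by norm_num)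
    have ht0 : t ≠ 0 := by
      rintro rfl
      rw [zero_pow two_ne_zero] at ht
      exact a.ne_zero ht.symm
    have : a = (Units.mk0 t ht0) ^ 2 := by
      ext; rw [← ht]; simp
    change sym a b = 0
    rw [this, sym_sq_left]
  | zero => rfl
  | add x y _ _ hx hy => rw [hx, hy, add_zero]
  | smul c x _ hx => rw [hx, smul_zero]

/-- `K₂(ℂ(x))/2 = 0`. -/
theorem kt_rat_complex {φ : ℂ →+* L} {x : L} (h : IsRat φ x) (α : KTwo L) : α = 0 := by
  have hi : ∃ i : L, i ^ 2 = -1 :=
    ⟨φ Complex.I, by rw [← map_pow, Complex.I_sq, map_neg, map_one]⟩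
  obtain ⟨y, hy⟩ := milnor' h hi α (by
    intro π v hπ hv
    have hα : α ∈ Submodule.span (ZMod 2) (Set.range fun p : Lˣ × Lˣ => sym p.1 p.2) := by
      rw [span_sym]; trivial
    induction hα using Submodule.span_induction with
    | mem x hx =>
      obtain ⟨⟨a, b⟩, rfl⟩ := hx
      change residue v hi (sym a b) = 0
      rw [residue_sym, rcls_eq_zero_iff]
      apply mem_nsub_complex h hπ hv (k := vord v a * vord v b)
      unfold tameElt
      rw [vord_mul, vord_zpow', vord_zpow']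
      ring
    | zero => rw [map_zero]
    | add x y _ _ hx hy => rw [map_add, hx, hy, add_zero]
    | smul c x _ hx => rw [map_smul, hx, smul_zero])
  rw [← hy, kt_complex y, map_zero]

end Complex

/-- Descent to the field `F`, abstract form. -/
theorem level2 {F F' L K : Type} [Field F] [Field F'] [Field L] [Field K] [Infinite F]
    {ψ : F →+* F'} {y : F'} (hψ : IsRat ψ y)
    {φ : F →+* L} {φ' : F' →+* K} {ι : L →+* K} {x : L}
    (hL : IsRat φ x) (hK : IsRat φ' (ι x)) (hcomm : ∀ a, ι (φ a) = φ' (ψ a))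
    (hiL : ∃ i : L, i ^ 2 = -1) (hiK : ∃ i : K, i ^ 2 = -1) (α : KTwo L)
    (hα : ∀ (π' : F'[X]) (v' : Valuation K ℤᵐ⁰), Irreducible π' → IsPV φ' (ι x) π' v' →
      residue v' hiK (ktMap ι α) = 0) : ∃ β : KTwo F, ktMap φ β = α := by
  refine milnor' hL hiL α ?_
  intro π v hπ hv
  obtain ⟨v', hv'⟩ := exists_pv hK (irreducible_map hψ hπ)
  exact residue_descent ι v v' (pv_restrict hL hcomm hπ hv hv')
    (nsub_descent hψ hL hK hcomm hπ hv hv') hiL hiK α
    (hα _ v' (irreducible_map hψ hπ) hv')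

theorem unramified_trivial {K : Type} [Field K] [Algebra ℂ K] (w : Fin 3 → K)
    (hw : AlgebraicIndependent ℂ w) (hgen : IntermediateField.adjoin ℂ (Set.range w) = ⊤)
    (a b : K) (ha : a ≠ 0) (hb : b ≠ 0)
    (H : ∀ R : Subalgebra ℂ K, IsDVR R → (∀ i, w i ∈ R) →
      (∀ D : Derivation ℂ K K, (∀ i, D (w i) ∈ R) → ∀ x ∈ R, D x ∈ R) → TameTrivial R a b)
    (R : Subalgebra ℂ K) (hR : IsDVR R) : TameTrivial R a b := by
  have hiK : ∃ i : K, i ^ 2 = -1 :=
    ⟨algebraMap ℂ K Complex.I, by rw [← map_pow, Complex.I_sq, map_neg, map_one]⟩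
  set a' : Kˣ := Units.mk0 a ha with ha'
  set b' : Kˣ := Units.mk0 b hb with hb'
  suffices hz : sym a' b' = 0 from
    tameTrivial_of_residue hiK R hR a' b' (by rw [hz, map_zero])
  -- the sets of indices
  have u2 : insert (2 : Fin 3) ({0, 1} : Set (Fin 3)) = Set.univ := by
    ext j; fin_cases j <;> simp
  have u1 : insert (1 : Fin 3) ({0, 2} : Set (Fin 3)) = Set.univ := by
    ext j; fin_cases j <;> simp
  have n2 : (2 : Fin 3) ∉ ({0, 1} : Set (Fin 3)) := by simp
  have n1 : (1 : Fin 3) ∉ ({0, 2} : Set (Fin 3)) := by simp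
  -- level 3
  have r3 := isRat_EE_top hw hgen n2 u2
  have r3' := isRat_EE_top hw hgen n1 u1
  obtain ⟨α, hα⟩ := milnor' r3 hiK (sym a' b')
    (fun π v hπ hv => residue_of_H u2 r3 hiK a' b' H hπ hv)
  suffices hα0 : α = 0 by rw [← hα, hα0, map_zero]
  -- level 2
  have s1 : ({0} : Set (Fin 3)) ⊆ {0, 1} := by simp
  have s2 : ({0} : Set (Fin 3)) ⊆ {0, 2} := by simp
  have r2 : IsRat (IntermediateField.inclusion (EE_mono w s1)).toRingHom
      (⟨w 1, mem_EE w (by simp)⟩ : EE w {0, 1}) :=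
    isRat_EE hw (i := 1) (by simp) (by ext j; fin_cases j <;> simp) s1 (by simp)
  have r2' : IsRat (IntermediateField.inclusion (EE_mono w s2)).toRingHom
      (⟨w 2, mem_EE w (by simp)⟩ : EE w {0, 2}) :=
    isRat_EE hw (i := 2) (by simp) (by ext j; fin_cases j <;> simp) s2 (by simp)
  have hiE : ∃ i : EE w {0, 1}, i ^ 2 = -1 :=
    ⟨algebraMap ℂ _ Complex.I, by rw [← map_pow, Complex.I_sq, map_neg, map_one]⟩
  haveI : Infinite (EE w {0}) :=
    Infinite.of_injective (algebraMap ℂ (EE w {0})) (algebraMap ℂ (EE w {0})).injective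
  obtain ⟨β, hβ⟩ := level2 (ψ := (IntermediateField.inclusion (EE_mono w s2)).toRingHom)
    (φ := (IntermediateField.inclusion (EE_mono w s1)).toRingHom)
    (φ' := algebraMap (EE w {0, 2}) K) (ι := algebraMap (EE w {0, 1}) K)
    r2' r2 r3' (fun _ => rfl) hiE hiK α (fun π' v' hπ' hv' => by
      rw [hα]
      exact residue_of_H u1 r3' hiK a' b' H hπ' hv')
  -- level 1
  have hr1 : IsRat (algebraMap ℂ (EE w {0})) (⟨w 0, mem_EE w (by simp)⟩ : EE w {0}) := by
    apply isRat_of (K := K) _ (algebraMap (EE w {0}) K)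
    · intro e; rfl
    · exact hw.transcendental 0
    · intro y
      have h1 := y.2
      have h2 : EE w {0} = IntermediateField.adjoin ℂ {w 0} := by
        unfold EE
        rw [Set.image_singleton]
      exact h2.le h1
  rw [← hβ, kt_rat_complex hr1 β, map_zero]

end Pool.Agent.Lib.MP_0bb41e_ag
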