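import Mathlib

/-!
# Milnor `K₂` modulo two of a field, residues at discrete valuations
-/

set_option autoImplicit false

namespace Pool.Agent.Lib.MP_0bb41e_ag

open WithZero

universe u

section KTwo

variable (F : Type u) [Field F]

/-- The relations of `K₂` modulo two: bilinearity and the Steinberg relation. -/
def ktRels : Set ((Fˣ × Fˣ) →₀ ZMod 2) :=
  {r | ∃ a a' b : Fˣ, r = Finsupp.single (a * a', b) 1 -
      (Finsupp.single (a, b) 1 + Finsupp.single (a', b) 1)} ∪
  {r | ∃ a b b' : Fˣ, r = Finsupp.single (a, b * b') 1 -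
      (Finsupp.single (a, b) 1 + Finsupp.single (a, b') 1)} ∪
  {r | ∃ a b : Fˣ, (a : F) + (b : F) = 1 ∧ r = Finsupp.single (a, b) 1}

/-- `K₂(F) / 2`. -/
abbrev KTwo : Type u := ((Fˣ × Fˣ) →₀ ZMod 2) ⧸ Submodule.span (ZMod 2) (ktRels F)

variable {F}

/-- The symbol `{a, b}` in `K₂(F) / 2`. -/
noncomputable def sym (a b : Fˣ) : KTwo F :=
  Submodule.Quotient.mk (Finsupp.single (a, b) 1)

lemma sym_mul_left (a a' b : Fˣ) : sym (a * a') b = sym a b + sym a' b := by
  unfold sym
  rw [← Submodule.Quotient.mk_add, Submodule.Quotient.eq]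
  exact Submodule.subset_span (Or.inl (Or.inl ⟨a, a', b, rfl⟩))

lemma sym_mul_right (a b b' : Fˣ) : sym a (b * b') = sym a b + sym a b' := by
  unfold sym
  rw [← Submodule.Quotient.mk_add, Submodule.Quotient.eq]
  exact Submodule.subset_span (Or.inl (Or.inr ⟨a, b, b', rfl⟩))

lemma sym_steinberg {a b : Fˣ} (h : (a : F) + (b : F) = 1) : sym a b = 0 := by
  unfold sym
  rw [Submodule.Quotient.mk_eq_zero]
  exact Submodule.subset_span (Or.inr ⟨a, b, h, rfl⟩)

lemma kt_add_self (x : KTwo F) : x + x = 0 := by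
  have h : (2 : ZMod 2) • x = 0 := by
    rw [show (2 : ZMod 2) = 0 from rfl, zero_smul]
  rwa [two_smul] at h

lemma kt_neg (x : KTwo F) : -x = x := by
  rw [neg_eq_iff_add_eq_zero]; exact kt_add_self x

lemma kt_sub (x y : KTwo F) : x - y = x + y := by
  rw [sub_eq_add_neg, kt_neg]

@[simp] lemma sym_one_left (b : Fˣ) : sym 1 b = 0 := by
  have h := sym_mul_left (1 : Fˣ) 1 b
  rw [mul_one] at h
  simpa using h

@[simp] lemma sym_one_right (a : Fˣ) : sym a 1 = 0 := by
  have h := sym_mul_right a (1 : Fˣ) 1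
  rw [mul_one] at h
  simpa using h

lemma sym_inv_left (a b : Fˣ) : sym a⁻¹ b = sym a b := by
  have h := sym_mul_left a a⁻¹ b
  rw [mul_inv_cancel, sym_one_left] at h
  rw [← kt_neg (sym a b)]
  exact (neg_eq_of_add_eq_zero_right h.symm).symm

lemma sym_inv_right (a b : Fˣ) : sym a b⁻¹ = sym a b := by
  have h := sym_mul_right a b b⁻¹
  rw [mul_inv_cancel, sym_one_right] at h
  rw [← kt_neg (sym a b)]
  exact (neg_eq_of_add_eq_zero_right h.symm).symm

lemma sym_div_left (a a' b : Fˣ) : sym (a / a') b = sym a b + sym a' b := by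
  rw [div_eq_mul_inv, sym_mul_left, sym_inv_left]

lemma sym_div_right (a b b' : Fˣ) : sym a (b / b') = sym a b + sym a b' := by
  rw [div_eq_mul_inv, sym_mul_right, sym_inv_right]

lemma sym_sq_left (a b : Fˣ) : sym (a ^ 2) b = 0 := by
  rw [pow_two, sym_mul_left, kt_add_self]

lemma sym_sq_right (a b : Fˣ) : sym a (b ^ 2) = 0 := by
  rw [pow_two, sym_mul_right, kt_add_self]

/-- All elements of `K₂ / 2` are sums of symbols. -/
lemma span_sym : Submodule.span (ZMod 2) (Set.range fun p : Fˣ × Fˣ => sym p.1 p.2) = ⊤ := by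
  rw [eq_top_iff]
  rintro x -
  induction x using Submodule.Quotient.induction_on with
  | H f =>
    induction f using Finsupp.induction_linear with
    | zero => exact Submodule.zero_mem _
    | add f g hf hg =>
      rw [Submodule.Quotient.mk_add]; exact Submodule.add_mem _ hf hg
    | single p c =>
      have : (Submodule.Quotient.mk (Finsupp.single p c) : KTwo F) = c • sym p.1 p.2 := by
        unfold sym
        rw [← Submodule.Quotient.mk_smul, Finsupp.smul_single, smul_eq_mul, mul_one]
      rw [this]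
      exact Submodule.smul_mem _ _ (Submodule.subset_span ⟨p, rfl⟩)

/-- Universal property of `K₂ / 2`. -/
noncomputable def ktLift {M : Type*} [AddCommGroup M] [Module (ZMod 2) M] (f : Fˣ → Fˣ → M)
    (h1 : ∀ a a' b, f (a * a') b = f a b + f a' b) (h2 : ∀ a b b', f a (b * b') = f a b + f a b')
    (h3 : ∀ a b : Fˣ, (a : F) + (b : F) = 1 → f a b = 0) : KTwo F →ₗ[ZMod 2] M :=
  Submodule.liftQ _ (Finsupp.linearCombination (ZMod 2) fun p : Fˣ × Fˣ => f p.1 p.2) (by
    rw [Submodule.span_le]
    rintro r ((⟨a, a', b, rfl⟩ | ⟨a, b, b', rfl⟩) | ⟨a, b, hab, rfl⟩)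
    · simp [h1]
    · simp [h2]
    · simp [h3 a b hab])

@[simp] lemma ktLift_sym {M : Type*} [AddCommGroup M] [Module (ZMod 2) M] (f : Fˣ → Fˣ → M)
    (h1 h2 h3) (a b : Fˣ) : ktLift f h1 h2 h3 (sym a b) = f a b := by
  unfold ktLift sym
  rw [← Submodule.mkQ_apply, ← LinearMap.comp_apply, Submodule.liftQ_mkQ]
  simp

section SqrtNegOne

variable (hi : ∃ i : F, i ^ 2 = -1)
include hi

lemma sym_neg_one_right (a : Fˣ) : sym a (-1) = 0 := by
  obtain ⟨i, hi⟩ := hi
  have hi0 : i ≠ 0 := by
    rintro rfl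
    have : (1 : F) = 0 := by linear_combination hi
    exact one_ne_zero this
  have : (-1 : Fˣ) = (Units.mk0 i hi0) ^ 2 := by
    ext; simp [hi]
  rw [this, sym_sq_right]

lemma sym_neg_right (a b : Fˣ) : sym a (-b) = sym a b := by
  rw [← neg_one_mul, sym_mul_right, sym_neg_one_right hi, zero_add]

lemma sym_self (a : Fˣ) : sym a a = 0 := by
  by_cases ha : (a : F) = 1
  · have : a = 1 := Units.ext ha
    rw [this, sym_one_left]
  · have h0 : (1 : F) - a ≠ 0 := sub_ne_zero.mpr (Ne.symm ha)
    have h0' : (1 : F) - (a : F)⁻¹ ≠ 0 := by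
      rw [sub_ne_zero]
      intro h
      exact ha (by rw [← inv_eq_one, ← h])
    have e : -a = Units.mk0 _ h0 / Units.mk0 _ h0' := by
      ext
      have ha0 : (a : F) ≠ 0 := a.ne_zero
      have h0'' : (a : F) - 1 ≠ 0 := sub_ne_zero.mpr ha
      rw [Units.val_neg, Units.val_div_eq_div_val, Units.val_mk0, Units.val_mk0,
        eq_div_iff h0']
      field_simp
      ring
    rw [← sym_neg_right hi, e, sym_div_right]
    have e1 : sym a (Units.mk0 _ h0) = 0 := sym_steinberg (by simp)
    have e2 : sym a (Units.mk0 _ h0') = 0 := by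
      rw [← sym_inv_left]
      exact sym_steinberg (by simp)
    rw [e1, e2, add_zero]

lemma sym_comm (a b : Fˣ) : sym a b = sym b a := by
  have h := sym_self hi (a * b)
  rw [sym_mul_left, sym_mul_right, sym_mul_right, sym_self hi a, sym_self hi b, zero_add,
    add_zero] at h
  rw [← kt_neg (sym b a)]
  exact eq_neg_of_add_eq_zero_left h

end SqrtNegOne

section Functoriality

variable {L : Type*} [Field L]

/-- Functoriality of `K₂ / 2`. -/
noncomputable def ktMap (φ : F →+* L) : KTwo F →ₗ[ZMod 2] KTwo L :=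
  ktLift (fun a b => sym (Units.map (φ : F →* L) a) (Units.map (φ : F →* L) b))
    (fun a a' b => by rw [map_mul, sym_mul_left]) (fun a b b' => by rw [map_mul, sym_mul_right])
    (fun a b h => sym_steinberg (by
      have := congrArg φ h
      rw [map_add, map_one] at this
      exact this))

@[simp] lemma ktMap_sym (φ : F →+* L) (a b : Fˣ) :
    ktMap φ (sym a b) = sym (Units.map (φ : F →* L) a) (Units.map (φ : F →* L) b) := by
  unfold ktMap; simp

end Functoriality

end KTwo

/-! ## Residues -/

section Residue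

variable {K : Type u} [Field K] (v : Valuation K ℤᵐ⁰)

/-- The order of a unit. -/
noncomputable def vord (a : Kˣ) : ℤ := - log (v (a : K))

lemma v_unit_ne_zero (a : Kˣ) : v (a : K) ≠ 0 := (Valuation.ne_zero_iff _).mpr a.ne_zero

lemma v_eq_exp (a : Kˣ) : v (a : K) = exp (- vord v a) := by
  unfold vord
  rw [neg_neg, exp_log (v_unit_ne_zero v a)]

lemma vord_mul (a b : Kˣ) : vord v (a * b) = vord v a + vord v b := by
  unfold vord
  rw [Units.val_mul, map_mul, log_mul (v_unit_ne_zero v a) (v_unit_ne_zero v b)]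
  ring

lemma vord_eq_zero_iff (a : Kˣ) : vord v a = 0 ↔ v (a : K) = 1 := by
  rw [v_eq_exp]
  constructor
  · intro h; rw [h]; simp
  · intro h
    rw [← exp_zero, exp_inj] at h
    omega

lemma vord_pos_iff (a : Kˣ) : 0 < vord v a ↔ v (a : K) < 1 := by
  rw [v_eq_exp, ← exp_zero, exp_lt_exp]; omega

/-- The subgroup of elements of the form `s² u` with `u` a principal unit. -/
def nsub : Subgroup Kˣ where
  carrier := {c | ∃ s u : Kˣ, v ((u : K) - 1) < 1 ∧ c = s ^ 2 * u}
  one_mem' := ⟨1, 1, by simp, by simp⟩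
  mul_mem' := by
    rintro _ _ ⟨s, u, hu, rfl⟩ ⟨s', u', hu', rfl⟩
    refine ⟨s * s', u * u', ?_, by rw [mul_pow]; exact mul_mul_mul_comm _ _ _ _⟩
    have h1 : v ((u' : K)) = 1 := by
      have := Valuation.map_add_eq_of_lt_right v (x := (u' : K) - 1) (y := 1) (by simpa using hu')
      simpa using this
    have e : ((u * u' : Kˣ) : K) - 1 = ((u : K) - 1) * u' + ((u' : K) - 1) := by
      push_cast; ring
    rw [e]
    refine lt_of_le_of_lt (v.map_add _ _) (max_lt ?_ hu')
    rw [map_mul, h1, mul_one]; exact hu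
  inv_mem' := by
    rintro _ ⟨s, u, hu, rfl⟩
    refine ⟨s⁻¹, u⁻¹, ?_, by rw [mul_inv, inv_pow]⟩
    have h1 : v ((u : K)) = 1 := by
      have := Valuation.map_add_eq_of_lt_right v (x := (u : K) - 1) (y := 1) (by simpa using hu)
      simpa using this
    have e : ((u⁻¹ : Kˣ) : K) - 1 = - (((u : K) - 1) * (u : K)⁻¹) := by
      have := u.ne_zero
      rw [Units.val_inv_eq_inv_val]
      field_simp
      ring
    rw [e, Valuation.map_neg, map_mul, map_inv₀, h1, inv_one, mul_one]
    exact hu

lemma sq_mem_nsub (s : Kˣ) : s ^ 2 ∈ nsub v := ⟨s, 1, by simp, by simp⟩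

lemma principal_mem_nsub {u : Kˣ} (hu : v ((u : K) - 1) < 1) : u ∈ nsub v :=
  ⟨1, u, hu, by simp⟩

/-- The target of the residue map: `Kˣ / Kˣ² (1 + m)`. -/
def RTgt : Type u := Additive (Kˣ ⧸ nsub v)

noncomputable instance : AddCommGroup (RTgt v) :=
  inferInstanceAs (AddCommGroup (Additive (Kˣ ⧸ nsub v)))

lemma rtgt_two (x : RTgt v) : (2 : ℕ) • x = 0 := by
  induction x using QuotientGroup.induction_on with
  | H z =>
    change Additive.ofMul ((QuotientGroup.mk z : Kˣ ⧸ nsub v) ^ 2) = Additive.ofMul 1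
    rw [← QuotientGroup.mk_pow]
    congr 1
    rw [QuotientGroup.eq_one_iff]
    exact sq_mem_nsub v z

noncomputable instance : Module (ZMod 2) (RTgt v) := AddCommGroup.zmodModule (rtgt_two v)

/-- The class of an element in the target of the residue map. -/
def rcls (c : Kˣ) : RTgt v := Additive.ofMul (QuotientGroup.mk c)

lemma rcls_mul (c d : Kˣ) : rcls v (c * d) = rcls v c + rcls v d := rfl

lemma rcls_eq_zero_iff (c : Kˣ) : rcls v c = 0 ↔ c ∈ nsub v := by
  unfold rcls
  change QuotientGroup.mk c = (1 : Kˣ ⧸ nsub v) ↔ _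
  rw [QuotientGroup.eq_one_iff]

/-- The tame symbol modulo squares, before passing to the quotient. -/
noncomputable def tameElt (a b : Kˣ) : Kˣ := a ^ (vord v b) * b ^ (vord v a)

lemma tameElt_mul_left (a a' b : Kˣ) :
    tameElt v (a * a') b = tameElt v a b * tameElt v a' b := by
  unfold tameElt
  rw [vord_mul, mul_zpow, zpow_add]
  exact mul_mul_mul_comm _ _ _ _

lemma tameElt_mul_right (a b b' : Kˣ) :
    tameElt v a (b * b') = tameElt v a b * tameElt v a b' := by
  unfold tameElt
  rw [vord_mul, mul_zpow, zpow_add]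
  exact mul_mul_mul_comm _ _ _ _

variable (hi : ∃ i : K, i ^ 2 = -1)
include hi

lemma neg_one_mem_nsub : (-1 : Kˣ) ∈ nsub v := by
  obtain ⟨i, hi⟩ := hi
  have hi0 : i ≠ 0 := by
    rintro rfl
    have : (1 : K) = 0 := by linear_combination hi
    exact one_ne_zero this
  have : (-1 : Kˣ) = (Units.mk0 i hi0) ^ 2 := by
    ext; simp [hi]
  rw [this]
  exact sq_mem_nsub v _

lemma tameElt_steinberg {a b : Kˣ} (h : (a : K) + (b : K) = 1) : tameElt v a b ∈ nsub v := by
  unfold tameElt
  rcases lt_trichotomy (vord v a) 0 with ha | ha | ha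
  · -- both orders are negative and equal
    have hva : 1 < v (a : K) := by
      rw [v_eq_exp, ← exp_zero, exp_lt_exp]; omega
    have hb : (b : K) = 1 - a := by rw [← h]; ring
    have hvb : v (b : K) = v (a : K) := by
      rw [hb]
      have := Valuation.map_sub_eq_of_lt_right v (x := (1 : K)) (y := (a : K)) (by simpa using hva)
      exact this
    have hord : vord v b = vord v a := by
      unfold vord; rw [hvb]
    rw [hord, ← mul_zpow]
    apply Subgroup.zpow_mem
    -- a * b = -a² (1 - a⁻¹)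
    have hu0 : (1 : K) - (a : K)⁻¹ ≠ 0 := by
      rw [sub_ne_zero]
      intro h1
      have : (a : K) = 1 := by rw [← inv_eq_one, ← h1]
      rw [this, map_one] at hva
      exact lt_irrefl _ hva
    have e : a * b = (-1) * (a ^ 2 * Units.mk0 _ hu0) := by
      ext
      have ha0 : (a : K) ≠ 0 := a.ne_zero
      simp only [Units.val_mul, Units.val_neg, Units.val_one, Units.val_pow_eq_pow_val,
        Units.val_mk0, hb]
      field_simp
      ring
    rw [e]
    refine Subgroup.mul_mem _ (neg_one_mem_nsub v hi) ⟨a, Units.mk0 _ hu0, ?_, rfl⟩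
    rw [Units.val_mk0, sub_sub_cancel_left, Valuation.map_neg, map_inv₀]
    exact inv_lt_one_of_one_lt₀ hva
  · rcases lt_trichotomy (vord v b) 0 with hb | hb | hb
    · exfalso
      have hvb : 1 < v (b : K) := by
        rw [v_eq_exp, ← exp_zero, exp_lt_exp]; omega
      have hva : v (a : K) = 1 := (vord_eq_zero_iff v a).mp ha
      have ha' : (a : K) = 1 - b := by rw [← h]; ring
      have : v (a : K) = v (b : K) := by
        rw [ha']
        exact Valuation.map_sub_eq_of_lt_right v (x := (1 : K)) (y := (b : K)) (by simpa using hvb)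
      rw [hva] at this
      rw [← this] at hvb
      exact lt_irrefl _ hvb
    · rw [ha, hb]; simp only [zpow_zero, mul_one]; exact Subgroup.one_mem _
    · rw [ha, zpow_zero, mul_one]
      apply Subgroup.zpow_mem
      apply principal_mem_nsub
      have : (a : K) - 1 = - b := by rw [← h]; ring
      rw [this, Valuation.map_neg]
      exact (vord_pos_iff v b).mp hb
  · have hva : v (a : K) < 1 := (vord_pos_iff v a).mp ha
    have hbe : (b : K) - 1 = - a := by rw [← h]; ring
    have hb1 : v ((b : K) - 1) < 1 := by rw [hbe, Valuation.map_neg]; exact hva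
    have hvb : v (b : K) = 1 := by
      have := Valuation.map_add_eq_of_lt_right v (x := (b : K) - 1) (y := 1) (by simpa using hb1)
      simpa using this
    rw [(vord_eq_zero_iff v b).mpr hvb, zpow_zero, one_mul]
    exact Subgroup.zpow_mem _ (principal_mem_nsub v hb1) _

/-- The residue map at `v`. -/
noncomputable def residue : KTwo K →ₗ[ZMod 2] RTgt v :=
  ktLift (fun a b => rcls v (tameElt v a b))
    (fun a a' b => by rw [tameElt_mul_left, rcls_mul])
    (fun a b b' => by rw [tameElt_mul_right, rcls_mul])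
    (fun a b h => (rcls_eq_zero_iff v _).mpr (tameElt_steinberg v hi h))

@[simp] lemma residue_sym (a b : Kˣ) : residue v hi (sym a b) = rcls v (tameElt v a b) := by
  unfold residue; simp

end Residue

end Pool.Agent.Lib.MP_0bb41e_ag
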