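import Pool.Agent.Lib.MP_0bb41e_ag.Defs

section

/-!
# General lemmas on points of projective models
-/

namespace Pool.Agent.Lib.MP_0bb41e_ag

variable {K : Type} [Field K] [Algebra ℂ K]

theorem isUnit_iff_inv_mem {O : Subalgebra ℂ K} (x : O) :
    IsUnit x ↔ (x : K) ≠ 0 ∧ (x : K)⁻¹ ∈ O := by
  constructor
  · intro h
    obtain ⟨y, hy⟩ := h.exists_right_inv
    have h1 : (x : K) * (y : K) = 1 := by
      have := congrArg Subtype.val hy
      simpa using this
    have hx : (x : K) ≠ 0 := left_ne_zero_of_mul_eq_one h1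
    refine ⟨hx, ?_⟩
    have : (x : K)⁻¹ = y := inv_eq_of_mul_eq_one_right h1
    rw [this]; exact y.2
  · rintro ⟨h0, h1⟩
    refine IsUnit.of_mul_eq_one ⟨_, h1⟩ ?_
    apply Subtype.ext
    simp [h0]

theorem mem_nonunitsIn_iff {O : Subalgebra ℂ K} (x : O) :
    (x : K) ∈ nonunitsIn O ↔ ¬ IsUnit x := by
  rw [isUnit_iff_inv_mem]
  simp only [nonunitsIn, Set.mem_ofPred_eq, SetLike.coe_mem, true_and]
  tauto

theorem mem_localize {A : Subalgebra ℂ K} {P : Ideal A} {hP : P.IsPrime} {x : K} :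
    x ∈ localize A P hP ↔ ∃ a b : A, b ∉ P ∧ x = (a : K) / (b : K) := Iff.rfl

theorem le_localize (A : Subalgebra ℂ K) (P : Ideal A) (hP : P.IsPrime) :
    A ≤ localize A P hP := by
  intro x hx
  exact ⟨⟨x, hx⟩, 1, fun h => hP.ne_top ((Ideal.eq_top_iff_one P).2 h), by simp⟩

theorem coe_ne_zero_of_notMem {A : Subalgebra ℂ K} {P : Ideal A} {b : A} (hb : b ∉ P) :
    (b : K) ≠ 0 := by
  intro h
  apply hb
  have : b = 0 := Subtype.ext h
  rw [this]; exact P.zero_mem

theorem inv_mem_localize {A : Subalgebra ℂ K} {P : Ideal A} (hP : P.IsPrime) {b : A}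
    (hb : b ∉ P) : (b : K)⁻¹ ∈ localize A P hP :=
  ⟨1, b, hb, by simp⟩

/-- Elements of the localization which are nonunits are the fractions with numerator in `P`. -/
theorem mem_nonunits_localize {A : Subalgebra ℂ K} {P : Ideal A} (hP : P.IsPrime) {x : K} :
    x ∈ nonunitsIn (localize A P hP) ↔ ∃ a b : A, a ∈ P ∧ b ∉ P ∧ x = (a : K) / (b : K) := by
  constructor
  · rintro ⟨⟨a, b, hb, rfl⟩, h⟩
    refine ⟨a, b, ?_, hb, rfl⟩
    by_contra ha
    rcases h with h | h
    · have hb0 := coe_ne_zero_of_notMem hb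
      have ha0 := coe_ne_zero_of_notMem ha
      exact (div_ne_zero ha0 hb0) h
    · apply h
      exact ⟨b, a, ha, by rw [inv_div]⟩
  · rintro ⟨a, b, ha, hb, rfl⟩
    refine ⟨⟨a, b, hb, rfl⟩, ?_⟩
    by_cases h0 : (a : K) / b = 0
    · exact Or.inl h0
    · right
      rintro ⟨c, d, hd, h⟩
      rw [inv_div] at h
      have hb0 := coe_ne_zero_of_notMem hb
      have hd0 := coe_ne_zero_of_notMem hd
      have ha0 : (a : K) ≠ 0 := fun h' => h0 (by rw [h']; simp)
      rw [div_eq_div_iff ha0 hd0] at h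
      have h' : b * d = c * a := Subtype.ext (by push_cast; exact h)
      have : b * d ∈ P := by rw [h']; exact P.mul_mem_left _ ha
      exact (hP.mem_or_mem this).elim hb hd

theorem coe_mem_nonunits_localize {A : Subalgebra ℂ K} {P : Ideal A} (hP : P.IsPrime) (a : A) :
    (a : K) ∈ nonunitsIn (localize A P hP) ↔ a ∈ P := by
  rw [mem_nonunits_localize hP]
  constructor
  · rintro ⟨c, d, hc, hd, h⟩
    have hd0 := coe_ne_zero_of_notMem hd
    rw [eq_div_iff hd0] at h
    have h' : a * d = c := Subtype.ext (by push_cast; exact h)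
    have : a * d ∈ P := by rw [h']; exact hc
    exact (hP.mem_or_mem this).resolve_right hd
  · intro ha
    exact ⟨a, 1, ha, fun h => hP.ne_top ((Ideal.eq_top_iff_one P).2 h), by simp⟩

theorem isLocalRing_localize {A : Subalgebra ℂ K} {P : Ideal A} (hP : P.IsPrime) :
    IsLocalRing (localize A P hP) := by
  refine IsLocalRing.of_nonunits_add (fun x y hx hy => ?_)
  rw [mem_nonunits_iff, ← mem_nonunitsIn_iff, mem_nonunits_localize hP] at hx hy ⊢
  obtain ⟨a, b, ha, hb, hx⟩ := hx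
  obtain ⟨c, d, hc, hd, hy⟩ := hy
  have hb0 := coe_ne_zero_of_notMem hb
  have hd0 := coe_ne_zero_of_notMem hd
  refine ⟨a * d + b * c, b * d, P.add_mem (P.mul_mem_right _ ha) (P.mul_mem_left _ hc),
    fun h => (hP.mem_or_mem h).elim hb hd, ?_⟩
  push_cast
  rw [hx, hy, div_add_div _ _ hb0 hd0]

theorem ProjModel.IsPoint.isLocalRing {X : ProjModel K} {O : Subalgebra ℂ K}
    (h : X.IsPoint O) : IsLocalRing O := by
  obtain ⟨i, P, hP, rfl⟩ := h
  exact isLocalRing_localize hP

/-- The centre ideal of a local ring `O` on a subalgebra `A` contained in it. -/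
def ctr (A O : Subalgebra ℂ K) (h : A ≤ O) [IsLocalRing O] : Ideal A :=
  (IsLocalRing.maximalIdeal O).comap (Subalgebra.inclusion h)

instance ctr_isPrime (A O : Subalgebra ℂ K) (h : A ≤ O) [IsLocalRing O] :
    (ctr A O h).IsPrime := by
  unfold ctr
  infer_instance

theorem mem_ctr {A O : Subalgebra ℂ K} (h : A ≤ O) [IsLocalRing O] (a : A) :
    a ∈ ctr A O h ↔ (a : K) ∈ nonunitsIn O := by
  unfold ctr
  rw [Ideal.mem_comap, IsLocalRing.mem_maximalIdeal, mem_nonunits_iff, ← mem_nonunitsIn_iff]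
  rfl

theorem ctr_localize {A : Subalgebra ℂ K} {P : Ideal A} (hP : P.IsPrime)
    [IsLocalRing (localize A P hP)] : ctr A (localize A P hP) (le_localize A P hP) = P := by
  ext a
  rw [mem_ctr, coe_mem_nonunits_localize]

/-- If a local ring `O` contains `A`, then it contains and dominates the localization of `A` at the
centre of `O`. -/
theorem localize_ctr_le {A O : Subalgebra ℂ K} (h : A ≤ O) [IsLocalRing O] :
    localize A (ctr A O h) inferInstance ≤ O := by
  rintro x ⟨a, b, hb, rfl⟩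
  rw [mem_ctr] at hb
  have hb1 : (b : K) ∈ O := h b.2
  have hb2 : (b : K)⁻¹ ∈ O := by
    by_contra hcon
    exact hb ⟨hb1, Or.inr hcon⟩
  rw [div_eq_mul_inv]
  exact O.mul_mem (h a.2) hb2

theorem dominates_localize_ctr {A O : Subalgebra ℂ K} (h : A ≤ O) [IsLocalRing O] :
    Dominates O (localize A (ctr A O h) inferInstance) := by
  refine ⟨localize_ctr_le h, ?_⟩
  intro x hx
  rw [mem_nonunits_localize] at hx
  obtain ⟨a, b, ha, hb, rfl⟩ := hx
  rw [mem_ctr] at ha hb
  have hb1 : (b : K) ∈ O := h b.2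
  have hb0 : (b : K) ≠ 0 := fun h' => hb (by rw [h']; exact ⟨O.zero_mem, Or.inl rfl⟩)
  have hb2 : (b : K)⁻¹ ∈ O := by
    by_contra hcon
    exact hb ⟨hb1, Or.inr hcon⟩
  refine ⟨by rw [div_eq_mul_inv]; exact O.mul_mem (h a.2) hb2, ?_⟩
  by_cases h0 : (a : K) / b = 0
  · exact Or.inl h0
  · right
    intro hcon
    rcases ha.2 with h1 | h1
    · exact h0 (by rw [h1]; simp)
    · apply h1
      have : (a : K)⁻¹ = ((a : K) / b)⁻¹ * (b : K)⁻¹ := by
        rw [inv_div]; field_simp
      rw [this]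
      exact O.mul_mem hcon hb2

/-- If `O` is the localization of `A'` at a prime, contains `A`, and `A' ⊆ A[s⁻¹]` for an
element `s ∈ A` which is a unit of `O`, then `O` is the localization of `A` at its centre. -/
theorem localize_eq_of_le {A A' : Subalgebra ℂ K} {P : Ideal A'} (hP : P.IsPrime)
    (h : A ≤ localize A' P hP) (hl : IsLocalRing (localize A' P hP))
    (h' : A' ≤ localize A (ctr A (localize A' P hP) h) inferInstance) :
    localize A' P hP = localize A (ctr A (localize A' P hP) h) inferInstance := by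
  apply le_antisymm
  · rintro x ⟨a, b, hb, rfl⟩
    have ha := h' a.2
    have hb1 := h' b.2
    obtain ⟨c, d, hd, hbc⟩ := hb1
    have hc : c ∉ ctr A (localize A' P hP) h := by
      intro hc
      apply hb
      rw [← coe_mem_nonunits_localize hP, hbc]
      have := (dominates_localize_ctr h).2
      apply this
      rw [mem_nonunits_localize]
      exact ⟨c, d, hc, hd, rfl⟩
    have hbinv : (b : K)⁻¹ ∈ localize A (ctr A (localize A' P hP) h) inferInstance := by
      rw [hbc, inv_div]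
      exact ⟨d, c, hc, rfl⟩
    rw [div_eq_mul_inv]
    exact Subalgebra.mul_mem _ ha hbinv
  · exact localize_ctr_le h

/-- Gluing: a point `O` of `X` whose local ring contains the chart `j` is a point of the
chart `j`. -/
theorem ProjModel.IsPoint.eq_localize {X : ProjModel K} {O : Subalgebra ℂ K}
    (hO : X.IsPoint O) [IsLocalRing O] (j : Fin (X.N + 1)) (h : X.chart j ≤ O) :
    O = localize (X.chart j) (ctr (X.chart j) O h) inferInstance := by
  obtain ⟨i, P, hP, rfl⟩ := hO
  apply localize_eq_of_le hP h inferInstance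
  have hi : X.f i ≠ 0 := X.ne_zero i
  have hj : X.f j ≠ 0 := X.ne_zero j
  have h1 : X.f i / X.f j ∈ X.chart j := Algebra.subset_adjoin ⟨i, rfl⟩
  have h2 : X.f j / X.f i ∈ localize (X.chart j) (ctr (X.chart j) (localize (X.chart i) P hP) h)
      inferInstance := by
    have : X.f j / X.f i = (X.f i / X.f j)⁻¹ := by rw [inv_div]
    rw [this]
    refine inv_mem_localize (b := ⟨_, h1⟩) inferInstance ?_
    rw [mem_ctr]
    rintro ⟨_, h3 | h3⟩
    · exact div_ne_zero hi hj h3
    · apply h3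
      rw [inv_div]
      exact le_localize _ _ _ (Algebra.subset_adjoin ⟨j, rfl⟩)
  refine Algebra.adjoin_le ?_
  rintro _ ⟨k, rfl⟩
  have : X.f k / X.f i = (X.f k / X.f j) * (X.f j / X.f i) := by field_simp
  simp only [this]
  exact Subalgebra.mul_mem _ (le_localize _ _ _ (Algebra.subset_adjoin ⟨k, rfl⟩)) h2

end Pool.Agent.Lib.MP_0bb41e_ag
end

section

/-!
# The definitions for forms in terms of exterior powers of the module of Kaehler differentials

These are auxiliary; they are not used in the statement of the main theorem.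
-/

namespace Pool.Agent.Lib.MP_0bb41e_ag

variable {K : Type} [Field K] [Algebra ℂ K]

open KaehlerDifferential in
/-- The lattice of `n`-forms which are regular at the local ring `R`: all `R`-linear combinations
of forms `d a_1 ∧ ... ∧ d a_n` with `a_i ∈ R`. -/
noncomputable def extLattice (n : ℕ) (R : Subalgebra ℂ K) : Submodule R (⋀[K]^n Ω[K⁄ℂ]) :=
  Submodule.span R (Set.range fun a : Fin n → R =>
    exteriorPower.ιMulti K n fun i => KaehlerDifferential.D ℂ K (a i : K))

open KaehlerDifferential in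
/-- The rational `n`-form `ω` has order at least `k` along the prime divisor with local
ring `R`. -/
def ExtOrdGE {n : ℕ} (R : Subalgebra ℂ K) (ω : ⋀[K]^n Ω[K⁄ℂ]) (k : ℤ) : Prop :=
  ∀ ϖ : R, Irreducible ϖ → ∃ η ∈ extLattice n R, ω = ((ϖ : K) ^ k) • η

open KaehlerDifferential in
/-- The rational `n`-form `ω` has order exactly `k` along the prime divisor with local
ring `R`. -/
def ExtHasOrd {n : ℕ} (R : Subalgebra ℂ K) (ω : ⋀[K]^n Ω[K⁄ℂ]) (k : ℤ) : Prop :=
  ExtOrdGE R ω k ∧ ¬ ExtOrdGE R ω (k + 1)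

end Pool.Agent.Lib.MP_0bb41e_ag
end

section

namespace Pool.Agent.Lib.MP_0bb41e_ag

/-- The tame symbol of `{a, b}` modulo squares at the discrete valuation ring `R` is trivial. -/
def TameTrivial {K : Type} [Field K] [Algebra ℂ K] (R : Subalgebra ℂ K) (a b : K) : Prop :=
  ∀ (ϖ u v : R) (i j : ℤ), Irreducible ϖ → IsUnit u → IsUnit v →
    a = (ϖ : K) ^ i * (u : K) → b = (ϖ : K) ^ j * (v : K) →
    ∃ s t : R, u ^ j.natAbs * v ^ i.natAbs = s ^ 2 + ϖ * t

end Pool.Agent.Lib.MP_0bb41e_ag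
end

section

/-!
# An explicit order complex which is PL homeomorphic to the boundary of the 3-simplex
-/

namespace Pool.Agent.Lib.MP_0bb41e_ag

/-- The graph of a linear map over the order complex of a finite set is a finite union of
convex polytopes. -/
theorem graph_orderComplex {P : Type} [PartialOrder P] {W : Type} [AddCommGroup W] [Module ℝ W]
    (S : Set P) (hS : S.Finite) (φ : (P →₀ ℝ) →ₗ[ℝ] W) :
    ∃ C : Set (Set ((P →₀ ℝ) × W)), C.Finite ∧ (∀ c ∈ C, c.Finite) ∧
      {p : (P →₀ ℝ) × W | p.1 ∈ orderComplex S ∧ p.2 = φ p.1} = ⋃ c ∈ C, convexHull ℝ c := by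
  classical
  refine ⟨(fun c : Set P =>
    (fun q => ((Finsupp.single q (1 : ℝ), φ (Finsupp.single q 1)) : (P →₀ ℝ) × W)) '' c) ''
    {c | c ⊆ S ∧ IsChain (· ≤ ·) c}, ?_, ?_, ?_⟩
  · exact (hS.finite_subsets.subset fun c hc => hc.1).image _
  · rintro _ ⟨c, hc, rfl⟩
    exact (hS.subset hc.1).image _
  · apply Set.eq_of_subset_of_subset
    · rintro ⟨w, y⟩ ⟨⟨h0, hs, hc, h1⟩, h2⟩
      have h2' : y = φ w := h2
      subst h2'
      refine Set.mem_biUnion ⟨_, ⟨hs, hc⟩, rfl⟩ ?_
      have key : ((w, φ w) : (P →₀ ℝ) × W) = ∑ q ∈ w.support,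
          w q • ((Finsupp.single q (1 : ℝ), φ (Finsupp.single q 1)) : (P →₀ ℝ) × W) := by
        have hw : w = ∑ q ∈ w.support, w q • Finsupp.single q (1 : ℝ) := by
          conv_lhs => rw [← Finsupp.sum_single w]
          simp [Finsupp.sum]
        apply Prod.ext
        · rw [Prod.fst_sum]
          exact hw
        · rw [Prod.snd_sum]
          conv_lhs => rw [hw]
          simp only [map_sum, map_smul, Prod.smul_snd]
      have hmem : (∑ q ∈ w.support,
          w q • ((Finsupp.single q (1 : ℝ), φ (Finsupp.single q 1)) : (P →₀ ℝ) × W)) ∈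
          convexHull ℝ ((fun q => ((Finsupp.single q (1 : ℝ),
            φ (Finsupp.single q 1)) : (P →₀ ℝ) × W)) '' (w.support : Set P)) :=
        (convex_convexHull ℝ _).sum_mem (fun q _ => h0 q) h1 fun q hq =>
          subset_convexHull ℝ _ ⟨q, hq, rfl⟩
      rw [← key] at hmem
      exact hmem
    · intro x hx
      obtain ⟨_, ⟨c, ⟨hcS, hc⟩, rfl⟩, hm⟩ := Set.mem_iUnion₂.1 hx
      have key : convexHull ℝ ((fun q => ((Finsupp.single q (1 : ℝ),
          φ (Finsupp.single q 1)) : (P →₀ ℝ) × W)) '' c) ⊆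
          {p | (∀ q, 0 ≤ p.1 q) ∧ (∀ q, q ∉ c → p.1 q = 0) ∧
            Finsupp.linearCombination ℝ (fun _ : P => (1 : ℝ)) p.1 = 1 ∧ p.2 = φ p.1} := by
        apply convexHull_min
        · rintro _ ⟨q, hq, rfl⟩
          refine ⟨fun r => ?_, fun r hr => ?_, ?_, rfl⟩
          · show 0 ≤ (Finsupp.single q (1 : ℝ)) r
            rw [Finsupp.single_apply]
            split_ifs <;> norm_num
          · show (Finsupp.single q (1 : ℝ)) r = 0
            rw [Finsupp.single_apply, if_neg]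
            rintro rfl
            exact hr hq
          · simp
        · rintro ⟨w, y⟩ ⟨h1, h2, h3, h4⟩ ⟨w', y'⟩ ⟨h1', h2', h3', h4'⟩ s t hs ht hst
          simp only at h1 h2 h3 h4 h1' h2' h3' h4'
          refine ⟨fun r => ?_, fun r hr => ?_, ?_, ?_⟩
          · show 0 ≤ (s • w + t • w') r
            simp only [Finsupp.coe_add, Finsupp.coe_smul, Pi.add_apply, Pi.smul_apply, smul_eq_mul]
            have := h1 r
            have := h1' r
            positivity
          · show (s • w + t • w') r = 0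
            simp [h2 r hr, h2' r hr]
          · show Finsupp.linearCombination ℝ (fun _ : P => (1 : ℝ)) (s • w + t • w') = 1
            rw [map_add, map_smul, map_smul, h3, h3']
            simpa using hst
          · show s • y + t • y' = φ (s • w + t • w')
            rw [map_add, map_smul, map_smul, h4, h4']
      obtain ⟨h1, h2, h3, h4⟩ := key hm
      have hsub : (x.1.support : Set P) ⊆ c := by
        intro q hq
        by_contra hqc
        exact (Finsupp.mem_support_iff.1 hq) (h2 q hqc)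
      refine ⟨⟨h1, hsub.trans hcS, hc.mono hsub, ?_⟩, h4⟩
      rw [← h3, Finsupp.linearCombination_apply]
      simp

theorem sphere_cases {b0 b1 b2 e0 e1 e2 : ℝ} 
    (h01 : b0 = 0 ∨ b1 = 0) (h02 : b0 = 0 ∨ b2 = 0) (h12 : b1 = 0 ∨ b2 = 0)
    (k01 : e0 = 0 ∨ e1 = 0) (k02 : e0 = 0 ∨ e2 = 0) (k12 : e1 = 0 ∨ e2 = 0)
    (m0 : b0 = 0 ∨ e0 = 0) (m1 : b1 = 0 ∨ e1 = 0) (m2 : b2 = 0 ∨ e2 = 0) :
    (b1 = 0 ∧ b2 = 0 ∧ e0 = 0 ∧ e2 = 0) ∨ (b1 = 0 ∧ b2 = 0 ∧ e0 = 0 ∧ e1 = 0) ∨
    (b0 = 0 ∧ b2 = 0 ∧ e1 = 0 ∧ e2 = 0) ∨ (b0 = 0 ∧ b2 = 0 ∧ e0 = 0 ∧ e1 = 0) ∨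
    (b0 = 0 ∧ b1 = 0 ∧ e1 = 0 ∧ e2 = 0) ∨ (b0 = 0 ∧ b1 = 0 ∧ e0 = 0 ∧ e2 = 0) := by
  by_cases a0 : b0 = 0 <;> by_cases a1 : b1 = 0 <;> by_cases a2 : b2 = 0 <;>
    by_cases c0 : e0 = 0 <;> by_cases c1 : e1 = 0 <;> by_cases c2 : e2 = 0 <;>
    simp only [a0, a1, a2, c0, c1, c2, or_true, or_self, and_true, and_self,
      and_false, or_false] at *

theorem sphere_fwd {b0 b1 b2 e0 e1 e2 t : ℝ} (hb0 : 0 ≤ b0) (hb1 : 0 ≤ b1) (hb2 : 0 ≤ b2)
    (he0 : 0 ≤ e0) (he1 : 0 ≤ e1) (he2 : 0 ≤ e2)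
    (h01 : b0 = 0 ∨ b1 = 0) (h02 : b0 = 0 ∨ b2 = 0) (h12 : b1 = 0 ∨ b2 = 0)
    (k01 : e0 = 0 ∨ e1 = 0) (k02 : e0 = 0 ∨ e2 = 0) (k12 : e1 = 0 ∨ e2 = 0)
    (m0 : b0 = 0 ∨ e0 = 0) (m1 : b1 = 0 ∨ e1 = 0) (m2 : b2 = 0 ∨ e2 = 0)
    {x y z : ℝ} (hx : x = b0 + (e1 + e2) / 2 + t / 3) (hy : y = b1 + (e0 + e2) / 2 + t / 3)
    (hz : z = b2 + (e0 + e1) / 2 + t / 3) :
    t = 3 * min x (min y z) ∧ b0 = max 0 (x - max y z) ∧ b1 = max 0 (y - max x z) ∧
      b2 = max 0 (z - max x y) ∧ e0 = 2 * max 0 (min y z - x) ∧ e1 = 2 * max 0 (min x z - y) ∧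
      e2 = 2 * max 0 (min x y - z) := by
  rcases sphere_cases h01 h02 h12 k01 k02 k12 m0 m1 m2 with ⟨rfl, rfl, rfl, rfl⟩ |
    ⟨rfl, rfl, rfl, rfl⟩ | ⟨rfl, rfl, rfl, rfl⟩ | ⟨rfl, rfl, rfl, rfl⟩ | ⟨rfl, rfl, rfl, rfl⟩ |
    ⟨rfl, rfl, rfl, rfl⟩
  · have h1 : y ≤ z := by linarith
    have h2 : z ≤ x := by linarith
    have h3 : y ≤ x := h1.trans h2
    rw [min_eq_left h1, max_eq_right h1, min_eq_right h2, max_eq_left h2,
      min_eq_right h3, max_eq_left h3, max_eq_right (sub_nonneg.2 h2),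
      max_eq_left (sub_nonpos.2 h3),
      max_eq_left (sub_nonpos.2 h2),
      max_eq_right (sub_nonneg.2 h1),
      max_eq_left (sub_nonpos.2 h1)]
    refine ⟨?_, ?_, ?_, ?_, ?_, ?_, ?_⟩ <;> linarith
  · have h1 : z ≤ y := by linarith
    have h2 : y ≤ x := by linarith
    have h3 : z ≤ x := h1.trans h2
    rw [min_eq_right h1, max_eq_left h1, min_eq_right h3, max_eq_left h3,
      min_eq_right h2, max_eq_left h2, max_eq_right (sub_nonneg.2 h2),
      max_eq_left (sub_nonpos.2 h2),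
      max_eq_left (sub_nonpos.2 h3),
      max_eq_left (sub_nonpos.2 h1),
      max_eq_right (sub_nonneg.2 h1)]
    refine ⟨?_, ?_, ?_, ?_, ?_, ?_, ?_⟩ <;> linarith
  · have h1 : x ≤ z := by linarith
    have h2 : z ≤ y := by linarith
    have h3 : x ≤ y := h1.trans h2
    rw [min_eq_right h2, max_eq_left h2, min_eq_left h1, max_eq_right h1,
      min_eq_left h3, max_eq_right h3, max_eq_left (sub_nonpos.2 h3),
      max_eq_right (sub_nonneg.2 h2),
      max_eq_left (sub_nonpos.2 h2),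
      max_eq_right (sub_nonneg.2 h1),
      max_eq_left (sub_nonpos.2 h1)]
    refine ⟨?_, ?_, ?_, ?_, ?_, ?_, ?_⟩ <;> linarith
  · have h1 : z ≤ x := by linarith
    have h2 : x ≤ y := by linarith
    have h3 : z ≤ y := h1.trans h2
    rw [min_eq_right h3, max_eq_left h3, min_eq_right h1, max_eq_left h1,
      min_eq_left h2, max_eq_right h2, max_eq_left (sub_nonpos.2 h2),
      max_eq_right (sub_nonneg.2 h2),
      max_eq_left (sub_nonpos.2 h3),
      max_eq_left (sub_nonpos.2 h1),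
      max_eq_right (sub_nonneg.2 h1)]
    refine ⟨?_, ?_, ?_, ?_, ?_, ?_, ?_⟩ <;> linarith
  · have h1 : x ≤ y := by linarith
    have h2 : y ≤ z := by linarith
    have h3 : x ≤ z := h1.trans h2
    rw [min_eq_left h2, max_eq_right h2, min_eq_left h3, max_eq_right h3,
      min_eq_left h1, max_eq_right h1, max_eq_left (sub_nonpos.2 h3),
      max_eq_left (sub_nonpos.2 h2),
      max_eq_right (sub_nonneg.2 h2),
      max_eq_right (sub_nonneg.2 h1),
      max_eq_left (sub_nonpos.2 h1)]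
    refine ⟨?_, ?_, ?_, ?_, ?_, ?_, ?_⟩ <;> linarith
  · have h1 : y ≤ x := by linarith
    have h2 : x ≤ z := by linarith
    have h3 : y ≤ z := h1.trans h2
    rw [min_eq_left h3, max_eq_right h3, min_eq_left h2, max_eq_right h2,
      min_eq_right h1, max_eq_left h1, max_eq_left (sub_nonpos.2 h2),
      max_eq_left (sub_nonpos.2 h3),
      max_eq_right (sub_nonneg.2 h2),
      max_eq_left (sub_nonpos.2 h1),
      max_eq_right (sub_nonneg.2 h1)]
    refine ⟨?_, ?_, ?_, ?_, ?_, ?_, ?_⟩ <;> linarith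

theorem sphere_bwd (x y z : ℝ) :
    ∃ b0 b1 b2 e0 e1 e2 t : ℝ, 0 ≤ b0 ∧ 0 ≤ b1 ∧ 0 ≤ b2 ∧ 0 ≤ e0 ∧ 0 ≤ e1 ∧ 0 ≤ e2 ∧
      t = 3 * min x (min y z) ∧
      (b0 = 0 ∨ b1 = 0) ∧ (b0 = 0 ∨ b2 = 0) ∧ (b1 = 0 ∨ b2 = 0) ∧
      (e0 = 0 ∨ e1 = 0) ∧ (e0 = 0 ∨ e2 = 0) ∧ (e1 = 0 ∨ e2 = 0) ∧
      (b0 = 0 ∨ e0 = 0) ∧ (b1 = 0 ∨ e1 = 0) ∧ (b2 = 0 ∨ e2 = 0) ∧
      x = b0 + (e1 + e2) / 2 + t / 3 ∧ y = b1 + (e0 + e2) / 2 + t / 3 ∧
      z = b2 + (e0 + e1) / 2 + t / 3 := by
  rcases le_total x y with hxy | hxy <;> rcases le_total y z with hyz | hyz <;>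
    rcases le_total x z with hxz | hxz
  · -- x ≤ y ≤ z
    refine ⟨0, 0, z - y, 2 * (y - x), 0, 0, 3 * x, le_rfl, le_rfl, by linarith, by linarith,
      le_rfl, le_rfl, ?_, ?_⟩
    · rw [min_eq_left hyz, min_eq_left hxy]
    · simp
  · -- degenerate
    obtain rfl : x = y := by linarith
    obtain rfl : x = z := by linarith
    exact ⟨0, 0, 0, 0, 0, 0, 3 * x, by simp⟩
  · -- x ≤ z ≤ y
    refine ⟨0, y - z, 0, 2 * (z - x), 0, 0, 3 * x, le_rfl, by linarith, le_rfl, by linarith,
      le_rfl, le_rfl, ?_, ?_⟩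
    · rw [min_eq_right hyz, min_eq_left hxz]
    · simp
  · -- z ≤ x ≤ y
    refine ⟨0, y - x, 0, 0, 0, 2 * (x - z), 3 * z, le_rfl, by linarith, le_rfl, le_rfl, le_rfl,
      by linarith, ?_, ?_⟩
    · rw [min_eq_right hyz, min_eq_right hxz]
    · simp
  · -- y ≤ x ≤ z
    refine ⟨0, 0, z - x, 0, 2 * (x - y), 0, 3 * y, le_rfl, le_rfl, by linarith, le_rfl,
      by linarith, le_rfl, ?_, ?_⟩
    · rw [min_eq_left hyz, min_eq_right hxy]
    · simp
  · -- y ≤ z ≤ x
    refine ⟨x - z, 0, 0, 0, 2 * (z - y), 0, 3 * y, by linarith, le_rfl, le_rfl, le_rfl,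
      by linarith, le_rfl, ?_, ?_⟩
    · rw [min_eq_left hyz, min_eq_right hxy]
    · simp
  · obtain rfl : x = y := by linarith
    obtain rfl : x = z := by linarith
    exact ⟨0, 0, 0, 0, 0, 0, 3 * x, by simp⟩
  · -- z ≤ y ≤ x
    refine ⟨x - y, 0, 0, 0, 0, 2 * (y - z), 3 * z, by linarith, le_rfl, le_rfl, le_rfl, le_rfl,
      by linarith, ?_, ?_⟩
    · rw [min_eq_right hyz, min_eq_right hxz]
    · simp

section

variable {P : Type} [PartialOrder P] {b e : Fin 3 → P} {p : Fin 2 → P}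

/-- The combinatorial assumptions on the eight elements `b i`, `e i`, `p k`. -/
structure SphereData (b e : Fin 3 → P) (p : Fin 2 → P) : Prop where
  hp : Function.Injective p
  h_eb : ∀ i j, e i < b j ↔ i ≠ j
  h_pe : ∀ k i, p k < e i
  h_b : ∀ i j, ¬ b i < b j
  h_e : ∀ i j, ¬ e i < e j
  h_p : ∀ k l, ¬ p k < p l

namespace SphereData

variable (H : SphereData b e p)
include H

theorem pb (k : Fin 2) (i : Fin 3) : p k < b i := by
  have h : i + 1 ≠ i := by fin_cases i <;> decide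
  exact (H.h_pe k (i + 1)).trans ((H.h_eb (i + 1) i).2 h)

theorem b_inj : Function.Injective b := by
  intro i j hij
  by_contra h
  have h1 := (H.h_eb i j).2 h
  rw [← hij] at h1
  exact (H.h_eb i i).1 h1 rfl

theorem e_inj : Function.Injective e := by
  intro i j hij
  by_contra h
  have h1 := (H.h_eb i j).2 h
  rw [hij] at h1
  exact (H.h_eb j j).1 h1 rfl

theorem b_ne_e (i j : Fin 3) : b i ≠ e j := by
  intro h
  have h1 : i + 1 ≠ i := by fin_cases i <;> decide
  have h2 := (H.h_eb (i + 1) i).2 h1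
  rw [h] at h2
  exact H.h_e _ _ h2

theorem b_ne_p (i : Fin 3) (k : Fin 2) : b i ≠ p k := fun h => by
  have := H.pb k i
  rw [h] at this
  exact lt_irrefl _ this

theorem e_ne_p (i : Fin 3) (k : Fin 2) : e i ≠ p k := fun h => by
  have := H.h_pe k i
  rw [h] at this
  exact lt_irrefl _ this

theorem iota_inj : Function.Injective (Sum.elim b (Sum.elim e p)) := by
  refine H.b_inj.sumElim (H.e_inj.sumElim H.hp H.e_ne_p) ?_
  rintro i (j | k)
  · exact H.b_ne_e i j
  · exact H.b_ne_p i k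

theorem b_e (i : Fin 3) : ¬ (b i ≤ e i ∨ e i ≤ b i) := by
  rintro (h | h)
  · have h1 : i + 1 ≠ i := by fin_cases i <;> decide
    exact H.h_e _ _ (((H.h_eb (i + 1) i).2 h1).trans_le h)
  · exact (H.h_eb i i).1 (lt_of_le_of_ne h (H.b_ne_e i i).symm) rfl

end SphereData

/-- Coordinate description of the order complex. -/
def SphCoord (b e : Fin 3 → P) (p : Fin 2 → P) (w : P →₀ ℝ) : Prop :=
  (∀ q, q ∉ Set.range b ∪ Set.range e ∪ Set.range p → w q = 0) ∧
  (∀ i, 0 ≤ w (b i)) ∧ (∀ i, 0 ≤ w (e i)) ∧ (∀ k, 0 ≤ w (p k)) ∧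
  (∀ i j, i ≠ j → w (b i) = 0 ∨ w (b j) = 0) ∧ (∀ i j, i ≠ j → w (e i) = 0 ∨ w (e j) = 0) ∧
  (∀ i, w (b i) = 0 ∨ w (e i) = 0) ∧ (w (p 0) = 0 ∨ w (p 1) = 0) ∧
  (w (b 0) + w (b 1) + w (b 2)) + ((w (e 0) + w (e 1) + w (e 2)) + (w (p 0) + w (p 1))) = 1

theorem SphereData.sum_eq (H : SphereData b e p) (w : P →₀ ℝ)
    (hw : ∀ q, q ∉ Set.range b ∪ Set.range e ∪ Set.range p → w q = 0)
    {W : Type} [AddCommGroup W] [Module ℝ W] (v : P → W) :
    (w.sum fun q c => c • v q) =
      (w (b 0) • v (b 0) + w (b 1) • v (b 1) + w (b 2) • v (b 2)) +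
      ((w (e 0) • v (e 0) + w (e 1) • v (e 1) + w (e 2) • v (e 2)) +
      (w (p 0) • v (p 0) + w (p 1) • v (p 1))) := by
  classical
  have hsub : w.support ⊆ Finset.univ.image (Sum.elim b (Sum.elim e p)) := by
    intro q hq
    have hq' : q ∈ Set.range b ∪ Set.range e ∪ Set.range p := by
      by_contra h
      exact Finsupp.mem_support_iff.1 hq (hw q h)
    rw [Finset.mem_image]
    rcases hq' with (⟨i, rfl⟩ | ⟨i, rfl⟩) | ⟨k, rfl⟩
    · exact ⟨Sum.inl i, Finset.mem_univ _, rfl⟩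
    · exact ⟨Sum.inr (Sum.inl i), Finset.mem_univ _, rfl⟩
    · exact ⟨Sum.inr (Sum.inr k), Finset.mem_univ _, rfl⟩
  rw [Finsupp.sum_of_support_subset w hsub _ (fun q _ => zero_smul ℝ (v q)),
    Finset.sum_image (fun x _ y _ h => H.iota_inj h)]
  rw [Fintype.sum_sum_type, Fintype.sum_sum_type, Fin.sum_univ_three, Fin.sum_univ_three,
    Fin.sum_univ_two]
  rfl

theorem SphereData.mem_iff (H : SphereData b e p) (w : P →₀ ℝ) :
    w ∈ orderComplex (Set.range b ∪ Set.range e ∪ Set.range p) ↔ SphCoord b e p w := by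
  constructor
  · rintro ⟨h0, hs, hc, h1⟩
    have hw : ∀ q, q ∉ Set.range b ∪ Set.range e ∪ Set.range p → w q = 0 := by
      intro q hq
      by_contra h
      exact hq (hs (Finsupp.mem_support_iff.2 h))
    refine ⟨hw, fun i => h0 _, fun i => h0 _, fun i => h0 _, fun i j hij => ?_,
      fun i j hij => ?_, fun i => ?_, ?_, ?_⟩
    · by_contra h
      push Not at h
      have hne : b i ≠ b j := fun h' => hij (H.b_inj h')
      rcases hc (Finsupp.mem_support_iff.2 h.1) (Finsupp.mem_support_iff.2 h.2) hne with h3 | h3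
      · exact H.h_b _ _ (lt_of_le_of_ne h3 hne)
      · exact H.h_b _ _ (lt_of_le_of_ne h3 hne.symm)
    · by_contra h
      push Not at h
      have hne : e i ≠ e j := fun h' => hij (H.e_inj h')
      rcases hc (Finsupp.mem_support_iff.2 h.1) (Finsupp.mem_support_iff.2 h.2) hne with h3 | h3
      · exact H.h_e _ _ (lt_of_le_of_ne h3 hne)
      · exact H.h_e _ _ (lt_of_le_of_ne h3 hne.symm)
    · by_contra h
      push Not at h
      exact H.b_e i (hc (Finsupp.mem_support_iff.2 h.1) (Finsupp.mem_support_iff.2 h.2)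
        (H.b_ne_e i i))
    · by_contra h
      push Not at h
      have hne : p 0 ≠ p 1 := fun h' => absurd (H.hp h') (by decide)
      rcases hc (Finsupp.mem_support_iff.2 h.1) (Finsupp.mem_support_iff.2 h.2) hne with h3 | h3
      · exact H.h_p _ _ (lt_of_le_of_ne h3 hne)
      · exact H.h_p _ _ (lt_of_le_of_ne h3 hne.symm)
    · have h2 := H.sum_eq w hw (fun _ => (1 : ℝ))
      simp only [smul_eq_mul, mul_one] at h2
      rw [← h2]
      exact h1
  · rintro ⟨hw, hb, he, hp, hbb, hee, hbe, hpp, h1⟩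
    have hs : (w.support : Set P) ⊆ Set.range b ∪ Set.range e ∪ Set.range p := by
      intro q hq
      by_contra h
      exact Finsupp.mem_support_iff.1 hq (hw q h)
    refine ⟨fun q => ?_, hs, ?_, ?_⟩
    · by_cases hq : q ∈ Set.range b ∪ Set.range e ∪ Set.range p
      · rcases hq with (⟨i, rfl⟩ | ⟨i, rfl⟩) | ⟨k, rfl⟩
        · exact hb i
        · exact he i
        · exact hp k
      · rw [hw q hq]
    · intro x hx y hy hne
      have hx0 : w x ≠ 0 := Finsupp.mem_support_iff.1 hx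
      have hy0 : w y ≠ 0 := Finsupp.mem_support_iff.1 hy
      rcases hs hx with (⟨i, rfl⟩ | ⟨i, rfl⟩) | ⟨k, rfl⟩ <;>
        rcases hs hy with (⟨j, rfl⟩ | ⟨j, rfl⟩) | ⟨l, rfl⟩
      · have hij : i ≠ j := fun h => hne (by rw [h])
        rcases hbb i j hij with h | h
        · exact absurd h hx0
        · exact absurd h hy0
      · by_cases hij : i = j
        · subst hij
          rcases hbe i with h | h
          · exact absurd h hx0
          · exact absurd h hy0
        · exact Or.inr ((H.h_eb j i).2 (Ne.symm hij)).le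
      · exact Or.inr (H.pb l i).le
      · by_cases hij : i = j
        · subst hij
          rcases hbe i with h | h
          · exact absurd h hy0
          · exact absurd h hx0
        · exact Or.inl ((H.h_eb i j).2 hij).le
      · have hij : i ≠ j := fun h => hne (by rw [h])
        rcases hee i j hij with h | h
        · exact absurd h hx0
        · exact absurd h hy0
      · exact Or.inr (H.h_pe l i).le
      · exact Or.inl (H.pb k j).le
      · exact Or.inl (H.h_pe k j).le
      · exfalso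
        have hkl : k ≠ l := fun h => hne (by rw [h])
        have h01 : (k = 0 ∧ l = 1) ∨ (k = 1 ∧ l = 0) := by
          have aux : ∀ k l : Fin 2, k ≠ l → (k = 0 ∧ l = 1) ∨ (k = 1 ∧ l = 0) := by decide
          exact aux k l hkl
        rcases h01 with ⟨rfl, rfl⟩ | ⟨rfl, rfl⟩
        · rcases hpp with h | h
          · exact hx0 h
          · exact hy0 h
        · rcases hpp with h | h
          · exact hy0 h
          · exact hx0 h
    · have h2 := H.sum_eq w hw (fun _ => (1 : ℝ))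
      simp only [smul_eq_mul, mul_one] at h2
      rw [h1] at h2
      exact h2

/-- The images of the vertices of the order complex. -/
noncomputable def sphVert : Fin 3 ⊕ Fin 3 ⊕ Fin 2 → (Fin 4 → ℝ) :=
  Sum.elim ![![0, 1, 0, 0], ![0, 0, 1, 0], ![0, 0, 0, 1]]
    (Sum.elim ![![0, 0, 1 / 2, 1 / 2], ![0, 1 / 2, 0, 1 / 2], ![0, 1 / 2, 1 / 2, 0]]
      ![![1, 0, 0, 0], ![0, 1 / 3, 1 / 3, 1 / 3]])

/-- The linear map inducing the homeomorphism. -/
noncomputable def sphMap (b e : Fin 3 → P) (p : Fin 2 → P) : (P →₀ ℝ) →ₗ[ℝ] (Fin 4 → ℝ) :=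
  Finsupp.linearCombination ℝ (Function.extend (Sum.elim b (Sum.elim e p)) sphVert 0)

theorem SphereData.sphMap_apply (H : SphereData b e p) (w : P →₀ ℝ)
    (hw : ∀ q, q ∉ Set.range b ∪ Set.range e ∪ Set.range p → w q = 0) :
    sphMap b e p w = ![w (p 0), w (b 0) + (w (e 1) + w (e 2)) / 2 + w (p 1) / 3,
      w (b 1) + (w (e 0) + w (e 2)) / 2 + w (p 1) / 3,
      w (b 2) + (w (e 0) + w (e 1)) / 2 + w (p 1) / 3] := by
  have key : ∀ a, Function.extend (Sum.elim b (Sum.elim e p)) sphVert 0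
      (Sum.elim b (Sum.elim e p) a) = sphVert a := fun a => H.iota_inj.extend_apply _ _ a
  have kb : ∀ i, Function.extend (Sum.elim b (Sum.elim e p)) sphVert 0 (b i) =
    sphVert (Sum.inl i) := fun i => key (Sum.inl i)
  have ke : ∀ i, Function.extend (Sum.elim b (Sum.elim e p)) sphVert 0 (e i) =
    sphVert (Sum.inr (Sum.inl i)) := fun i => key (Sum.inr (Sum.inl i))
  have kp : ∀ i, Function.extend (Sum.elim b (Sum.elim e p)) sphVert 0 (p i) =
    sphVert (Sum.inr (Sum.inr i)) := fun i => key (Sum.inr (Sum.inr i))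
  rw [sphMap, Finsupp.linearCombination_apply, H.sum_eq w hw]
  simp only [kb, ke, kp]
  simp only [sphVert, Sum.elim_inl, Sum.elim_inr]
  ext i
  fin_cases i
  · simp
  · simp; ring
  · simp; ring
  · simp; ring

end

theorem orderComplex_sphere {P : Type} [PartialOrder P] (b e : Fin 3 → P) (p : Fin 2 → P)
    (hp : Function.Injective p) (h_eb : ∀ i j, e i < b j ↔ i ≠ j) (h_pe : ∀ k i, p k < e i)
    (h_b : ∀ i j, ¬ b i < b j) (h_e : ∀ i j, ¬ e i < e j) (h_p : ∀ k l, ¬ p k < p l) :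
    PLHomeomorphic (orderComplex (Set.range b ∪ Set.range e ∪ Set.range p)) (plSphere 2) := by
  classical
  have H : SphereData b e p := ⟨hp, h_eb, h_pe, h_b, h_e, h_p⟩
  refine ⟨sphMap b e p, ⟨?_, ?_, ?_⟩, ?_⟩
  · -- maps to
    intro w hw
    rw [H.mem_iff] at hw
    obtain ⟨h0, hb, he, hpn, hbb, hee, hbe, hpp, h1⟩ := hw
    rw [H.sphMap_apply w h0]
    have b0 := hb 0
    have b1 := hb 1
    have b2 := hb 2
    have e0 := he 0
    have e1 := he 1
    have e2 := he 2
    have p0 := hpn 0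
    have p1 := hpn 1
    refine ⟨?_, ?_, ?_⟩
    · intro i
      fin_cases i <;> simp <;> linarith
    · rw [Fin.sum_univ_four]
      simp
      linarith
    · rcases hpp with h | h
      · exact ⟨0, by simpa using h⟩
      · have hc := sphere_cases (hbb 0 1 (by decide)) (hbb 0 2 (by decide)) (hbb 1 2 (by decide))
          (hee 0 1 (by decide)) (hee 0 2 (by decide)) (hee 1 2 (by decide)) (hbe 0) (hbe 1)
          (hbe 2)
        rcases hc with ⟨h1, h2, h3, h4⟩ | ⟨h1, h2, h3, h4⟩ | ⟨h1, h2, h3, h4⟩ |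
          ⟨h1, h2, h3, h4⟩ | ⟨h1, h2, h3, h4⟩ | ⟨h1, h2, h3, h4⟩
        · exact ⟨2, by simp [h, h1, h3, h4]⟩
        · exact ⟨3, by simp [h, h2, h3, h4]⟩
        · exact ⟨1, by simp [h, h1, h3, h4]⟩
        · exact ⟨3, by simp [h, h2, h3, h4]⟩
        · exact ⟨1, by simp [h, h1, h3, h4]⟩
        · exact ⟨2, by simp [h, h2, h3, h4]⟩
  · -- injectivity
    intro w hw w' hw' heq
    rw [H.mem_iff] at hw hw'
    obtain ⟨h0, hb, he, hpn, hbb, hee, hbe, hpp, h1⟩ := hw
    obtain ⟨h0', hb', he', hpn', hbb', hee', hbe', hpp', h1'⟩ := hw'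
    rw [H.sphMap_apply w h0, H.sphMap_apply w' h0'] at heq
    have q0 := congrFun heq 0
    have q1 := congrFun heq 1
    have q2 := congrFun heq 2
    have q3 := congrFun heq 3
    simp only [Matrix.cons_val] at q0 q1 q2 q3
    obtain ⟨f1, f2, f3, f4, f5, f6, f7⟩ := sphere_fwd (hb 0) (hb 1) (hb 2) (he 0) (he 1) (he 2)
      (hbb 0 1 (by decide)) (hbb 0 2 (by decide)) (hbb 1 2 (by decide))
      (hee 0 1 (by decide)) (hee 0 2 (by decide)) (hee 1 2 (by decide)) (hbe 0) (hbe 1) (hbe 2)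
      (t := w (p 1)) rfl rfl rfl
    obtain ⟨g1, g2, g3, g4, g5, g6, g7⟩ := sphere_fwd (hb' 0) (hb' 1) (hb' 2) (he' 0) (he' 1)
      (he' 2) (hbb' 0 1 (by decide)) (hbb' 0 2 (by decide)) (hbb' 1 2 (by decide))
      (hee' 0 1 (by decide)) (hee' 0 2 (by decide)) (hee' 1 2 (by decide)) (hbe' 0) (hbe' 1)
      (hbe' 2) (t := w' (p 1)) q1 q2 q3
    ext q
    by_cases hq : q ∈ Set.range b ∪ Set.range e ∪ Set.range p
    · rcases hq with (⟨i, rfl⟩ | ⟨i, rfl⟩) | ⟨k, rfl⟩
      · fin_cases i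
        · exact f2.trans g2.symm
        · exact f3.trans g3.symm
        · exact f4.trans g4.symm
      · fin_cases i
        · exact f5.trans g5.symm
        · exact f6.trans g6.symm
        · exact f7.trans g7.symm
      · fin_cases k
        · exact q0
        · exact f1.trans g1.symm
    · rw [h0 q hq, h0' q hq]
  · -- surjectivity
    intro u hu
    obtain ⟨hu0, hu1, hu2⟩ := hu
    obtain ⟨b0, b1, b2, e0, e1, e2, t, hb0, hb1, hb2, he0, he1, he2, ht, m1, m2, m3, m4, m5, m6,
      m7, m8, m9, hx, hy, hz⟩ := sphere_bwd (u 1) (u 2) (u 3)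
    have ht0 : 0 ≤ t := by
      rw [ht]
      have := le_min (hu0 1) (le_min (hu0 2) (hu0 3))
      linarith
    set c : Fin 3 ⊕ Fin 3 ⊕ Fin 2 → ℝ :=
      Sum.elim ![b0, b1, b2] (Sum.elim ![e0, e1, e2] ![u 0, t]) with hc
    set w : P →₀ ℝ := Finsupp.onFinset (Finset.univ.image (Sum.elim b (Sum.elim e p)))
      (Function.extend (Sum.elim b (Sum.elim e p)) c 0) (by
        intro q hq
        by_contra h
        apply hq
        rw [Function.extend_apply']
        · rfl
        · rintro ⟨a, rfl⟩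
          exact h (Finset.mem_image_of_mem _ (Finset.mem_univ _))) with hwdef
    have key : ∀ a, w (Sum.elim b (Sum.elim e p) a) = c a := fun a =>
      H.iota_inj.extend_apply _ _ a
    have kb : ∀ i, w (b i) = ![b0, b1, b2] i := fun i => key (Sum.inl i)
    have ke : ∀ i, w (e i) = ![e0, e1, e2] i := fun i => key (Sum.inr (Sum.inl i))
    have kp : ∀ i, w (p i) = ![u 0, t] i := fun i => key (Sum.inr (Sum.inr i))
    have kw : ∀ q, q ∉ Set.range b ∪ Set.range e ∪ Set.range p → w q = 0 := by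
      intro q hq
      show Function.extend (Sum.elim b (Sum.elim e p)) c 0 q = 0
      rw [Function.extend_apply']
      · rfl
      · rintro ⟨a, rfl⟩
        apply hq
        rcases a with i | i | k
        · exact Or.inl (Or.inl ⟨i, rfl⟩)
        · exact Or.inl (Or.inr ⟨i, rfl⟩)
        · exact Or.inr ⟨k, rfl⟩
    refine ⟨w, ?_, ?_⟩
    · rw [H.mem_iff]
      refine ⟨kw, ?_, ?_, ?_, ?_, ?_, ?_, ?_, ?_⟩
      · intro i
        rw [kb]
        fin_cases i
        · exact hb0
        · exact hb1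
        · exact hb2
      · intro i
        rw [ke]
        fin_cases i
        · exact he0
        · exact he1
        · exact he2
      · intro k
        rw [kp]
        fin_cases k
        · exact hu0 0
        · exact ht0
      · intro i j hij
        rw [kb, kb]
        fin_cases i <;> fin_cases j
        · exact absurd rfl hij
        · exact m1
        · exact m2
        · exact m1.symm
        · exact absurd rfl hij
        · exact m3
        · exact m2.symm
        · exact m3.symm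
        · exact absurd rfl hij
      · intro i j hij
        rw [ke, ke]
        fin_cases i <;> fin_cases j
        · exact absurd rfl hij
        · exact m4
        · exact m5
        · exact m4.symm
        · exact absurd rfl hij
        · exact m6
        · exact m5.symm
        · exact m6.symm
        · exact absurd rfl hij
      · intro i
        rw [kb, ke]
        fin_cases i
        · exact m7
        · exact m8
        · exact m9
      · rw [kp, kp]
        show u 0 = 0 ∨ t = 0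
        obtain ⟨i, hi⟩ := hu2
        by_cases h0 : u 0 = 0
        · exact Or.inl h0
        · right
          have h1 := hu0 1
          have h2 := hu0 2
          have h3 := hu0 3
          have hmin : min (u 1) (min (u 2) (u 3)) ≤ 0 := by
            fin_cases i
            · exact absurd hi h0
            · exact (min_le_left _ _).trans (le_of_eq hi)
            · exact (min_le_right _ _).trans ((min_le_left _ _).trans (le_of_eq hi))
            · exact (min_le_right _ _).trans ((min_le_right _ _).trans (le_of_eq hi))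
          rw [ht] at ht0 ⊢
          linarith
      · simp only [kb, ke, kp]
        rw [Fin.sum_univ_four] at hu1
        show (b0 + b1 + b2) + ((e0 + e1 + e2) + (u 0 + t)) = 1
        linarith
    · rw [H.sphMap_apply w kw]
      simp only [kb, ke, kp]
      ext i
      fin_cases i
      · rfl
      · exact hx.symm
      · exact hy.symm
      · exact hz.symm
  · exact graph_orderComplex _ (((Set.finite_range b).union (Set.finite_range e)).union
      (Set.finite_range p)) (sphMap b e p)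

end Pool.Agent.Lib.MP_0bb41e_ag
end
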