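import Pool.Agent.Lib.MP_0bb41e_ag.KTwoBasic
import Pool.Agent.Lib.MP_0bb41e_ag.Sphere

section

/-!
# Unramified classes over `F[X]` are constant (Milnor)
-/

set_option autoImplicit false
set_option linter.unusedSectionVars false

namespace Pool.Agent.Lib.MP_0bb41e_ag

open WithZero Polynomial IsDedekindDomain

universe u

section Milnor

variable {F L : Type u} [Field F] [Field L] [Algebra F[X] L] [IsFractionRing F[X] L]

/-- `a` is (the image of) a polynomial of degree less than `d`. -/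
def PD (F : Type u) [Field F] {L : Type u} [Field L] [Algebra F[X] L] (d : ℕ) (a : Lˣ) : Prop :=
  ∃ f : F[X], f.degree < d ∧ algebraMap F[X] L f = a

variable (F L) in
/-- The group generated by the polynomials of degree less than `d`. -/
def GD (d : ℕ) : Subgroup Lˣ := Subgroup.closure {a | PD F d a}

variable (F L) in
/-- The subgroup of `K₂ / 2` generated by symbols of polynomials of degree less than `d`. -/
noncomputable def LD (d : ℕ) : Submodule (ZMod 2) (KTwo L) :=
  Submodule.span (ZMod 2) {x | ∃ a ∈ GD F L d, ∃ b ∈ GD F L d, x = sym a b}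

lemma sym_mem_LD {d : ℕ} {a b : Lˣ} (ha : a ∈ GD F L d) (hb : b ∈ GD F L d) :
    sym a b ∈ LD F L d := Submodule.subset_span ⟨a, ha, b, hb, rfl⟩

lemma PD.mem {d : ℕ} {a : Lˣ} (h : PD F d a) : a ∈ GD F L d := Subgroup.subset_closure h

lemma PD.mono {d e : ℕ} (hde : d ≤ e) {a : Lˣ} (h : PD F d a) : PD F e a := by
  obtain ⟨f, hf, h⟩ := h
  exact ⟨f, lt_of_lt_of_le hf (by exact_mod_cast hde), h⟩

lemma GD_mono {d e : ℕ} (hde : d ≤ e) : GD F L d ≤ GD F L e :=
  Subgroup.closure_mono fun _ h => PD.mono hde h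

lemma LD_mono {d e : ℕ} (hde : d ≤ e) : LD F L d ≤ LD F L e := by
  apply Submodule.span_mono
  rintro _ ⟨a, ha, b, hb, rfl⟩
  exact ⟨a, GD_mono hde ha, b, GD_mono hde hb, rfl⟩

lemma exists_GD (a : Lˣ) : ∃ d, a ∈ GD F L d := by
  obtain ⟨f, g, hg, h⟩ := IsFractionRing.div_surjective (A := F[X]) (a : L)
  have hg0 : g ≠ 0 := nonZeroDivisors.ne_zero hg
  have hgL : algebraMap F[X] L g ≠ 0 := by
    simpa using hg0
  have hfL : algebraMap F[X] L f ≠ 0 := by
    intro h0
    rw [h0, zero_div] at h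
    exact a.ne_zero h.symm
  refine ⟨max f.natDegree g.natDegree + 1, ?_⟩
  have e : a = Units.mk0 _ hfL * (Units.mk0 _ hgL)⁻¹ := by
    ext; simp [← h, div_eq_mul_inv]
  rw [e]
  refine Subgroup.mul_mem _ (PD.mem (F := F) ⟨f, ?_, rfl⟩)
    (Subgroup.inv_mem _ (PD.mem (F := F) ⟨g, ?_, rfl⟩))
  · refine lt_of_le_of_lt degree_le_natDegree ?_
    have : f.natDegree < max f.natDegree g.natDegree + 1 := by omega
    exact_mod_cast this
  · refine lt_of_le_of_lt degree_le_natDegree ?_
    have : g.natDegree < max f.natDegree g.natDegree + 1 := by omega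
    exact_mod_cast this

lemma exists_LD (x : KTwo L) : ∃ d, x ∈ LD F L d := by
  have hx : x ∈ Submodule.span (ZMod 2) (Set.range fun p : Lˣ × Lˣ => sym p.1 p.2) := by
    rw [span_sym]; trivial
  induction hx using Submodule.span_induction with
  | mem x h =>
    obtain ⟨⟨a, b⟩, rfl⟩ := h
    obtain ⟨d, hd⟩ := exists_GD (F := F) a
    obtain ⟨e, he⟩ := exists_GD (F := F) b
    exact ⟨max d e, sym_mem_LD (GD_mono (le_max_left _ _) hd) (GD_mono (le_max_right _ _) he)⟩
  | zero => exact ⟨0, Submodule.zero_mem _⟩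
  | add x y _ _ hx hy =>
    obtain ⟨d, hd⟩ := hx
    obtain ⟨e, he⟩ := hy
    exact ⟨max d e, Submodule.add_mem _ (LD_mono (le_max_left _ _) hd)
      (LD_mono (le_max_right _ _) he)⟩
  | smul c x _ hx =>
    obtain ⟨d, hd⟩ := hx
    exact ⟨d, Submodule.smul_mem _ _ hd⟩

/-- The image of a nonzero polynomial, as a unit. -/
noncomputable def pun (f : F[X]) (hf : f ≠ 0) : Lˣ :=
  Units.mk0 (algebraMap F[X] L f) (by simpa using hf)

@[simp] lemma pun_val (f : F[X]) (hf : f ≠ 0) : ((pun f hf : Lˣ) : L) = algebraMap F[X] L f := rfl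

/-- The height one prime of `F[X]` attached to an irreducible polynomial. -/
noncomputable def hos (π : F[X]) (hπ : Irreducible π) : HeightOneSpectrum F[X] where
  asIdeal := Ideal.span {π}
  isPrime := (Ideal.span_singleton_prime hπ.ne_zero).mpr hπ.prime
  ne_bot := by simpa using hπ.ne_zero

lemma hos_val_lt_one_iff {π : F[X]} (hπ : Irreducible π) (f : F[X]) :
    (hos π hπ).valuation L (algebraMap F[X] L f) < 1 ↔ π ∣ f := by
  rw [HeightOneSpectrum.valuation_lt_one_iff_mem]
  exact Ideal.mem_span_singleton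

lemma hos_val_eq_one {π : F[X]} (hπ : Irreducible π) {f : F[X]} (h : ¬ π ∣ f) :
    (hos π hπ).valuation L (algebraMap F[X] L f) = 1 := by
  apply le_antisymm (HeightOneSpectrum.valuation_le_one _ _)
  rw [← not_lt, hos_val_lt_one_iff hπ]
  exact h

lemma hos_vord_self {π : F[X]} (hπ : Irreducible π) :
    vord ((hos π hπ).valuation L) (pun π hπ.ne_zero) = 1 := by
  unfold vord
  rw [pun_val, HeightOneSpectrum.valuation_of_algebraMap,
    HeightOneSpectrum.intValuation_singleton _ hπ.ne_zero rfl]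
  simp

lemma not_dvd_of_degree_lt {π : F[X]} {f : F[X]} (hf : f ≠ 0) (h : f.degree < π.degree) :
    ¬ π ∣ f := fun hd => absurd (degree_le_of_dvd hd hf) (not_le.mpr h)

lemma vord_GD {π : F[X]} (hπ : Irreducible π) {a : Lˣ} (ha : a ∈ GD F L π.natDegree) :
    vord ((hos π hπ).valuation L) a = 0 := by
  induction ha using Subgroup.closure_induction with
  | mem a h =>
    obtain ⟨f, hf, h⟩ := h
    have hf0 : f ≠ 0 := by
      rintro rfl
      rw [map_zero] at h
      exact a.ne_zero h.symm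
    rw [vord_eq_zero_iff, ← h]
    refine hos_val_eq_one hπ (not_dvd_of_degree_lt hf0 ?_)
    rw [degree_eq_natDegree hπ.ne_zero]
    exact hf
  | one => rw [vord_eq_zero_iff]; simp
  | mul a b _ _ ha hb => rw [vord_mul, ha, hb, add_zero]
  | inv a _ ha =>
    have := vord_mul ((hos π hπ).valuation L) a a⁻¹
    rw [mul_inv_cancel, ha, zero_add] at this
    rw [← this, vord_eq_zero_iff]
    simp

variable (hi : ∃ i : L, i ^ 2 = -1)
include hi

/-- Reduction of a product modulo `π`. -/
lemma reduce_mul {π : F[X]} (hπ : Irreducible π) (hm : π.Monic) {g₁ g₂ : F[X]}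
    (h₁ : g₁.degree < π.natDegree) (h₂ : g₂.degree < π.natDegree) (h₁0 : g₁ ≠ 0) (h₂0 : g₂ ≠ 0) :
    ∃ (g : F[X]) (hg0 : g ≠ 0), g.degree < π.natDegree ∧ π ∣ g₁ * g₂ - g ∧
      sym (pun π hπ.ne_zero) (pun g₁ h₁0 * pun g₂ h₂0) + sym (pun π hπ.ne_zero) (pun g hg0) ∈
        LD F L π.natDegree := by
  have hπd : π.degree = π.natDegree := degree_eq_natDegree hπ.ne_zero
  have hdvd : ¬ π ∣ g₁ * g₂ := by
    intro h
    rcases hπ.prime.dvd_or_dvd h with h | h
    · exact not_dvd_of_degree_lt h₁0 (by rw [hπd]; exact h₁) h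
    · exact not_dvd_of_degree_lt h₂0 (by rw [hπd]; exact h₂) h
  have hg0 : (g₁ * g₂) %ₘ π ≠ 0 := by
    rw [Ne, modByMonic_eq_zero_iff_dvd hm]; exact hdvd
  have hgd : ((g₁ * g₂) %ₘ π).degree < π.natDegree := by
    rw [← hπd]; exact degree_modByMonic_lt _ hm
  have hdiv := modByMonic_add_div (g₁ * g₂) π
  refine ⟨(g₁ * g₂) %ₘ π, hg0, hgd, ⟨(g₁ * g₂) /ₘ π, by linear_combination -hdiv⟩, ?_⟩
  set g := (g₁ * g₂) %ₘ π with hg
  by_cases hf0 : (g₁ * g₂) /ₘ π = 0
  · have e : (pun g₁ h₁0 * pun g₂ h₂0 : Lˣ) = pun g hg0 := by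
      ext
      rw [Units.val_mul, pun_val, pun_val, pun_val, ← map_mul, ← hdiv, hf0, mul_zero, add_zero]
    rw [e, kt_add_self]
    exact Submodule.zero_mem _
  · set f := (g₁ * g₂) /ₘ π with hf
    have hfd : f.degree < π.natDegree := by
      have h1 : f.natDegree = (g₁ * g₂).natDegree - π.natDegree := natDegree_divByMonic _ hm
      rw [natDegree_mul h₁0 h₂0] at h1
      rw [degree_eq_natDegree h₁0] at h₁
      rw [degree_eq_natDegree h₂0] at h₂
      have h₁' : g₁.natDegree < π.natDegree := by exact_mod_cast h₁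
      have h₂' : g₂.natDegree < π.natDegree := by exact_mod_cast h₂
      rw [degree_eq_natDegree hf0]
      have : f.natDegree < π.natDegree := by omega
      exact_mod_cast this
    have m1 : (pun g₁ h₁0 : Lˣ) ∈ GD F L π.natDegree := PD.mem ⟨g₁, h₁, rfl⟩
    have m2 : (pun g₂ h₂0 : Lˣ) ∈ GD F L π.natDegree := PD.mem ⟨g₂, h₂, rfl⟩
    have m3 : (pun g hg0 : Lˣ) ∈ GD F L π.natDegree := PD.mem ⟨g, hgd, rfl⟩
    have m4 : (pun f hf0 : Lˣ) ∈ GD F L π.natDegree := PD.mem ⟨f, hfd, rfl⟩
    have m12 := Subgroup.mul_mem _ m1 m2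
    set b₁₂ : Lˣ := pun g₁ h₁0 * pun g₂ h₂0 with hb
    have st : sym (pun g hg0 / b₁₂) (pun f hf0 * pun π hπ.ne_zero / b₁₂) = 0 := by
      apply sym_steinberg
      have hb0 : (b₁₂ : L) ≠ 0 := b₁₂.ne_zero
      rw [Units.val_div_eq_div_val, Units.val_div_eq_div_val, ← add_div, div_eq_one_iff_eq hb0, hb,
        Units.val_mul, Units.val_mul, pun_val, pun_val, pun_val, pun_val, pun_val, ← map_mul,
        ← map_mul, ← map_add, ← hdiv, mul_comm f π]
    rw [sym_div_right, sym_mul_right] at st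
    have e1 : sym (pun g hg0 / b₁₂) (pun f hf0) ∈ LD F L π.natDegree :=
      sym_mem_LD (Subgroup.div_mem _ m3 m12) m4
    have e2 : sym (pun g hg0 / b₁₂) b₁₂ ∈ LD F L π.natDegree :=
      sym_mem_LD (Subgroup.div_mem _ m3 m12) m12
    have e3 : sym (pun g hg0 / b₁₂) (pun π hπ.ne_zero) =
        sym (pun g hg0 / b₁₂) (pun f hf0) + sym (pun g hg0 / b₁₂) b₁₂ := by
      rw [← kt_neg (sym (pun g hg0 / b₁₂) (pun π hπ.ne_zero))]
      rw [neg_eq_iff_add_eq_zero]
      rw [← st]; abel
    have e4 : sym (pun π hπ.ne_zero) b₁₂ + sym (pun π hπ.ne_zero) (pun g hg0) =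
        sym (pun g hg0 / b₁₂) (pun π hπ.ne_zero) := by
      rw [sym_comm hi _ b₁₂, sym_comm hi _ (pun g hg0), sym_div_left, add_comm]
    rw [e4, e3]
    exact Submodule.add_mem _ e1 e2

/-- Two distinct monic irreducible polynomials of the same degree. -/
lemma sym_two_irreducibles {π π' : F[X]} (hπ : Irreducible π) (hm : π.Monic)
    (hπ' : Irreducible π') (hm' : π'.Monic) (hd : π'.natDegree = π.natDegree) (hne : π ≠ π') :
    ∃ b ∈ GD F L π.natDegree, sym (pun π hπ.ne_zero) (pun π' hπ'.ne_zero) =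
      sym (pun π hπ.ne_zero) b + sym (pun π' hπ'.ne_zero) b := by
  have hf0 : π - π' ≠ 0 := sub_ne_zero.mpr hne
  have hfd : (π - π').degree < π.natDegree := by
    rw [← degree_eq_natDegree hπ.ne_zero]
    exact degree_sub_lt_left (by rw [degree_eq_natDegree hπ.ne_zero, degree_eq_natDegree hπ'.ne_zero, hd])
      hπ.ne_zero (by rw [hm.leadingCoeff, hm'.leadingCoeff])
  refine ⟨pun (π - π') hf0, PD.mem ⟨_, hfd, rfl⟩, ?_⟩
  have st : sym (pun π' hπ'.ne_zero / pun π hπ.ne_zero : Lˣ)
      (pun (π - π') hf0 / pun π hπ.ne_zero) = 0 := by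
    apply sym_steinberg
    have hb0 : ((pun π hπ.ne_zero : Lˣ) : L) ≠ 0 := Units.ne_zero _
    rw [Units.val_div_eq_div_val, Units.val_div_eq_div_val, ← add_div, div_eq_one_iff_eq hb0,
      pun_val, pun_val, pun_val, ← map_add]
    congr 1
    ring
  rw [sym_div_right, sym_div_left, sym_div_left, sym_self hi, add_zero,
    sym_comm hi (pun π' hπ'.ne_zero) (pun π hπ.ne_zero)] at st
  rw [← kt_neg (sym (pun π hπ.ne_zero) (pun π' hπ'.ne_zero)), neg_eq_iff_add_eq_zero, ← st]
  abel

omit hi in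
lemma split_PD {d : ℕ} (hd : 1 ≤ d) {a : Lˣ} (ha : PD F (d + 1) a) :
    a ∈ GD F L d ∨ ∃ c ∈ GD F L d, ∃ (π : F[X]) (hπ : Irreducible π), π.Monic ∧
      π.natDegree = d ∧ a = c * pun π hπ.ne_zero := by
  obtain ⟨f, hf, ha⟩ := ha
  have hf0 : f ≠ 0 := by
    rintro rfl
    rw [map_zero] at ha
    exact a.ne_zero ha.symm
  have hfd : f.natDegree < d + 1 := by
    rw [degree_eq_natDegree hf0] at hf
    exact_mod_cast hf
  have hae : a = pun f hf0 := Units.ext ha.symm
  have small : ∀ (g : F[X]) (hg : g ≠ 0), g.natDegree < d → (pun g hg : Lˣ) ∈ GD F L d := by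
    intro g hg hgd
    exact PD.mem ⟨g, by rw [degree_eq_natDegree hg]; exact_mod_cast hgd, rfl⟩
  rcases Nat.lt_or_ge f.natDegree d with h | h
  · left; rw [hae]; exact small f hf0 h
  have hfd' : f.natDegree = d := by omega
  have hunit : ¬ IsUnit f := by
    intro hu
    have := natDegree_eq_zero_of_isUnit hu
    omega
  by_cases hirr : Irreducible f
  · right
    have hlc : f.leadingCoeff ≠ 0 := leadingCoeff_ne_zero.mpr hf0
    have hCu : IsUnit (C f.leadingCoeff⁻¹) := isUnit_C.mpr (inv_ne_zero hlc).isUnit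
    have hπ : Irreducible (f * C f.leadingCoeff⁻¹) := by
      rwa [irreducible_mul_isUnit hCu]
    have hC0 : (C f.leadingCoeff : F[X]) ≠ 0 := by simpa using hf0
    refine ⟨pun (C f.leadingCoeff) hC0, small _ hC0 (by rw [natDegree_C]; omega),
      f * C f.leadingCoeff⁻¹, hπ, monic_mul_leadingCoeff_inv hf0,
      (natDegree_mul_leadingCoeff_inv f hf0).trans hfd', ?_⟩
    rw [hae]
    ext
    rw [Units.val_mul, pun_val, pun_val, pun_val, ← map_mul]
    congr 1
    rw [mul_comm, mul_assoc, ← C_mul, inv_mul_cancel₀ hlc, C_1, mul_one]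
  · left
    rw [irreducible_iff] at hirr
    push Not at hirr
    obtain ⟨g, h, hfgh, hg, hh⟩ := hirr hunit
    have hg0 : g ≠ 0 := by rintro rfl; apply hf0; rw [hfgh, zero_mul]
    have hh0 : h ≠ 0 := by rintro rfl; apply hf0; rw [hfgh, mul_zero]
    have hgd : 0 < g.natDegree := by
      rw [Nat.pos_iff_ne_zero]
      intro h0
      apply hg
      rw [eq_C_of_natDegree_eq_zero h0] at hg0 ⊢
      exact isUnit_C.mpr (IsUnit.mk0 _ (by simpa using hg0))
    have hhd : 0 < h.natDegree := by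
      rw [Nat.pos_iff_ne_zero]
      intro h0
      apply hh
      rw [eq_C_of_natDegree_eq_zero h0] at hh0 ⊢
      exact isUnit_C.mpr (IsUnit.mk0 _ (by simpa using hh0))
    have hsum : g.natDegree + h.natDegree = d := by
      rw [← natDegree_mul hg0 hh0, ← hfgh, hfd']
    have e : a = pun g hg0 * pun h hh0 := by
      rw [hae]
      ext
      rw [Units.val_mul, pun_val, pun_val, pun_val, ← map_mul, hfgh]
    rw [e]
    exact Subgroup.mul_mem _ (small g hg0 (by omega)) (small h hh0 (by omega))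

/-- `L_d` together with the symbols `{π, b}`, `π ∈ S` monic irreducible of degree `d`. -/
noncomputable def MS (F : Type u) [Field F] (L : Type u) [Field L] [Algebra F[X] L]
    [IsFractionRing F[X] L] (S : Set F[X]) (d : ℕ) : Submodule (ZMod 2) (KTwo L) :=
  Submodule.span (ZMod 2) ({x | ∃ a ∈ GD F L d, ∃ b ∈ GD F L d, x = sym a b} ∪
    {x | ∃ (π : F[X]) (hπ : Irreducible π), π.Monic ∧ π.natDegree = d ∧ π ∈ S ∧
      ∃ b ∈ GD F L d, x = sym (pun π hπ.ne_zero) b})

omit hi in
lemma LD_le_MS (S : Set F[X]) (d : ℕ) : LD F L d ≤ MS F L S d :=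
  Submodule.span_mono Set.subset_union_left

omit hi in
lemma MS_mono {S T : Set F[X]} (h : S ⊆ T) (d : ℕ) : MS F L S d ≤ MS F L T d := by
  apply Submodule.span_mono
  rintro x (hx | ⟨π, hπ, h1, h2, h3, h4⟩)
  · exact Or.inl hx
  · exact Or.inr ⟨π, hπ, h1, h2, h h3, h4⟩

lemma LD_succ_le {d : ℕ} (hd : 1 ≤ d) : LD F L (d + 1) ≤ MS F L Set.univ d := by
  -- symbols of two elements each of which is in `GD d` or is of the form `c π`
  have key1 : ∀ a b : Lˣ, PD F (d + 1) a → PD F (d + 1) b → sym a b ∈ MS F L Set.univ d := by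
    intro a b ha hb
    have hsp : ∀ (π : F[X]) (hπ : Irreducible π), π.Monic → π.natDegree = d → ∀ c ∈ GD F L d,
        sym (pun π hπ.ne_zero) c ∈ MS F L Set.univ d := fun π hπ h1 h2 c hc =>
      Submodule.subset_span (Or.inr ⟨π, hπ, h1, h2, Set.mem_univ _, c, hc, rfl⟩)
    have hgg : ∀ a ∈ GD F L d, ∀ b ∈ GD F L d, sym a b ∈ MS F L Set.univ d := fun a ha b hb =>
      Submodule.subset_span (Or.inl ⟨a, ha, b, hb, rfl⟩)
    rcases split_PD hd ha with ha | ⟨c, hc, π, hπ, hm, hdeg, rfl⟩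
    · rcases split_PD hd hb with hb | ⟨c', hc', π', hπ', hm', hdeg', rfl⟩
      · exact hgg a ha b hb
      · rw [sym_mul_right, sym_comm hi a (pun π' _)]
        exact Submodule.add_mem _ (hgg a ha c' hc') (hsp π' hπ' hm' hdeg' a ha)
    · rcases split_PD hd hb with hb | ⟨c', hc', π', hπ', hm', hdeg', rfl⟩
      · rw [sym_mul_left]
        exact Submodule.add_mem _ (hgg c hc b hb) (hsp π hπ hm hdeg b hb)
      · rw [sym_mul_left, sym_mul_right, sym_mul_right, sym_comm hi c (pun π' _)]
        refine Submodule.add_mem _ (Submodule.add_mem _ (hgg c hc c' hc')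
          (hsp π' hπ' hm' hdeg' c hc)) (Submodule.add_mem _ (hsp π hπ hm hdeg c' hc') ?_)
        by_cases hne : π = π'
        · subst hne
          rw [sym_self hi]
          exact Submodule.zero_mem _
        · obtain ⟨b, hb, e⟩ := sym_two_irreducibles hi hπ hm hπ' hm' (hdeg'.trans hdeg.symm) hne
          rw [hdeg] at hb
          rw [e]
          exact Submodule.add_mem _ (hsp π hπ hm hdeg b hb) (hsp π' hπ' hm' hdeg' b hb)
  have key2 : ∀ a : Lˣ, PD F (d + 1) a → ∀ b ∈ GD F L (d + 1), sym a b ∈ MS F L Set.univ d := by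
    intro a ha b hb
    induction hb using Subgroup.closure_induction with
    | mem b h => exact key1 a b ha h
    | one => rw [sym_one_right]; exact Submodule.zero_mem _
    | mul b b' _ _ h h' => rw [sym_mul_right]; exact Submodule.add_mem _ h h'
    | inv b _ h => rw [sym_inv_right]; exact h
  have key3 : ∀ a ∈ GD F L (d + 1), ∀ b ∈ GD F L (d + 1), sym a b ∈ MS F L Set.univ d := by
    intro a ha b hb
    induction ha using Subgroup.closure_induction with
    | mem a h => exact key2 a h b hb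
    | one => rw [sym_one_left]; exact Submodule.zero_mem _
    | mul b b' _ _ h h' => rw [sym_mul_left]; exact Submodule.add_mem _ h h'
    | inv b _ h => rw [sym_inv_left]; exact h
  rw [LD, Submodule.span_le]
  rintro _ ⟨a, ha, b, hb, rfl⟩
  exact key3 a ha b hb

omit hi in
lemma exists_finite_MS {d : ℕ} {x : KTwo L} (hx : x ∈ MS F L Set.univ d) :
    ∃ S : Set F[X], S.Finite ∧ x ∈ MS F L S d := by
  unfold MS at hx
  induction hx using Submodule.span_induction with
  | mem x h =>
    rcases h with h | ⟨π, hπ, h1, h2, -, b, hb, rfl⟩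
    · exact ⟨∅, Set.finite_empty, Submodule.subset_span (Or.inl h)⟩
    · exact ⟨{π}, Set.finite_singleton _, Submodule.subset_span
        (Or.inr ⟨π, hπ, h1, h2, Set.mem_singleton _, b, hb, rfl⟩)⟩
  | zero => exact ⟨∅, Set.finite_empty, Submodule.zero_mem _⟩
  | add x y _ _ hx hy =>
    obtain ⟨S, hS, hx⟩ := hx
    obtain ⟨T, hT, hy⟩ := hy
    exact ⟨S ∪ T, hS.union hT, Submodule.add_mem _ (MS_mono Set.subset_union_left d hx)
      (MS_mono Set.subset_union_right d hy)⟩
  | smul c x _ hx =>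
    obtain ⟨S, hS, hx⟩ := hx
    exact ⟨S, hS, Submodule.smul_mem _ _ hx⟩

lemma residue_LD {π : F[X]} (hπ : Irreducible π) {x : KTwo L} (hx : x ∈ LD F L π.natDegree) :
    residue ((hos π hπ).valuation L) hi x = 0 := by
  unfold LD at hx
  induction hx using Submodule.span_induction with
  | mem x h =>
    obtain ⟨a, ha, b, hb, rfl⟩ := h
    rw [residue_sym, tameElt, vord_GD hπ ha, vord_GD hπ hb, zpow_zero, zpow_zero, mul_one,
      rcls_eq_zero_iff]
    exact Subgroup.one_mem _
  | zero => exact map_zero _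
  | add x y _ _ hx hy => rw [map_add, hx, hy, add_zero]
  | smul c x _ hx => rw [map_smul, hx, smul_zero]

omit hi in
lemma eq_of_dvd_of_monic {π π' : F[X]} (hπ : Irreducible π) (hm : π.Monic)
    (hπ' : Irreducible π') (hm' : π'.Monic) (h : π ∣ π') : π = π' :=
  eq_of_monic_of_associated hm hm' (hπ.associated_of_dvd hπ' h)

lemma residue_MS {π : F[X]} (hπ : Irreducible π) (hm : π.Monic) {S : Set F[X]} (hS : π ∉ S)
    {x : KTwo L} (hx : x ∈ MS F L S π.natDegree) :
    residue ((hos π hπ).valuation L) hi x = 0 := by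
  unfold MS at hx
  induction hx using Submodule.span_induction with
  | mem x h =>
    rcases h with ⟨a, ha, b, hb, rfl⟩ | ⟨π', hπ', hm', -, hS', b, hb, rfl⟩
    · exact residue_LD hi hπ (sym_mem_LD ha hb)
    · have h0 : vord ((hos π hπ).valuation L) (pun π' hπ'.ne_zero) = 0 := by
        rw [vord_eq_zero_iff, pun_val]
        apply hos_val_eq_one hπ
        intro hdvd
        apply hS
        rw [eq_of_dvd_of_monic hπ hm hπ' hm' hdvd]
        exact hS'
      rw [residue_sym, tameElt, h0, vord_GD hπ hb, zpow_zero, zpow_zero, mul_one,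
        rcls_eq_zero_iff]
      exact Subgroup.one_mem _
  | zero => exact map_zero _
  | add x y _ _ hx hy => rw [map_add, hx, hy, add_zero]
  | smul c x _ hx => rw [map_smul, hx, smul_zero]

omit hi in
lemma decompose_MS {π : F[X]} (hπ : Irreducible π) {S : Set F[X]} {x : KTwo L}
    (hx : x ∈ MS F L (insert π S) π.natDegree) :
    ∃ y ∈ MS F L S π.natDegree, ∃ b ∈ GD F L π.natDegree,
      x = y + sym (pun π hπ.ne_zero) b := by
  unfold MS at hx
  induction hx using Submodule.span_induction with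
  | mem x h =>
    rcases h with ⟨a, ha, b, hb, rfl⟩ | ⟨π', hπ', hm', hd', hS', b, hb, rfl⟩
    · exact ⟨sym a b, Submodule.subset_span (Or.inl ⟨a, ha, b, hb, rfl⟩), 1, Subgroup.one_mem _,
        by rw [sym_one_right, add_zero]⟩
    · rcases hS' with h | h
      · subst h
        exact ⟨0, Submodule.zero_mem _, b, hb, by rw [zero_add]⟩
      · exact ⟨_, Submodule.subset_span (Or.inr ⟨π', hπ', hm', hd', h, b, hb, rfl⟩), 1,
          Subgroup.one_mem _, by rw [sym_one_right, add_zero]⟩
  | zero => exact ⟨0, Submodule.zero_mem _, 1, Subgroup.one_mem _, by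
      rw [sym_one_right, add_zero]⟩
  | add x y _ _ hx hy =>
    obtain ⟨x', hx', b, hb, rfl⟩ := hx
    obtain ⟨y', hy', c, hc, rfl⟩ := hy
    exact ⟨x' + y', Submodule.add_mem _ hx' hy', b * c, Subgroup.mul_mem _ hb hc, by
      rw [sym_mul_right]; abel⟩
  | smul c x _ hx =>
    obtain ⟨x', hx', b, hb, rfl⟩ := hx
    have hc : c = 0 ∨ c = 1 := by
      revert c; decide
    rcases hc with rfl | rfl
    · exact ⟨0, Submodule.zero_mem _, 1, Subgroup.one_mem _, by
        rw [sym_one_right, add_zero, zero_smul]⟩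
    · exact ⟨x', hx', b, hb, by rw [one_smul]⟩

omit hi in
lemma div_mem_nsub_of_dvd {π : F[X]} (hπ : Irreducible π) {f g : F[X]} (hf : f ≠ 0) (hg : g ≠ 0)
    (hgπ : ¬ π ∣ g) (h : π ∣ f - g) :
    (pun f hf / pun g hg : Lˣ) ∈ nsub ((hos π hπ).valuation L) := by
  apply principal_mem_nsub
  have e : ((pun f hf / pun g hg : Lˣ) : L) - 1 =
      algebraMap F[X] L (f - g) / algebraMap F[X] L g := by
    have : algebraMap F[X] L g ≠ 0 := by simpa using hg
    rw [Units.val_div_eq_div_val, pun_val, pun_val, map_sub]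
    field_simp
  rw [e, map_div₀, hos_val_eq_one hπ hgπ, div_one, hos_val_lt_one_iff hπ]
  exact h

lemma reduce_GD {π : F[X]} (hπ : Irreducible π) (hm : π.Monic) {b : Lˣ}
    (hb : b ∈ GD F L π.natDegree) :
    ∃ (g : F[X]) (hg0 : g ≠ 0), g.degree < π.natDegree ∧
      b / pun g hg0 ∈ nsub ((hos π hπ).valuation L) ∧
      sym (pun π hπ.ne_zero) b + sym (pun π hπ.ne_zero) (pun g hg0) ∈ LD F L π.natDegree := by
  have hd1 : 0 < π.natDegree := hπ.natDegree_pos
  induction hb using Subgroup.closure_induction with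
  | mem b h =>
    obtain ⟨f, hf, h⟩ := h
    have hf0 : f ≠ 0 := by
      rintro rfl
      rw [map_zero] at h
      exact b.ne_zero h.symm
    have e : b = pun f hf0 := Units.ext h.symm
    refine ⟨f, hf0, hf, ?_, ?_⟩
    · rw [e, div_self']; exact Subgroup.one_mem _
    · rw [e, kt_add_self]; exact Submodule.zero_mem _
  | one =>
    refine ⟨1, one_ne_zero, ?_, ?_, ?_⟩
    · rw [degree_one]; exact_mod_cast hd1
    · have : (pun (1 : F[X]) one_ne_zero : Lˣ) = 1 := by ext; simp
      rw [this, div_self']; exact Subgroup.one_mem _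
    · have : (pun (1 : F[X]) one_ne_zero : Lˣ) = 1 := by ext; simp
      rw [this, sym_one_right, add_zero]; exact Submodule.zero_mem _
  | mul b₁ b₂ _ _ h₁ h₂ =>
    obtain ⟨g₁, hg₁, hd₁, hn₁, hs₁⟩ := h₁
    obtain ⟨g₂, hg₂, hd₂, hn₂, hs₂⟩ := h₂
    obtain ⟨g, hg, hd, hdvd, hs⟩ := reduce_mul hi hπ hm hd₁ hd₂ hg₁ hg₂
    have hgπ : ¬ π ∣ g := not_dvd_of_degree_lt hg (by
      rw [degree_eq_natDegree hπ.ne_zero]; exact hd)
    refine ⟨g, hg, hd, ?_, ?_⟩
    · have h12 : (pun (g₁ * g₂) (mul_ne_zero hg₁ hg₂) / pun g hg : Lˣ) ∈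
          nsub ((hos π hπ).valuation L) := div_mem_nsub_of_dvd hπ _ hg hgπ hdvd
      have e : b₁ * b₂ / pun g hg = (b₁ / pun g₁ hg₁) * (b₂ / pun g₂ hg₂) *
          (pun (g₁ * g₂) (mul_ne_zero hg₁ hg₂) / pun g hg) := by
        have e' : (pun (g₁ * g₂) (mul_ne_zero hg₁ hg₂) : Lˣ) = pun g₁ hg₁ * pun g₂ hg₂ := by
          ext; simp
        rw [e']
        rw [div_mul_div_comm, div_mul_div_cancel]
      rw [e]
      exact Subgroup.mul_mem _ (Subgroup.mul_mem _ hn₁ hn₂) h12
    · have e : sym (pun π hπ.ne_zero) (b₁ * b₂) + sym (pun π hπ.ne_zero) (pun g hg) =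
          (sym (pun π hπ.ne_zero) b₁ + sym (pun π hπ.ne_zero) (pun g₁ hg₁)) +
          (sym (pun π hπ.ne_zero) b₂ + sym (pun π hπ.ne_zero) (pun g₂ hg₂)) +
          (sym (pun π hπ.ne_zero) (pun g₁ hg₁ * pun g₂ hg₂) +
            sym (pun π hπ.ne_zero) (pun g hg)) := by
        rw [sym_mul_right, sym_mul_right]
        have k1 := kt_add_self (sym (pun π hπ.ne_zero : Lˣ) (pun g₁ hg₁))
        have k2 := kt_add_self (sym (pun π hπ.ne_zero : Lˣ) (pun g₂ hg₂))
        generalize sym (pun π hπ.ne_zero : Lˣ) (pun g₁ hg₁) = A at *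
        generalize sym (pun π hπ.ne_zero : Lˣ) (pun g₂ hg₂) = B at *
        generalize sym (pun π hπ.ne_zero : Lˣ) b₁ = C at *
        generalize sym (pun π hπ.ne_zero : Lˣ) b₂ = D at *
        generalize sym (pun π hπ.ne_zero : Lˣ) (pun g hg) = E at *
        calc C + D + E = C + D + E + (A + A) + (B + B) := by rw [k1, k2, add_zero, add_zero]
          _ = _ := by abel
      rw [e]
      exact Submodule.add_mem _ (Submodule.add_mem _ hs₁ hs₂) hs
  | inv b _ h =>
    obtain ⟨g, hg, hd, hn, hs⟩ := h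
    refine ⟨g, hg, hd, ?_, by rw [sym_inv_right]; exact hs⟩
    have e : b⁻¹ / pun g hg = (b / pun g hg) * (b⁻¹) ^ 2 := by
      rw [pow_two, div_mul_eq_mul_div, mul_inv_cancel_left]
    rw [e]
    exact Subgroup.mul_mem _ hn (sq_mem_nsub _ _)

/-- Approximation of a `π`-adic unit by a polynomial of small degree. -/
lemma exists_approx {π : F[X]} (hπ : Irreducible π) (hm : π.Monic) {s : L}
    (hs : (hos π hπ).valuation L s = 1) :
    ∃ (h : F[X]), h ≠ 0 ∧ h.degree < π.natDegree ∧
      (hos π hπ).valuation L (algebraMap F[X] L h - s) < 1 := by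
  obtain ⟨h₀, hh₀⟩ := (hos π hπ).exists_valuation_sub_lt_of_integer (K := L) hs.le 1
  have hh₀' : (hos π hπ).valuation L (algebraMap F[X] L h₀ - s) < 1 := hh₀
  have hdiv := modByMonic_add_div h₀ π
  have hh : (hos π hπ).valuation L (algebraMap F[X] L (h₀ %ₘ π) - s) < 1 := by
    have e : algebraMap F[X] L (h₀ %ₘ π) - s =
        (algebraMap F[X] L h₀ - s) - algebraMap F[X] L (π * (h₀ /ₘ π)) := by
      have := congrArg (algebraMap F[X] L) hdiv
      rw [map_add] at this
      linear_combination this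
    rw [e]
    refine lt_of_le_of_lt (Valuation.map_sub _ _ _) (max_lt hh₀' ?_)
    rw [hos_val_lt_one_iff hπ]
    exact dvd_mul_right _ _
  refine ⟨h₀ %ₘ π, ?_, ?_, hh⟩
  · intro h0
    rw [h0, map_zero, zero_sub, Valuation.map_neg, hs] at hh
    exact lt_irrefl _ hh
  · rw [← degree_eq_natDegree hπ.ne_zero]
    exact degree_modByMonic_lt _ hm

lemma sym_mem_of_nsub {π : F[X]} (hπ : Irreducible π) (hm : π.Monic) {g : F[X]} (hg : g ≠ 0)
    (hd : g.degree < π.natDegree) (hn : (pun g hg : Lˣ) ∈ nsub ((hos π hπ).valuation L)) :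
    sym (pun π hπ.ne_zero : Lˣ) (pun g hg) ∈ LD F L π.natDegree := by
  obtain ⟨s, u, hu, e⟩ := hn
  set v := (hos π hπ).valuation L with hv
  have hvg : vord v (pun g hg) = 0 := vord_GD hπ (PD.mem ⟨g, hd, rfl⟩)
  have hvu : vord v u = 0 := by
    rw [vord_eq_zero_iff]
    have := Valuation.map_add_eq_of_lt_right v (x := (u : L) - 1) (y := 1) (by simpa using hu)
    simpa using this
  have hvs : v (s : L) = 1 := by
    rw [← vord_eq_zero_iff]
    have h1 := hvg
    rw [e, vord_mul, hvu, pow_two, vord_mul] at h1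
    omega
  obtain ⟨h, hh0, hhd, hh⟩ := exists_approx hi hπ hm hvs
  obtain ⟨g', hg', hd', hdvd, hs⟩ := reduce_mul hi hπ hm hhd hhd hh0 hh0
  have hgs : v (algebraMap F[X] L (g - h * h)) < 1 := by
    have e1 : algebraMap F[X] L (g - h * h) =
        (s : L) * s * ((u : L) - 1) - (algebraMap F[X] L h - s) * (algebraMap F[X] L h + s) := by
      have e2 : algebraMap F[X] L g = (s : L) ^ 2 * u := by
        have := congrArg (fun z : Lˣ => (z : L)) e
        simpa using this
      rw [map_sub, map_mul, e2]; ring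
    rw [e1]
    refine lt_of_le_of_lt (Valuation.map_sub _ _ _) (max_lt ?_ ?_)
    · rw [map_mul, map_mul, hvs, one_mul, one_mul]; exact hu
    · have h3 : v (algebraMap F[X] L h + s) ≤ 1 :=
        (Valuation.map_add _ _ _).trans (max_le (HeightOneSpectrum.valuation_le_one _ _) hvs.le)
      rw [map_mul]
      calc v (algebraMap F[X] L h - s) * v (algebraMap F[X] L h + s)
          ≤ v (algebraMap F[X] L h - s) * 1 := mul_le_mul_right h3 _
        _ = v (algebraMap F[X] L h - s) := mul_one _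
        _ < 1 := hh
  rw [hos_val_lt_one_iff hπ] at hgs
  have hgg' : g = g' := by
    by_contra hne
    have hne' : g - g' ≠ 0 := sub_ne_zero.mpr hne
    have h4 : π ∣ g - g' := by
      have := dvd_add hgs hdvd
      rwa [sub_add_sub_cancel] at this
    refine not_dvd_of_degree_lt hne' ?_ h4
    rw [degree_eq_natDegree hπ.ne_zero]
    exact lt_of_le_of_lt (degree_sub_le _ _) (max_lt hd hd')
  subst hgg'
  rw [← pow_two, sym_sq_right, zero_add] at hs
  exact hs

lemma LD_step {d : ℕ} (hd : 1 ≤ d) {x : KTwo L} (hx : x ∈ LD F L (d + 1))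
    (hres : ∀ (π : F[X]) (hπ : Irreducible π), residue ((hos π hπ).valuation L) hi x = 0) :
    x ∈ LD F L d := by
  obtain ⟨S, hS, hxS⟩ := exists_finite_MS (LD_succ_le hi hd hx)
  clear hx
  induction S, hS using Set.Finite.induction_on generalizing x with
  | empty =>
    unfold MS at hxS
    have : ({x | ∃ (π : F[X]) (hπ : Irreducible π), π.Monic ∧ π.natDegree = d ∧ π ∈ (∅ : Set F[X]) ∧
      ∃ b ∈ GD F L d, x = sym (pun π hπ.ne_zero) b} : Set (KTwo L)) = ∅ := by
      ext y
      simp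
    rw [this, Set.union_empty] at hxS
    exact hxS
  | @insert π S hπS _ ih =>
    by_cases hgood : Irreducible π ∧ π.Monic ∧ π.natDegree = d
    · obtain ⟨hπ, hm, rfl⟩ := hgood
      obtain ⟨y, hy, b, hb, rfl⟩ := decompose_MS hπ hxS
      have h1 := hres π hπ
      rw [map_add, residue_MS hi hπ hm hπS hy, zero_add, residue_sym, tameElt, vord_GD hπ hb,
        hos_vord_self hπ, zpow_zero, zpow_one, one_mul, rcls_eq_zero_iff] at h1
      obtain ⟨g, hg, hgd, hn, hs⟩ := reduce_GD hi hπ hm hb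
      have hgn : (pun g hg : Lˣ) ∈ nsub ((hos π hπ).valuation L) := by
        have : (pun g hg : Lˣ) = b / (b / pun g hg) := by rw [div_div_cancel]
        rw [this]
        exact Subgroup.div_mem _ h1 hn
      have h2 := sym_mem_of_nsub hi hπ hm hg hgd hgn
      have h3 : sym (pun π hπ.ne_zero) b ∈ LD F L π.natDegree := by
        have := Submodule.sub_mem _ hs h2
        rwa [add_sub_cancel_right] at this
      apply ih hres
      exact Submodule.add_mem _ hy (LD_le_MS _ _ h3)
    · apply ih hres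
      refine (Submodule.span_mono ?_) hxS
      rintro x (hx | ⟨π', hπ', h1, h2, h3, h4⟩)
      · exact Or.inl hx
      · rcases h3 with h3 | h3
        · subst h3
          exact absurd ⟨hπ', h1, h2⟩ hgood
        · exact Or.inr ⟨π', hπ', h1, h2, h3, h4⟩

omit hi in
lemma LD_one_le [Algebra F L] [IsScalarTower F F[X] L] :
    LD F L 1 ≤ LinearMap.range (ktMap (algebraMap F L)) := by
  have hG : ∀ a ∈ GD F L 1, ∃ c : Fˣ, Units.map (algebraMap F L : F →* L) c = a := by
    intro a ha
    have : GD F L 1 ≤ (Units.map (algebraMap F L : F →* L)).range := by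
      unfold GD
      rw [Subgroup.closure_le]
      rintro a ⟨f, hf, h⟩
      have hf0 : f ≠ 0 := by
        rintro rfl
        rw [map_zero] at h
        exact a.ne_zero h.symm
      have hdeg : f.natDegree = 0 := by
        rw [degree_eq_natDegree hf0] at hf
        have : f.natDegree < 1 := by exact_mod_cast hf
        omega
      rw [eq_C_of_natDegree_eq_zero hdeg] at h hf0
      have hc0 : f.coeff 0 ≠ 0 := by simpa using hf0
      refine ⟨Units.mk0 _ hc0, ?_⟩
      ext
      rw [Units.coe_map, Units.val_mk0, ← h]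
      change algebraMap F L (f.coeff 0) = _
      rw [IsScalarTower.algebraMap_apply F F[X] L]
      rfl
    exact this ha
  unfold LD
  rw [Submodule.span_le]
  rintro _ ⟨a, ha, b, hb, rfl⟩
  obtain ⟨c, rfl⟩ := hG a ha
  obtain ⟨d, rfl⟩ := hG b hb
  exact ⟨sym c d, ktMap_sym _ _ _⟩

/-- **Milnor.** A class of `K₂(L)/2`, `L = F(X)`, which is unramified at all irreducible
polynomials, comes from `K₂(F)/2`. -/
theorem milnor [Algebra F L] [IsScalarTower F F[X] L] (x : KTwo L)
    (hres : ∀ (π : F[X]) (hπ : Irreducible π), residue ((hos π hπ).valuation L) hi x = 0) :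
    ∃ y : KTwo F, ktMap (algebraMap F L) y = x := by
  obtain ⟨n, hn⟩ := exists_LD (F := F) x
  have key : ∀ n : ℕ, x ∈ LD F L (n + 1) → x ∈ LD F L 1 := by
    intro n
    induction n with
    | zero => exact id
    | succ n ih => exact fun h => ih (LD_step hi (by omega) h hres)
  exact LD_one_le (key n (LD_mono (by omega) hn))

end Milnor

end Pool.Agent.Lib.MP_0bb41e_ag
end

section

section

/-!
# Discrete valuation rings and residues
-/

set_option autoImplicit false
set_option linter.unusedSectionVars false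

namespace Pool.Agent.Lib.MP_0bb41e_ag

open WithZero

section VRing

variable {K : Type} [Field K] [Algebra ℂ K]

/-- The valuation ring of `v`, as a `ℂ`-subalgebra. -/
def vring (v : Valuation K ℤᵐ⁰) (hv : ∀ c : ℂ, v (algebraMap ℂ K c) ≤ 1) : Subalgebra ℂ K where
  carrier := {y | v y ≤ 1}
  mul_mem' := by
    intro x y hx hy
    change v (x * y) ≤ 1
    rw [map_mul]
    exact mul_le_one' hx hy
  add_mem' := fun {x y} hx hy => (v.map_add x y).trans (max_le hx hy)
  algebraMap_mem' := hv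

variable (v : Valuation K ℤᵐ⁰) (hv : ∀ c : ℂ, v (algebraMap ℂ K c) ≤ 1)

lemma mem_vring {y : K} : y ∈ vring v hv ↔ v y ≤ 1 := Iff.rfl

lemma vring_isUnit_iff (y : vring v hv) : IsUnit y ↔ v (y : K) = 1 := by
  constructor
  · intro h
    obtain ⟨z, hz⟩ := h.exists_right_inv
    have h1 : (y : K) * (z : K) = 1 := by
      have := congrArg (fun t : vring v hv => (t : K)) hz
      simpa using this
    have h2 : v (y : K) * v (z : K) = 1 := by rw [← map_mul, h1, map_one]
    have hy : v (y : K) ≤ 1 := y.2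
    have hz' : v (z : K) ≤ 1 := z.2
    apply le_antisymm hy
    rw [← h2]
    calc v (y : K) * v (z : K) ≤ v (y : K) * 1 := mul_le_mul_right hz' _
      _ = v (y : K) := mul_one _
  · intro h
    have hy0 : (y : K) ≠ 0 := by
      intro h0
      rw [h0, map_zero] at h
      exact zero_ne_one h
    refine IsUnit.of_mul_eq_one (⟨(y : K)⁻¹, ?_⟩ : vring v hv) ?_
    · rw [mem_vring, map_inv₀, h, inv_one]
    · ext
      simp [hy0]

lemma exists_unit_of_ne_zero {y : K} (hy : y ≠ 0) : ∃ u : Kˣ, (u : K) = y := ⟨Units.mk0 y hy, rfl⟩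

lemma vord_zpow (a : Kˣ) (n : ℤ) : vord v (a ^ n) = n * vord v a := by
  unfold vord
  rw [Units.val_zpow_eq_zpow_val, map_zpow₀, log_zpow]
  simp

lemma vord_inv (a : Kˣ) : vord v a⁻¹ = - vord v a := by
  have := vord_zpow v a (-1)
  rw [zpow_neg_one] at this
  rw [this]; ring

lemma v_le_one_iff (a : Kˣ) : v (a : K) ≤ 1 ↔ 0 ≤ vord v a := by
  rw [v_eq_exp, ← exp_zero, exp_le_exp]; omega

theorem isDVR_vring {p : Kˣ} (hp : vord v p = 1) : IsDVR (vring v hv) := by
  have hpm : (p : K) ∈ vring v hv := by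
    rw [mem_vring, v_le_one_iff, hp]; norm_num
  constructor
  · apply IsDiscreteValuationRing.ofHasUnitMulPowIrreducibleFactorization
    refine ⟨⟨p, hpm⟩, ?_, ?_⟩
    · constructor
      · rw [vring_isUnit_iff, ← vord_eq_zero_iff, hp]
        norm_num
      · intro a b hab
        have hab' : (p : K) = (a : K) * (b : K) := by
          have := congrArg (fun t : vring v hv => (t : K)) hab
          simpa using this
        have ha0 : (a : K) ≠ 0 := by
          intro h; rw [h, zero_mul] at hab'; exact p.ne_zero hab'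
        have hb0 : (b : K) ≠ 0 := by
          intro h; rw [h, mul_zero] at hab'; exact p.ne_zero hab'
        obtain ⟨a', ha'⟩ := exists_unit_of_ne_zero ha0
        obtain ⟨b', hb'⟩ := exists_unit_of_ne_zero hb0
        have h1 : vord v p = vord v a' + vord v b' := by
          rw [← vord_mul]
          congr 1
          ext
          rw [Units.val_mul, ha', hb', hab']
        have h2 : 0 ≤ vord v a' := by rw [← v_le_one_iff, ha']; exact a.2
        have h3 : 0 ≤ vord v b' := by rw [← v_le_one_iff, hb']; exact b.2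
        rw [vring_isUnit_iff, vring_isUnit_iff, ← ha', ← hb', ← vord_eq_zero_iff,
          ← vord_eq_zero_iff]
        omega
    · intro x hx
      have hx0 : (x : K) ≠ 0 := by
        intro h; apply hx; ext; exact h
      obtain ⟨x', hx'⟩ := exists_unit_of_ne_zero hx0
      have h2 : 0 ≤ vord v x' := by rw [← v_le_one_iff, hx']; exact x.2
      refine ⟨(vord v x').toNat, ?_⟩
      have hu : vord v (x' * (p ^ (vord v x'))⁻¹) = 0 := by
        rw [vord_mul, vord_inv, vord_zpow, hp]; ring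
      have hum : ((x' * (p ^ (vord v x'))⁻¹ : Kˣ) : K) ∈ vring v hv := by
        rw [mem_vring, v_le_one_iff, hu]
      have hun : IsUnit (⟨_, hum⟩ : vring v hv) := by
        rw [vring_isUnit_iff, ← vord_eq_zero_iff, hu]
      refine ⟨hun.unit, ?_⟩
      ext
      rw [IsUnit.unit_spec]
      push_cast
      rw [← hx', ← zpow_natCast, Int.toNat_of_nonneg h2]
      have : (p : K) ^ (vord v x') ≠ 0 := zpow_ne_zero _ p.ne_zero
      field_simp
  · apply IsFractionRing.of_field
    intro z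
    by_cases hz : v z ≤ 1
    · exact ⟨⟨z, hz⟩, 1, by rw [map_one, div_one]; rfl⟩
    · have hz0 : z ≠ 0 := by
        rintro rfl; apply hz; simp
      refine ⟨1, ⟨z⁻¹, ?_⟩, ?_⟩
      · rw [mem_vring, map_inv₀]
        exact inv_le_one_of_one_le₀ (not_le.mp hz).le
      · rw [map_one]
        change z = 1 / z⁻¹
        rw [one_div, inv_inv]

lemma natAbs_add (j : ℤ) : ∃ k : ℤ, j + (j.natAbs : ℤ) = 2 * k := by
  rcases le_total 0 j with h | h
  · exact ⟨j, by omega⟩
  · exact ⟨0, by omega⟩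

/-- The tame symbol in terms of unit parts. -/
lemma tameElt_mul_mem {p a b u w : Kˣ} (ha : a = p ^ (vord v a) * u)
    (hb : b = p ^ (vord v b) * w) :
    tameElt v a b * (u ^ (vord v b).natAbs * w ^ (vord v a).natAbs) ∈ nsub v := by
  obtain ⟨k, hk⟩ := natAbs_add (vord v b)
  obtain ⟨l, hl⟩ := natAbs_add (vord v a)
  unfold tameElt
  generalize vord v a = i at *
  generalize vord v b = j at *
  have e : a ^ j * b ^ i * (u ^ j.natAbs * w ^ i.natAbs) =
      (p ^ (i * j) * u ^ k * w ^ l) ^ 2 := by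
    have e1 : a ^ j = p ^ (i * j) * u ^ j := by rw [ha, mul_zpow, ← zpow_mul]
    have e2 : b ^ i = p ^ (i * j) * w ^ i := by rw [hb, mul_zpow, ← zpow_mul, mul_comm j i]
    have e3 : u ^ j * u ^ j.natAbs = (u ^ k) ^ 2 := by
      rw [← zpow_natCast u, ← zpow_add, hk, mul_comm, zpow_mul]
      exact zpow_natCast _ 2
    have e4 : w ^ i * w ^ i.natAbs = (w ^ l) ^ 2 := by
      rw [← zpow_natCast w, ← zpow_add, hl, mul_comm, zpow_mul]
      exact zpow_natCast _ 2
    rw [e1, e2, mul_pow, mul_pow, ← e3, ← e4, pow_two]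
    generalize p ^ (i * j) = P
    generalize u ^ j = U
    generalize w ^ i = W
    generalize u ^ j.natAbs = U'
    generalize w ^ i.natAbs = W'
    ext
    simp only [Units.val_mul]
    ring
  rw [e]
  exact sq_mem_nsub v _

lemma irreducible_vring {p : Kˣ} (hp : vord v p = 1) (hpm : (p : K) ∈ vring v hv) :
    Irreducible (⟨p, hpm⟩ : vring v hv) := by
  constructor
  · rw [vring_isUnit_iff, ← vord_eq_zero_iff, hp]
    norm_num
  · intro a b hab
    have hab' : (p : K) = (a : K) * (b : K) := by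
      have := congrArg (fun t : vring v hv => (t : K)) hab
      simpa using this
    have ha0 : (a : K) ≠ 0 := by
      intro h; rw [h, zero_mul] at hab'; exact p.ne_zero hab'
    have hb0 : (b : K) ≠ 0 := by
      intro h; rw [h, mul_zero] at hab'; exact p.ne_zero hab'
    obtain ⟨a', ha'⟩ := exists_unit_of_ne_zero ha0
    obtain ⟨b', hb'⟩ := exists_unit_of_ne_zero hb0
    have h1 : vord v p = vord v a' + vord v b' := by
      rw [← vord_mul]
      congr 1
      ext
      rw [Units.val_mul, ha', hb', hab']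
    have h2 : 0 ≤ vord v a' := by rw [← v_le_one_iff, ha']; exact a.2
    have h3 : 0 ≤ vord v b' := by rw [← v_le_one_iff, hb']; exact b.2
    rw [vring_isUnit_iff, vring_isUnit_iff, ← ha', ← hb', ← vord_eq_zero_iff,
      ← vord_eq_zero_iff]
    omega

theorem residue_of_tameTrivial (hi : ∃ i : K, i ^ 2 = -1) {p : Kˣ} (hp : vord v p = 1)
    (a b : Kˣ) (h : TameTrivial (vring v hv) (a : K) (b : K)) :
    residue v hi (sym a b) = 0 := by
  have hpm : (p : K) ∈ vring v hv := by
    rw [mem_vring, v_le_one_iff, hp]; norm_num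
  rw [residue_sym, rcls_eq_zero_iff]
  set u : Kˣ := a * (p ^ (vord v a))⁻¹ with hu
  set w : Kˣ := b * (p ^ (vord v b))⁻¹ with hw
  have ha : a = p ^ (vord v a) * u := by rw [hu]; rw [mul_comm, inv_mul_cancel_right]
  have hb : b = p ^ (vord v b) * w := by rw [hw]; rw [mul_comm, inv_mul_cancel_right]
  have hvu : vord v u = 0 := by rw [hu, vord_mul, vord_inv, vord_zpow, hp]; ring
  have hvw : vord v w = 0 := by rw [hw, vord_mul, vord_inv, vord_zpow, hp]; ring
  have hum : (u : K) ∈ vring v hv := by rw [mem_vring, v_le_one_iff, hvu]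
  have hwm : (w : K) ∈ vring v hv := by rw [mem_vring, v_le_one_iff, hvw]
  have huu : IsUnit (⟨u, hum⟩ : vring v hv) := by
    rw [vring_isUnit_iff]; exact (vord_eq_zero_iff v u).mp hvu
  have hwu : IsUnit (⟨w, hwm⟩ : vring v hv) := by
    rw [vring_isUnit_iff]; exact (vord_eq_zero_iff v w).mp hvw
  obtain ⟨s, t, hst⟩ := h ⟨p, hpm⟩ ⟨u, hum⟩ ⟨w, hwm⟩ (vord v a) (vord v b)
    (irreducible_vring v hv hp hpm) huu hwu
    (by
      have := congrArg (fun z : Kˣ => (z : K)) ha
      simpa using this)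
    (by
      have := congrArg (fun z : Kˣ => (z : K)) hb
      simpa using this)
  have hst' : (u : K) ^ (vord v b).natAbs * (w : K) ^ (vord v a).natAbs =
      (s : K) ^ 2 + (p : K) * (t : K) := by
    have := congrArg (fun z : vring v hv => (z : K)) hst
    simpa using this
  set c : Kˣ := u ^ (vord v b).natAbs * w ^ (vord v a).natAbs with hc
  have hcK : (c : K) = (s : K) ^ 2 + (p : K) * (t : K) := by
    rw [← hst', hc]; push_cast; rfl
  have hvc : v (c : K) = 1 := by
    have h1 : v (u : K) = 1 := (vord_eq_zero_iff v u).mp hvu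
    have h2 : v (w : K) = 1 := (vord_eq_zero_iff v w).mp hvw
    rw [hc]; push_cast
    rw [map_mul, map_pow, map_pow, h1, h2, one_pow, one_pow, one_mul]
  have hpt : v ((p : K) * (t : K)) < 1 := by
    have h1 : v (p : K) < 1 := by rw [← vord_pos_iff, hp]; norm_num
    have h2 : v (t : K) ≤ 1 := t.2
    rw [map_mul]
    calc v (p : K) * v (t : K) ≤ v (p : K) * 1 := mul_le_mul_right h2 _
      _ = v (p : K) := mul_one _
      _ < 1 := h1
  have hvs2 : v ((s : K) ^ 2) = 1 := by
    have : (s : K) ^ 2 = (c : K) - (p : K) * (t : K) := by rw [hcK]; ring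
    rw [this, Valuation.map_sub_eq_of_lt_left v (by rw [hvc]; exact hpt), hvc]
  have hs0 : (s : K) ≠ 0 := by
    intro h0
    rw [h0, zero_pow two_ne_zero, map_zero] at hvs2
    exact zero_ne_one hvs2
  have hcn : c ∈ nsub v := by
    refine ⟨Units.mk0 _ hs0, c / (Units.mk0 _ hs0) ^ 2, ?_, by rw [mul_div_cancel]⟩
    have e : ((c / (Units.mk0 _ hs0) ^ 2 : Kˣ) : K) - 1 = ((p : K) * (t : K)) / (s : K) ^ 2 := by
      push_cast
      rw [hcK, Units.val_mk0]
      field_simp
      ring
    rw [e, map_div₀, hvs2, div_one]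
    exact hpt
  have := tameElt_mul_mem v ha hb
  have h3 := Subgroup.mul_mem _ this (Subgroup.inv_mem _ hcn)
  rwa [mul_inv_cancel_right] at h3

end VRing

section General

variable {K : Type} [Field K] [Algebra ℂ K]

/-- The valuation of a discrete valuation ring. -/
noncomputable def dvrVal (R : Subalgebra ℂ K) (hR : IsDVR R) : Valuation K ℤᵐ⁰ :=
  letI := hR.1
  letI := hR.2
  (IsDiscreteValuationRing.maximalIdeal R).valuation K

lemma dvrVal_coe_le (R : Subalgebra ℂ K) (hR : IsDVR R) (x : R) : dvrVal R hR (x : K) ≤ 1 := by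
  letI := hR.1
  letI := hR.2
  exact IsDedekindDomain.HeightOneSpectrum.valuation_le_one
    (IsDiscreteValuationRing.maximalIdeal R) x

lemma dvrVal_mem (R : Subalgebra ℂ K) (hR : IsDVR R) {x : K} (h : dvrVal R hR x ≤ 1) : x ∈ R := by
  letI := hR.1
  letI := hR.2
  obtain ⟨a, ha⟩ := IsDiscreteValuationRing.exists_lift_of_le_one h
  rw [← ha]
  exact a.2

lemma dvrVal_unit (R : Subalgebra ℂ K) (hR : IsDVR R) {x : R} (h : IsUnit x) :
    dvrVal R hR (x : K) = 1 := by
  obtain ⟨y, hy⟩ := h.exists_right_inv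
  have h1 : (x : K) * (y : K) = 1 := by
    have := congrArg (fun t : R => (t : K)) hy
    simpa using this
  have h2 : dvrVal R hR (x : K) * dvrVal R hR (y : K) = 1 := by rw [← map_mul, h1, map_one]
  apply le_antisymm (dvrVal_coe_le R hR x)
  rw [← h2]
  calc dvrVal R hR (x : K) * dvrVal R hR (y : K) ≤ dvrVal R hR (x : K) * 1 :=
        mul_le_mul_right (dvrVal_coe_le R hR y) _
    _ = dvrVal R hR (x : K) := mul_one _

lemma dvrVal_irreducible (R : Subalgebra ℂ K) (hR : IsDVR R) {x : R} (h : Irreducible x) :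
    dvrVal R hR (x : K) = exp (-1) := by
  letI := hR.1
  letI := hR.2
  change (IsDiscreteValuationRing.maximalIdeal R).valuation K (algebraMap R K x) = _
  rw [IsDedekindDomain.HeightOneSpectrum.valuation_of_algebraMap,
    IsDedekindDomain.HeightOneSpectrum.intValuation_singleton _ h.ne_zero]
  exact (IsDiscreteValuationRing.irreducible_iff_uniformizer _).mp h

theorem tameTrivial_of_residue (hi : ∃ i : K, i ^ 2 = -1) (R : Subalgebra ℂ K) (hR : IsDVR R)
    (a b : Kˣ) (hz : residue (dvrVal R hR) hi (sym a b) = 0) :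
    TameTrivial R (a : K) (b : K) := by
  intro ϖ u w i j hϖ hu hw ha hb
  set v := dvrVal R hR with hv
  have hϖ0 : (ϖ : K) ≠ 0 := by
    intro h; exact hϖ.ne_zero (Subtype.ext h)
  have hu0 : (u : K) ≠ 0 := by
    intro h; exact hu.ne_zero (Subtype.ext h)
  have hw0 : (w : K) ≠ 0 := by
    intro h; exact hw.ne_zero (Subtype.ext h)
  set p : Kˣ := Units.mk0 _ hϖ0 with hp
  set u' : Kˣ := Units.mk0 _ hu0 with hu'
  set w' : Kˣ := Units.mk0 _ hw0 with hw'
  have hvp : vord v p = 1 := by
    unfold vord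
    rw [hp, Units.val_mk0, hv, dvrVal_irreducible R hR hϖ, log_exp]
    norm_num
  have hvu : vord v u' = 0 := by
    rw [vord_eq_zero_iff, hu', Units.val_mk0]; exact dvrVal_unit R hR hu
  have hvw : vord v w' = 0 := by
    rw [vord_eq_zero_iff, hw', Units.val_mk0]; exact dvrVal_unit R hR hw
  have ha' : a = p ^ i * u' := by
    ext
    rw [ha]
    simp [hp, hu']
  have hb' : b = p ^ j * w' := by
    ext
    rw [hb]
    simp [hp, hw']
  have hva : vord v a = i := by rw [ha', vord_mul, vord_zpow, hvp, hvu]; ring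
  have hvb : vord v b = j := by rw [hb', vord_mul, vord_zpow, hvp, hvw]; ring
  rw [residue_sym, rcls_eq_zero_iff] at hz
  have h1 := tameElt_mul_mem v (p := p) (a := a) (b := b) (u := u') (w := w')
    (by rw [hva]; exact ha') (by rw [hvb]; exact hb')
  have h2 : u' ^ j.natAbs * w' ^ i.natAbs ∈ nsub v := by
    have := Subgroup.mul_mem _ (Subgroup.inv_mem _ hz) h1
    rw [inv_mul_cancel_left, hva, hvb] at this
    exact this
  obtain ⟨s, y, hy, hsy⟩ := h2
  have hvy : vord v y = 0 := by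
    rw [vord_eq_zero_iff]
    have := Valuation.map_add_eq_of_lt_right v (x := (y : K) - 1) (y := 1) (by simpa using hy)
    simpa using this
  have hvs : vord v s = 0 := by
    have h3 : vord v (u' ^ j.natAbs * w' ^ i.natAbs) = 0 := by
      rw [vord_mul, ← zpow_natCast, ← zpow_natCast, vord_zpow, vord_zpow, hvu, hvw]; ring
    rw [hsy, vord_mul, hvy, pow_two, vord_mul] at h3
    omega
  have hsR : (s : K) ∈ R := dvrVal_mem R hR (by rw [← hv, (vord_eq_zero_iff v s).mp hvs])
  have hvs1 : v (s : K) = 1 := (vord_eq_zero_iff v s).mp hvs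
  have htR : (s : K) ^ 2 * ((y : K) - 1) / (ϖ : K) ∈ R := by
    apply dvrVal_mem R hR
    rw [← hv, map_div₀, map_mul, map_pow, hvs1, one_pow, one_mul]
    have hϖv : v (ϖ : K) = exp (-1) := dvrVal_irreducible R hR hϖ
    rw [hϖv]
    by_cases hy1 : (y : K) - 1 = 0
    · rw [hy1, map_zero, zero_div]; exact zero_le_one
    · obtain ⟨z, hz⟩ := exists_unit_of_ne_zero hy1
      rw [← hz] at hy ⊢
      rw [← vord_pos_iff] at hy
      rw [v_eq_exp, ← exp_sub, ← exp_zero, exp_le_exp]
      omega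
  refine ⟨⟨s, hsR⟩, ⟨_, htR⟩, ?_⟩
  ext
  have e1 := congrArg (fun t : Kˣ => (t : K)) hsy
  simp only [Units.val_mul, Units.val_pow_eq_pow_val, hu', hw', Units.val_mk0] at e1
  push_cast
  rw [e1]
  field_simp
  ring

end General

end Pool.Agent.Lib.MP_0bb41e_ag
end

section

/-!
# Rational function fields in one variable, given by explicit generators
-/

set_option autoImplicit false
set_option linter.style.haveILetI false

namespace Pool.Agent.Lib.MP_0bb41e_ag

open Polynomial WithZero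

universe u

section Rat

variable {F L : Type u} [Field F] [Field L]

/-- `L = F(x)` with `x` transcendental over `F`, where `F` is embedded by `φ`. -/
structure IsRat (φ : F →+* L) (x : L) : Prop where
  inj : ∀ f : F[X], f ≠ 0 → f.eval₂ φ x ≠ 0
  surj : ∀ y : L, ∃ f g : F[X], g ≠ 0 ∧ y = f.eval₂ φ x / g.eval₂ φ x

/-- `v` is the valuation of `L = F(x)` attached to the irreducible polynomial `π`. -/
structure IsPV (φ : F →+* L) (x : L) (π : F[X]) (v : Valuation L ℤᵐ⁰) : Prop where
  le_one : ∀ f : F[X], v (f.eval₂ φ x) ≤ 1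
  lt_one_iff : ∀ f : F[X], v (f.eval₂ φ x) < 1 ↔ π ∣ f
  self : v (π.eval₂ φ x) = exp (-1 : ℤ)

lemma IsPV.eq_one {φ : F →+* L} {x : L} {π : F[X]} {v : Valuation L ℤᵐ⁰} (h : IsPV φ x π v)
    {f : F[X]} (hf : ¬ π ∣ f) : v (f.eval₂ φ x) = 1 := by
  apply le_antisymm (h.le_one f)
  rw [← not_lt, h.lt_one_iff]
  exact hf

/-- Every element of `L = F(x)` has a reduced fraction. -/
lemma IsRat.exists_coprime {φ : F →+* L} {x : L} (h : IsRat φ x) (y : L) :
    ∃ f g : F[X], g ≠ 0 ∧ IsCoprime f g ∧ y = f.eval₂ φ x / g.eval₂ φ x := by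
  classical
  obtain ⟨f, g, hg, hy⟩ := h.surj y
  obtain ⟨f', g', hfg, hd, hf', hg'⟩ : ∃ f' g' : F[X], IsCoprime f' g' ∧
      (EuclideanDomain.gcd f g) ≠ 0 ∧ f = EuclideanDomain.gcd f g * f' ∧
      g = EuclideanDomain.gcd f g * g' := by
    have hd : EuclideanDomain.gcd f g ≠ 0 := by
      intro h0
      exact hg (EuclideanDomain.gcd_eq_zero_iff.mp h0).2
    obtain ⟨f', hf'⟩ := EuclideanDomain.gcd_dvd_left f g
    obtain ⟨g', hg'⟩ := EuclideanDomain.gcd_dvd_right f g
    refine ⟨f', g', ?_, hd, hf', hg'⟩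
    have h1 := EuclideanDomain.gcd_eq_gcd_ab f g
    refine ⟨EuclideanDomain.gcdA f g, EuclideanDomain.gcdB f g, ?_⟩
    apply mul_left_cancel₀ hd
    calc EuclideanDomain.gcd f g * (EuclideanDomain.gcdA f g * f' +
          EuclideanDomain.gcdB f g * g')
        = (EuclideanDomain.gcd f g * f') * EuclideanDomain.gcdA f g +
          (EuclideanDomain.gcd f g * g') * EuclideanDomain.gcdB f g := by ring
      _ = f * EuclideanDomain.gcdA f g + g * EuclideanDomain.gcdB f g := by
          rw [← hf', ← hg']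
      _ = EuclideanDomain.gcd f g * 1 := by rw [← h1, mul_one]
  refine ⟨f', g', ?_, hfg, ?_⟩
  · rintro rfl; rw [mul_zero] at hg'; exact hg hg'
  · rw [hy]
    have e1 : f.eval₂ φ x = (EuclideanDomain.gcd f g).eval₂ φ x * f'.eval₂ φ x := by
      rw [← eval₂_mul, ← hf']
    have e2 : g.eval₂ φ x = (EuclideanDomain.gcd f g).eval₂ φ x * g'.eval₂ φ x := by
      rw [← eval₂_mul, ← hg']
    rw [e1, e2, mul_div_mul_left _ _ (h.inj _ hd)]

/-- Integral elements have a denominator prime to `π`. -/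
lemma IsPV.exists_frac {φ : F →+* L} {x : L} (h : IsRat φ x) {π : F[X]}
    {v : Valuation L ℤᵐ⁰} (hv : IsPV φ x π v) (hπ : Irreducible π) {y : L} (hy : v y ≤ 1) :
    ∃ f g : F[X], ¬ π ∣ g ∧ IsCoprime f g ∧ y = f.eval₂ φ x / g.eval₂ φ x := by
  obtain ⟨f, g, hg, hfg, e⟩ := h.exists_coprime y
  refine ⟨f, g, ?_, hfg, e⟩
  intro hd
  have hf : ¬ π ∣ f := fun hf => hπ.not_isUnit (hfg.isUnit_of_dvd' hf hd)
  have h1 := hv.eq_one hf
  have h2 := (hv.lt_one_iff g).mpr hd
  have hg0 : g.eval₂ φ x ≠ 0 := h.inj g hg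
  have h3 : f.eval₂ φ x = y * g.eval₂ φ x := by rw [e, div_mul_cancel₀ _ hg0]
  rw [h3, map_mul] at h1
  have : v y * v (g.eval₂ φ x) < 1 :=
    lt_of_le_of_lt (mul_le_of_le_one_left' hy) h2
  rw [h1] at this
  exact lt_irrefl _ this

theorem exists_pv {φ : F →+* L} {x : L} (h : IsRat φ x) {π : F[X]} (hπ : Irreducible π) :
    ∃ v : Valuation L ℤᵐ⁰, IsPV φ x π v := by
  letI : Algebra F[X] L := (eval₂RingHom φ x).toAlgebra
  haveI : FaithfulSMul F[X] L := by
    rw [faithfulSMul_iff_algebraMap_injective, injective_iff_map_eq_zero]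
    intro f hf
    by_contra h0
    exact h.inj f h0 hf
  haveI : IsFractionRing F[X] L := by
    apply IsFractionRing.of_field
    intro z
    obtain ⟨f, g, -, e⟩ := h.surj z
    exact ⟨f, g, e⟩
  refine ⟨(hos π hπ).valuation L, fun f => ?_, fun f => ?_, ?_⟩
  · exact IsDedekindDomain.HeightOneSpectrum.valuation_le_one (hos π hπ) f
  · exact hos_val_lt_one_iff hπ f
  · have := hos_vord_self (L := L) hπ
    have h2 := v_eq_exp ((hos π hπ).valuation L) (pun π hπ.ne_zero)
    rw [this] at h2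
    exact h2

theorem milnor' {φ : F →+* L} {x : L} (h : IsRat φ x) (hi : ∃ i : L, i ^ 2 = -1) (α : KTwo L)
    (hres : ∀ (π : F[X]) (v : Valuation L ℤᵐ⁰), Irreducible π → IsPV φ x π v →
      residue v hi α = 0) :
    ∃ y : KTwo F, ktMap φ y = α := by
  letI : Algebra F[X] L := (eval₂RingHom φ x).toAlgebra
  haveI : FaithfulSMul F[X] L := by
    rw [faithfulSMul_iff_algebraMap_injective, injective_iff_map_eq_zero]
    intro f hf
    by_contra h0
    exact h.inj f h0 hf
  haveI : IsFractionRing F[X] L := by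
    apply IsFractionRing.of_field
    intro z
    obtain ⟨f, g, -, e⟩ := h.surj z
    exact ⟨f, g, e⟩
  letI : Algebra F L := φ.toAlgebra
  haveI : IsScalarTower F F[X] L := IsScalarTower.of_algebraMap_eq (fun a => by
    change φ a = eval₂ φ x (C a)
    rw [eval₂_C])
  refine milnor (F := F) hi α (fun π hπ => hres π _ hπ ?_)
  refine ⟨fun f => ?_, fun f => ?_, ?_⟩
  · exact IsDedekindDomain.HeightOneSpectrum.valuation_le_one (hos π hπ) f
  · exact hos_val_lt_one_iff hπ f
  · have := hos_vord_self (L := L) hπ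
    have h2 := v_eq_exp ((hos π hπ).valuation L) (pun π hπ.ne_zero)
    rw [this] at h2
    exact h2

end Rat

end Pool.Agent.Lib.MP_0bb41e_ag
end

section

/-!
# Specialisation arguments for rational function fields
-/

set_option autoImplicit false
set_option linter.style.haveILetI false

namespace Pool.Agent.Lib.MP_0bb41e_ag

open Polynomial WithZero

universe u

section Spec

variable {F F' : Type u} [Field F] [Field F']

/-- Specialisation of finitely many elements of `F' = F(y)` at a rational point. -/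
theorem exists_sp [Infinite F] {ψ : F →+* F'} {y : F'} (h : IsRat ψ y) (S : Set F')
    (hS : S.Finite) :
    ∃ (O : Type u) (_ : CommRing O) (i : O →+* F') (j : F →+* O) (sp : O →+* F),
      Function.Injective i ∧ (∀ a, i (j a) = ψ a) ∧ (∀ a, sp (j a) = a) ∧
      ∀ c ∈ S, ∃ o, i o = c := by
  classical
  choose num den hden hfrac using h.surj
  set T : Finset F' := hS.toFinset with hT
  set G : F[X] := ∏ c ∈ T, den c with hG
  have hG0 : G ≠ 0 := Finset.prod_ne_zero_iff.mpr (fun c _ => hden c)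
  obtain ⟨a, ha⟩ : ∃ a : F, G.eval a ≠ 0 := by
    by_contra hcon
    push Not at hcon
    exact hG0 (Polynomial.funext (by simpa using hcon))
  have hGu : IsUnit (eval₂RingHom ψ y G) := by
    rw [isUnit_iff_ne_zero]; exact h.inj G hG0
  have hGa : IsUnit (evalRingHom a G) := by
    rw [isUnit_iff_ne_zero]; exact ha
  refine ⟨Localization.Away G, inferInstance, IsLocalization.Away.lift G hGu,
    (algebraMap F[X] (Localization.Away G)).comp C, IsLocalization.Away.lift G hGa,
    ?_, ?_, ?_, ?_⟩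
  · rw [injective_iff_map_eq_zero]
    intro z hz
    obtain ⟨n, f, hf⟩ := IsLocalization.Away.surj G z
    have h1 : IsLocalization.Away.lift G hGu (z * algebraMap F[X] _ G ^ n) = 0 := by
      rw [map_mul, hz, zero_mul]
    rw [hf, IsLocalization.Away.lift_eq] at h1
    have hf0 : f = 0 := by
      by_contra hne
      exact h.inj f hne h1
    rw [hf0, map_zero] at hf
    have hu : IsUnit ((algebraMap F[X] (Localization.Away G)) G ^ n) :=
      (IsLocalization.Away.algebraMap_isUnit G).pow n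
    exact (hu.mul_left_eq_zero).mp hf
  · intro b
    rw [RingHom.comp_apply, IsLocalization.Away.lift_eq]
    simp
  · intro b
    rw [RingHom.comp_apply, IsLocalization.Away.lift_eq]
    simp
  · intro c hc
    have hcT : c ∈ T := by rw [hT]; simpa using hc
    obtain ⟨r, hr⟩ : den c ∣ G := Finset.dvd_prod_of_mem _ hcT
    have hu := IsLocalization.Away.algebraMap_isUnit (S := Localization.Away G) G
    obtain ⟨w, hw⟩ := hu.exists_right_inv
    refine ⟨algebraMap F[X] _ (num c * r) * w, ?_⟩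
    have h1 : IsLocalization.Away.lift G hGu (algebraMap F[X] _ G * w) = 1 := by
      rw [hw, map_one]
    rw [map_mul, IsLocalization.Away.lift_eq] at h1
    have hGne : G.eval₂ ψ y ≠ 0 := h.inj G hG0
    have h2 : IsLocalization.Away.lift G hGu w = (G.eval₂ ψ y)⁻¹ := by
      apply eq_inv_of_mul_eq_one_right
      exact h1
    rw [map_mul, IsLocalization.Away.lift_eq, h2]
    change (num c * r).eval₂ ψ y * (G.eval₂ ψ y)⁻¹ = c
    have hr0 : r.eval₂ ψ y ≠ 0 := by
      apply h.inj
      rintro rfl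
      rw [mul_zero] at hr
      exact hG0 hr
    have hd0 : (den c).eval₂ ψ y ≠ 0 := h.inj _ (hden c)
    rw [hr, eval₂_mul, eval₂_mul]
    conv_rhs => rw [hfrac c]
    field_simp

/-- Lifting polynomials to the ring `O`. -/
lemma exists_lift {O : Type u} [CommRing O] (i : O →+* F') (P : F'[X])
    (h : ∀ n, ∃ o, i o = P.coeff n) : ∃ Q : O[X], Q.map i = P := by
  have : P ∈ Polynomial.lifts i := by
    rw [Polynomial.lifts_iff_coeff_lifts]
    intro n
    exact h n
  rw [Polynomial.mem_lifts] at this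
  exact this

lemma finite_coeffs (P : F'[X]) : (Set.range P.coeff).Finite := by
  classical
  apply Set.Finite.subset ((Finset.finite_toSet (P.support.image P.coeff)).union
    (Set.finite_singleton 0))
  rintro _ ⟨n, rfl⟩
  by_cases h : P.coeff n = 0
  · right; exact h
  · left
    rw [Finset.mem_coe, Finset.mem_image]
    exact ⟨n, by rwa [mem_support_iff], rfl⟩

theorem irreducible_map [Infinite F] {ψ : F →+* F'} {y : F'} (h : IsRat ψ y) {π : F[X]}
    (hπ : Irreducible π) : Irreducible (π.map ψ) := by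
  constructor
  · intro hu
    apply hπ.not_isUnit
    rw [isUnit_iff_degree_eq_zero] at hu ⊢
    rwa [degree_map] at hu
  · intro G H hGH
    have hne : π.map ψ ≠ 0 := by
      rw [Ne, Polynomial.map_eq_zero_iff ψ.injective]; exact hπ.ne_zero
    have hG0 : G ≠ 0 := by rintro rfl; rw [zero_mul] at hGH; exact hne hGH
    have hH0 : H ≠ 0 := by rintro rfl; rw [mul_zero] at hGH; exact hne hGH
    obtain ⟨O, _, i, j, sp, hi, hij, hsp, hS⟩ := exists_sp h
      ((Set.range G.coeff ∪ Set.range H.coeff) ∪ {G.leadingCoeff⁻¹, H.leadingCoeff⁻¹})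
      (((finite_coeffs G).union (finite_coeffs H)).union (by simp))
    obtain ⟨G', hG'⟩ := exists_lift i G (fun n => hS _ (Or.inl (Or.inl ⟨n, rfl⟩)))
    obtain ⟨H', hH'⟩ := exists_lift i H (fun n => hS _ (Or.inl (Or.inr ⟨n, rfl⟩)))
    have hcomp : i.comp j = ψ := RingHom.ext hij
    have hcomp' : sp.comp j = RingHom.id F := RingHom.ext hsp
    have e : π.map j = G' * H' := by
      apply Polynomial.map_injective i hi
      rw [Polynomial.map_map, hcomp, Polynomial.map_mul, hG', hH', hGH]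
    have e2 : π = G'.map sp * H'.map sp := by
      rw [← Polynomial.map_mul, ← e, Polynomial.map_map, hcomp', Polynomial.map_id]
    have key : ∀ (P : F'[X]) (P' : O[X]), P ≠ 0 → P'.map i = P → (∃ o, i o = P.leadingCoeff⁻¹) →
        IsUnit (P'.map sp) → IsUnit P := by
      intro P P' hP0 hP ⟨o, ho⟩ hu
      have h1 : P'.coeff P.natDegree * o = 1 := by
        apply hi
        rw [map_mul, map_one, ho, ← Polynomial.coeff_map, hP]
        exact mul_inv_cancel₀ (leadingCoeff_ne_zero.mpr hP0)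
      have h2 : (P'.map sp).coeff P.natDegree ≠ 0 := by
        rw [Polynomial.coeff_map]
        intro h0
        have := congrArg sp h1
        rw [map_mul, h0, zero_mul, map_one] at this
        exact zero_ne_one this
      have h3 : P.natDegree ≤ 0 := by
        have := le_natDegree_of_ne_zero h2
        rwa [natDegree_eq_zero_of_isUnit hu] at this
      rw [isUnit_iff_degree_eq_zero, degree_eq_natDegree hP0]
      simpa using h3
    rcases hπ.isUnit_or_isUnit e2 with hu | hu
    · exact Or.inl (key G G' hG0 hG' (hS _ (Or.inr (by simp))) hu)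
    · exact Or.inr (key H H' hH0 hH' (hS _ (Or.inr (by simp))) hu)

variable {L K : Type u} [Field L] [Field K]

lemma IsPV.v_pow_mul {φ : F →+* L} {x : L} {π : F[X]} {v : Valuation L ℤᵐ⁰} (hv : IsPV φ x π v)
    {f : F[X]} (n : ℕ) (hf : ¬ π ∣ f) : v ((π ^ n * f).eval₂ φ x) = exp (-1 : ℤ) ^ n := by
  rw [eval₂_mul, eval₂_pow, map_mul, map_pow, hv.self, hv.eq_one hf, mul_one]

theorem pv_restrict {ψ : F →+* F'} {φ : F →+* L} {φ' : F' →+* K} {ι : L →+* K} {x : L}
    (hL : IsRat φ x) (hcomm : ∀ a, ι (φ a) = φ' (ψ a))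
    {π : F[X]} (hπ : Irreducible π) {v : Valuation L ℤᵐ⁰} {v' : Valuation K ℤᵐ⁰}
    (hv : IsPV φ x π v) (hv' : IsPV φ' (ι x) (π.map ψ) v') (e : L) : v' (ι e) = v e := by
  have hcomp : ι.comp φ = φ'.comp ψ := RingHom.ext hcomm
  have key : ∀ f : F[X], v' (ι (f.eval₂ φ x)) = v (f.eval₂ φ x) := by
    intro f
    by_cases hf : f = 0
    · simp [hf]
    · obtain ⟨n, g, hg, rfl⟩ := WfDvdMonoid.max_power_factor hf hπ
      have hg' : ¬ π.map ψ ∣ g.map ψ := by
        rwa [Polynomial.map_dvd_map']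
      have h1 := hv'.v_pow_mul n hg'
      rw [hv.v_pow_mul n hg, ← h1, Polynomial.hom_eval₂, hcomp, ← Polynomial.map_pow,
        ← Polynomial.map_mul, Polynomial.eval₂_map]
  obtain ⟨f, g, hg, rfl⟩ := hL.surj e
  rw [map_div₀, map_div₀, map_div₀, key, key]

theorem nsub_descent [Infinite F] {ψ : F →+* F'} {y : F'} (hψ : IsRat ψ y)
    {φ : F →+* L} {φ' : F' →+* K} {ι : L →+* K} {x : L}
    (hL : IsRat φ x) (hK : IsRat φ' (ι x)) (hcomm : ∀ a, ι (φ a) = φ' (ψ a))
    {π : F[X]} (hπ : Irreducible π) {v : Valuation L ℤᵐ⁰} {v' : Valuation K ℤᵐ⁰}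
    (hv : IsPV φ x π v) (hv' : IsPV φ' (ι x) (π.map ψ) v') (c : Lˣ)
    (hc : Units.map (ι : L →* K) c ∈ nsub v') : c ∈ nsub v := by
  have hcomp : ι.comp φ = φ'.comp ψ := RingHom.ext hcomm
  have hπ' : Irreducible (π.map ψ) := irreducible_map hψ hπ
  have hres : ∀ e : L, v' (ι e) = v e := pv_restrict hL hcomm hπ hv hv'
  have hιeval : ∀ f : F[X], ι (f.eval₂ φ x) = (f.map ψ).eval₂ φ' (ι x) := by
    intro f
    rw [Polynomial.hom_eval₂, hcomp, Polynomial.eval₂_map]
  set p : Lˣ := Units.mk0 (π.eval₂ φ x) (hL.inj π hπ.ne_zero) with hp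
  have hvp : v (p : L) = exp (-1 : ℤ) := hv.self
  obtain ⟨s, w, hw, hcs⟩ := hc
  set n : ℤ := vord v' s with hn
  have hwv : v' (w : K) = 1 := by
    have := Valuation.map_add_eq_of_lt_right v' (x := (w : K) - 1) (y := 1) (by simpa using hw)
    simpa using this
  -- the normalised elements
  set c1 : Lˣ := c * ((p ^ n)⁻¹) ^ 2 with hc1
  set s1 : Kˣ := s * (Units.map (ι : L →* K) (p ^ n))⁻¹ with hs1
  have hvιp : vord v' (Units.map (ι : L →* K) p) = 1 := by
    unfold vord
    rw [Units.coe_map]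
    change - log (v' (ι (p : L))) = 1
    rw [hres, hvp, log_exp]; norm_num
  have hvs1 : v' (s1 : K) = 1 := by
    rw [← vord_eq_zero_iff, hs1, vord_mul, map_zpow, ← zpow_neg]
    have hz : ∀ (a : Kˣ) (m : ℤ), vord v' (a ^ m) = m * vord v' a := by
      intro a m
      unfold vord
      rw [Units.val_zpow_eq_zpow_val, map_zpow₀, log_zpow]
      simp
    rw [hz, hvιp, ← hn]; ring
  have hc1s1 : Units.map (ι : L →* K) c1 = s1 ^ 2 * w := by
    rw [hc1, hs1, map_mul, map_pow, map_inv, hcs, mul_pow]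
    exact mul_right_comm _ _ _
  have hc1K : ι (c1 : L) = (s1 : K) ^ 2 * (w : K) := by
    have := congrArg (fun t : Kˣ => (t : K)) hc1s1
    simpa using this
  have hvc1 : v (c1 : L) = 1 := by
    rw [← hres, hc1K, map_mul, map_pow, hvs1, hwv, one_pow, one_mul]
  suffices hmain : c1 ∈ nsub v by
    have e : c = c1 * (p ^ n) ^ 2 := by
      rw [hc1, inv_pow, inv_mul_cancel_right]
    rw [e]
    exact Subgroup.mul_mem _ hmain (sq_mem_nsub v _)
  obtain ⟨P, Q, hQ, -, hs1e⟩ := hv'.exists_frac hK hπ' (le_of_eq hvs1)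
  obtain ⟨f, g, hg, -, hc1e⟩ := hv.exists_frac hL hπ (le_of_eq hvc1)
  have hg0 : g.eval₂ φ x ≠ 0 := hL.inj g (by rintro rfl; exact hg (dvd_zero _))
  have hg'0 : (g.map ψ).eval₂ φ' (ι x) ≠ 0 := by
    rw [← hιeval]
    exact (map_ne_zero ι).mpr hg0
  have hQ0 : Q.eval₂ φ' (ι x) ≠ 0 := hK.inj Q (by rintro rfl; exact hQ (dvd_zero _))
  have hdvd : π.map ψ ∣ f.map ψ * Q ^ 2 - g.map ψ * P ^ 2 := by
    rw [← hv'.lt_one_iff]
    have e1 : (f.map ψ * Q ^ 2 - g.map ψ * P ^ 2).eval₂ φ' (ι x) =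
        (ι (c1 : L) - (s1 : K) ^ 2) * ((g.map ψ).eval₂ φ' (ι x) * Q.eval₂ φ' (ι x) ^ 2) := by
      rw [eval₂_sub, eval₂_mul, eval₂_mul, eval₂_pow, eval₂_pow, hs1e, hc1e, map_div₀, hιeval,
        hιeval]
      field_simp
    have e2 : ι (c1 : L) - (s1 : K) ^ 2 = (s1 : K) ^ 2 * ((w : K) - 1) := by
      rw [hc1K]; ring
    rw [e1, e2]
    simp only [map_mul, map_pow, hvs1, one_pow, one_mul]
    have hgle : v' ((g.map ψ).eval₂ φ' (ι x)) ≤ 1 := hv'.le_one _
    have hQle : v' (Q.eval₂ φ' (ι x)) ≤ 1 := hv'.le_one _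
    calc v' ((w : K) - 1) * (v' ((g.map ψ).eval₂ φ' (ι x)) * v' (Q.eval₂ φ' (ι x)) ^ 2)
        ≤ v' ((w : K) - 1) * 1 :=
          mul_le_mul_right (mul_le_one' hgle (pow_le_one' hQle 2)) _
      _ < 1 := by rw [mul_one]; exact hw
  obtain ⟨T, hT⟩ := hdvd
  obtain ⟨A, B, hAB⟩ : IsCoprime (π.map ψ) Q := (hπ'.coprime_iff_not_dvd).mpr hQ
  obtain ⟨O, _, i, j, sp, hi, hij, hsp, hS⟩ := exists_sp hψ
      (Set.range P.coeff ∪ Set.range Q.coeff ∪ Set.range T.coeff ∪ Set.range A.coeff ∪
        Set.range B.coeff)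
      (((((finite_coeffs P).union (finite_coeffs Q)).union (finite_coeffs T)).union
        (finite_coeffs A)).union (finite_coeffs B))
  obtain ⟨P', hP'⟩ := exists_lift i P
    (fun n => hS _ (Or.inl (Or.inl (Or.inl (Or.inl ⟨n, rfl⟩)))))
  obtain ⟨Q', hQ'⟩ := exists_lift i Q
    (fun n => hS _ (Or.inl (Or.inl (Or.inl (Or.inr ⟨n, rfl⟩)))))
  obtain ⟨T', hT'⟩ := exists_lift i T (fun n => hS _ (Or.inl (Or.inl (Or.inr ⟨n, rfl⟩))))
  obtain ⟨A', hA'⟩ := exists_lift i A (fun n => hS _ (Or.inl (Or.inr ⟨n, rfl⟩)))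
  obtain ⟨B', hB'⟩ := exists_lift i B (fun n => hS _ (Or.inr ⟨n, rfl⟩))
  have hci : i.comp j = ψ := RingHom.ext hij
  have hcs' : sp.comp j = RingHom.id F := RingHom.ext hsp
  have hmi : ∀ r : F[X], (r.map j).map i = r.map ψ := by
    intro r; rw [Polynomial.map_map, hci]
  have hms : ∀ r : F[X], (r.map j).map sp = r := by
    intro r; rw [Polynomial.map_map, hcs', Polynomial.map_id]
  have e1 : f.map j * Q' ^ 2 - g.map j * P' ^ 2 = π.map j * T' := by
    apply Polynomial.map_injective i hi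
    rw [Polynomial.map_sub, Polynomial.map_mul, Polynomial.map_mul, Polynomial.map_mul,
      Polynomial.map_pow, Polynomial.map_pow, hmi, hmi, hmi, hP', hQ', hT', hT]
  have e2 : A' * π.map j + B' * Q' = 1 := by
    apply Polynomial.map_injective i hi
    rw [Polynomial.map_add, Polynomial.map_mul, Polynomial.map_mul, hmi, hA', hB', hQ',
      Polynomial.map_one, hAB]
  set P0 := P'.map sp with hP0
  set Q0 := Q'.map sp with hQ0'
  set T0 := T'.map sp with hT0
  have f1 : f * Q0 ^ 2 - g * P0 ^ 2 = π * T0 := by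
    have := congrArg (Polynomial.map sp) e1
    rwa [Polynomial.map_sub, Polynomial.map_mul, Polynomial.map_mul, Polynomial.map_mul,
      Polynomial.map_pow, Polynomial.map_pow, hms, hms, hms] at this
  have f2 : A'.map sp * π + B'.map sp * Q0 = 1 := by
    have := congrArg (Polynomial.map sp) e2
    rwa [Polynomial.map_add, Polynomial.map_mul, Polynomial.map_mul, hms,
      Polynomial.map_one] at this
  have hQ0n : ¬ π ∣ Q0 := by
    intro hd
    apply hπ.not_isUnit
    rw [isUnit_iff_dvd_one, ← f2]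
    exact dvd_add (Dvd.intro_left _ rfl) (Dvd.dvd.mul_left hd _)
  have hQ00 : Q0.eval₂ φ x ≠ 0 := hL.inj Q0 (by rintro h; rw [h] at hQ0n; exact hQ0n (dvd_zero _))
  set t : L := P0.eval₂ φ x / Q0.eval₂ φ x with ht
  have hvt : v ((c1 : L) - t ^ 2) < 1 := by
    have e3 : (c1 : L) - t ^ 2 =
        (π * T0).eval₂ φ x / (g.eval₂ φ x * Q0.eval₂ φ x ^ 2) := by
      rw [← f1, eval₂_sub, eval₂_mul, eval₂_mul, eval₂_pow, eval₂_pow, ht, hc1e]
      field_simp
    rw [e3, map_div₀, map_mul, map_pow, hv.eq_one hg, hv.eq_one hQ0n, one_pow, mul_one, div_one,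
      hv.lt_one_iff]
    exact dvd_mul_right _ _
  have hvt2 : v (t ^ 2) = 1 := by
    have : t ^ 2 = (c1 : L) - ((c1 : L) - t ^ 2) := by ring
    rw [this, Valuation.map_sub_eq_of_lt_left v (by rw [hvc1]; exact hvt), hvc1]
  have ht0 : t ≠ 0 := by
    intro h0
    rw [h0, zero_pow two_ne_zero, map_zero] at hvt2
    exact zero_ne_one hvt2
  refine ⟨Units.mk0 t ht0, c1 / (Units.mk0 t ht0) ^ 2, ?_, by rw [mul_div_cancel]⟩
  have e : ((c1 / (Units.mk0 t ht0) ^ 2 : Lˣ) : L) - 1 = ((c1 : L) - t ^ 2) / t ^ 2 := by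
    push_cast
    rw [Units.val_mk0]
    field_simp
  rw [e, map_div₀, hvt2, div_one]
  exact hvt

/-- Compatibility of residues under a field extension, unramified and injective on the
residue quotients. -/
theorem residue_descent (ι : L →+* K) (v : Valuation L ℤᵐ⁰) (v' : Valuation K ℤᵐ⁰)
    (hvv : ∀ e : L, v' (ι e) = v e)
    (hn : ∀ c : Lˣ, Units.map (ι : L →* K) c ∈ nsub v' → c ∈ nsub v)
    (hiL : ∃ i : L, i ^ 2 = -1) (hiK : ∃ i : K, i ^ 2 = -1) (α : KTwo L)
    (h : residue v' hiK (ktMap ι α) = 0) : residue v hiL α = 0 := by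
  have hle : nsub v ≤ (nsub v').comap (Units.map (ι : L →* K)) := by
    rintro _ ⟨s, w, hw, rfl⟩
    rw [Subgroup.mem_comap, map_mul, map_pow]
    refine ⟨_, _, ?_, rfl⟩
    rw [Units.coe_map]
    change v' (ι (w : L) - 1) < 1
    rw [← map_one ι, ← map_sub, hvv]
    exact hw
  set g : RTgt v →+ RTgt v' :=
    MonoidHom.toAdditive (QuotientGroup.map (nsub v) (nsub v') (Units.map (ι : L →* K)) hle)
    with hg
  have hgc : ∀ c : Lˣ, g (rcls v c) = rcls v' (Units.map (ι : L →* K) c) := fun c => rfl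
  have hord : ∀ c : Lˣ, vord v' (Units.map (ι : L →* K) c) = vord v c := by
    intro c
    unfold vord
    rw [Units.coe_map]
    change - log (v' (ι (c : L))) = _
    rw [hvv]
  have key : ∀ α : KTwo L, residue v' hiK (ktMap ι α) = g (residue v hiL α) := by
    intro α
    have hα : α ∈ Submodule.span (ZMod 2) (Set.range fun p : Lˣ × Lˣ => sym p.1 p.2) := by
      rw [span_sym]; trivial
    induction hα using Submodule.span_induction with
    | mem x hx =>
      obtain ⟨⟨a, b⟩, rfl⟩ := hx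
      rw [ktMap_sym, residue_sym, residue_sym, hgc]
      unfold tameElt
      rw [hord, hord, map_mul, map_zpow, map_zpow]
    | zero => simp
    | add x y _ _ hx hy => rw [map_add, map_add, map_add, map_add, hx, hy]
    | smul c x _ hx => rw [map_smul, map_smul, map_smul, hx, ZMod.map_smul]
  rw [key] at h
  have hinj : ∀ z : RTgt v, g z = 0 → z = 0 := by
    intro z
    induction z using QuotientGroup.induction_on with
    | H c =>
      intro hz
      change g (rcls v c) = 0 at hz
      rw [hgc, rcls_eq_zero_iff] at hz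
      change rcls v c = 0
      rw [rcls_eq_zero_iff]
      exact hn c hz
  exact hinj _ h

end Spec

end Pool.Agent.Lib.MP_0bb41e_ag
end
end
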