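import Pool.Agent.Lib.MP_0bb41e_ag.Rational
import Pool.Agent.Lib.MP_0bb41e_ag.Charts

/-!
# Kaehler differentials of a rational function field
-/

namespace Pool.Agent.Lib.MP_0bb41e_ag

open KaehlerDifferential

variable {K : Type} [Field K] [Algebra ℂ K]

theorem exists_basis_of_gen {n : ℕ} (y : Fin n → K) (hy : AlgebraicIndependent ℂ y)
    (hgen : IntermediateField.adjoin ℂ (Set.range y) = ⊤) :
    ∃ b : Module.Basis (Fin n) K Ω[K⁄ℂ], ∀ i, b i = KaehlerDifferential.D ℂ K (y i) := by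
  let _ : Algebra (MvPolynomial (Fin n) ℂ) K := (MvPolynomial.aeval y).toAlgebra
  have hmap : ∀ p : MvPolynomial (Fin n) ℂ, algebraMap (MvPolynomial (Fin n) ℂ) K p =
    MvPolynomial.aeval y p := fun p => rfl
  have : IsScalarTower ℂ (MvPolynomial (Fin n) ℂ) K :=
    IsScalarTower.of_algebraMap_eq (fun c => by rw [hmap]; simp)
  have : FaithfulSMul (MvPolynomial (Fin n) ℂ) K :=
    (faithfulSMul_iff_algebraMap_injective _ _).2 (algebraicIndependent_iff_injective_aeval.1 hy)
  have : IsFractionRing (MvPolynomial (Fin n) ℂ) K := by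
    refine IsFractionRing.of_field _ K (fun z => ?_)
    have hz : z ∈ IntermediateField.adjoin ℂ (Set.range y) := by rw [hgen]; trivial
    rw [IntermediateField.mem_adjoin_range_iff] at hz
    obtain ⟨r, s, h⟩ := hz
    exact ⟨r, s, h⟩
  have hloc := KaehlerDifferential.isLocalizedModule_map (R := ℂ) (S := MvPolynomial (Fin n) ℂ)
    (T := K) (nonZeroDivisors (MvPolynomial (Fin n) ℂ))
  refine ⟨(KaehlerDifferential.mvPolynomialBasis ℂ (Fin n)).ofIsLocalizedModule K
    (nonZeroDivisors (MvPolynomial (Fin n) ℂ)) (KaehlerDifferential.map ℂ ℂ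
      (MvPolynomial (Fin n) ℂ) K), ?_⟩
  intro i
  rw [Module.Basis.ofIsLocalizedModule_apply, KaehlerDifferential.mvPolynomialBasis_apply,
    KaehlerDifferential.map_D, hmap, MvPolynomial.aeval_X]

/-- The coordinates `y_i = x_i / z` of the rational function field. -/
def Setup.y (S : Setup K) (i : Fin 3) : K := S.x i / S.z

theorem Setup.x_eq_y (S : Setup K) (i : Fin 3) :
    S.x i = S.y i / (S.y 0 ^ 2 * S.y 1 + S.y 1 ^ 2 * S.y 2 + S.y 2 ^ 2 * S.y 0) := by
  have hz := S.z_ne_zero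
  have h := S.rel
  have hc : S.y 0 ^ 2 * S.y 1 + S.y 1 ^ 2 * S.y 2 + S.y 2 ^ 2 * S.y 0 = S.z⁻¹ := by
    unfold Setup.y
    field_simp
    rw [h]
    ring
  rw [hc]
  unfold Setup.y
  field_simp

theorem Setup.z_eq_y (S : Setup K) :
    S.z = (S.y 0 ^ 2 * S.y 1 + S.y 1 ^ 2 * S.y 2 + S.y 2 ^ 2 * S.y 0)⁻¹ := by
  have hz := S.z_ne_zero
  have h := S.rel
  have hc : S.y 0 ^ 2 * S.y 1 + S.y 1 ^ 2 * S.y 2 + S.y 2 ^ 2 * S.y 0 = S.z⁻¹ := by
    unfold Setup.y
    field_simp
    rw [h]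
    ring
  rw [hc, inv_inv]

theorem Setup.y_gen (S : Setup K) : IntermediateField.adjoin ℂ (Set.range S.y) = ⊤ := by
  rw [eq_top_iff, ← S.gen, IntermediateField.adjoin_le_iff]
  set F := IntermediateField.adjoin ℂ (Set.range S.y)
  have hy : ∀ i, S.y i ∈ F := fun i => IntermediateField.subset_adjoin _ _ ⟨i, rfl⟩
  have hc : S.y 0 ^ 2 * S.y 1 + S.y 1 ^ 2 * S.y 2 + S.y 2 ^ 2 * S.y 0 ∈ F :=
    F.add_mem (F.add_mem (F.mul_mem (pow_mem (hy 0) 2) (hy 1))
      (F.mul_mem (pow_mem (hy 1) 2) (hy 2))) (F.mul_mem (pow_mem (hy 2) 2) (hy 0))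
  rintro x (rfl | ⟨i, rfl⟩)
  · rw [S.z_eq_y]; exact F.inv_mem hc
  · rw [S.x_eq_y]; exact F.div_mem (hy i) hc

theorem Setup.y_indep (S : Setup K) : AlgebraicIndependent ℂ S.y := by
  apply S.indep_of
  intro i
  have key : ∀ i, IsAlgebraic (Algebra.adjoin ℂ (Set.range S.y)) (S.y i) := fun i =>
    isAlgebraic_algebraMap
      (⟨_, Algebra.subset_adjoin ⟨i, rfl⟩⟩ : Algebra.adjoin ℂ (Set.range S.y))
  rw [S.x_eq_y, div_eq_mul_inv]
  exact (key i).mul (((((key 0).pow 2).mul (key 1)).add (((key 1).pow 2).mul (key 2))).add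
    (((key 2).pow 2).mul (key 0))).inv

theorem Setup.finrank_kaehler (S : Setup K) : Module.finrank K Ω[K⁄ℂ] = 3 := by
  obtain ⟨b, _⟩ := exists_basis_of_gen S.y S.y_indep S.y_gen
  rw [Module.finrank_eq_card_basis b]
  simp

theorem Setup.finite_kaehler (S : Setup K) : Module.Finite K Ω[K⁄ℂ] := by
  obtain ⟨b, _⟩ := exists_basis_of_gen S.y S.y_indep S.y_gen
  exact Module.Finite.of_basis b

theorem Setup.finrank_ext (S : Setup K) : Module.finrank K (⋀[K]^3 Ω[K⁄ℂ]) = 1 := by
  have := S.finite_kaehler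
  rw [exteriorPower.finrank_eq, S.finrank_kaehler]
  rfl

theorem Setup.span_dx (S : Setup K) :
    ⊤ ≤ Submodule.span K (Set.range fun i => KaehlerDifferential.D ℂ K (S.x i)) := by
  obtain ⟨b, hb⟩ := exists_basis_of_gen S.y S.y_indep S.y_gen
  set N := Submodule.span K (Set.range fun i => KaehlerDifferential.D ℂ K (S.x i)) with hN
  rw [← b.span_eq, Submodule.span_le]
  rintro _ ⟨i, rfl⟩
  have hx : ∀ i, KaehlerDifferential.D ℂ K (S.x i) ∈ N := fun i =>
    Submodule.subset_span ⟨i, rfl⟩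
  have hz : KaehlerDifferential.D ℂ K S.z ∈ N := by
    have h1 : (2 * S.z) • KaehlerDifferential.D ℂ K S.z ∈ N := by
      have h2 : (2 * S.z) • KaehlerDifferential.D ℂ K S.z =
          KaehlerDifferential.D ℂ K (S.z ^ 2) := by
        rw [d_pow]; simp
      rw [h2, S.rel]
      simp only [map_add, Derivation.leibniz, d_pow]
      refine Submodule.add_mem _ (Submodule.add_mem _ ?_ ?_) ?_
      · exact Submodule.add_mem _ (Submodule.smul_mem _ _ (hx _))
          (Submodule.smul_mem _ _ (Submodule.smul_mem _ _ (hx _)))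
      · exact Submodule.add_mem _ (Submodule.smul_mem _ _ (hx _))
          (Submodule.smul_mem _ _ (Submodule.smul_mem _ _ (hx _)))
      · exact Submodule.add_mem _ (Submodule.smul_mem _ _ (hx _))
          (Submodule.smul_mem _ _ (Submodule.smul_mem _ _ (hx _)))
    have hchar : CharZero K := charZero_of_injective_algebraMap (algebraMap ℂ K).injective
    have h3 : (2 * S.z) ≠ 0 := mul_ne_zero two_ne_zero S.z_ne_zero
    have h4 := Submodule.smul_mem N (2 * S.z)⁻¹ h1
    rwa [smul_smul, inv_mul_cancel₀ h3, one_smul] at h4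
  rw [hb]
  unfold Setup.y
  rw [div_eq_mul_inv]
  change KaehlerDifferential.D ℂ K (S.x i * (S.z)⁻¹) ∈ N
  rw [Derivation.leibniz, d_inv _ S.z_ne_zero]
  exact Submodule.add_mem _ (Submodule.smul_mem _ _ (Submodule.neg_mem _
    (Submodule.smul_mem _ _ hz))) (Submodule.smul_mem _ _ (hx i))

theorem Setup.exists_basis_dx (S : Setup K) :
    ∃ b : Module.Basis (Fin 3) K Ω[K⁄ℂ], ∀ i, b i = KaehlerDifferential.D ℂ K (S.x i) := by
  have h := S.span_dx
  refine ⟨basisOfTopLeSpanOfCardEqFinrank _ h ?_, ?_⟩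
  · rw [S.finrank_kaehler]; rfl
  · intro i
    rw [coe_basisOfTopLeSpanOfCardEqFinrank]

theorem iMulti_basis_ne_zero {M : Type} [AddCommGroup M] [Module K M]
    (b : Module.Basis (Fin 3) K M) : exteriorPower.ιMulti K 3 b ≠ 0 := by
  intro h
  have h1 := exteriorPower.alternatingMapLinearEquiv_apply_ιMulti (R := K) (n := 3) b.det b
  rw [h, map_zero] at h1
  rw [Module.Basis.det_self] at h1
  exact zero_ne_one h1

theorem gmap_basis_ne_zero (b : Module.Basis (Fin 3) K Ω[K⁄ℂ]) : gmap K 3 b ≠ 0 := by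
  intro h
  have h1 := congrArg (fun ω : RatForm K 3 =>
    ω fun i => (b.coord i).compDer (KaehlerDifferential.D ℂ K)) h
  change Matrix.det (Matrix.of fun k j =>
    ((b.coord k).compDer (KaehlerDifferential.D ℂ K)).liftKaehlerDifferential (b j)) = 0 at h1
  have h2 : (Matrix.of fun k j =>
      ((b.coord k).compDer (KaehlerDifferential.D ℂ K)).liftKaehlerDifferential (b j)) = 1 := by
    ext k j
    have h3 : ((b.coord k).compDer (KaehlerDifferential.D ℂ K)).liftKaehlerDifferential =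
        b.coord k := by
      apply Derivation.liftKaehlerDifferential_unique
      ext x
      simp
    rw [Matrix.of_apply, h3, Module.Basis.coord_apply, Module.Basis.repr_self,
      Finsupp.single_apply, Matrix.one_apply]
    simp only [eq_comm]
  rw [h2, Matrix.det_one] at h1
  exact one_ne_zero h1

theorem Setup.f_dx_ne (S : Setup K) :
    gmap K 3 (fun i => KaehlerDifferential.D ℂ K (S.x i)) ≠ 0 := by
  obtain ⟨b, hb⟩ := S.exists_basis_dx
  have h := gmap_basis_ne_zero b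
  have h1 : (b : Fin 3 → Ω[K⁄ℂ]) = fun i => KaehlerDifferential.D ℂ K (S.x i) := funext hb
  rwa [h1] at h

theorem Setup.Phi_injective (S : Setup K) : Function.Injective (Phi K) := by
  obtain ⟨b, hb⟩ := S.exists_basis_dx
  rw [injective_iff_map_eq_zero]
  intro ω hω
  obtain ⟨h, rfl⟩ := exists_smul_eq_of_finrank_eq_one S.finrank_ext (iMulti_basis_ne_zero b) ω
  rw [map_smul, Phi_ιMulti] at hω
  rcases smul_eq_zero.1 hω with h1 | h1
  · rw [h1, zero_smul]
  · exact absurd h1 (gmap_basis_ne_zero b)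

end Pool.Agent.Lib.MP_0bb41e_ag
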