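import Pool.Agent.Lib.MP_0bb41e_ag.Ramified
import Pool.Agent.Lib.MP_0bb41e_ag.Charts

/-!
# Orders of the volume form of the double cover
-/

namespace Pool.Agent.Lib.MP_0bb41e_ag

variable {K : Type} [Field K] [Algebra ℂ K] {R : Subalgebra ℂ K}
variable {E V : Type} [AddCommGroup E] [Module K E] [Module ℂ E] [AddCommGroup V] [Module K V]
variable {d : Derivation ℂ K E} {f : E [⋀^Fin 3]→ₗ[K] V}

theorem wd_eq (η : Fin 3 → E) : wd f (η 0) (η 1) (η 2) = f η := by
  unfold wd
  congr 1
  funext i
  fin_cases i <;> rfl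

theorem OGE_f_log (hR : IsDVR R) {η : Fin 3 → E} (h : ∀ i, η i ∈ Llog R d) :
    OGE R d f (f η) (-1) := by
  rw [← wd_eq]
  exact OGE_wd_log hR (h 0) (h 1) (h 2)

theorem OGE_f_reg (hR : IsDVR R) {η : Fin 3 → E} (h : ∀ i, η i ∈ L1 R d) :
    OGE R d f (f η) 0 := by
  rw [← wd_eq]
  exact OGE_wd hR (h 0) (h 1) (h 2)

theorem d_sub_one (a : K) : d (a - 1) = d a := by simp

theorem dlog_sub_one_mem {a : K} (ha : a - 1 ≠ 0) : (a - 1)⁻¹ • d a ∈ Llog R d := by
  rw [← d_sub_one]
  exact dlog_mem_Llog ha

/-- The slot lemma. -/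
theorem OGE_slot (hR : IsDVR R) (a : Fin 3 → K) (ha : ∀ i, a i - 1 ≠ 0)
    (Q : MvPolynomial (Fin 3) ℂ) (hQ : MvPolynomial.aeval a Q ≠ 0) (j : Fin 3)
    (hc : MvPolynomial.aeval a (MvPolynomial.pderiv j Q) ≠ 0)
    (hc' : valZ R (MvPolynomial.aeval a (MvPolynomial.pderiv j Q)) = 0)
    (haj : valZ R (a j - 1) = 0) :
    OGE R d f (f fun i => (a i - 1)⁻¹ • d (a i)) (-1 + valZ R (MvPolynomial.aeval a Q)) := by
  set η : Fin 3 → E := fun i => (a i - 1)⁻¹ • d (a i) with hη
  set y := MvPolynomial.aeval a Q with hy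
  set c : Fin 3 → K := fun k => MvPolynomial.aeval a (MvPolynomial.pderiv k Q) with hcdef
  have hlog : ∀ i, η i ∈ Llog R d := fun i => dlog_sub_one_mem (ha i)
  have hda : ∀ k, d (a k) = (a k - 1) • η k := by
    intro k
    rw [hη]
    simp only
    rw [smul_smul, mul_inv_cancel₀ (ha k), one_smul]
  have h1 : d y = ∑ k, c k • d (a k) := d_aeval d a Q
  have h2 : f (Function.update η j (d y)) = (c j * (a j - 1)) • f η := by
    rw [h1, f.map_update_sum]
    rw [Finset.sum_eq_single j]
    · rw [f.map_update_smul, hda, f.map_update_smul, Function.update_eq_self, smul_smul]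
    · intro k _ hk
      rw [f.map_update_smul, hda, f.map_update_smul, f.map_update_self _ (Ne.symm hk), smul_zero,
        smul_zero]
    · simp
  have h3 : OGE R d f (f (Function.update η j (y⁻¹ • d y))) (-1) := by
    apply OGE_f_log hR
    intro i
    by_cases hij : i = j
    · subst hij
      rw [Function.update_self]
      exact dlog_mem_Llog hQ
    · rw [Function.update_of_ne hij]
      exact hlog i
  have h4 : f η = ((c j * (a j - 1))⁻¹ * y) • f (Function.update η j (y⁻¹ • d y)) := by
    have h5 : f (Function.update η j (d y)) = y • f (Function.update η j (y⁻¹ • d y)) := by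
      rw [← f.map_update_smul, smul_smul, mul_inv_cancel₀ hQ, one_smul]
    rw [mul_smul, ← h5, h2, smul_smul, inv_mul_cancel₀ (mul_ne_zero hc (ha j)), one_smul]
  have hcj : c j ≠ 0 := hc
  have h6 := h3.smul hR (mul_ne_zero (inv_ne_zero (mul_ne_zero hcj (ha j))) hQ)
  rw [← h4] at h6
  have h7 : valZ R ((c j * (a j - 1))⁻¹ * y) = valZ R y := by
    rw [hR.valZ_mul (inv_ne_zero (mul_ne_zero hcj (ha j))) hQ,
      hR.valZ_inv (mul_ne_zero hcj (ha j)), hR.valZ_mul hcj (ha j), haj]
    have : valZ R (c j) = 0 := hc'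
    omega
  rw [h7] at h6
  exact h6

/-- The volume form of the double cover. -/
def Setup.vol (S : Setup K) (d : Derivation ℂ K E) (f : E [⋀^Fin 3]→ₗ[K] V) : V :=
  (S.z)⁻¹ • f fun i => (S.x i - 1)⁻¹ • d (S.x i)

theorem Setup.rot_vol (S : Setup K) : S.rot.vol d f = S.vol d f := by
  unfold Setup.vol
  rw [← wd_eq, ← wd_eq]
  simp only [Setup.rot_x0, Setup.rot_x1, Setup.rot_x2, Setup.rot_z]
  rw [wd_rot]

theorem dlog_inv {x : K} (hx : x ≠ 0) (_hx1 : x - 1 ≠ 0) :
    (x⁻¹ - 1)⁻¹ • d x⁻¹ = x⁻¹ • ((x - 1)⁻¹ • d x) := by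
  have h2 : x⁻¹ - 1 ≠ 0 := by
    intro h
    apply _hx1
    have : x⁻¹ = 1 := sub_eq_zero.1 h
    rw [inv_eq_one] at this
    rw [this, sub_self]
  rw [d_inv d hx, ← neg_smul, smul_smul, smul_smul]
  congr 1
  have h3 : x⁻¹ - 1 = -(x - 1) * x⁻¹ := by field_simp; ring
  rw [h3]
  field_simp

theorem Setup.inv_vol (S : Setup K) : S.inv.vol d f = - S.vol d f := by
  unfold Setup.vol
  rw [← wd_eq, ← wd_eq]
  have h0 := S.x_ne_zero 0
  have h1 := S.x_ne_zero 1
  have h2 := S.x_ne_zero 2
  have hz := S.z_ne_zero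
  simp only [Setup.inv_x0, Setup.inv_x1, Setup.inv_x2, Setup.inv_z]
  rw [dlog_inv (d := d) h0 (S.x_sub_one_ne 0), dlog_inv (d := d) h1 (S.x_sub_one_ne 1),
    dlog_inv (d := d) h2 (S.x_sub_one_ne 2), wd_smul0, wd_smul1, wd_smul2, wd_swap01, smul_neg,
    smul_neg, smul_neg, smul_neg, smul_smul, smul_smul, smul_smul]
  congr 2
  field_simp

/-- Algebraic lemma for the chart `∅`. -/
theorem alg_chart0 {κ : Type} [Field κ] [CharZero κ] (α β γ : κ)
    (h : α ^ 2 * β + β ^ 2 * γ + γ ^ 2 * α = 0)
    (h0 : α = 1 ∨ 2 * α * β + γ ^ 2 = 0) (h1 : β = 1 ∨ α ^ 2 + 2 * β * γ = 0)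
    (h2 : γ = 1 ∨ β ^ 2 + 2 * γ * α = 0) : α = 0 ∧ β = 0 ∧ γ = 0 := by
  have three : (3 : κ) ≠ 0 := by norm_num
  have two : (2 : κ) ≠ 0 := by norm_num
  -- the case where all three derivatives vanish
  have main : ∀ a b c : κ, 2 * a * b + c ^ 2 = 0 → a ^ 2 + 2 * b * c = 0 →
      b ^ 2 + 2 * c * a = 0 → a = 0 ∧ b = 0 ∧ c = 0 := by
    intro a b c e0 e1 e2
    have h9 : a * b * c = 0 := by
      have : 9 * (a * b * c) ^ 2 = 0 := by
        have h3 : c ^ 2 = -(2 * a * b) := by linear_combination e0
        have h4 : a ^ 2 = -(2 * b * c) := by linear_combination e1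
        have h5 : b ^ 2 = -(2 * c * a) := by linear_combination e2
        have : (a * b * c) ^ 2 = a ^ 2 * b ^ 2 * c ^ 2 := by ring
        have h6 : (a * b * c) ^ 2 = -8 * (a * b * c) ^ 2 := by
          nth_rewrite 1 [this]
          rw [h3, h4, h5]; ring
        linear_combination h6
      have h10 : (a * b * c) ^ 2 = 0 := by
        rcases mul_eq_zero.1 this with h | h
        · norm_num at h
        · exact h
      exact pow_eq_zero_iff (two_ne_zero) |>.1 h10
    rcases mul_eq_zero.1 h9 with h | hc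
    · rcases mul_eq_zero.1 h with ha | hb
      · subst ha
        have hc : c = 0 := by
          have : c ^ 2 = 0 := by linear_combination e0
          exact pow_eq_zero_iff (two_ne_zero) |>.1 this
        have hb : b = 0 := by
          have : b ^ 2 = 0 := by linear_combination e2
          exact pow_eq_zero_iff (two_ne_zero) |>.1 this
        exact ⟨rfl, hb, hc⟩
      · subst hb
        have hc : c = 0 := by
          have : c ^ 2 = 0 := by linear_combination e0
          exact pow_eq_zero_iff (two_ne_zero) |>.1 this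
        have ha : a = 0 := by
          have : a ^ 2 = 0 := by linear_combination e1
          exact pow_eq_zero_iff (two_ne_zero) |>.1 this
        exact ⟨ha, rfl, hc⟩
    · subst hc
      have ha : a = 0 := by
        have : a ^ 2 = 0 := by linear_combination e1
        exact pow_eq_zero_iff (two_ne_zero) |>.1 this
      have hb : b = 0 := by
        have : b ^ 2 = 0 := by linear_combination e2
        exact pow_eq_zero_iff (two_ne_zero) |>.1 this
      exact ⟨ha, hb, rfl⟩
  -- one coordinate equal to one: Euler's relation gives the third derivative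
  have one1 : ∀ b c : κ, 1 ^ 2 * b + b ^ 2 * c + c ^ 2 * 1 = 0 → (1 : κ) ^ 2 + 2 * b * c = 0 →
      b ^ 2 + 2 * c * 1 = 0 → False := by
    intro b c e e1 e2
    have e0 : 2 * 1 * b + c ^ 2 = 0 := by
      linear_combination 3 * e - b * e1 - c * e2
    exact one_ne_zero (main 1 b c e0 e1 e2).1
  have two1 : ∀ c : κ, 1 + c + c ^ 2 = 0 → 1 + 2 * c = 0 → False := by
    intro c e e'
    have : (3 : κ) = 0 := by linear_combination 4 * e - (2 * c + 1) * e'
    exact three this
  rcases h0 with rfl | h0
  · rcases h1 with rfl | h1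
    · rcases h2 with rfl | h2
      · exact absurd (by linear_combination h) three
      · exact (two1 γ (by linear_combination h) (by linear_combination h2)).elim
    · rcases h2 with rfl | h2
      · exact (two1 β (by linear_combination h) (by linear_combination h1)).elim
      · exact (one1 β γ h h1 h2).elim
  · rcases h1 with rfl | h1
    · rcases h2 with rfl | h2
      · exact (two1 α (by linear_combination h) (by linear_combination h0)).elim
      · exact (one1 γ α (by linear_combination h) (by linear_combination h2)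
          (by linear_combination h0)).elim
    · rcases h2 with rfl | h2
      · exact (one1 α β (by linear_combination h) (by linear_combination h0)
          (by linear_combination h1)).elim
      · exact main α β γ h0 h1 h2

end Pool.Agent.Lib.MP_0bb41e_ag
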