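import Pool.Agent.Lib.MP_0bb41e_ag.Sphere

/-!
# The valuation of a discrete valuation ring of `K`
-/

namespace Pool.Agent.Lib.MP_0bb41e_ag

variable {K : Type} [Field K] [Algebra ℂ K] {R : Subalgebra ℂ K}

theorem IsDVR.exists_irreducible (hR : IsDVR R) : ∃ ϖ : R, Irreducible ϖ := by
  have := hR.1
  exact IsDiscreteValuationRing.exists_irreducible R

theorem coe_ne_zero_of_irreducible {ϖ : R} (h : Irreducible ϖ) : (ϖ : K) ≠ 0 := by
  intro h0
  exact h.ne_zero (Subtype.ext h0)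

theorem coe_ne_zero_of_isUnit {u : R} (h : IsUnit u) : (u : K) ≠ 0 :=
  ((isUnit_iff_inv_mem u).1 h).1

theorem inv_mem_of_isUnit {u : R} (h : IsUnit u) : (u : K)⁻¹ ∈ R :=
  ((isUnit_iff_inv_mem u).1 h).2

theorem isUnit_inv {u : R} (h : IsUnit u) : IsUnit (⟨(u : K)⁻¹, inv_mem_of_isUnit h⟩ : R) := by
  rw [isUnit_iff_inv_mem]
  exact ⟨inv_ne_zero (coe_ne_zero_of_isUnit h), by simp⟩

theorem IsDVR.exists_rep (hR : IsDVR R) {ϖ : R} (hϖ : Irreducible ϖ) (x : K) (hx : x ≠ 0) :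
    ∃ (k : ℤ) (u : R), IsUnit u ∧ x = (ϖ : K) ^ k * (u : K) := by
  have := hR.1
  have := hR.2
  obtain ⟨a, b, hb, rfl⟩ := IsFractionRing.div_surjective (A := R) x
  have hb0 : b ≠ 0 := nonZeroDivisors.ne_zero hb
  have ha0 : a ≠ 0 := by
    rintro rfl
    exact hx (by simp)
  obtain ⟨m, u, hu⟩ := IsDiscreteValuationRing.eq_unit_mul_pow_irreducible ha0 hϖ
  obtain ⟨n, v, hv⟩ := IsDiscreteValuationRing.eq_unit_mul_pow_irreducible hb0 hϖ
  refine ⟨(m : ℤ) - n, (u * v⁻¹ : Rˣ), Units.isUnit _, ?_⟩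
  have hϖ0 := coe_ne_zero_of_irreducible hϖ
  have hv0 : ((v : R) : K) ≠ 0 := coe_ne_zero_of_isUnit v.isUnit
  have h1 : (algebraMap R K) a = (u : R) * (ϖ : K) ^ m := by
    rw [hu]; simp [Subalgebra.algebraMap_eq]
  have h2 : (algebraMap R K) b = (v : R) * (ϖ : K) ^ n := by
    rw [hv]; simp [Subalgebra.algebraMap_eq]
  have h3 : (((v⁻¹ : Rˣ) : R) : K) = ((v : R) : K)⁻¹ := by
    apply eq_inv_of_mul_eq_one_left
    have := v.inv_mul
    exact congrArg Subtype.val this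
  rw [h1, h2, zpow_sub₀ hϖ0]
  push_cast
  rw [h3]
  simp only [zpow_natCast]
  field_simp

theorem zpow_mem_of_nonneg {x : K} (hx : x ∈ R) {k : ℤ} (hk : 0 ≤ k) : x ^ k ∈ R := by
  obtain ⟨n, rfl⟩ := Int.eq_ofNat_of_zero_le hk
  simpa using R.pow_mem hx n

/-- A uniformizer to a positive power times a unit is a nonunit. -/
theorem pos_notUnit {ϖ u : R} (hϖ : Irreducible ϖ) (hu : IsUnit u) {k : ℤ} (hk : 0 < k) :
    ((ϖ : K) ^ k * (u : K))⁻¹ ∉ R := by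
  intro h
  apply hϖ.not_isUnit
  rw [isUnit_iff_inv_mem]
  have hϖ0 := coe_ne_zero_of_irreducible hϖ
  have hu0 := coe_ne_zero_of_isUnit hu
  refine ⟨hϖ0, ?_⟩
  have h2 : (ϖ : K) ^ (k - 1) ∈ R := zpow_mem_of_nonneg ϖ.2 (by omega)
  have : (ϖ : K)⁻¹ = ((ϖ : K) ^ k * (u : K))⁻¹ * (ϖ : K) ^ (k - 1) * u := by
    rw [zpow_sub₀ hϖ0, zpow_one]
    field_simp
  rw [this]
  exact R.mul_mem (R.mul_mem h h2) u.2

theorem rep_unique {ϖ ϖ' u u' : R} (hϖ : Irreducible ϖ) (hϖ' : Irreducible ϖ')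
    (hR : IsDVR R) (hu : IsUnit u) (hu' : IsUnit u') {k l : ℤ}
    (h : (ϖ : K) ^ k * (u : K) = (ϖ' : K) ^ l * (u' : K)) : k = l := by
  have := hR.1
  have hass : Associated ϖ ϖ' := IsDiscreteValuationRing.associated_of_irreducible R hϖ hϖ'
  obtain ⟨e, he⟩ := hass
  have he' : (ϖ' : K) = (ϖ : K) * ((e : R) : K) := by
    rw [← he]; simp
  have hϖ0 := coe_ne_zero_of_irreducible hϖ
  have he0 : ((e : R) : K) ≠ 0 := coe_ne_zero_of_isUnit e.isUnit
  have hu0 := coe_ne_zero_of_isUnit hu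
  have hu0' := coe_ne_zero_of_isUnit hu'
  have hez : ∀ m : ℤ, ((e : R) : K) ^ m ∈ R := by
    intro m
    rcases le_total 0 m with hm | hm
    · exact zpow_mem_of_nonneg (e : R).2 hm
    · have : ((e : R) : K) ^ m = (((e : R) : K)⁻¹) ^ (-m) := by
        rw [inv_zpow', neg_neg]
      rw [this]
      exact zpow_mem_of_nonneg (inv_mem_of_isUnit e.isUnit) (by omega)
  by_contra hne
  rw [he', mul_zpow] at h
  rcases lt_or_gt_of_ne hne with hlt | hgt
  · have h1 : (ϖ : K) ^ (l - k) * ((e : R) : K) ^ l * u' = u := by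
      rw [zpow_sub₀ hϖ0]
      field_simp
      rw [← h]
    have : ((ϖ : K) ^ (l - k) * ((1 : R) : K))⁻¹ ∈ R := by
      have : ((ϖ : K) ^ (l - k) * ((1 : R) : K))⁻¹ = ((e : R) : K) ^ l * u' * (u : K)⁻¹ := by
        rw [← h1]
        have := zpow_ne_zero (l - k) hϖ0
        have := zpow_ne_zero l he0
        simp only [OneMemClass.coe_one, mul_one]
        field_simp
      rw [this]
      exact R.mul_mem (R.mul_mem (hez l) u'.2) (inv_mem_of_isUnit hu)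
    exact pos_notUnit hϖ isUnit_one (by omega) this
  · have h1 : (ϖ : K) ^ (k - l) * u = ((e : R) : K) ^ l * u' := by
      rw [zpow_sub₀ hϖ0]
      field_simp
      rw [h]
    have : ((ϖ : K) ^ (k - l) * ((1 : R) : K))⁻¹ ∈ R := by
      have : ((ϖ : K) ^ (k - l) * ((1 : R) : K))⁻¹ = ((e : R) : K) ^ (-l) * (u' : K)⁻¹ * u := by
        have h2 : (ϖ : K) ^ (k - l) = ((e : R) : K) ^ l * u' * (u : K)⁻¹ := by
          rw [← h1]; field_simp
        rw [h2]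
        have := zpow_ne_zero l he0
        simp only [OneMemClass.coe_one, mul_one, zpow_neg]
        field_simp
      rw [this]
      exact R.mul_mem (R.mul_mem (hez _) (inv_mem_of_isUnit hu')) u.2
    exact pos_notUnit hϖ isUnit_one (by omega) this

theorem HasVal.unique (hR : IsDVR R) {g : K} {k l : ℤ} (h : HasVal R g k) (h' : HasVal R g l) :
    k = l := by
  obtain ⟨ϖ, u, h1, h2, h3⟩ := h
  obtain ⟨ϖ', u', h1', h2', h3'⟩ := h'
  exact rep_unique h1 h1' hR h2 h2' (h3.symm.trans h3')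

open Classical in
/-- The valuation attached to the discrete valuation ring `R` (zero at zero by convention). -/
noncomputable def valZ (R : Subalgebra ℂ K) (x : K) : ℤ :=
  if h : ∃ k, HasVal R x k then Classical.choose h else 0

theorem HasVal.valZ_eq (hR : IsDVR R) {g : K} {k : ℤ} (h : HasVal R g k) : valZ R g = k := by
  have hex : ∃ k, HasVal R g k := ⟨k, h⟩
  unfold valZ
  rw [dif_pos hex]
  exact HasVal.unique hR (Classical.choose_spec hex) h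

theorem IsDVR.hasVal (hR : IsDVR R) {x : K} (hx : x ≠ 0) : HasVal R x (valZ R x) := by
  obtain ⟨ϖ, hϖ⟩ := hR.exists_irreducible
  obtain ⟨k, u, hu, h⟩ := hR.exists_rep hϖ x hx
  have h1 : HasVal R x k := ⟨ϖ, u, hϖ, hu, h⟩
  rw [h1.valZ_eq hR]; exact h1

theorem IsDVR.rep (hR : IsDVR R) {ϖ : R} (hϖ : Irreducible ϖ) {x : K} (hx : x ≠ 0) :
    ∃ u : R, IsUnit u ∧ x = (ϖ : K) ^ (valZ R x) * (u : K) := by
  obtain ⟨k, u, hu, h⟩ := hR.exists_rep hϖ x hx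
  have h1 : HasVal R x k := ⟨ϖ, u, hϖ, hu, h⟩
  rw [h1.valZ_eq hR]
  exact ⟨u, hu, h⟩

theorem IsDVR.valZ_mul (hR : IsDVR R) {x y : K} (hx : x ≠ 0) (hy : y ≠ 0) :
    valZ R (x * y) = valZ R x + valZ R y := by
  obtain ⟨ϖ, hϖ⟩ := hR.exists_irreducible
  obtain ⟨u, hu, hxu⟩ := hR.rep hϖ hx
  obtain ⟨v, hv, hyv⟩ := hR.rep hϖ hy
  apply HasVal.valZ_eq hR
  refine ⟨ϖ, u * v, hϖ, hu.mul hv, ?_⟩
  have hϖ0 := coe_ne_zero_of_irreducible hϖ
  rw [zpow_add₀ hϖ0]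
  conv_lhs => rw [hxu, hyv]
  push_cast
  ring

theorem IsDVR.valZ_one (hR : IsDVR R) : valZ R (1 : K) = 0 := by
  have := hR.valZ_mul (one_ne_zero (α := K)) (one_ne_zero (α := K))
  rw [one_mul] at this
  omega

theorem IsDVR.valZ_inv (hR : IsDVR R) {x : K} (hx : x ≠ 0) : valZ R x⁻¹ = - valZ R x := by
  have := hR.valZ_mul hx (inv_ne_zero hx)
  rw [mul_inv_cancel₀ hx, hR.valZ_one] at this
  omega

theorem IsDVR.valZ_div (hR : IsDVR R) {x y : K} (hx : x ≠ 0) (hy : y ≠ 0) :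
    valZ R (x / y) = valZ R x - valZ R y := by
  rw [div_eq_mul_inv, hR.valZ_mul hx (inv_ne_zero hy), hR.valZ_inv hy]
  ring

theorem IsDVR.valZ_pow (hR : IsDVR R) {x : K} (hx : x ≠ 0) (n : ℕ) :
    valZ R (x ^ n) = n * valZ R x := by
  induction n with
  | zero => simpa using hR.valZ_one
  | succ n ih =>
    rw [pow_succ, hR.valZ_mul (pow_ne_zero n hx) hx, ih]
    push_cast
    ring

theorem IsDVR.mem_iff (hR : IsDVR R) {x : K} (hx : x ≠ 0) : x ∈ R ↔ 0 ≤ valZ R x := by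
  obtain ⟨ϖ, hϖ⟩ := hR.exists_irreducible
  obtain ⟨u, hu, hxu⟩ := hR.rep hϖ hx
  constructor
  · intro h
    by_contra hcon
    push Not at hcon
    have h1 : (((ϖ : K) ^ (- valZ R x)) * ((⟨(u : K)⁻¹, inv_mem_of_isUnit hu⟩ : R) : K))⁻¹ ∈ R := by
      have : (((ϖ : K) ^ (- valZ R x)) * ((⟨(u : K)⁻¹, inv_mem_of_isUnit hu⟩ : R) : K))⁻¹ = x := by
        rw [mul_inv]
        simp only [inv_inv, zpow_neg]
        exact hxu.symm
      rw [this]; exact h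
    exact pos_notUnit hϖ (isUnit_inv hu) (by omega) h1
  · intro h
    rw [hxu]
    exact R.mul_mem (zpow_mem_of_nonneg ϖ.2 h) u.2

theorem IsDVR.mem_nonunits_iff (hR : IsDVR R) {x : K} (hx : x ≠ 0) :
    x ∈ nonunitsIn R ↔ 0 < valZ R x := by
  unfold nonunitsIn
  simp only [Set.mem_ofPred_eq]
  rw [hR.mem_iff hx, hR.mem_iff (inv_ne_zero hx), hR.valZ_inv hx]
  constructor
  · rintro ⟨h1, h2 | h2⟩
    · exact absurd h2 hx
    · omega
  · intro h
    exact ⟨h.le, Or.inr (by omega)⟩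

theorem IsDVR.isUnit_iff (hR : IsDVR R) (x : R) (hx : (x : K) ≠ 0) :
    IsUnit x ↔ valZ R (x : K) = 0 := by
  have h1 := (hR.mem_iff hx).1 x.2
  rw [isUnit_iff_inv_mem, hR.mem_iff (inv_ne_zero hx), hR.valZ_inv hx]
  constructor
  · rintro ⟨_, h⟩; omega
  · intro h; exact ⟨hx, by omega⟩

theorem IsDVR.valZ_coe_isUnit (hR : IsDVR R) {x : R} (hx : IsUnit x) : valZ R (x : K) = 0 :=
  (hR.isUnit_iff x (coe_ne_zero_of_isUnit hx)).1 hx

theorem IsDVR.valZ_irreducible (hR : IsDVR R) {ϖ : R} (hϖ : Irreducible ϖ) :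
    valZ R (ϖ : K) = 1 := by
  apply HasVal.valZ_eq hR
  exact ⟨ϖ, 1, hϖ, isUnit_one, by simp⟩

theorem IsDVR.valZ_zpow (hR : IsDVR R) {x : K} (hx : x ≠ 0) (n : ℤ) :
    valZ R (x ^ n) = n * valZ R x := by
  rcases Int.le_total 0 n with h | h
  · obtain ⟨m, rfl⟩ := Int.eq_ofNat_of_zero_le h
    simpa using hR.valZ_pow hx m
  · obtain ⟨m, hm⟩ := Int.eq_ofNat_of_zero_le (show 0 ≤ -n by omega)
    have hn : n = -(m : ℤ) := by omega
    rw [hn, zpow_neg, zpow_natCast, hR.valZ_inv (pow_ne_zero m hx), hR.valZ_pow hx m]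
    ring

/-- Elements of valuation at least `k` are the elements of `ϖ ^ k R`. -/
theorem IsDVR.zpow_neg_mul_mem (hR : IsDVR R) {ϖ : R} (hϖ : Irreducible ϖ) {x : K} {k : ℤ}
    (h : x = 0 ∨ k ≤ valZ R x) : (ϖ : K) ^ (-k) * x ∈ R := by
  rcases eq_or_ne x 0 with rfl | hx
  · simp
  · have h' := h.resolve_left hx
    have hϖ0 := coe_ne_zero_of_irreducible hϖ
    have hz : (ϖ : K) ^ (-k) ≠ 0 := zpow_ne_zero _ hϖ0
    rw [hR.mem_iff (mul_ne_zero hz hx), hR.valZ_mul hz hx, hR.valZ_zpow hϖ0,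
      hR.valZ_irreducible hϖ]
    omega

theorem IsDVR.valZ_add_ge (hR : IsDVR R) {x y : K} (hxy : x + y ≠ 0)
    {k : ℤ} (h1 : k ≤ valZ R x) (h2 : k ≤ valZ R y) : k ≤ valZ R (x + y) := by
  obtain ⟨ϖ, hϖ⟩ := hR.exists_irreducible
  have hϖ0 := coe_ne_zero_of_irreducible hϖ
  have hz : (ϖ : K) ^ (-k) ≠ 0 := zpow_ne_zero _ hϖ0
  have h3 := R.add_mem (hR.zpow_neg_mul_mem hϖ (Or.inr h1)) (hR.zpow_neg_mul_mem hϖ (Or.inr h2))
  rw [← mul_add, hR.mem_iff (mul_ne_zero hz hxy), hR.valZ_mul hz hxy, hR.valZ_zpow hϖ0,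
    hR.valZ_irreducible hϖ] at h3
  omega

theorem IsDVR.valZ_neg (hR : IsDVR R) {x : K} (hx : x ≠ 0) : valZ R (-x) = valZ R x := by
  have h1 : (-1 : K) ≠ 0 := by simp
  have h2 : valZ R (-1 : K) = 0 := by
    have := hR.valZ_mul h1 h1
    rw [neg_mul_neg, one_mul, hR.valZ_one] at this
    omega
  have := hR.valZ_mul h1 hx
  rw [neg_one_mul, h2, zero_add] at this
  exact this

theorem IsDVR.valZ_add_eq (hR : IsDVR R) {x y : K} (hx : x ≠ 0) (hy : y ≠ 0)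
    (h : valZ R x < valZ R y) : x + y ≠ 0 ∧ valZ R (x + y) = valZ R x := by
  have hxy : x + y ≠ 0 := by
    intro h0
    have : x = -y := eq_neg_of_add_eq_zero_left h0
    rw [this, hR.valZ_neg hy] at h
    omega
  refine ⟨hxy, ?_⟩
  have h1 := hR.valZ_add_ge hxy le_rfl h.le
  by_contra hne
  have h2 : valZ R x < valZ R (x + y) := lt_of_le_of_ne h1 (Ne.symm hne)
  have hny : -y ≠ 0 := neg_ne_zero.2 hy
  have h3 := hR.valZ_add_ge (x := x + y) (y := -y) (by simpa using hx)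
    (k := valZ R x + 1) (by omega) (by rw [hR.valZ_neg hy]; omega)
  simp only [add_neg_cancel_right] at h3
  omega

theorem IsDVR.algebraMap_mem_iff (_hR : IsDVR R) (c : ℂ) : algebraMap ℂ K c ∈ R :=
  R.algebraMap_mem c

theorem IsDVR.valZ_algebraMap (hR : IsDVR R) {c : ℂ} (hc : c ≠ 0) :
    valZ R (algebraMap ℂ K c) = 0 := by
  have h0 : algebraMap ℂ K c ≠ 0 := by simpa using hc
  have h1 := (hR.mem_iff h0).1 (R.algebraMap_mem c)
  have h2 := (hR.mem_iff (inv_ne_zero h0)).1 (by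
    rw [← map_inv₀]; exact R.algebraMap_mem c⁻¹)
  rw [hR.valZ_inv h0] at h2
  omega

theorem IsDVR.mem_or_inv_mem (hR : IsDVR R) (x : K) (hx : x ≠ 0) : x ∈ R ∨ x⁻¹ ∈ R := by
  rw [hR.mem_iff hx, hR.mem_iff (inv_ne_zero hx), hR.valZ_inv hx]
  omega

theorem IsDVR.isLocalRing (hR : IsDVR R) : IsLocalRing R := by
  have := hR.1
  infer_instance

end Pool.Agent.Lib.MP_0bb41e_ag
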