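import Pool.Agent.Lib.MP_0bb41e_ag.Sphere
import Pool.Agent.Lib.MP_0bb41e_ag.Val
import Pool.Agent.Lib.MP_0bb41e_ag.Charts

section

/-!
# Ratios of forms with the same divisor on a normal projective model
-/

namespace Pool.Agent.Lib.MP_0bb41e_ag

variable {K : Type} [Field K] [Algebra ℂ K]

namespace Crep

/-! ### Localizations -/

theorem mem_localize {A : Subalgebra ℂ K} {P : Ideal A} {hP : P.IsPrime} {x : K} :
    x ∈ localize A P hP ↔ ∃ a b : A, b ∉ P ∧ x = (a : K) / (b : K) := Iff.rfl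

theorem le_localize (A : Subalgebra ℂ K) (P : Ideal A) (hP : P.IsPrime) :
    A ≤ localize A P hP := fun x hx =>
  ⟨⟨x, hx⟩, 1, fun h => hP.ne_top ((Ideal.eq_top_iff_one P).2 h), by simp⟩

theorem ne_zero_of_notMem {A : Subalgebra ℂ K} {P : Ideal A} {b : A} (hb : b ∉ P) :
    (b : K) ≠ 0 := fun h => hb (by
  have : b = 0 := Subtype.ext h
  rw [this]; exact P.zero_mem)

/-- `localize A P` is a localization of `A` at `P`. -/
theorem isLocalization_localize (A : Subalgebra ℂ K) (P : Ideal A) [hP : P.IsPrime] :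
    letI := (Subalgebra.inclusion (le_localize A P hP)).toRingHom.toAlgebra
    IsLocalization.AtPrime (localize A P hP) P := by
  letI := (Subalgebra.inclusion (le_localize A P hP)).toRingHom.toAlgebra
  refine ⟨?_, ?_, ?_⟩
  · rintro ⟨b, hb⟩
    have hb' : b ∉ P := hb
    have hb0 : (b : K) ≠ 0 := ne_zero_of_notMem hb'
    refine isUnit_iff_exists_inv.2 ⟨⟨(b : K)⁻¹, ⟨1, b, hb', by simp⟩⟩, ?_⟩
    apply Subtype.ext
    exact mul_inv_cancel₀ hb0
  · rintro ⟨x, a, b, hb, rfl⟩
    have hb0 : (b : K) ≠ 0 := ne_zero_of_notMem hb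
    refine ⟨⟨a, ⟨b, hb⟩⟩, ?_⟩
    apply Subtype.ext
    exact div_mul_cancel₀ _ hb0
  · intro x y hxy
    refine ⟨1, ?_⟩
    have h : (x : K) = (y : K) := congrArg (fun u : localize A P hP => (u : K)) hxy
    rw [Subtype.ext h]

theorem isLocalRing_localize (A : Subalgebra ℂ K) (P : Ideal A) [hP : P.IsPrime] :
    IsLocalRing (localize A P hP) := by
  letI := (Subalgebra.inclusion (le_localize A P hP)).toRingHom.toAlgebra
  haveI := isLocalization_localize A P
  exact IsLocalization.AtPrime.isLocalRing (localize A P hP) P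

theorem isNoetherianRing_localize (A : Subalgebra ℂ K) [IsNoetherianRing A] (P : Ideal A)
    [hP : P.IsPrime] : IsNoetherianRing (localize A P hP) := by
  letI := (Subalgebra.inclusion (le_localize A P hP)).toRingHom.toAlgebra
  haveI := isLocalization_localize A P
  exact IsLocalization.isNoetherianRing P.primeCompl (localize A P hP) inferInstance

theorem isFractionRing_of_le {A B : Subalgebra ℂ K} (hAB : A ≤ B)
    (hA : IsFractionRing A K) : IsFractionRing B K := by
  refine IsFractionRing.of_field B K fun z => ?_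
  obtain ⟨x, y, -, hz⟩ := IsFractionRing.div_surjective (A := A) z
  exact ⟨⟨x, hAB x.2⟩, ⟨y, hAB y.2⟩, hz.symm⟩

/-! ### A normal noetherian domain is an intersection of discrete valuation rings -/

theorem exists_dvr (A : Subalgebra ℂ K) [IsNoetherianRing A] (hA : IsFractionRing A K)
    (hnormal : ∀ (P : Ideal A) (hP : P.IsPrime), IsIntegrallyClosed (localize A P hP))
    (h : K) (hh : h ∉ A) :
    ∃ (P : Ideal A) (hP : P.IsPrime), IsDVR (localize A P hP) ∧ h ∉ localize A P hP := by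
  classical
  -- the ideals of denominators
  let I : K → Ideal A := fun t =>
    { carrier := {r | (r : K) * t ∈ A}
      add_mem' := fun {r s} hr hs => by
        show ((r + s : A) : K) * t ∈ A
        push_cast
        rw [add_mul]
        exact A.add_mem hr hs
      zero_mem' := by
        show ((0 : A) : K) * t ∈ A
        simp
      smul_mem' := fun c {r} hr => by
        show ((c * r : A) : K) * t ∈ A
        push_cast
        rw [mul_assoc]
        exact A.mul_mem c.2 hr }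
  have hI : ∀ (t : K) (r : A), r ∈ I t ↔ (r : K) * t ∈ A := fun t r => Iff.rfl
  obtain ⟨P, ⟨t, ⟨r0, rfl⟩, ht, rfl⟩, hmax⟩ := set_has_maximal_iff_noetherian.mpr
    (inferInstance : IsNoetherian A A)
    {J : Ideal A | ∃ t : K, (∃ r : A, t = r * h) ∧ t ∉ A ∧ J = I t}
    ⟨I h, h, ⟨1, by simp⟩, hh, rfl⟩
  set t : K := r0 * h with htdef
  have hprime : (I t).IsPrime := by
    refine ⟨?_, ?_⟩
    · intro htop
      apply ht
      have := (hI t 1).1 (by rw [htop]; trivial)
      simpa using this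
    · intro r s hrs
      by_cases hs : s ∈ I t
      · exact Or.inr hs
      · left
        have hst : (s : K) * t ∉ A := hs
        have hle : I t ≤ I (s * t) := by
          intro r' hr'
          rw [hI] at hr' ⊢
          have : (r' : K) * (s * t) = s * (r' * t) := by ring
          rw [this]
          exact A.mul_mem s.2 hr'
        have heq : I t = I (s * t) := by
          by_contra hne
          exact hmax (I (s * t)) ⟨s * t, ⟨s * r0, by rw [htdef]; push_cast; ring⟩, hst, rfl⟩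
            (lt_of_le_of_ne hle hne)
        rw [heq, hI]
        rw [hI] at hrs
        push_cast at hrs
        rw [← mul_assoc]
        exact hrs
  refine ⟨I t, hprime, ?_, ?_⟩
  swap
  · rintro ⟨a, b, hb, hab⟩
    apply hb
    rw [hI, htdef, hab]
    have hb0 : (b : K) ≠ 0 := ne_zero_of_notMem hb
    have : (b : K) * (r0 * (a / b)) = r0 * a := by field_simp
    rw [this]
    exact A.mul_mem r0.2 a.2
  have hL := hnormal (I t) hprime
  have hfr : IsFractionRing (localize A (I t) hprime) K :=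
    isFractionRing_of_le (le_localize A (I t) hprime) hA
  refine ⟨?_, hfr⟩
  have htL : t ∉ localize A (I t) hprime := by
    rintro ⟨a, b, hb, hab⟩
    apply hb
    rw [hI, hab]
    have hb0 : (b : K) ≠ 0 := ne_zero_of_notMem hb
    rw [mul_div_cancel₀ _ hb0]
    exact a.2
  have ht0 : t ≠ 0 := fun h0 => ht (by rw [h0]; exact A.zero_mem)
  -- `t` does not preserve `P`
  obtain ⟨x, hx, hxt⟩ : ∃ x : A, ∃ hx : x ∈ I t, (⟨(x : K) * t, hx⟩ : A) ∉ I t := by
    by_contra hcon
    push Not at hcon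
    apply htL
    have hP0 : Submodule.map (Algebra.linearMap A K) (I t) ≠ ⊥ := by
      obtain ⟨a, b, hb, hab⟩ := IsFractionRing.div_surjective (A := A) t
      have hb0 : (b : K) ≠ 0 := by
        intro h0
        apply ht0
        rw [← hab]
        have : algebraMap A K b = 0 := h0
        rw [this, div_zero]
      rw [Submodule.ne_bot_iff]
      refine ⟨(b : K), ⟨b, ?_, rfl⟩, hb0⟩
      show (b : K) * t ∈ A
      rw [← hab]
      have : (b : K) * (algebraMap A K a / algebraMap A K b) = a := by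
        show (b : K) * ((a : K) / (b : K)) = a
        exact mul_div_cancel₀ _ hb0
      rw [this]
      exact a.2
    have hint : IsIntegral A t := by
      refine isIntegral_of_smul_mem_submodule (Submodule.map (Algebra.linearMap A K) (I t)) hP0
        ((IsNoetherian.noetherian (I t)).map _) t ?_
      rintro _ ⟨x, hx, rfl⟩
      refine ⟨⟨(x : K) * t, hx⟩, hcon x hx, ?_⟩
      show (x : K) * t = t * x
      ring
    letI := (Subalgebra.inclusion (le_localize A (I t) hprime)).toRingHom.toAlgebra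
    haveI : IsScalarTower A (localize A (I t) hprime) K :=
      IsScalarTower.of_algebraMap_eq fun _ => rfl
    have hint' : IsIntegral (localize A (I t) hprime) t := hint.tower_top
    obtain ⟨y, hy⟩ := (IsIntegrallyClosed.isIntegral_iff (R := localize A (I t) hprime)
      (K := K)).1 hint'
    have hy2 : (y : K) = t := hy
    exact Eq.subst (motive := fun u => u ∈ localize A (I t) hprime) hy2 y.2
  have hloc := @isLocalRing_localize K _ _ A (I t) hprime
  have hnoe := @isNoetherianRing_localize K _ _ A _ (I t) hprime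
  set x' : localize A (I t) hprime := ⟨x, le_localize A (I t) hprime x.2⟩ with hx'
  have hx'nu : ¬ IsUnit x' := by
    intro hu
    obtain ⟨⟨_, a, b, hb, rfl⟩, hy⟩ := isUnit_iff_exists_inv.1 hu
    have h1 : (x : K) * (a / b) = 1 := congrArg (fun u : localize A (I t) hprime => (u : K)) hy
    have hb0 : (b : K) ≠ 0 := ne_zero_of_notMem hb
    apply hb
    have h2 : b = a * x := by
      apply Subtype.ext
      push_cast
      field_simp at h1
      rw [← h1]
      ring
    rw [h2]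
    exact (I t).mul_mem_left _ hx
  have hxt0 : (x : K) * t ≠ 0 := ne_zero_of_notMem hxt
  have hx0 : (x : K) ≠ 0 := fun h0 => hxt0 (by rw [h0, zero_mul])
  have hx'0 : x' ≠ 0 := fun h0 => hx0 (congrArg (fun u : localize A (I t) hprime => (u : K)) h0)
  have hnf : ¬ IsField (localize A (I t) hprime) := by
    intro hF
    obtain ⟨y, hy⟩ := hF.mul_inv_cancel hx'0
    exact hx'nu (isUnit_iff_exists_inv.2 ⟨y, hy⟩)
  refine ((IsDiscreteValuationRing.TFAE (localize A (I t) hprime) hnf).out 0 4).2 ?_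
  refine ⟨⟨x', le_antisymm ?_ ?_⟩⟩
  · intro y hy
    rw [IsLocalRing.mem_maximalIdeal] at hy
    obtain ⟨y, a, b, hb, rfl⟩ := y
    have hb0 : (b : K) ≠ 0 := ne_zero_of_notMem hb
    have ha : a ∈ I t := by
      by_contra ha
      apply hy
      have ha0 : (a : K) ≠ 0 := ne_zero_of_notMem ha
      refine isUnit_iff_exists_inv.2 ⟨⟨b / a, b, a, ha, rfl⟩, ?_⟩
      apply Subtype.ext
      show (a : K) / b * (b / a) = 1
      field_simp
    have hden : b * ⟨(x : K) * t, hx⟩ ∉ I t := fun hm =>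
      (hprime.mem_or_mem hm).elim hb hxt
    refine Ideal.mem_span_singleton'.2 ⟨⟨((a : K) * t) / (b * (x * t)), ⟨⟨a * t, ha⟩,
      b * ⟨(x : K) * t, hx⟩, hden, rfl⟩⟩, ?_⟩
    apply Subtype.ext
    show ((a : K) * t) / (b * (x * t)) * x = a / b
    field_simp
  · rw [Submodule.span_le, Set.singleton_subset_iff]
    exact (IsLocalRing.mem_maximalIdeal _).2 hx'nu

/-! ### Chart rings -/

theorem isNoetherianRing_chart (Y : ProjModel K) (i : Fin (Y.N + 1)) :
    IsNoetherianRing (Y.chart i) :=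
  isNoetherianRing_of_fg (Subalgebra.fg_def.2 ⟨_, Set.finite_range _, rfl⟩)

theorem isFractionRing_chart (Y : ProjModel K) (i : Fin (Y.N + 1)) :
    IsFractionRing (Y.chart i) K := by
  refine IsFractionRing.of_field _ K fun z => ?_
  have hz : z ∈ IntermediateField.adjoin ℂ (Set.range fun j => Y.f j / Y.f i) := by
    rw [Y.gen i]
    trivial
  obtain ⟨r, hr, s, hs, h⟩ := IntermediateField.mem_adjoin_iff_div.1 hz
  exact ⟨⟨r, hr⟩, ⟨s, hs⟩, h⟩

open KaehlerDifferential

/-- The differentials of the functions regular at a point of a chart are linear combinations of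
the differentials of the generators. -/
theorem D_mem_span (Y : ProjModel K) (i : Fin (Y.N + 1)) (P : Ideal (Y.chart i))
    (hP : P.IsPrime) (a : K) (ha : a ∈ localize (Y.chart i) P hP) :
    KaehlerDifferential.D ℂ K a ∈ Submodule.span (localize (Y.chart i) P hP)
      (Set.range fun j => KaehlerDifferential.D ℂ K (Y.f j / Y.f i)) := by
  set L := localize (Y.chart i) P hP with hL
  set M : Submodule L (Ω[K⁄ℂ]) := Submodule.span L
      (Set.range fun j => KaehlerDifferential.D ℂ K (Y.f j / Y.f i)) with hM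
  have hsmul : ∀ (c : K) (_ : c ∈ L) (m : Ω[K⁄ℂ]), m ∈ M → c • m ∈ M := fun c hc m hm =>
    M.smul_mem ⟨c, hc⟩ hm
  have hchart : ∀ b ∈ Y.chart i, b ∈ L ∧ KaehlerDifferential.D ℂ K b ∈ M := by
    intro b hb
    refine ⟨le_localize _ P hP hb, ?_⟩
    induction hb using Algebra.adjoin_induction with
    | mem x hx =>
      obtain ⟨j, rfl⟩ := hx
      exact Submodule.subset_span ⟨j, rfl⟩
    | algebraMap r =>
      rw [Derivation.map_algebraMap]
      exact M.zero_mem
    | add x y hx hy hx' hy' =>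
      rw [map_add]
      exact M.add_mem hx' hy'
    | mul x y hx hy hx' hy' =>
      rw [Derivation.leibniz]
      exact M.add_mem (hsmul x (le_localize _ P hP hx) _ hy')
        (hsmul y (le_localize _ P hP hy) _ hx')
  obtain ⟨x, y, hy, rfl⟩ := ha
  rw [Derivation.leibniz_div]
  have hinv : (y : K)⁻¹ ∈ L := ⟨1, y, hy, by simp⟩
  refine hsmul _ (L.pow_mem hinv 2) _ (M.sub_mem ?_ ?_)
  · exact hsmul _ (hchart y y.2).1 _ (hchart x x.2).2
  · exact hsmul _ (hchart x x.2).1 _ (hchart y y.2).2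

/-- The lattice of regular forms is contained in a finitely generated module. -/
theorem formLattice_le (Y : ProjModel K) (i : Fin (Y.N + 1)) (P : Ideal (Y.chart i))
    (hP : P.IsPrime) (n : ℕ) :
    extLattice n (localize (Y.chart i) P hP) ≤ Submodule.span (localize (Y.chart i) P hP)
      (Set.range fun r : Fin n → Fin (Y.N + 1) => exteriorPower.ιMulti K n fun k =>
        KaehlerDifferential.D ℂ K (Y.f (r k) / Y.f i)) := by
  classical
  rw [extLattice, Submodule.span_le]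
  rintro _ ⟨a, rfl⟩
  have h1 : ∀ k, ∃ c : Fin (Y.N + 1) → localize (Y.chart i) P hP,
      ∑ j, c j • KaehlerDifferential.D ℂ K (Y.f j / Y.f i) =
        KaehlerDifferential.D ℂ K (a k : K) := fun k =>
    (Submodule.mem_span_range_iff_exists_fun _).1 (D_mem_span Y i P hP (a k) (a k).2)
  choose c hc using h1
  have h2 : (fun k => KaehlerDifferential.D ℂ K (a k : K)) = fun k =>
      ∑ j, (c k j : K) • KaehlerDifferential.D ℂ K (Y.f j / Y.f i) := by
    funext k
    rw [← hc k]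
    rfl
  show (exteriorPower.ιMulti K n fun k => KaehlerDifferential.D ℂ K (a k : K)) ∈ _
  rw [h2]
  have h3 := (exteriorPower.ιMulti K n (M := Ω[K⁄ℂ])).toMultilinearMap.map_sum
    (fun (k : Fin n) (j : Fin (Y.N + 1)) =>
      (c k j : K) • KaehlerDifferential.D ℂ K (Y.f j / Y.f i))
  have h4 : (exteriorPower.ιMulti K n fun k => ∑ j, (c k j : K) •
      KaehlerDifferential.D ℂ K (Y.f j / Y.f i)) = ∑ r : Fin n → Fin (Y.N + 1),
      (∏ k, (c k (r k) : K)) • exteriorPower.ιMulti K n fun k =>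
        KaehlerDifferential.D ℂ K (Y.f (r k) / Y.f i) := by
    refine h3.trans (Finset.sum_congr rfl fun r _ => ?_)
    exact (exteriorPower.ιMulti K n (M := Ω[K⁄ℂ])).map_smul_univ (fun k => (c k (r k) : K))
      (fun k => KaehlerDifferential.D ℂ K (Y.f (r k) / Y.f i))
  rw [h4]
  refine Submodule.sum_mem _ fun r _ => ?_
  have h5 : (∏ k, (c k (r k) : K)) ∈ localize (Y.chart i) P hP :=
    Subalgebra.prod_mem _ fun k _ => (c k (r k)).2
  exact Submodule.smul_mem _ (⟨_, h5⟩ : localize (Y.chart i) P hP)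
    (Submodule.subset_span ⟨r, rfl⟩)

/-- The forms regular at a point span the space of rational forms. -/
theorem exists_mem_formLattice_ne_zero (L : Subalgebra ℂ K) (hL : IsFractionRing L K) (n : ℕ)
    (hne : ∃ ω : ⋀[K]^n Ω[K⁄ℂ], ω ≠ 0) :
    ∃ η ∈ extLattice n L, η ≠ 0 := by
  by_contra hcon
  push Not at hcon
  have hspan : Submodule.span K ((fun a : K => KaehlerDifferential.D ℂ K a) '' (L : Set K)) =
      (⊤ : Submodule K Ω[K⁄ℂ]) := by
    rw [eq_top_iff, ← KaehlerDifferential.span_range_derivation, Submodule.span_le]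
    rintro _ ⟨z, rfl⟩
    obtain ⟨x, y, -, hz⟩ := IsFractionRing.div_surjective (A := L) z
    have hz' : z = (x : K) / (y : K) := hz.symm
    rw [SetLike.mem_coe, hz', Derivation.leibniz_div]
    refine Submodule.smul_mem _ _ (Submodule.sub_mem _ ?_ ?_)
    · exact Submodule.smul_mem _ _ (Submodule.subset_span ⟨x, x.2, rfl⟩)
    · exact Submodule.smul_mem _ _ (Submodule.subset_span ⟨y, y.2, rfl⟩)
  have htop := exteriorPower.ιMulti_span_of_span K n (Ω[K⁄ℂ]) hspan
  obtain ⟨ω, hω⟩ := hne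
  apply hω
  have hmem : ω ∈ (⊤ : Submodule K (⋀[K]^n Ω[K⁄ℂ])) := trivial
  rw [← htop] at hmem
  have hle : Submodule.span K ((exteriorPower.ιMulti K n) ''
      {a : Fin n → Ω[K⁄ℂ] | Set.range a ⊆
        (fun a : K => KaehlerDifferential.D ℂ K a) '' (L : Set K)}) ≤ ⊥ := by
    rw [Submodule.span_le]
    rintro _ ⟨a, ha, rfl⟩
    have h1 : ∀ k, ∃ x : L, KaehlerDifferential.D ℂ K (x : K) = a k := by
      intro k
      obtain ⟨x, hx, hxk⟩ := ha ⟨k, rfl⟩
      exact ⟨⟨x, hx⟩, hxk⟩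
    choose x hx using h1
    have h2 := hcon _ (Submodule.subset_span ⟨x, rfl⟩)
    rw [SetLike.mem_coe, Submodule.mem_bot, ← h2]
    congr 1
    funext k
    exact (hx k).symm
  exact (Submodule.mem_bot K).1 (hle hmem)

theorem exists_ordGE {n : ℕ} (L : Subalgebra ℂ K) (hd : IsDiscreteValuationRing L)
    (hfr : IsFractionRing L K) (ω' : ⋀[K]^n Ω[K⁄ℂ]) (hω' : ω' ≠ 0)
    (hfin : Module.finrank K (⋀[K]^n Ω[K⁄ℂ]) = 1) : ∃ z : ℤ, ExtOrdGE L ω' z := by
  obtain ⟨η, hη, hη0⟩ := exists_mem_formLattice_ne_zero L hfr n ⟨ω', hω'⟩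
  obtain ⟨c, hc⟩ := (finrank_eq_one_iff_of_nonzero' ω' hω').1 hfin η
  obtain ⟨p, q, -, hpq⟩ := IsFractionRing.div_surjective (A := L) c
  have hpq' : (p : K) / (q : K) = c := hpq
  have hc0 : c ≠ 0 := by
    rintro rfl
    exact hη0 (by rw [← hc, zero_smul])
  have hp0 : (p : K) ≠ 0 := fun h0 => hc0 (by rw [← hpq', h0, zero_div])
  have hq0 : (q : K) ≠ 0 := fun h0 => hc0 (by rw [← hpq', h0, div_zero])
  have hp0' : p ≠ 0 := fun h0 => hp0 (by rw [h0]; rfl)
  have hpω : (p : K) • ω' ∈ extLattice n L := by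
    have h1 : (p : K) • ω' = (q : K) • η := by
      rw [← hc, smul_smul, ← hpq', mul_div_cancel₀ _ hq0]
    rw [h1]
    exact Submodule.smul_mem _ q hη
  obtain ⟨ϖ₀, hϖ₀⟩ := IsDiscreteValuationRing.exists_irreducible L
  obtain ⟨m, hm⟩ := IsDiscreteValuationRing.associated_pow_irreducible hp0' hϖ₀
  refine ⟨-(m : ℤ), fun ϖ hϖ => ?_⟩
  have h2 : Associated p (ϖ ^ m) :=
    hm.trans ((IsDiscreteValuationRing.associated_of_irreducible L hϖ₀ hϖ).pow_pow)
  obtain ⟨u, hu⟩ := h2
  have hu' : (p : K) * ((u : L) : K) = (ϖ : K) ^ m := by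
    have := congrArg (fun y : L => (y : K)) hu
    simpa using this
  have hϖ0 : (ϖ : K) ≠ 0 := fun h0 => hϖ.ne_zero (Subtype.ext h0)
  refine ⟨(ϖ : K) ^ m • ω', ?_, ?_⟩
  · rw [← hu', mul_comm, mul_smul]
    exact Submodule.smul_mem _ (u : L) hpω
  · rw [smul_smul, ← zpow_natCast, ← zpow_add₀ hϖ0, neg_add_cancel, zpow_zero, one_smul]

theorem ordGE_bddAbove {n : ℕ} (Y : ProjModel K) (i : Fin (Y.N + 1)) (P : Ideal (Y.chart i))
    (hP : P.IsPrime) (hd : IsDiscreteValuationRing (localize (Y.chart i) P hP))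
    (hfr : IsFractionRing (localize (Y.chart i) P hP) K) (ω' : ⋀[K]^n Ω[K⁄ℂ]) (hω' : ω' ≠ 0)
    (hfin : Module.finrank K (⋀[K]^n Ω[K⁄ℂ]) = 1) :
    ∃ b : ℤ, ∀ z : ℤ, ExtOrdGE (localize (Y.chart i) P hP) ω' z → z ≤ b := by
  classical
  set L := localize (Y.chart i) P hP with hL
  have h1 : ∀ r : Fin n → Fin (Y.N + 1), ∃ c : K, c • ω' = exteriorPower.ιMulti K n fun k =>
      KaehlerDifferential.D ℂ K (Y.f (r k) / Y.f i) := fun r =>
    (finrank_eq_one_iff_of_nonzero' ω' hω').1 hfin _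
  choose c hc using h1
  obtain ⟨⟨d, hd0⟩, hdc⟩ := IsLocalization.exist_integer_multiples_of_finite
    (nonZeroDivisors L) c
  have hd0' : d ≠ 0 := nonZeroDivisors.ne_zero hd0
  have hdK : (d : K) ≠ 0 := fun h0 => hd0' (Subtype.ext h0)
  have key : ∀ η ∈ Submodule.span L (Set.range fun r : Fin n → Fin (Y.N + 1) =>
      exteriorPower.ιMulti K n fun k => KaehlerDifferential.D ℂ K (Y.f (r k) / Y.f i)),
      ∃ s : L, (d : K) • η = (s : K) • ω' := by
    intro η hη
    induction hη using Submodule.span_induction with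
    | mem x hx =>
      obtain ⟨r, rfl⟩ := hx
      obtain ⟨s, hs⟩ := hdc r
      refine ⟨s, ?_⟩
      show (d : K) • (exteriorPower.ιMulti K n fun k =>
        KaehlerDifferential.D ℂ K (Y.f (r k) / Y.f i)) = (s : K) • ω'
      rw [← hc r, smul_smul]
      congr 1
      exact hs.symm
    | zero => exact ⟨0, by simp⟩
    | add x y hx hy hx' hy' =>
      obtain ⟨s, hs⟩ := hx'
      obtain ⟨t, ht⟩ := hy'
      refine ⟨s + t, ?_⟩
      rw [smul_add, hs, ht, ← add_smul]
      rfl
    | smul a x hx hx' =>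
      obtain ⟨s, hs⟩ := hx'
      refine ⟨a * s, ?_⟩
      show (d : K) • ((a : K) • x) = ((a * s : L) : K) • ω'
      rw [smul_comm, hs, smul_smul]
      rfl
  obtain ⟨ϖ, hϖ⟩ := IsDiscreteValuationRing.exists_irreducible L
  obtain ⟨m, u, hu⟩ := IsDiscreteValuationRing.associated_pow_irreducible hd0' hϖ
  refine ⟨m, fun z hz => ?_⟩
  obtain ⟨η, hη, hηz⟩ := hz ϖ hϖ
  obtain ⟨s, hs⟩ := key η (formLattice_le Y i P hP n hη)
  by_contra hlt
  push Not at hlt
  obtain ⟨j, hj⟩ : ∃ j : ℕ, z = (m : ℤ) + 1 + j := ⟨(z - m - 1).toNat, by omega⟩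
  have hϖ0 : (ϖ : K) ≠ 0 := fun h0 => hϖ.ne_zero (Subtype.ext h0)
  have h2 : (d : K) • ω' = ((ϖ : K) ^ z * s) • ω' := by
    conv_lhs => rw [hηz]
    rw [smul_comm, hs, smul_smul]
  have h3 : (d : K) = (ϖ : K) ^ z * s := by
    by_contra hne
    apply hω'
    have h4 : ((d : K) - (ϖ : K) ^ z * s) • ω' = 0 := by
      have h40 := sub_smul (d : K) ((ϖ : K) ^ z * s) ω'
      rw [h2, sub_self] at h40
      exact h40
    rcases smul_eq_zero.1 h4 with h5 | h5
    · exact absurd (sub_eq_zero.1 h5) hne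
    · exact h5
  have h6 : (d : K) * ((u : L) : K) = (ϖ : K) ^ m := by
    have := congrArg (fun y : L => (y : K)) hu
    simpa using this
  have h7 : (ϖ : K) * ((ϖ : K) ^ j * s * ((u : L) : K)) = 1 := by
    have h8 : (ϖ : K) ^ z = (ϖ : K) ^ m * ((ϖ : K) * (ϖ : K) ^ j) := by
      rw [hj, zpow_add₀ hϖ0, zpow_add₀ hϖ0, zpow_one, zpow_natCast, zpow_natCast]
      ring
    have h9 : (ϖ : K) ^ m ≠ 0 := pow_ne_zero _ hϖ0
    apply mul_left_cancel₀ h9
    rw [mul_one]
    nth_rewrite 2 [← h6]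
    rw [h3, h8]
    ring
  apply hϖ.not_isUnit
  refine isUnit_iff_exists_inv.2 ⟨ϖ ^ j * s * (u : L), ?_⟩
  apply Subtype.ext
  push_cast
  exact h7

theorem mem_of_hasOrd {n : ℕ} (Y : ProjModel K) (i : Fin (Y.N + 1)) (P : Ideal (Y.chart i))
    (hP : P.IsPrime) (hdvr : IsDVR (localize (Y.chart i) P hP)) (ω' : ⋀[K]^n Ω[K⁄ℂ])
    (hω' : ω' ≠ 0) (hfin : Module.finrank K (⋀[K]^n Ω[K⁄ℂ]) = 1) (h : K) (hh : h ≠ 0)
    (hord : ∀ k : ℤ, ExtHasOrd (localize (Y.chart i) P hP) (h • ω') k ↔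
      ExtHasOrd (localize (Y.chart i) P hP) ω' k) : h ∈ localize (Y.chart i) P hP := by
  by_contra hhL
  obtain ⟨hd, hfr⟩ := hdvr
  have hbdd := ordGE_bddAbove Y i P hP hd hfr ω' hω' hfin
  have hne := exists_ordGE (localize (Y.chart i) P hP) hd hfr ω' hω' hfin
  generalize localize (Y.chart i) P hP = L at *
  obtain ⟨k0, hk0, hmax⟩ := Int.exists_greatest_of_bdd hbdd hne
  have hinv : h⁻¹ ∈ L := by
    rcases ValuationRing.isInteger_or_isInteger L h with ⟨a, ha⟩ | ⟨a, ha⟩
    · exact absurd (ha ▸ a.2) hhL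
    · rw [← ha]
      exact a.2
  set g : L := ⟨h⁻¹, hinv⟩ with hg
  have hgu : ¬ IsUnit g := by
    intro hu
    obtain ⟨b, hb⟩ := isUnit_iff_exists_inv.1 hu
    have hb' : h⁻¹ * (b : K) = 1 := congrArg (fun y : L => (y : K)) hb
    apply hhL
    have : h = b := by
      field_simp at hb'
      exact hb'.symm
    rw [this]
    exact b.2
  have h1 : ExtHasOrd L ω' k0 := ⟨hk0, fun h1 => by
    have := hmax _ h1
    omega⟩
  have h2 := ((hord k0).2 h1).1
  have h3 : ExtOrdGE L ω' (k0 + 1) := by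
    intro ϖ hϖ
    obtain ⟨η, hη, heq⟩ := h2 ϖ hϖ
    have hg' : g ∈ IsLocalRing.maximalIdeal L := (IsLocalRing.mem_maximalIdeal _).2 hgu
    rw [hϖ.maximalIdeal_eq, Ideal.mem_span_singleton'] at hg'
    obtain ⟨s, hs⟩ := hg'
    have hs' : (s : K) * (ϖ : K) = h⁻¹ := congrArg (fun y : L => (y : K)) hs
    have hϖ0 : (ϖ : K) ≠ 0 := fun h0 => hϖ.ne_zero (Subtype.ext h0)
    refine ⟨(s : K) • η, Submodule.smul_mem _ s hη, ?_⟩
    have h4 : ω' = h⁻¹ • (h • ω') := by rw [smul_smul, inv_mul_cancel₀ hh, one_smul]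
    rw [h4, heq, smul_smul, smul_smul, ← hs', zpow_add₀ hϖ0, zpow_one]
    congr 1
    ring
  have := hmax _ h3
  omega

end Crep

open Crep

/-- A rational function whose order is zero along all prime divisors of a normal projective
model is constant; version for ratios of forms. -/
theorem crepant_form {n : ℕ} (Y : ProjModel K) (hY : Y.IsNormal)
    (ω ω' : ⋀[K]^n Ω[K⁄ℂ]) (h : K) (hh : h ≠ 0) (hω : ω = h • ω') (hω' : ω' ≠ 0)
    (hfin : Module.finrank K (⋀[K]^n Ω[K⁄ℂ]) = 1)
    (hord : ∀ D, Y.IsPrimeDivisor D → ∀ k : ℤ, ExtHasOrd D ω k ↔ ExtHasOrd D ω' k) :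
    ∃ c : ℂ, h = algebraMap ℂ K c := by
  subst hω
  have hA : ∀ i, h ∈ Y.chart i := by
    intro i
    by_contra hi
    haveI := isNoetherianRing_chart Y i
    obtain ⟨P, hP, hdvr, hL⟩ := exists_dvr (Y.chart i) (isFractionRing_chart Y i)
      (fun P hP => hY _ ⟨i, P, hP, rfl⟩) h hi
    exact hL (mem_of_hasOrd Y i P hP hdvr ω' hω' hfin h hh
      (hord _ ⟨⟨i, P, hP, rfl⟩, hdvr⟩))
  by_contra hc
  push Not at hc
  obtain ⟨V, hV, hhV⟩ : ∃ V : ValuationSubring K,
      (⊥ : Subalgebra ℂ K).toSubring ≤ V.toSubring ∧ h ∉ V := by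
    haveI : IsIntegrallyClosedIn (⊥ : Subalgebra ℂ K).toSubring K := by
      rw [Subring.isIntegrallyClosedIn_iff]
      intro x hx
      haveI : Algebra.IsIntegral ℂ (⊥ : Subalgebra ℂ K) := ⟨by
        rintro ⟨y, hy⟩
        obtain ⟨c, rfl⟩ := Algebra.mem_bot.1 hy
        exact isIntegral_algebraMap (R := ℂ) (x := c)⟩
      have hx' : IsIntegral (⊥ : Subalgebra ℂ K) x := hx
      have hx2 : IsIntegral ℂ x := isIntegral_trans x hx'
      have hdeg := IsAlgClosed.degree_eq_one_of_irreducible ℂ (minpoly.irreducible hx2)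
      obtain ⟨c, hc'⟩ := minpoly.mem_range_of_degree_eq_one ℂ x hdeg
      exact Algebra.mem_bot.2 ⟨c, hc'⟩
    refine Subring.exists_le_valuationSubring_of_isIntegrallyClosedIn
      (R := (⊥ : Subalgebra ℂ K).toSubring) (x := h) ?_
    intro hm
    obtain ⟨c, hc'⟩ := Algebra.mem_bot.1 hm
    exact hc c hc'.symm
  obtain ⟨i, hi⟩ := Finite.exists_max fun j => V.valuation (Y.f j)
  let V' : Subalgebra ℂ K :=
    { carrier := {x | x ∈ V}
      mul_mem' := fun hx hy => V.mul_mem _ _ hx hy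
      add_mem' := fun hx hy => V.add_mem _ _ hx hy
      algebraMap_mem' := fun c => hV (Algebra.mem_bot.2 ⟨c, rfl⟩) }
  have hle : Y.chart i ≤ V' := by
    apply Algebra.adjoin_le
    rintro _ ⟨j, rfl⟩
    show Y.f j / Y.f i ∈ V
    rw [← V.valuation_le_one_iff, map_div₀]
    have h0 : 0 < V.valuation (Y.f i) := by
      rw [zero_lt_iff]
      exact (Valuation.ne_zero_iff _).2 (Y.ne_zero i)
    exact (div_le_one₀ h0).2 (hi j)
  exact hhV (hle (hA i))

end Pool.Agent.Lib.MP_0bb41e_ag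
end

section

section

/-!
# Orders of three-forms along discrete valuation rings

We work with an abstract derivation `d : K → E` and an abstract alternating map
`f : E × E × E → V`.
-/

namespace Pool.Agent.Lib.MP_0bb41e_ag

section wedge

variable {K : Type} [Field K] {E V : Type} [AddCommGroup E] [Module K E] [AddCommGroup V]
  [Module K V]

variable (f : E [⋀^Fin 3]→ₗ[K] V)

/-- The alternating map applied to three vectors. -/
def wd (a b c : E) : V := f ![a, b, c]

theorem upd0 {E : Type} (a b c x : E) : Function.update ![a, b, c] 0 x = ![x, b, c] := by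
  ext i; fin_cases i <;> rfl

theorem upd1 {E : Type} (a b c x : E) : Function.update ![a, b, c] 1 x = ![a, x, c] := by
  ext i; fin_cases i <;> rfl

theorem upd2 {E : Type} (a b c x : E) : Function.update ![a, b, c] 2 x = ![a, b, x] := by
  ext i; fin_cases i <;> rfl

theorem wd_add0 (a a' b c : E) : wd f (a + a') b c = wd f a b c + wd f a' b c := by
  unfold wd
  have := f.map_update_add ![a, b, c] 0 a a'
  rwa [upd0, upd0, upd0] at this

theorem wd_add1 (a b b' c : E) : wd f a (b + b') c = wd f a b c + wd f a b' c := by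
  unfold wd
  have := f.map_update_add ![a, b, c] 1 b b'
  rwa [upd1, upd1, upd1] at this

theorem wd_add2 (a b c c' : E) : wd f a b (c + c') = wd f a b c + wd f a b c' := by
  unfold wd
  have := f.map_update_add ![a, b, c] 2 c c'
  rwa [upd2, upd2, upd2] at this

theorem wd_smul0 (r : K) (a b c : E) : wd f (r • a) b c = r • wd f a b c := by
  unfold wd
  have := f.map_update_smul ![a, b, c] 0 r a
  rwa [upd0, upd0] at this

theorem wd_smul1 (r : K) (a b c : E) : wd f a (r • b) c = r • wd f a b c := by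
  unfold wd
  have := f.map_update_smul ![a, b, c] 1 r b
  rwa [upd1, upd1] at this

theorem wd_smul2 (r : K) (a b c : E) : wd f a b (r • c) = r • wd f a b c := by
  unfold wd
  have := f.map_update_smul ![a, b, c] 2 r c
  rwa [upd2, upd2] at this

theorem wd_self01 (a c : E) : wd f a a c = 0 :=
  f.map_eq_zero_of_eq ![a, a, c] (i := 0) (j := 1) rfl (by decide)

theorem wd_self02 (a b : E) : wd f a b a = 0 :=
  f.map_eq_zero_of_eq ![a, b, a] (i := 0) (j := 2) rfl (by decide)

theorem wd_self12 (a b : E) : wd f a b b = 0 :=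
  f.map_eq_zero_of_eq ![a, b, b] (i := 1) (j := 2) rfl (by decide)

theorem wd_zero0 (b c : E) : wd f 0 b c = 0 := by
  have := wd_smul0 f 0 (0 : E) b c
  simpa using this

theorem wd_zero1 (a c : E) : wd f a 0 c = 0 := by
  have := wd_smul1 f 0 a (0 : E) c
  simpa using this

theorem wd_zero2 (a b : E) : wd f a b 0 = 0 := by
  have := wd_smul2 f 0 a b (0 : E)
  simpa using this

theorem wd_neg0 (a b c : E) : wd f (-a) b c = - wd f a b c := by
  have := wd_smul0 f (-1) a b c
  simpa using this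

theorem wd_neg1 (a b c : E) : wd f a (-b) c = - wd f a b c := by
  have := wd_smul1 f (-1) a b c
  simpa using this

theorem wd_neg2 (a b c : E) : wd f a b (-c) = - wd f a b c := by
  have := wd_smul2 f (-1) a b c
  simpa using this

theorem wd_swap01 (a b c : E) : wd f b a c = - wd f a b c := by
  have h := wd_self01 f (a + b) c
  rw [wd_add0, wd_add1, wd_add1, wd_self01, wd_self01, zero_add, add_zero] at h
  rw [add_comm] at h
  exact eq_neg_of_add_eq_zero_left h

theorem wd_swap12 (a b c : E) : wd f a c b = - wd f a b c := by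
  have h := wd_self12 f a (b + c)
  rw [wd_add1, wd_add2, wd_add2, wd_self12, wd_self12, zero_add, add_zero] at h
  rw [add_comm] at h
  exact eq_neg_of_add_eq_zero_left h

theorem wd_rot (a b c : E) : wd f b c a = wd f a b c := by
  rw [wd_swap12, wd_swap01, neg_neg]

theorem wd_swap02 (a b c : E) : wd f c b a = - wd f a b c := by
  rw [wd_swap12, ← wd_rot f c a b]

end wedge

variable {K : Type} [Field K] [Algebra ℂ K] {R : Subalgebra ℂ K}
variable {E V : Type} [AddCommGroup E] [Module K E] [Module ℂ E] [AddCommGroup V] [Module K V]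

section deriv

variable (d : Derivation ℂ K E)

theorem d_inv {x : K} (hx : x ≠ 0) : d x⁻¹ = -((x⁻¹ * x⁻¹) • d x) := by
  have h : d (x * x⁻¹) = 0 := by rw [mul_inv_cancel₀ hx]; simp
  rw [Derivation.leibniz] at h
  have h2 : x • d x⁻¹ = - (x⁻¹ • d x) := eq_neg_of_add_eq_zero_left h
  have h3 : d x⁻¹ = x⁻¹ • (x • d x⁻¹) := by rw [smul_smul, inv_mul_cancel₀ hx, one_smul]
  rw [h3, h2, smul_neg, smul_smul]

theorem d_pow (x : K) (n : ℕ) : d (x ^ n) = (n * x ^ (n - 1) : K) • d x := by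
  rw [Derivation.leibniz_pow, mul_smul, Nat.cast_smul_eq_nsmul]

end deriv


section lattice

variable (R) (d : Derivation ℂ K E) (f : E [⋀^Fin 3]→ₗ[K] V)

/-- The lattice of regular one-forms. -/
def L1 : Submodule R E :=
  Submodule.span R (Set.range fun a : R => d (a : K))

/-- The lattice of one-forms with logarithmic poles. -/
def Llog : Submodule R E :=
  Submodule.span R ((Set.range fun a : R => d (a : K)) ∪ {η | ∃ x : K, x ≠ 0 ∧ η = x⁻¹ • d x})

/-- The lattice of regular three-forms. -/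
def L3 : Submodule R V :=
  Submodule.span R (Set.range fun a : Fin 3 → R => f fun i => d (a i : K))

end lattice

variable {d : Derivation ℂ K E} {f : E [⋀^Fin 3]→ₗ[K] V}

theorem coe_smulE (r : R) (η : E) : r • η = (r : K) • η := rfl

theorem d_mem_L1 {x : K} (hx : x ∈ R) : d x ∈ L1 R d :=
  Submodule.subset_span ⟨⟨x, hx⟩, rfl⟩

theorem smul_mem_sub {M : Type} [AddCommGroup M] [Module K M] {r : K} (hr : r ∈ R)
    {N : Submodule R M} {η : M} (hη : η ∈ N) : r • η ∈ N :=
  N.smul_mem (⟨r, hr⟩ : R) hη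

theorem L1_le_Llog : L1 R d ≤ Llog R d :=
  Submodule.span_mono Set.subset_union_left

theorem dlog_mem_Llog {x : K} (hx : x ≠ 0) : x⁻¹ • d x ∈ Llog R d :=
  Submodule.subset_span (Or.inr ⟨x, hx, rfl⟩)

theorem d_mem_Llog {x : K} (hx : x ∈ R) : d x ∈ Llog R d := L1_le_Llog (d_mem_L1 hx)

theorem L1_induction {p : E → Prop} (h1 : ∀ x ∈ R, p (d x)) (h0 : p 0)
    (hadd : ∀ a b, p a → p b → p (a + b)) (hsmul : ∀ r ∈ R, ∀ a, p a → p (r • a))
    {a : E} (ha : a ∈ L1 R d) : p a := by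
  refine Submodule.span_induction (p := fun a _ => p a) ?_ h0 (fun a b _ _ => hadd a b)
    (fun r a _ h => hsmul r.1 r.2 a h) ha
  rintro _ ⟨x, rfl⟩
  exact h1 x x.2

theorem wd_mem {a b c : E} (ha : a ∈ L1 R d) (hb : b ∈ L1 R d) (hc : c ∈ L1 R d) :
    wd f a b c ∈ L3 R d f := by
  refine L1_induction (p := fun a => wd f a b c ∈ L3 R d f) ?_ ?_ ?_ ?_ ha
  · intro x hx
    refine L1_induction (p := fun b => wd f (d x) b c ∈ L3 R d f) ?_ ?_ ?_ ?_ hb
    · intro y hy
      refine L1_induction (p := fun c => wd f (d x) (d y) c ∈ L3 R d f) ?_ ?_ ?_ ?_ hc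
      · intro z hz
        refine Submodule.subset_span ⟨![⟨x, hx⟩, ⟨y, hy⟩, ⟨z, hz⟩], ?_⟩
        have h : (fun i => d ((![⟨x, hx⟩, ⟨y, hy⟩, ⟨z, hz⟩] : Fin 3 → R) i : K)) =
            ![d x, d y, d z] := by
          funext i
          fin_cases i <;> rfl
        exact congrArg f h
      · rw [wd_zero2]; exact Submodule.zero_mem _
      · intro c c' h h'; rw [wd_add2]; exact Submodule.add_mem _ h h'
      · intro r hr c h; rw [wd_smul2]; exact smul_mem_sub hr h
    · rw [wd_zero1]; exact Submodule.zero_mem _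
    · intro c c' h h'; rw [wd_add1]; exact Submodule.add_mem _ h h'
    · intro r hr c h; rw [wd_smul1]; exact smul_mem_sub hr h
  · rw [wd_zero0]; exact Submodule.zero_mem _
  · intro c c' h h'; rw [wd_add0]; exact Submodule.add_mem _ h h'
  · intro r hr c h; rw [wd_smul0]; exact smul_mem_sub hr h

/-- Log forms are sums of a regular form and a multiple of `dϖ / ϖ`. -/
theorem IsDVR.Llog_rep (hR : IsDVR R) {ϖ : R} (hϖ : Irreducible ϖ) {η : E}
    (hη : η ∈ Llog R d) : ∃ (c : R) (α : E), α ∈ L1 R d ∧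
      η = α + (c : K) • ((ϖ : K)⁻¹ • d (ϖ : K)) := by
  have hϖ0 := coe_ne_zero_of_irreducible hϖ
  induction hη using Submodule.span_induction with
  | mem a ha =>
    rcases ha with ⟨x, rfl⟩ | ⟨x, hx, rfl⟩
    · exact ⟨0, d x, d_mem_L1 x.2, by simp⟩
    · obtain ⟨u, hu, hxu⟩ := hR.rep hϖ hx
      set k := valZ R x with hk
      have hu0 := coe_ne_zero_of_isUnit hu
      refine ⟨algebraMap ℂ R (k : ℂ), (u : K)⁻¹ • d (u : K),
        smul_mem_sub (inv_mem_of_isUnit hu) (d_mem_L1 u.2), ?_⟩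
      have hz : (ϖ : K) ^ k ≠ 0 := zpow_ne_zero _ hϖ0
      have hdz : d ((ϖ : K) ^ k) = ((k : K) * (ϖ : K) ^ (k - 1)) • d (ϖ : K) := by
        rw [Derivation.leibniz_zpow, mul_smul, Int.cast_smul_eq_zsmul]
      have hk1 : (ϖ : K) ^ (k - 1) = (ϖ : K) ^ k * (ϖ : K)⁻¹ := by
        rw [zpow_sub₀ hϖ0, zpow_one, div_eq_mul_inv]
      have hkk : ((algebraMap ℂ R (k : ℂ) : R) : K) = (k : K) := by
        change algebraMap ℂ K (k : ℂ) = (k : K)
        simp
      rw [hkk]
      conv_lhs => rw [hxu]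
      rw [Derivation.leibniz, hdz, hk1, smul_add, smul_smul, smul_smul, smul_smul, smul_smul]
      congr 1
      · congr 1
        field_simp
      · congr 1
        field_simp
  | zero => exact ⟨0, 0, Submodule.zero_mem _, by simp⟩
  | add a a' _ _ h h' =>
    obtain ⟨c, α, hα, rfl⟩ := h
    obtain ⟨c', α', hα', rfl⟩ := h'
    refine ⟨c + c', α + α', Submodule.add_mem _ hα hα', ?_⟩
    push_cast
    rw [add_smul]
    abel
  | smul r a _ h =>
    obtain ⟨c, α, hα, rfl⟩ := h
    refine ⟨r * c, (r : K) • α, smul_mem_sub r.2 hα, ?_⟩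
    rw [coe_smulE, smul_add, smul_smul]
    push_cast
    rfl

/-- The wedge product of log forms has at most a simple pole. -/
theorem IsDVR.smul_wd_mem (hR : IsDVR R) {ϖ : R} (hϖ : Irreducible ϖ) {a b c : E}
    (ha : a ∈ Llog R d) (hb : b ∈ Llog R d) (hc : c ∈ Llog R d) :
    (ϖ : K) • wd f a b c ∈ L3 R d f := by
  have hϖ0 := coe_ne_zero_of_irreducible hϖ
  obtain ⟨r, α, hα, rfl⟩ := hR.Llog_rep hϖ ha
  obtain ⟨s, β, hβ, rfl⟩ := hR.Llog_rep hϖ hb
  obtain ⟨t, γ, hγ, rfl⟩ := hR.Llog_rep hϖ hc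
  have hδ : d (ϖ : K) ∈ L1 R d := d_mem_L1 ϖ.2
  simp only [wd_add0, wd_add1, wd_add2, wd_smul0, wd_smul1, wd_smul2, wd_self01, wd_self02,
    wd_self12, smul_zero, add_zero, smul_add]
  have key : ∀ (x : R) (ω : V), ω ∈ L3 R d f →
      (ϖ : K) • ((x : K) • ((ϖ : K)⁻¹ • ω)) ∈ L3 R d f := by
    intro x ω hω
    rw [smul_comm (ϖ : K), smul_smul (ϖ : K), mul_inv_cancel₀ hϖ0, one_smul]
    exact smul_mem_sub x.2 hω
  have h0 : (ϖ : K) • wd f α β γ ∈ L3 R d f := smul_mem_sub ϖ.2 (wd_mem hα hβ hγ)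
  have h1 := key t _ (wd_mem (f := f) hα hβ hδ)
  have h2 := key s _ (wd_mem (f := f) hα hδ hγ)
  have h3 := key r _ (wd_mem (f := f) hδ hβ hγ)
  have := Submodule.add_mem _ (Submodule.add_mem _ (Submodule.add_mem _ h0 h1) h2) h3
  convert this using 1
  abel

end Pool.Agent.Lib.MP_0bb41e_ag
end

section

/-!
# Order functions on three-forms, and the basic estimates
-/

namespace Pool.Agent.Lib.MP_0bb41e_ag

variable {K : Type} [Field K] [Algebra ℂ K] {R : Subalgebra ℂ K}
variable {E V : Type} [AddCommGroup E] [Module K E] [Module ℂ E] [AddCommGroup V] [Module K V]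

/-- Abstract version of `OrdGE`. -/
def OGE (R : Subalgebra ℂ K) (d : Derivation ℂ K E) (f : E [⋀^Fin 3]→ₗ[K] V) (ω : V) (k : ℤ) :
    Prop :=
  ∀ ϖ : R, Irreducible ϖ → ∃ η ∈ L3 R d f, ω = ((ϖ : K) ^ k) • η

variable {d : Derivation ℂ K E} {f : E [⋀^Fin 3]→ₗ[K] V}

theorem zpow_unit_mem {e : K} (he : e ∈ R) (he' : e⁻¹ ∈ R) (k : ℤ) : e ^ k ∈ R := by
  rcases le_total 0 k with hk | hk
  · exact zpow_mem_of_nonneg he hk
  · have : e ^ k = (e⁻¹) ^ (-k) := by rw [inv_zpow', neg_neg]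
    rw [this]
    exact zpow_mem_of_nonneg he' (by omega)

theorem OGE_of_mem (hR : IsDVR R) {ϖ : R} (hϖ : Irreducible ϖ) {ω : V} {k : ℤ}
    (h : ((ϖ : K) ^ (-k)) • ω ∈ L3 R d f) : OGE R d f ω k := by
  intro ϖ' hϖ'
  have := hR.1
  have hϖ0 := coe_ne_zero_of_irreducible hϖ
  have hϖ0' := coe_ne_zero_of_irreducible hϖ'
  obtain ⟨e, he⟩ : Associated ϖ ϖ' := IsDiscreteValuationRing.associated_of_irreducible R hϖ hϖ'
  have he' : (ϖ' : K) = (ϖ : K) * ((e : R) : K) := by
    rw [← he]; simp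
  have he0 : ((e : R) : K) ≠ 0 := coe_ne_zero_of_isUnit e.isUnit
  refine ⟨((e : R) : K) ^ (-k) • ((ϖ : K) ^ (-k)) • ω,
    smul_mem_sub (zpow_unit_mem (e : R).2 (inv_mem_of_isUnit e.isUnit) _) h, ?_⟩
  rw [smul_smul, smul_smul, he', mul_zpow]
  have h1 : (ϖ : K) ^ k * ((e : R) : K) ^ k * ((e : R) : K) ^ (-k) * (ϖ : K) ^ (-k) = 1 := by
    rw [zpow_neg, zpow_neg]
    have := zpow_ne_zero k hϖ0
    have := zpow_ne_zero k he0
    field_simp
  rw [h1, one_smul]

theorem OGE.mem {ω : V} {k : ℤ} (h : OGE R d f ω k) {ϖ : R} (hϖ : Irreducible ϖ) :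
    ((ϖ : K) ^ (-k)) • ω ∈ L3 R d f := by
  obtain ⟨η, hη, rfl⟩ := h ϖ hϖ
  have hϖ0 := coe_ne_zero_of_irreducible hϖ
  rw [smul_smul, zpow_neg, inv_mul_cancel₀ (zpow_ne_zero k hϖ0), one_smul]
  exact hη

theorem OGE.smul (hR : IsDVR R) {ω : V} {k : ℤ} (h : OGE R d f ω k) {x : K} (hx : x ≠ 0) :
    OGE R d f (x • ω) (k + valZ R x) := by
  obtain ⟨ϖ, hϖ⟩ := hR.exists_irreducible
  apply OGE_of_mem hR hϖ
  have hϖ0 := coe_ne_zero_of_irreducible hϖ
  obtain ⟨u, hu, hxu⟩ := hR.rep hϖ hx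
  have h1 := smul_mem_sub u.2 (h.mem hϖ)
  have h2 : ((ϖ : K) ^ (-(k + valZ R x))) • x • ω = (u : K) • ((ϖ : K) ^ (-k)) • ω := by
    rw [smul_smul, smul_smul]
    congr 1
    set m := valZ R x
    rw [hxu, neg_add, zpow_add₀ hϖ0, zpow_neg _ m]
    have := zpow_ne_zero m hϖ0
    field_simp
  rw [h2]
  exact h1

theorem OGE.mono (hR : IsDVR R) {ω : V} {k l : ℤ} (h : OGE R d f ω k) (hl : l ≤ k) :
    OGE R d f ω l := by
  obtain ⟨ϖ, hϖ⟩ := hR.exists_irreducible
  apply OGE_of_mem hR hϖ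
  have hϖ0 := coe_ne_zero_of_irreducible hϖ
  have h1 := smul_mem_sub (zpow_mem_of_nonneg ϖ.2 (show 0 ≤ k - l by omega)) (h.mem hϖ)
  have h2 : ((ϖ : K) ^ (-l)) • ω = ((ϖ : K) ^ (k - l)) • ((ϖ : K) ^ (-k)) • ω := by
    rw [smul_smul, ← zpow_add₀ hϖ0]
    congr 2
    ring
  rw [h2]
  exact h1

theorem OGE_zero (hR : IsDVR R) (k : ℤ) : OGE R d f 0 k := by
  obtain ⟨ϖ, hϖ⟩ := hR.exists_irreducible
  apply OGE_of_mem hR hϖ
  rw [smul_zero]
  exact Submodule.zero_mem _

theorem OGE.add (hR : IsDVR R) {ω ω' : V} {k : ℤ} (h : OGE R d f ω k) (h' : OGE R d f ω' k) :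
    OGE R d f (ω + ω') k := by
  obtain ⟨ϖ, hϖ⟩ := hR.exists_irreducible
  apply OGE_of_mem hR hϖ
  rw [smul_add]
  exact Submodule.add_mem _ (h.mem hϖ) (h'.mem hϖ)

theorem OGE.smul_of_mem (hR : IsDVR R) {ω : V} {k : ℤ} (h : OGE R d f ω k) {x : K} (hx : x ∈ R) :
    OGE R d f (x • ω) k := by
  rcases eq_or_ne x 0 with rfl | h0
  · rw [zero_smul]; exact OGE_zero hR k
  · exact (h.smul hR h0).mono hR (by have := (hR.mem_iff h0).1 hx; omega)

theorem OGE.neg (hR : IsDVR R) {ω : V} {k : ℤ} (h : OGE R d f ω k) : OGE R d f (-ω) k := by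
  have := h.smul_of_mem hR (x := -1) (R.neg_mem R.one_mem)
  simpa using this

theorem OGE_wd_log (hR : IsDVR R) {a b c : E}
    (ha : a ∈ Llog R d) (hb : b ∈ Llog R d) (hc : c ∈ Llog R d) :
    OGE R d f (wd f a b c) (-1) := by
  obtain ⟨ϖ, hϖ⟩ := hR.exists_irreducible
  apply OGE_of_mem hR hϖ
  rw [neg_neg, zpow_one]
  exact hR.smul_wd_mem hϖ ha hb hc

theorem OGE_wd (hR : IsDVR R) {a b c : E}
    (ha : a ∈ L1 R d) (hb : b ∈ L1 R d) (hc : c ∈ L1 R d) :
    OGE R d f (wd f a b c) 0 := by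
  obtain ⟨ϖ, hϖ⟩ := hR.exists_irreducible
  apply OGE_of_mem hR hϖ
  rw [neg_zero, zpow_zero, one_smul]
  exact wd_mem ha hb hc

theorem d_eq_smul_dlog {y : K} (hy : y ≠ 0) : d y = y • (y⁻¹ • d y) := by
  rw [smul_smul, mul_inv_cancel₀ hy, one_smul]

/-- The chain rule for polynomials. -/
theorem d_aeval (d : Derivation ℂ K E) {n : ℕ} (a : Fin n → K) (Q : MvPolynomial (Fin n) ℂ) :
    d (MvPolynomial.aeval a Q) =
      ∑ j, (MvPolynomial.aeval a (MvPolynomial.pderiv j Q)) • d (a j) := by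
  induction Q using MvPolynomial.induction_on with
  | C c => simp
  | add p q hp hq => simp [hp, hq, add_smul, Finset.sum_add_distrib]
  | mul_X p i hp =>
    rw [map_mul, MvPolynomial.aeval_X, Derivation.leibniz, hp]
    simp only [Derivation.leibniz, map_add, smul_eq_mul, map_mul, MvPolynomial.aeval_X, add_smul,
      Finset.sum_add_distrib, MvPolynomial.pderiv_X]
    congr 1
    · rw [Finset.sum_eq_single i]
      · simp
      · intro b _ hb
        rw [Pi.single_eq_of_ne (Ne.symm hb)]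
        simp
      · simp
    · rw [Finset.smul_sum]
      refine Finset.sum_congr rfl (fun j _ => ?_)
      rw [smul_smul]

end Pool.Agent.Lib.MP_0bb41e_ag
end
end

section

/-!
# A quaternion symbol is ramified along a cubic cone
-/

namespace Pool.Agent.Lib.MP_0bb41e_ag

namespace Ram

/-! ### Nonsquares in `ℂ[y, t]` -/

theorem not_sq {E : MvPolynomial (Fin 2) ℂ} (v : Fin 2 → ℂ) (h0 : MvPolynomial.eval v E = 0)
    (h1 : MvPolynomial.eval v (MvPolynomial.pderiv 1 E) ≠ 0) (b c : MvPolynomial (Fin 2) ℂ)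
    (hb : b ≠ 0) : E * b ^ 2 ≠ c ^ 2 := by
  intro h
  have hdvd : b ^ 2 ∣ c ^ 2 := ⟨E, by rw [← h]; ring⟩
  obtain ⟨e, rfl⟩ := (UniqueFactorizationMonoid.pow_dvd_pow_iff_dvd (two_ne_zero)).1 hdvd
  have h2 : E = e ^ 2 := by
    apply mul_right_cancel₀ (pow_ne_zero 2 hb)
    rw [h]
    ring
  subst h2
  have h3 : MvPolynomial.eval v e = 0 := by
    rw [map_pow] at h0
    exact pow_eq_zero_iff (two_ne_zero) |>.1 h0
  apply h1
  rw [Derivation.leibniz_pow]
  simp [h3]

/-- The polynomial `t ^ 4 - 4 t`. -/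
noncomputable def DD : MvPolynomial (Fin 2) ℂ := MvPolynomial.X 1 ^ 4 - 4 * MvPolynomial.X 1

/-- The polynomial `t (t - a)`. -/
noncomputable def GG (a : ℂ) : MvPolynomial (Fin 2) ℂ :=
  MvPolynomial.X 1 * (MvPolynomial.X 1 - MvPolynomial.C a)

/-- The polynomial `t ^ 2 + a t + a ^ 2`. -/
noncomputable def GG' (a : ℂ) : MvPolynomial (Fin 2) ℂ :=
  MvPolynomial.X 1 ^ 2 + MvPolynomial.C a * MvPolynomial.X 1 + MvPolynomial.C (a ^ 2)

theorem DD_eq {a : ℂ} (ha : a ^ 3 = 4) : DD = GG a * GG' a := by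
  have h4 : (4 : MvPolynomial (Fin 2) ℂ) = MvPolynomial.C a ^ 3 := by
    rw [← MvPolynomial.C_pow, ha]
    exact (map_ofNat MvPolynomial.C 4).symm
  rw [DD, GG, GG', h4, MvPolynomial.C_pow]
  ring

theorem DD_not_sq (b c : MvPolynomial (Fin 2) ℂ) (hb : b ≠ 0) : DD * b ^ 2 ≠ c ^ 2 := by
  refine not_sq (fun _ => 0) ?_ ?_ b c hb
  · simp [DD]
  · have h4 : (4 : MvPolynomial (Fin 2) ℂ) = MvPolynomial.C 4 :=
      (map_ofNat MvPolynomial.C 4).symm
    rw [DD, h4]
    simp [Derivation.leibniz_pow]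

theorem GG_not_sq {a : ℂ} (ha : a ≠ 0) (b c : MvPolynomial (Fin 2) ℂ) (hb : b ≠ 0) :
    GG a * b ^ 2 ≠ c ^ 2 := by
  refine not_sq (fun _ => 0) ?_ ?_ b c hb
  · simp [GG]
  · simp [GG, ha]

theorem GG'_not_sq {a : ℂ} (ha : a ≠ 0) (b c : MvPolynomial (Fin 2) ℂ) (hb : b ≠ 0) :
    GG' a * b ^ 2 ≠ c ^ 2 := by
  obtain ⟨w, hw⟩ := IsAlgClosed.exists_pow_nat_eq (-3 : ℂ) (n := 2) (by norm_num)
  refine not_sq (fun _ => a * (w - 1) / 2) ?_ ?_ b c hb
  · simp only [GG', map_add, map_pow, map_mul, MvPolynomial.eval_X, MvPolynomial.eval_C]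
    linear_combination (a ^ 2 / 4) * hw
  · have h1 : MvPolynomial.eval (fun _ => a * (w - 1) / 2) (MvPolynomial.pderiv 1 (GG' a)) =
        a * w := by
      simp [GG', Derivation.leibniz_pow]
      ring
    rw [h1]
    refine mul_ne_zero ha ?_
    rintro rfl
    norm_num at hw

/-- The key computation: `t (t - a)` is not a square in the function field of the curve
`r ^ 2 = t ^ 4 - 4 t`. -/
theorem key_sq {a : ℂ} (ha : a ^ 3 = 4) (n0 n1 m0 m1 : MvPolynomial (Fin 2) ℂ)
    (hn : n0 ≠ 0 ∨ n1 ≠ 0)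
    (h1 : GG a * (n0 ^ 2 + n1 ^ 2 * DD) = m0 ^ 2 + m1 ^ 2 * DD)
    (h2 : GG a * (n0 * n1) = m0 * m1) : False := by
  have ha0 : a ≠ 0 := by
    rintro rfl
    norm_num at ha
  have hG0 : GG a ≠ 0 := by
    intro h
    exact GG_not_sq ha0 1 0 one_ne_zero (by rw [h]; ring)
  have hν : n0 ^ 2 - n1 ^ 2 * DD ≠ 0 := by
    intro h
    by_cases hn1 : n1 = 0
    · subst hn1
      have : n0 = 0 := by
        have h' : n0 ^ 2 = 0 := by linear_combination h
        exact pow_eq_zero_iff (two_ne_zero) |>.1 h'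
      tauto
    · exact DD_not_sq n1 n0 hn1 (by linear_combination (-1 : MvPolynomial (Fin 2) ℂ) * h)
  set ν := n0 ^ 2 - n1 ^ 2 * DD with hνdef
  set p0 := m0 * n0 - m1 * n1 * DD with hp0
  set p1 := m1 * n0 - m0 * n1 with hp1
  have hpp : p0 * p1 = 0 := by
    rw [hp0, hp1]
    linear_combination (-(n0 ^ 2 + n1 ^ 2 * DD)) * h2 + (n0 * n1) * h1
  have hsum : p0 ^ 2 + p1 ^ 2 * DD = GG a * ν ^ 2 := by
    rw [hp0, hp1, hνdef]
    linear_combination (-(n0 ^ 2 + n1 ^ 2 * DD)) * h1 + (4 * n0 * n1 * DD) * h2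
  rcases mul_eq_zero.1 hpp with h | h
  · rw [h, DD_eq ha] at hsum
    have h3 : GG a * (GG' a * p1 ^ 2) = GG a * ν ^ 2 := by linear_combination hsum
    have h4 := mul_left_cancel₀ hG0 h3
    by_cases hp1' : p1 = 0
    · rw [hp1'] at h4
      apply hν
      have h5 : ν ^ 2 = 0 := by linear_combination (-1 : MvPolynomial (Fin 2) ℂ) * h4
      exact pow_eq_zero_iff (two_ne_zero) |>.1 h5
    · exact GG'_not_sq ha0 p1 ν hp1' h4
  · rw [h] at hsum
    exact GG_not_sq ha0 ν p0 hν (by linear_combination (-1 : MvPolynomial (Fin 2) ℂ) * hsum)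

/-! ### The polynomial `r ^ 2 - (t ^ 4 - 4 t)` -/

section

open Polynomial

/-- The polynomial `r ^ 2 - (t ^ 4 - 4 t)`. -/
noncomputable def PP : Polynomial (MvPolynomial (Fin 2) ℂ) := X ^ 2 - C DD

theorem PP_monic : PP.Monic := monic_X_pow_sub_C _ two_ne_zero

theorem PP_natDegree : PP.natDegree = 2 := natDegree_X_pow_sub_C

theorem PP_ne_one : PP ≠ 1 := by
  intro h
  have := PP_natDegree
  rw [h, natDegree_one] at this
  norm_num at this

theorem PP_irreducible : Irreducible PP := by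
  rw [PP_monic.irreducible_iff_roots_eq_zero_of_degree_le_three PP_natDegree.ge
    (PP_natDegree.le.trans (by norm_num))]
  refine Multiset.eq_zero_of_forall_notMem fun b hb => ?_
  have h := (mem_roots'.1 hb).2
  rw [IsRoot.def, PP] at h
  simp only [eval_sub, eval_pow, eval_X, eval_C] at h
  exact DD_not_sq 1 b one_ne_zero (by linear_combination (-1 : MvPolynomial (Fin 2) ℂ) * h)

theorem PP_prime : Prime PP := PP_irreducible.prime

theorem key_poly {a : ℂ} (ha : a ^ 3 = 4) (n m k : Polynomial (MvPolynomial (Fin 2) ℂ))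
    (hn : ¬ PP ∣ n) (h : C (GG a) * n ^ 2 = m ^ 2 + PP * k) : False := by
  set N := n %ₘ PP with hN
  set M := m %ₘ PP with hM
  have hn' : n = N + PP * (n /ₘ PP) := (modByMonic_add_div n PP).symm
  have hm' : m = M + PP * (m /ₘ PP) := (modByMonic_add_div m PP).symm
  have hNd : N.natDegree ≤ 1 := by
    have := natDegree_modByMonic_lt n PP_monic PP_ne_one
    rw [PP_natDegree, ← hN] at this
    omega
  have hMd : M.natDegree ≤ 1 := by
    have := natDegree_modByMonic_lt m PP_monic PP_ne_one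
    rw [PP_natDegree, ← hM] at this
    omega
  have hNe : N = C (N.coeff 1) * X + C (N.coeff 0) := eq_X_add_C_of_natDegree_le_one hNd
  have hMe : M = C (M.coeff 1) * X + C (M.coeff 0) := eq_X_add_C_of_natDegree_le_one hMd
  have hN0 : N.coeff 0 ≠ 0 ∨ N.coeff 1 ≠ 0 := by
    by_contra hcon
    push Not at hcon
    apply hn
    have hz : N = 0 := by
      rw [hNe, hcon.1, hcon.2]
      simp
    rw [hn', hz, zero_add]
    exact dvd_mul_right _ _
  generalize N.coeff 1 = n1 at *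
  generalize N.coeff 0 = n0 at *
  generalize M.coeff 1 = m1 at *
  generalize M.coeff 0 = m0 at *
  generalize n /ₘ PP = n' at *
  generalize m /ₘ PP = m' at *
  clear_value N M
  subst hNe hMe hn' hm'
  set u : MvPolynomial (Fin 2) ℂ := 2 * (GG a * (n0 * n1) - m0 * m1) with hu
  set v : MvPolynomial (Fin 2) ℂ := GG a * (n0 ^ 2 + n1 ^ 2 * DD) - (m0 ^ 2 + m1 ^ 2 * DD) with hv
  have hdvd : PP ∣ C u * X + C v := by
    refine ⟨k - C (GG a) * (2 * (C n1 * X + C n0) * n' + PP * n' ^ 2) +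
      (2 * (C m1 * X + C m0) * m' + PP * m' ^ 2) - C (GG a * n1 ^ 2 - m1 ^ 2), ?_⟩
    have h2 : (C u : Polynomial (MvPolynomial (Fin 2) ℂ)) =
        2 * (C (GG a) * (C n0 * C n1) - C m0 * C m1) := by
      rw [hu]
      simp only [map_mul, map_sub, map_ofNat]
    have h3 : (C v : Polynomial (MvPolynomial (Fin 2) ℂ)) =
        C (GG a) * (C n0 ^ 2 + C n1 ^ 2 * C DD) - (C m0 ^ 2 + C m1 ^ 2 * C DD) := by
      rw [hv]
      simp only [map_mul, map_sub, map_add, map_pow]
    rw [h2, h3]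
    simp only [map_mul, map_sub, map_pow]
    have hPP : PP = X ^ 2 - C DD := rfl
    generalize PP = p at *
    subst hPP
    linear_combination h
  have hz : C u * X + C v = 0 := by
    refine eq_zero_of_dvd_of_natDegree_lt hdvd ?_
    rw [PP_natDegree]
    exact (natDegree_linear_le).trans_lt (by norm_num)
  have hu0 : u = 0 := by
    have := congrArg (fun p => coeff p 1) hz
    simpa [coeff_C] using this
  have hv0 : v = 0 := by
    have := congrArg (fun p => coeff p 0) hz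
    simpa using this
  refine key_sq ha n0 n1 m0 m1 hN0 ?_ ?_
  · rw [hv] at hv0
    linear_combination hv0
  · rw [hu] at hu0
    rcases mul_eq_zero.1 hu0 with h5 | h5
    · exact absurd h5 two_ne_zero
    · linear_combination h5

end

/-! ### Localization at a principal prime -/

theorem isDVR_of_principal {K : Type} [Field K] [Algebra ℂ K] (A : Subalgebra ℂ K)
    [IsNoetherianRing A] (hA : IsFractionRing A K)
    (P : Ideal A) (hP : P.IsPrime) (p : A) (hp : P = Ideal.span {p}) (hp0 : p ≠ 0) :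
    IsDVR (localize A P hP) ∧
      Irreducible (⟨p, Crep.le_localize A P hP p.2⟩ : localize A P hP) := by
  have hloc := @Crep.isLocalRing_localize K _ _ A P hP
  have hnoe := @Crep.isNoetherianRing_localize K _ _ A _ P hP
  have hfr := Crep.isFractionRing_of_le (Crep.le_localize A P hP) hA
  set p' : localize A P hP := ⟨p, Crep.le_localize A P hP p.2⟩ with hp'
  have hpP : p ∈ P := by rw [hp]; exact Ideal.mem_span_singleton_self p
  have hp'0 : p' ≠ 0 := by
    intro h0
    apply hp0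
    have h1 : (p : K) = 0 := congrArg (fun u : localize A P hP => (u : K)) h0
    exact Subtype.ext h1
  have hnu : ¬ IsUnit p' := by
    intro hu
    obtain ⟨⟨_, a, b, hb, rfl⟩, hy⟩ := isUnit_iff_exists_inv.1 hu
    have h1 : (p : K) * (a / b) = 1 := congrArg (fun u : localize A P hP => (u : K)) hy
    have hb0 : (b : K) ≠ 0 := Crep.ne_zero_of_notMem hb
    apply hb
    have h2 : b = a * p := by
      apply Subtype.ext
      push_cast
      field_simp at h1
      rw [← h1]
      ring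
    rw [h2]
    exact P.mul_mem_left _ hpP
  have hmax : IsLocalRing.maximalIdeal (localize A P hP) = Ideal.span {p'} := by
    apply le_antisymm
    · intro y hy
      rw [IsLocalRing.mem_maximalIdeal] at hy
      obtain ⟨y, a, b, hb, rfl⟩ := y
      have hb0 : (b : K) ≠ 0 := Crep.ne_zero_of_notMem hb
      have ha : a ∈ P := by
        by_contra ha
        apply hy
        have ha0 : (a : K) ≠ 0 := Crep.ne_zero_of_notMem ha
        refine isUnit_iff_exists_inv.2 ⟨⟨b / a, b, a, ha, rfl⟩, ?_⟩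
        apply Subtype.ext
        show (a : K) / b * (b / a) = 1
        field_simp
      rw [hp] at ha
      obtain ⟨c, rfl⟩ := Ideal.mem_span_singleton'.1 ha
      refine Ideal.mem_span_singleton'.2 ⟨⟨(c : K) / b, c, b, hb, rfl⟩, ?_⟩
      apply Subtype.ext
      show (c : K) / b * p = ((c * p : A) : K) / b
      push_cast
      ring
    · rw [Ideal.span_le, Set.singleton_subset_iff]
      exact (IsLocalRing.mem_maximalIdeal _).2 hnu
  have hnf : ¬ IsField (localize A P hP) := by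
    intro hF
    obtain ⟨y, hy⟩ := hF.mul_inv_cancel hp'0
    exact hnu (isUnit_iff_exists_inv.2 ⟨y, hy⟩)
  refine ⟨⟨?_, hfr⟩, ?_⟩
  · refine ((IsDiscreteValuationRing.TFAE (localize A P hP) hnf).out 0 4).2 ?_
    exact ⟨⟨p', hmax⟩⟩
  · exact IsDiscreteValuationRing.irreducible_of_span_eq_maximalIdeal p' hp'0 hmax

end Ram

open Ram

theorem Setup.ramified {K : Type} [Field K] [Algebra ℂ K] (S : Setup K) (a : ℂ) (ha : a ^ 3 = 4) :
    ∃ R : Subalgebra ℂ K, IsDVR R ∧ ¬ TameTrivial R (S.z ^ 2 / S.x 0 ^ 3)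
      (S.x 1 / S.x 0 * (S.x 1 / S.x 0 - algebraMap ℂ K a)) := by
  have ha0 : a ≠ 0 := by
    rintro rfl
    norm_num at ha
  have hx0 := S.x_ne_zero 0
  have hx1 := S.x_ne_zero 1
  have hz0 := S.z_ne_zero
  -- coordinates
  obtain ⟨y, hy⟩ : ∃ y, y = S.x 0 / S.z := ⟨_, rfl⟩
  obtain ⟨t, ht⟩ : ∃ t, t = S.x 1 / S.x 0 := ⟨_, rfl⟩
  obtain ⟨r, hr⟩ : ∃ r, r = 2 * (S.x 2 / S.x 0) + t ^ 2 := ⟨_, rfl⟩
  have hchar : CharZero K := charZero_of_injective_algebraMap (algebraMap ℂ K).injective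
  have hq : S.z ^ 2 / S.x 0 ^ 3 = (r ^ 2 - (t ^ 4 - 4 * t)) / 4 := by
    rw [hr, ht, S.rel]
    field_simp
    ring
  have hx2 : S.x 2 = S.x 0 * ((r - t ^ 2) / 2) := by
    rw [hr]
    field_simp
    ring
  have hx1' : S.x 1 = t * S.x 0 := by rw [ht]; field_simp
  have hzinv : S.z = ((y ^ 3) * ((r ^ 2 - (t ^ 4 - 4 * t)) / 4))⁻¹ := by
    rw [← hq, hy]
    field_simp
  have hx0' : S.x 0 = y * S.z := by rw [hy]; field_simp
  -- algebraic independence
  have hindep : AlgebraicIndependent ℂ ![r, y, t] := by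
    apply S.indep_of
    set A' := Algebra.adjoin ℂ (Set.range ![r, y, t]) with hA'
    have key : ∀ j : Fin 3, IsAlgebraic A' ((![r, y, t] : Fin 3 → K) j) := fun j =>
      isAlgebraic_algebraMap (⟨_, Algebra.subset_adjoin ⟨j, rfl⟩⟩ : A')
    have hra : IsAlgebraic A' r := key 0
    have hya : IsAlgebraic A' y := key 1
    have hta : IsAlgebraic A' t := key 2
    have hc : ∀ c : ℂ, IsAlgebraic A' (algebraMap ℂ K c) := fun c =>
      isAlgebraic_algebraMap (⟨_, A'.algebraMap_mem c⟩ : A')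
    have h4 : IsAlgebraic A' (4 : K) := by
      have h := hc 4
      rwa [map_ofNat] at h
    have h2 : IsAlgebraic A' (2 : K) := by
      have h := hc 2
      rwa [map_ofNat] at h
    have hza : IsAlgebraic A' S.z := by
      rw [hzinv]
      refine IsAlgebraic.inv ((hya.pow 3).mul ?_)
      rw [div_eq_mul_inv]
      exact ((hra.pow 2).sub ((hta.pow 4).sub (h4.mul hta))).mul h4.inv
    have h0a : IsAlgebraic A' (S.x 0) := by
      rw [hx0']
      exact hya.mul hza
    have h1a : IsAlgebraic A' (S.x 1) := by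
      rw [hx1']
      exact hta.mul h0a
    have h2a : IsAlgebraic A' (S.x 2) := by
      rw [hx2, div_eq_mul_inv]
      exact h0a.mul ((hra.sub (hta.pow 2)).mul h2.inv)
    intro i
    fin_cases i
    · exact h0a
    · exact h1a
    · exact h2a
  -- the polynomial ring
  set e := MvPolynomial.finSuccEquiv ℂ 2 with he
  set ψ : Polynomial (MvPolynomial (Fin 2) ℂ) →ₐ[ℂ] K :=
    (MvPolynomial.aeval ![r, y, t]).comp (e.symm : Polynomial (MvPolynomial (Fin 2) ℂ) →ₐ[ℂ]
      MvPolynomial (Fin 3) ℂ) with hψ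
  have hinj : Function.Injective ψ := by
    rw [hψ]
    have h1 : Function.Injective (MvPolynomial.aeval ![r, y, t] :
      MvPolynomial (Fin 3) ℂ →ₐ[ℂ] K) := hindep
    exact fun u v huv => e.symm.injective (h1 huv)
  have hψX : ψ Polynomial.X = r := by
    have h1 : e.symm Polynomial.X = MvPolynomial.X 0 := by
      rw [AlgEquiv.symm_apply_eq, he, MvPolynomial.finSuccEquiv_X_zero]
    show MvPolynomial.aeval ![r, y, t] (e.symm Polynomial.X) = r
    rw [h1, MvPolynomial.aeval_X]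
    rfl
  have hψC : ∀ i, ψ (Polynomial.C (MvPolynomial.X i)) = (![y, t] : Fin 2 → K) i := by
    intro i
    have h1 : e.symm (Polynomial.C (MvPolynomial.X i)) = MvPolynomial.X i.succ := by
      rw [AlgEquiv.symm_apply_eq, he, MvPolynomial.finSuccEquiv_X_succ]
    show MvPolynomial.aeval ![r, y, t] (e.symm (Polynomial.C (MvPolynomial.X i))) = _
    rw [h1, MvPolynomial.aeval_X]
    rfl
  have hψy : ψ (Polynomial.C (MvPolynomial.X 0)) = y := hψC 0
  have hψt : ψ (Polynomial.C (MvPolynomial.X 1)) = t := hψC 1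
  have hψc : ∀ c : ℂ, ψ (Polynomial.C (MvPolynomial.C c)) = algebraMap ℂ K c := by
    intro c
    exact ψ.commutes c
  have hψP : ψ PP = r ^ 2 - (t ^ 4 - 4 * t) := by
    simp only [PP, DD, map_sub, map_pow, map_mul, map_ofNat, hψX, hψt]
  have hψG : ψ (Polynomial.C (GG a)) = t * (t - algebraMap ℂ K a) := by
    simp only [GG, map_sub, map_mul, hψt, hψc]
  -- the ring `ℂ[r, y, t]`
  have hyA : y ∈ ψ.range := ⟨_, hψy⟩
  have htA : t ∈ ψ.range := ⟨_, hψt⟩
  have hrA : r ∈ ψ.range := ⟨_, hψX⟩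
  have hnoe : IsNoetherianRing ψ.range := inferInstance
  have hfr : IsFractionRing ψ.range K := by
    refine IsFractionRing.of_field _ K fun w => ?_
    have htop : IntermediateField.adjoin ℂ (Set.range ![r, y, t]) = ⊤ := by
      rw [eq_top_iff, ← S.gen, IntermediateField.adjoin_le_iff]
      set F := IntermediateField.adjoin ℂ (Set.range ![r, y, t]) with hF
      have hrF : r ∈ F := IntermediateField.subset_adjoin _ _ ⟨0, rfl⟩
      have hyF : y ∈ F := IntermediateField.subset_adjoin _ _ ⟨1, rfl⟩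
      have htF : t ∈ F := IntermediateField.subset_adjoin _ _ ⟨2, rfl⟩
      have h4F : (4 : K) ∈ F := by
        have := F.algebraMap_mem 4
        rwa [map_ofNat] at this
      have h2F : (2 : K) ∈ F := by
        have := F.algebraMap_mem 2
        rwa [map_ofNat] at this
      have hzF : S.z ∈ F := by
        rw [hzinv]
        exact F.inv_mem (F.mul_mem (pow_mem hyF 3) (F.div_mem (F.sub_mem (pow_mem hrF 2)
          (F.sub_mem (pow_mem htF 4) (F.mul_mem h4F htF))) h4F))
      have h0F : S.x 0 ∈ F := by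
        rw [hx0']
        exact F.mul_mem hyF hzF
      rintro _ (rfl | ⟨i, rfl⟩)
      · exact hzF
      · fin_cases i
        · exact h0F
        · show S.x 1 ∈ F
          rw [hx1']
          exact F.mul_mem htF h0F
        · show S.x 2 ∈ F
          rw [hx2]
          exact F.mul_mem h0F (F.div_mem (F.sub_mem hrF (pow_mem htF 2)) h2F)
    have hw : w ∈ IntermediateField.adjoin ℂ (Set.range ![r, y, t]) := by
      rw [htop]
      trivial
    obtain ⟨u, hu, v, hv, h⟩ := IntermediateField.mem_adjoin_iff_div.1 hw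
    have hle : Algebra.adjoin ℂ (Set.range ![r, y, t]) ≤ ψ.range := by
      apply Algebra.adjoin_le
      rintro _ ⟨i, rfl⟩
      fin_cases i
      · exact hrA
      · exact hyA
      · exact htA
    exact ⟨⟨u, hle hu⟩, ⟨v, hle hv⟩, h⟩
  -- the prime ideal
  set E : Polynomial (MvPolynomial (Fin 2) ℂ) ≃ₐ[ℂ] ψ.range := AlgEquiv.ofInjective ψ hinj with hE
  have hEc : ∀ f, ((E f : ψ.range) : K) = ψ f := fun f => rfl
  set p : ψ.range := E PP with hp
  have hpprime : Prime p := by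
    have := (MulEquiv.prime_iff (E : Polynomial (MvPolynomial (Fin 2) ℂ) ≃* ψ.range)).2 PP_prime
    exact this
  have hPprime : (Ideal.span {p}).IsPrime := (Ideal.span_singleton_prime hpprime.ne_zero).2 hpprime
  obtain ⟨hdvr, hirr⟩ := isDVR_of_principal ψ.range hfr (Ideal.span {p}) hPprime p rfl
    hpprime.ne_zero
  refine ⟨_, hdvr, fun H => ?_⟩
  obtain ⟨L, hL⟩ : ∃ L, L = localize ψ.range (Ideal.span {p}) hPprime := ⟨_, rfl⟩
  rw [← hL] at H hdvr
  have hAL : ψ.range ≤ L := by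
    rw [hL]
    exact Crep.le_localize _ _ _
  have hpL : (p : K) ∈ L := hAL p.2
  have hirr' : Irreducible (⟨p, hpL⟩ : L) := by
    subst hL
    exact hirr
  have hpK : (p : K) = r ^ 2 - (t ^ 4 - 4 * t) := hψP
  have hcL : ∀ c : ℂ, algebraMap ℂ K c ∈ L := fun c => L.algebraMap_mem c
  have h14 : (1 / 4 : K) ∈ L := by
    have := hcL (1 / 4)
    rwa [map_div₀, map_one, map_ofNat] at this
  have h4L : (4 : K) ∈ L := by
    have := hcL 4
    rwa [map_ofNat] at this
  have hgA : t * (t - algebraMap ℂ K a) ∈ ψ.range := ⟨_, hψG⟩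
  have hu : IsUnit (⟨1 / 4, h14⟩ : L) := by
    refine isUnit_iff_exists_inv.2 ⟨⟨4, h4L⟩, ?_⟩
    apply Subtype.ext
    show (1 / 4 : K) * 4 = 1
    norm_num
  -- `g` is a unit
  have hnotdvd : ¬ PP ∣ Polynomial.C (GG a) := by
    intro hdvd
    have hG0 : GG a ≠ 0 := by
      intro h
      exact GG_not_sq ha0 1 0 one_ne_zero (by rw [h]; ring)
    have := Polynomial.natDegree_le_of_dvd hdvd (by simpa using hG0)
    rw [PP_natDegree, Polynomial.natDegree_C] at this
    omega
  have hmemP : ∀ f : Polynomial (MvPolynomial (Fin 2) ℂ), PP ∣ f →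
      E f ∈ (Ideal.span {p} : Ideal ψ.range) := by
    rintro _ ⟨g, rfl⟩
    rw [map_mul]
    exact Ideal.mul_mem_right _ _ (Ideal.mem_span_singleton_self _)
  have hPmem : ∀ f : Polynomial (MvPolynomial (Fin 2) ℂ),
      E f ∈ (Ideal.span {p} : Ideal ψ.range) → PP ∣ f := by
    intro f hf
    obtain ⟨g, hg⟩ := Ideal.mem_span_singleton'.1 hf
    refine ⟨E.symm g, E.injective ?_⟩
    rw [map_mul, AlgEquiv.apply_symm_apply, ← hg, mul_comm]
  have hginv : (t * (t - algebraMap ℂ K a))⁻¹ ∈ L := by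
    rw [hL]
    refine ⟨1, E (Polynomial.C (GG a)), fun h => hnotdvd (hPmem _ h), ?_⟩
    rw [hEc, hψG]
    simp
  have hg0 : t * (t - algebraMap ℂ K a) ≠ 0 := by
    rw [← hψG]
    intro h
    have h' : Polynomial.C (GG a) = 0 := hinj (by rw [h, map_zero])
    exact hnotdvd (by rw [h']; exact dvd_zero _)
  have hv : IsUnit (⟨t * (t - algebraMap ℂ K a), hAL hgA⟩ : L) := by
    refine isUnit_iff_exists_inv.2 ⟨⟨_, hginv⟩, ?_⟩
    apply Subtype.ext
    exact mul_inv_cancel₀ hg0
  obtain ⟨σ, τ, hst⟩ := H ⟨p, hpL⟩ ⟨1 / 4, h14⟩ ⟨t * (t - algebraMap ℂ K a), hAL hgA⟩ 1 0 hirr' hu hv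
    (by rw [hq, hpK]; simp only [zpow_one]; ring) (by rw [← ht]; simp)
  have hst' : t * (t - algebraMap ℂ K a) = (σ : K) ^ 2 + (r ^ 2 - (t ^ 4 - 4 * t)) * (τ : K) := by
    have := congrArg (fun u : L => (u : K)) hst
    simp only [Int.natAbs_zero, pow_zero, one_mul, Int.natAbs_one, pow_one] at this
    rw [← hpK]
    exact this
  obtain ⟨σ, hσ⟩ := σ
  obtain ⟨τ, hτ⟩ := τ
  rw [hL] at hσ hτ
  obtain ⟨a1, b1, hb1, rfl⟩ := hσ
  obtain ⟨a2, b2, hb2, rfl⟩ := hτ
  obtain ⟨α1, rfl⟩ := E.surjective a1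
  obtain ⟨β1, rfl⟩ := E.surjective b1
  obtain ⟨α2, rfl⟩ := E.surjective a2
  obtain ⟨β2, rfl⟩ := E.surjective b2
  have hβ1 : ¬ PP ∣ β1 := fun h => hb1 (hmemP _ h)
  have hβ2 : ¬ PP ∣ β2 := fun h => hb2 (hmemP _ h)
  have hβ10 : ψ β1 ≠ 0 := by
    intro h
    have h' : β1 = 0 := hinj (by rw [h, map_zero])
    exact hβ1 (by rw [h']; exact dvd_zero _)
  have hβ20 : ψ β2 ≠ 0 := by
    intro h
    have h' : β2 = 0 := hinj (by rw [h, map_zero])
    exact hβ2 (by rw [h']; exact dvd_zero _)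
  simp only [hEc] at hst'
  refine key_poly ha (β1 * β2) (α1 * β2) (α2 * β1 ^ 2 * β2) ?_ (hinj ?_)
  · intro h
    exact (PP_prime.dvd_or_dvd h).elim hβ1 hβ2
  · simp only [map_mul, map_add, map_pow, hψG, hψP]
    rw [hst']
    field_simp

end Pool.Agent.Lib.MP_0bb41e_ag
end
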