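import Pool.Agent.Lib.MP_0bb41e_ag.Sphere
import Pool.Agent.Lib.MP_0bb41e_ag.Charts

section

section

/-!
# The projective model of the double cover
-/

namespace Pool.Agent.Lib.MP_0bb41e_ag

variable {K : Type} [Field K] [Algebra ℂ K]

/-- The squarefree monomials in the coordinates `x`. -/
def Setup.mono (S : Setup K) (I : Fin 3 → Bool) : K := ∏ i, (if I i then S.x i else 1)

/-- Binary digits. -/
def bits (k : Fin 9) : Fin 3 → Bool := fun i => Nat.testBit (k : ℕ) (i : ℕ)

theorem bits_surj : ∀ I : Fin 3 → Bool, ∃ k : Fin 9, k ≠ 8 ∧ bits k = I := by decide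

theorem Setup.mono_ne_zero (S : Setup K) (I : Fin 3 → Bool) : S.mono I ≠ 0 := by
  unfold Setup.mono
  refine Finset.prod_ne_zero_iff.2 (fun i _ => ?_)
  split_ifs
  · exact S.x_ne_zero i
  · exact one_ne_zero

/-- The nine homogeneous coordinate functions. -/
def Setup.fn (S : Setup K) (k : Fin 9) : K := if k = 8 then S.z else S.mono (bits k)

theorem Setup.fn_last (S : Setup K) : S.fn 8 = S.z := by simp [Setup.fn]

theorem Setup.fn_of_ne (S : Setup K) {k : Fin 9} (hk : k ≠ 8) : S.fn k = S.mono (bits k) := by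
  simp [Setup.fn, hk]

theorem Setup.fn_ne_zero (S : Setup K) (k : Fin 9) : S.fn k ≠ 0 := by
  unfold Setup.fn
  split_ifs
  · exact S.z_ne_zero
  · exact S.mono_ne_zero _

theorem Setup.fn_zero (S : Setup K) : S.fn 0 = 1 := by
  rw [S.fn_of_ne (by decide)]
  unfold Setup.mono
  have : ∀ i, bits 0 i = false := by decide
  simp [this]

theorem Setup.exists_fn_x (S : Setup K) (i : Fin 3) : ∃ k : Fin 9, S.fn k = S.x i := by
  obtain ⟨k, hk, hb⟩ := bits_surj (fun j => decide (j = i))
  refine ⟨k, ?_⟩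
  rw [S.fn_of_ne hk, hb]
  unfold Setup.mono
  simp

/-- The projective model: the image of `(x^ε : z)` in `ℙ⁸`. -/
def Setup.model (S : Setup K) : ProjModel K where
  N := 8
  f := S.fn
  ne_zero := S.fn_ne_zero
  gen := by
    intro i
    rw [eq_top_iff, ← S.gen, IntermediateField.adjoin_le_iff]
    have h0 : S.fn 0 / S.fn i ∈ IntermediateField.adjoin ℂ (Set.range fun j => S.fn j / S.fn i) :=
      IntermediateField.subset_adjoin _ _ ⟨0, rfl⟩
    have hj : ∀ j, S.fn j ∈ IntermediateField.adjoin ℂ (Set.range fun j => S.fn j / S.fn i) := by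
      intro j
      have h1 : S.fn j / S.fn i ∈ IntermediateField.adjoin ℂ
        (Set.range fun j => S.fn j / S.fn i) := IntermediateField.subset_adjoin _ _ ⟨j, rfl⟩
      have h2 := IntermediateField.div_mem _ h1 h0
      rw [S.fn_zero] at h2
      have h3 : S.fn j / S.fn i / (1 / S.fn i) = S.fn j := by
        have := S.fn_ne_zero i
        field_simp
      rwa [h3] at h2
    rintro y (rfl | ⟨i, rfl⟩)
    · have := hj 8
      rwa [S.fn_last] at this
    · obtain ⟨k, hk⟩ := S.exists_fn_x i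
      have := hj k
      rwa [hk] at this

theorem Setup.a_mem_ring (S : Setup K) (I : Fin 3 → Bool) (i : Fin 3) : S.a I i ∈ S.ring I :=
  Algebra.subset_adjoin (Or.inr ⟨i, rfl⟩)

theorem Setup.w_mem_ring (S : Setup K) (I : Fin 3 → Bool) : S.w I ∈ S.ring I :=
  Algebra.subset_adjoin (Or.inl rfl)

theorem Setup.z_div_mono (S : Setup K) (I : Fin 3 → Bool) : S.z / S.mono I = S.w I := by
  unfold Setup.w Setup.mono
  rw [div_eq_mul_inv, ← Finset.prod_inv_distrib]
  congr 1
  refine Finset.prod_congr rfl (fun i _ => ?_)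
  split_ifs <;> simp

theorem Setup.mono_div_mono (S : Setup K) (I J : Fin 3 → Bool) :
    S.mono J / S.mono I = ∏ i, (if I i = J i then 1 else S.a I i) := by
  unfold Setup.mono Setup.a
  rw [← Finset.prod_div_distrib]
  refine Finset.prod_congr rfl (fun i _ => ?_)
  have := S.x_ne_zero i
  cases hI : I i <;> cases hJ : J i <;> simp [this]

theorem Setup.chart_eq (S : Setup K) {k : Fin 9} (hk : k ≠ 8) :
    S.model.chart k = S.ring (bits k) := by
  apply le_antisymm
  · refine Algebra.adjoin_le ?_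
    rintro _ ⟨j, rfl⟩
    change Fin 9 at j
    change S.fn j / S.fn k ∈ S.ring (bits k)
    rw [S.fn_of_ne hk]
    by_cases hj : j = 8
    · subst hj
      rw [S.fn_last, S.z_div_mono]
      exact S.w_mem_ring _
    · rw [S.fn_of_ne hj, S.mono_div_mono]
      refine Subalgebra.prod_mem _ (fun i _ => ?_)
      split_ifs
      · exact Subalgebra.one_mem _
      · exact S.a_mem_ring _ i
  · refine Algebra.adjoin_le ?_
    rintro _ (rfl | ⟨i, rfl⟩)
    · rw [← S.z_div_mono, ← S.fn_of_ne hk, ← S.fn_last]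
      exact Algebra.subset_adjoin ⟨8, rfl⟩
    · obtain ⟨j, hj, hb⟩ := bits_surj (Function.update (bits k) i (!(bits k i)))
      have h1 : S.fn j / S.fn k = S.a (bits k) i := by
        rw [S.fn_of_ne hj, S.fn_of_ne hk, S.mono_div_mono, hb, Finset.prod_eq_single i]
        · simp
        · intro l _ hl
          rw [Function.update_of_ne hl]
          simp
        · simp
      rw [← h1]
      exact Algebra.subset_adjoin ⟨j, rfl⟩

/-- Localizations of the chart rings are points of the model. -/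
theorem Setup.isPoint_localize (S : Setup K) (I : Fin 3 → Bool) (P : Ideal (S.ring I))
    (hP : P.IsPrime) : S.model.IsPoint (localize (S.ring I) P hP) := by
  obtain ⟨k, hk, hb⟩ := bits_surj I
  subst hb
  have := S.chart_eq hk
  generalize hA : S.ring (bits k) = A at P hP this ⊢
  subst this
  exact ⟨k, P, hP, rfl⟩

/-- Every point of the model lies on one of the eight charts. -/
theorem Setup.exists_ring_le (S : Setup K) {O : Subalgebra ℂ K} (hO : S.model.IsPoint O) :
    ∃ k : Fin 9, k ≠ 8 ∧ S.model.chart k ≤ O := by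
  obtain ⟨i, P, hP, rfl⟩ := hO
  by_cases hi : i = (8 : Fin 9)
  · subst hi
    have hz := S.z_ne_zero
    have hfz : S.model.f (8 : Fin 9) = S.z := S.fn_last
    have key : ∃ j : Fin 9, j ≠ 8 ∧ S.fn j / S.z ∉ nonunitsIn (localize (S.model.chart (8 : Fin 9)) P hP) := by
      by_contra hcon
      push Not at hcon
      set O := localize (S.model.chart (8 : Fin 9)) P hP with hO
      have hloc : IsLocalRing O := isLocalRing_localize hP
      have hm : ∀ I, S.mono I / S.z ∈ nonunitsIn O := by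
        intro I
        obtain ⟨j, hj, hb⟩ := bits_surj I
        have := hcon j hj
        rw [S.fn_of_ne hj, hb] at this
        exact this
      set g : (Fin 3 → Bool) → O := fun I => ⟨S.mono I / S.z, (hm I).1⟩ with hg
      have hgm : ∀ I, g I ∈ IsLocalRing.maximalIdeal O := by
        intro I
        rw [IsLocalRing.mem_maximalIdeal, mem_nonunits_iff, ← mem_nonunitsIn_iff]
        exact hm I
      have h1 : (1 : O) = g ![true, false, false] * g ![true, true, false] +
          g ![false, true, false] * g ![false, true, true] +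
          g ![false, false, true] * g ![true, false, true] := by
        apply Subtype.ext
        rw [hg]
        simp only [Subalgebra.coe_add, Subalgebra.coe_mul, Subalgebra.coe_one]
        have e1 : S.mono ![true, false, false] = S.x 0 := by
          simp [Setup.mono, Fin.prod_univ_three]
        have e2 : S.mono ![true, true, false] = S.x 0 * S.x 1 := by
          simp [Setup.mono, Fin.prod_univ_three]
        have e3 : S.mono ![false, true, false] = S.x 1 := by
          simp [Setup.mono, Fin.prod_univ_three]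
        have e4 : S.mono ![false, true, true] = S.x 1 * S.x 2 := by
          simp [Setup.mono, Fin.prod_univ_three]
        have e5 : S.mono ![false, false, true] = S.x 2 := by
          simp [Setup.mono, Fin.prod_univ_three]
        have e6 : S.mono ![true, false, true] = S.x 0 * S.x 2 := by
          simp [Setup.mono, Fin.prod_univ_three]
        rw [e1, e2, e3, e4, e5, e6]
        have hrel := S.rel
        field_simp
        rw [hrel]
        ring
      have h2 : (1 : O) ∈ IsLocalRing.maximalIdeal O := by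
        rw [h1]
        exact Ideal.add_mem _ (Ideal.add_mem _ (Ideal.mul_mem_left _ _ (hgm _))
          (Ideal.mul_mem_left _ _ (hgm _))) (Ideal.mul_mem_left _ _ (hgm _))
      exact (Ideal.ne_top_iff_one _).1 (IsLocalRing.maximalIdeal.isMaximal O).ne_top h2
    obtain ⟨j, hj, hn⟩ := key
    refine ⟨j, hj, ?_⟩
    have hjO : S.fn j / S.z ∈ localize (S.model.chart (8 : Fin 9)) P hP := by
      apply le_localize
      rw [← hfz]
      exact Algebra.subset_adjoin ⟨j, rfl⟩
    have hjinv : (S.fn j / S.z)⁻¹ ∈ localize (S.model.chart (8 : Fin 9)) P hP := by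
      by_contra hcon
      exact hn ⟨hjO, Or.inr hcon⟩
    refine Algebra.adjoin_le ?_
    rintro _ ⟨l, rfl⟩
    have hl : S.fn l / S.z ∈ localize (S.model.chart (8 : Fin 9)) P hP := by
      apply le_localize
      rw [← hfz]
      exact Algebra.subset_adjoin ⟨l, rfl⟩
    have : S.model.f l / S.model.f j = (S.fn l / S.z) * (S.fn j / S.z)⁻¹ := by
      change S.fn l / S.fn j = _
      have := S.fn_ne_zero j
      field_simp
    simp only [this]
    exact Subalgebra.mul_mem _ hl hjinv
  · exact ⟨i, hi, le_localize _ _ _⟩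

theorem Setup.exists_chart (S : Setup K) {O : Subalgebra ℂ K} (hO : S.model.IsPoint O) :
    ∃ I : Fin 3 → Bool, S.ring I ≤ O := by
  obtain ⟨k, hk, h⟩ := S.exists_ring_le hO
  exact ⟨bits k, by rw [← S.chart_eq hk]; exact h⟩

/-- A point whose local ring contains the chart ring `I` is a localization of it. -/
theorem Setup.eq_localize (S : Setup K) {O : Subalgebra ℂ K} (hO : S.model.IsPoint O)
    [IsLocalRing O] (I : Fin 3 → Bool) (h : S.ring I ≤ O) :
    O = localize (S.ring I) (ctr (S.ring I) O h) inferInstance := by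
  obtain ⟨k, hk, hb⟩ := bits_surj I
  subst hb
  have e := S.chart_eq hk
  have h1 : S.model.chart k ≤ O := by rw [e]; exact h
  have h2 := hO.eq_localize k h1
  generalize hA : S.ring (bits k) = A at h e ⊢
  subst e
  exact h2

end Pool.Agent.Lib.MP_0bb41e_ag
end

section

/-!
# Specializations of the branch polynomials, and the prime ideals of the strata
-/

namespace Pool.Agent.Lib.MP_0bb41e_ag

variable {K : Type} [Field K] [Algebra ℂ K]

/-- Specialization `X_i ↦ 1` for `i ∈ J`. -/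
noncomputable def evJ (J : Fin 3 → Bool) : MvPolynomial (Fin 3) ℂ →ₐ[ℂ] MvPolynomial (Fin 3) ℂ :=
  MvPolynomial.aeval fun i => if J i then 1 else MvPolynomial.X i

/-- Specialization to one variable `X_k ↦ T`, the others to `1`. -/
noncomputable def spec (k : Fin 3) : MvPolynomial (Fin 3) ℂ →ₐ[ℂ] Polynomial ℂ :=
  MvPolynomial.aeval fun i => if i = k then Polynomial.X else 1

theorem spec_evJ (J : Fin 3 → Bool) (k : Fin 3) (hk : J k = false) (p : MvPolynomial (Fin 3) ℂ) :
    spec k (evJ J p) = spec k p := by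
  have : (spec k).comp (evJ J) = spec k := by
    apply MvPolynomial.algHom_ext
    intro i
    simp only [AlgHom.comp_apply, evJ, MvPolynomial.aeval_X]
    by_cases hi : J i = true
    · have hik : i ≠ k := by
        rintro rfl
        rw [hk] at hi
        exact Bool.false_ne_true hi
      simp [hi, spec, hik]
    · simp [hi]
  exact DFunLike.congr_fun this p

theorem spec_branch (I : Fin 3 → Bool) (k : Fin 3) :
    spec k (branch I) = 1 + Polynomial.X + Polynomial.X ^ 2 := by
  unfold spec branch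
  simp only [Fin.sum_univ_three, Fin.prod_univ_three]
  fin_cases k <;> cases h0 : I 0 <;> cases h1 : I 1 <;> cases h2 : I 2 <;>
    simp [expo] <;> ring

theorem sq_ne_spec (r : Polynomial ℂ) : r ^ 2 ≠ 1 + Polynomial.X + Polynomial.X ^ 2 := by
  intro h
  obtain ⟨ω, hω⟩ : ∃ ω : ℂ, ω ^ 2 + ω + 1 = 0 := by
    obtain ⟨s, hs⟩ := IsAlgClosed.exists_pow_nat_eq (-3 : ℂ) (n := 2) (by norm_num)
    refine ⟨(-1 + s) / 2, ?_⟩
    field_simp
    linear_combination hs
  have h1 := congrArg (Polynomial.eval ω) h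
  have h2 := congrArg (fun p => Polynomial.eval ω (Polynomial.derivative p)) h
  simp only [Polynomial.eval_pow, Polynomial.eval_add, Polynomial.eval_one,
    Polynomial.eval_X] at h1
  simp only [Polynomial.derivative_pow, Polynomial.derivative_add, Polynomial.derivative_one,
    Polynomial.derivative_X, Polynomial.eval_mul, Polynomial.eval_add, Polynomial.eval_pow,
    Polynomial.eval_X, Polynomial.eval_one] at h2
  have h3 : Polynomial.eval ω r = 0 := by
    have : (Polynomial.eval ω r) ^ 2 = 0 := by rw [h1]; linear_combination hω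
    exact pow_eq_zero_iff two_ne_zero |>.1 this
  rw [h3] at h2
  simp at h2
  have h4 : (3 : ℂ) = 0 := by
    linear_combination 4 * hω + (2 * ω + 1) * h2
  norm_num at h4

theorem evJ_branch_sq {I J : Fin 3 → Bool} {k : Fin 3} (hk : J k = false)
    {p q : MvPolynomial (Fin 3) ℂ} (h : p ^ 2 = q ^ 2 * evJ J (branch I)) : p = 0 ∧ q = 0 := by
  by_cases hq : q = 0
  · subst hq
    refine ⟨?_, rfl⟩
    have : p ^ 2 = 0 := by rw [h]; ring
    exact pow_eq_zero_iff two_ne_zero |>.1 this
  · exfalso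
    have h1 : q ∣ p := (UniqueFactorizationMonoid.pow_dvd_pow_iff_dvd two_ne_zero).1 ⟨_, h⟩
    obtain ⟨r, hr⟩ := h1
    rw [hr, mul_pow] at h
    have h2 : r ^ 2 = evJ J (branch I) := mul_left_cancel₀ (pow_ne_zero 2 hq) h
    have h3 := congrArg (spec k) h2
    rw [spec_evJ J k hk, spec_branch, map_pow] at h3
    exact sq_ne_spec _ h3

/-- The element `p(a) + q(a) w` of the chart ring. -/
noncomputable def Setup.el (S : Setup K) (I : Fin 3 → Bool) (p q : MvPolynomial (Fin 3) ℂ) : K :=
  MvPolynomial.aeval (S.a I) p + MvPolynomial.aeval (S.a I) q * S.w I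

theorem Setup.el_mem (S : Setup K) (I : Fin 3 → Bool) (p q : MvPolynomial (Fin 3) ℂ) :
    S.el I p q ∈ S.ring I := (S.mem_ring_iff I _).2 ⟨p, q, rfl⟩

theorem Setup.exists_el (S : Setup K) (I : Fin 3 → Bool) (b : S.ring I) :
    ∃ p q, (b : K) = S.el I p q := (S.mem_ring_iff I _).1 b.2

theorem Setup.el_add (S : Setup K) (I : Fin 3 → Bool) (p q p' q' : MvPolynomial (Fin 3) ℂ) :
    S.el I p q + S.el I p' q' = S.el I (p + p') (q + q') := by
  unfold Setup.el
  rw [map_add, map_add]; ring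

theorem Setup.el_mul (S : Setup K) (I : Fin 3 → Bool) (p q p' q' : MvPolynomial (Fin 3) ℂ) :
    S.el I p q * S.el I p' q' = S.el I (p * p' + q * q' * branch I) (p * q' + q * p') := by
  unfold Setup.el
  have := S.w_sq I
  simp only [map_add, map_mul]
  rw [← this]; ring

theorem Setup.el_inj (S : Setup K) (I : Fin 3 → Bool) {p q p' q' : MvPolynomial (Fin 3) ℂ}
    (h : S.el I p q = S.el I p' q') : p = p' ∧ q = q' := by
  have h1 : MvPolynomial.aeval (S.a I) (p - p') +
      MvPolynomial.aeval (S.a I) (q - q') * S.w I = 0 := by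
    unfold Setup.el at h
    rw [map_sub, map_sub]
    linear_combination h
  obtain ⟨h2, h3⟩ := S.rep_unique I _ _ h1
  exact ⟨sub_eq_zero.1 h2, sub_eq_zero.1 h3⟩

/-- The ideal of the stratum `J` on the chart `I`. -/
noncomputable def Setup.PJ (S : Setup K) (I J : Fin 3 → Bool) : Ideal (S.ring I) where
  carrier := {b | ∃ p q, (b : K) = S.el I p q ∧ evJ J p = 0 ∧ evJ J q = 0}
  zero_mem' := ⟨0, 0, by simp [Setup.el], by simp, by simp⟩
  add_mem' := by
    rintro x y ⟨p, q, hx, hp, hq⟩ ⟨p', q', hy, hp', hq'⟩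
    refine ⟨p + p', q + q', ?_, by rw [map_add, hp, hp', add_zero], by
      rw [map_add, hq, hq', add_zero]⟩
    push_cast
    rw [hx, hy, S.el_add]
  smul_mem' := by
    rintro c x ⟨p, q, hx, hp, hq⟩
    obtain ⟨p', q', hc⟩ := S.exists_el I c
    refine ⟨p' * p + q' * q * branch I, p' * q + q' * p, ?_, ?_, ?_⟩
    · rw [smul_eq_mul]
      push_cast
      rw [hx, hc, S.el_mul]
    · simp [hp, hq]
    · simp [hp, hq]

theorem Setup.mem_PJ (S : Setup K) (I J : Fin 3 → Bool) {b : S.ring I}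
    {p q : MvPolynomial (Fin 3) ℂ} (h : (b : K) = S.el I p q) :
    b ∈ S.PJ I J ↔ evJ J p = 0 ∧ evJ J q = 0 := by
  constructor
  · rintro ⟨p', q', h', hp', hq'⟩
    obtain ⟨rfl, rfl⟩ := S.el_inj I (h.symm.trans h')
    exact ⟨hp', hq'⟩
  · rintro ⟨hp, hq⟩
    exact ⟨p, q, h, hp, hq⟩

theorem Setup.PJ_isPrime (S : Setup K) (I J : Fin 3 → Bool) {k : Fin 3} (hk : J k = false) :
    (S.PJ I J).IsPrime := by
  refine ⟨?_, ?_⟩
  · rw [Ideal.ne_top_iff_one]
    intro h
    have h1 : ((1 : S.ring I) : K) = S.el I 1 0 := by simp [Setup.el]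
    have := ((S.mem_PJ I J h1).1 h).1
    simp at this
  · intro x y hxy
    obtain ⟨p, q, hx⟩ := S.exists_el I x
    obtain ⟨p', q', hy⟩ := S.exists_el I y
    have hm : ((x * y : S.ring I) : K) =
        S.el I (p * p' + q * q' * branch I) (p * q' + q * p') := by
      push_cast
      rw [hx, hy, S.el_mul]
    obtain ⟨h1, h2⟩ := (S.mem_PJ I J hm).1 hxy
    simp only [map_add, map_mul] at h1 h2
    set P := evJ J p
    set Q := evJ J q
    set P' := evJ J p'
    set Q' := evJ J q'
    set F := evJ J (branch I) with hF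
    have h3 : (P ^ 2 - Q ^ 2 * F) * (P' ^ 2 - Q' ^ 2 * F) = 0 := by
      linear_combination (P * P' + Q * Q' * F) * h1 - (P * Q' + Q * P') * F * h2
    rcases mul_eq_zero.1 h3 with h | h
    · left
      rw [S.mem_PJ I J hx]
      exact evJ_branch_sq hk (sub_eq_zero.1 h)
    · right
      rw [S.mem_PJ I J hy]
      exact evJ_branch_sq hk (sub_eq_zero.1 h)

end Pool.Agent.Lib.MP_0bb41e_ag
end
end

section

section

/-!
# The strata of the pair
-/

namespace Pool.Agent.Lib.MP_0bb41e_ag

variable {K : Type} [Field K] [Algebra ℂ K]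

theorem nonunits_of_le {O O' : Subalgebra ℂ K} (h : O ≤ O') {x : K} (hx : x ∈ O)
    (hx' : x ∈ nonunitsIn O') : x ∈ nonunitsIn O :=
  ⟨hx, hx'.2.imp id (fun h1 h2 => h1 (h h2))⟩

theorem inv_mem_of_notMem_nonunits {O : Subalgebra ℂ K} {x : K} (hx : x ∈ O)
    (h : x ∉ nonunitsIn O) : x⁻¹ ∈ O := by
  by_contra hcon
  exact h ⟨hx, Or.inr hcon⟩

/-- The standard chart. -/
def I0 : Fin 3 → Bool := fun _ => false

theorem Setup.a_I0 (S : Setup K) (i : Fin 3) : S.a I0 i = S.x i := rfl

theorem Setup.w_I0 (S : Setup K) : S.w I0 = S.z := by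
  simp [Setup.w, I0]

theorem Setup.a_eq (S : Setup K) (I : Fin 3 → Bool) (i : Fin 3) :
    S.a I i = if I i then (S.x i)⁻¹ else S.x i := rfl

/-- Coordinates of two charts are related. -/
theorem Setup.a_cases (S : Setup K) (I I' : Fin 3 → Bool) (i : Fin 3) :
    S.a I' i = S.a I i ∨ S.a I' i = (S.a I i)⁻¹ := by
  rw [S.a_eq, S.a_eq]
  cases I i <;> cases I' i <;> simp

theorem Setup.ring_le (S : Setup K) (I I' : Fin 3 → Bool) {O : Subalgebra ℂ K}
    (h : S.ring I ≤ O) (hinv : ∀ i, (S.a I i)⁻¹ ∈ O) : S.ring I' ≤ O := by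
  have ha : ∀ i, S.a I' i ∈ O := by
    intro i
    rcases S.a_cases I I' i with h1 | h1
    · rw [h1]; exact h (S.a_mem_ring I i)
    · rw [h1]; exact hinv i
  refine Algebra.adjoin_le ?_
  rintro _ (rfl | ⟨i, rfl⟩)
  · have : S.w I' = S.w I * (S.mono I / S.mono I') := by
      rw [← S.z_div_mono, ← S.z_div_mono]
      have := S.mono_ne_zero I
      have := S.mono_ne_zero I'
      field_simp
    rw [this, S.mono_div_mono]
    refine O.mul_mem (h (S.w_mem_ring I)) (O.prod_mem (fun i _ => ?_))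
    split_ifs
    · exact O.one_mem
    · exact ha i
  · exact ha i

theorem Setup.a_eq_el (S : Setup K) (I : Fin 3 → Bool) (i : Fin 3) :
    S.a I i = S.el I (MvPolynomial.X i) 0 := by
  simp [Setup.el]

/-- Local rings of the strata in the chart `I`. -/
noncomputable def Setup.loc (S : Setup K) (I J : Fin 3 → Bool) (hJ : ∃ k, J k = false) :
    Subalgebra ℂ K :=
  localize (S.ring I) (S.PJ I J) (by obtain ⟨k, hk⟩ := hJ; exact S.PJ_isPrime I J hk)

theorem Setup.loc_isLocalRing (S : Setup K) (I J : Fin 3 → Bool) (hJ : ∃ k, J k = false) :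
    IsLocalRing (S.loc I J hJ) := isLocalRing_localize _

theorem Setup.ring_le_loc (S : Setup K) (I J : Fin 3 → Bool) (hJ : ∃ k, J k = false) :
    S.ring I ≤ S.loc I J hJ := le_localize _ _ _

theorem Setup.mem_nonunits_loc (S : Setup K) (I J : Fin 3 → Bool) (hJ : ∃ k, J k = false)
    (p q : MvPolynomial (Fin 3) ℂ) :
    S.el I p q ∈ nonunitsIn (S.loc I J hJ) ↔ evJ J p = 0 ∧ evJ J q = 0 := by
  have h := coe_mem_nonunits_localize (A := S.ring I) (P := S.PJ I J)
    (by obtain ⟨k, hk⟩ := hJ; exact S.PJ_isPrime I J hk) ⟨S.el I p q, S.el_mem I p q⟩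
  exact h.trans (S.mem_PJ I J rfl)

theorem Setup.a_notMem_nonunits_loc (S : Setup K) (I J : Fin 3 → Bool) (hJ : ∃ k, J k = false)
    (i : Fin 3) : S.a I i ∉ nonunitsIn (S.loc I J hJ) := by
  rw [S.a_eq_el, S.mem_nonunits_loc]
  rintro ⟨h, _⟩
  simp only [evJ, MvPolynomial.aeval_X] at h
  split_ifs at h
  · exact one_ne_zero h
  · exact MvPolynomial.X_ne_zero i h

theorem Setup.a_sub_one_mem_loc (S : Setup K) (I J : Fin 3 → Bool) (hJ : ∃ k, J k = false)
    (i : Fin 3) : S.a I i - 1 ∈ nonunitsIn (S.loc I J hJ) ↔ J i = true := by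
  have h : S.a I i - 1 = S.el I (MvPolynomial.X i - 1) 0 := by simp [Setup.el]
  rw [h, S.mem_nonunits_loc]
  simp only [evJ, map_sub, MvPolynomial.aeval_X, map_one, map_zero, and_true]
  constructor
  · intro h
    by_contra hJi
    simp only [hJi] at h
    have := congrArg (MvPolynomial.eval (fun _ => (0 : ℂ))) h
    simp at this
  · intro h
    simp [h]

/-- The ideal generated by `a_i - 1`, `i ∈ J`, contains `p(a)` if `p` specializes to zero. -/
theorem aeval_mem_of_evJ {A : Type} [CommRing A] [Algebra ℂ A] (J : Fin 3 → Bool) (a : Fin 3 → A)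
    (P : Ideal A) (h : ∀ i, J i = true → a i - 1 ∈ P) {p : MvPolynomial (Fin 3) ℂ}
    (hp : evJ J p = 0) : MvPolynomial.aeval a p ∈ P := by
  have key : ((Ideal.Quotient.mkₐ ℂ P).comp (MvPolynomial.aeval a)) =
      ((Ideal.Quotient.mkₐ ℂ P).comp (MvPolynomial.aeval a)).comp (evJ J) := by
    apply MvPolynomial.algHom_ext
    intro i
    simp only [AlgHom.comp_apply, MvPolynomial.aeval_X, evJ]
    by_cases hi : J i = true
    · simp only [hi, if_true, map_one]
      have := h i hi
      rw [← Ideal.Quotient.eq_zero_iff_mem] at this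
      rw [map_sub, map_one] at this
      exact sub_eq_zero.1 this
    · simp [hi]
  have h1 := DFunLike.congr_fun key p
  simp only [AlgHom.comp_apply, hp, map_zero] at h1
  exact Ideal.Quotient.eq_zero_iff_mem.1 h1

/-- If `O` is a local ring containing the chart ring `I` in which `a_i - 1` is a nonunit for all
`i ∈ J`, then the ideal of the stratum `J` is contained in the centre. -/
theorem Setup.PJ_le_ctr (S : Setup K) (I J : Fin 3 → Bool) {O : Subalgebra ℂ K}
    [IsLocalRing O] (h : S.ring I ≤ O) (ha : ∀ i, J i = true → S.a I i - 1 ∈ nonunitsIn O) :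
    S.PJ I J ≤ ctr (S.ring I) O h := by
  rintro b ⟨p, q, hb, hp, hq⟩
  set A : Fin 3 → S.ring I := fun i => ⟨S.a I i, S.a_mem_ring I i⟩ with hA
  have h1 : ∀ i, J i = true → A i - 1 ∈ ctr (S.ring I) O h := by
    intro i hi
    rw [mem_ctr]
    exact ha i hi
  have h2 := aeval_mem_of_evJ J A _ h1 hp
  have h3 := aeval_mem_of_evJ J A _ h1 hq
  have hcoe : ∀ r : MvPolynomial (Fin 3) ℂ,
      ((MvPolynomial.aeval A r : S.ring I) : K) = MvPolynomial.aeval (S.a I) r := by
    intro r
    have := MvPolynomial.aeval_algebraMap_apply (A := S.ring I) (B := K) A r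
    exact this.symm
  have h4 : b = MvPolynomial.aeval A p + MvPolynomial.aeval A q * ⟨S.w I, S.w_mem_ring I⟩ := by
    apply Subtype.ext
    push_cast
    rw [hcoe, hcoe, hb]
    rfl
  rw [h4]
  exact Ideal.add_mem _ h2 (Ideal.mul_mem_right _ _ h3)

theorem localize_mono {A : Subalgebra ℂ K} {P Q : Ideal A} (hP : P.IsPrime) (hQ : Q.IsPrime)
    (h : P ≤ Q) : localize A Q hQ ≤ localize A P hP := by
  rintro x ⟨a, b, hb, rfl⟩
  exact ⟨a, b, fun h' => hb (h h'), rfl⟩

/-- A point on the chart `I` in which the `a_i - 1`, `i ∈ J`, vanish specializes the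
stratum `J`. -/
theorem Setup.le_loc_of (S : Setup K) (I J : Fin 3 → Bool) (hJ : ∃ k, J k = false)
    {O : Subalgebra ℂ K} (hO : S.model.IsPoint O) (h : S.ring I ≤ O)
    (ha : ∀ i, J i = true → S.a I i - 1 ∈ nonunitsIn O) : O ≤ S.loc I J hJ := by
  have hl := hO.isLocalRing
  rw [S.eq_localize hO I h]
  exact localize_mono _ _ (S.PJ_le_ctr I J h ha)

theorem Setup.loc_isPoint (S : Setup K) (I J : Fin 3 → Bool) (hJ : ∃ k, J k = false) :
    S.model.IsPoint (S.loc I J hJ) := S.isPoint_localize I _ _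

theorem sub_one_nonunit_inv {O : Subalgebra ℂ K} [IsLocalRing O] {x : K} (hx : x ≠ 0)
    (hx1 : x⁻¹ ∈ O) (h : x - 1 ∈ nonunitsIn O) : x⁻¹ - 1 ∈ nonunitsIn O := by
  have h1 : x⁻¹ - 1 = (x - 1) * (- x⁻¹) := by field_simp; ring
  rw [h1]
  have h2 : (⟨x - 1, h.1⟩ : O) * ⟨- x⁻¹, O.neg_mem hx1⟩ ∈ IsLocalRing.maximalIdeal O := by
    apply Ideal.mul_mem_right
    rw [IsLocalRing.mem_maximalIdeal, mem_nonunits_iff, ← mem_nonunitsIn_iff]
    exact h
  rw [IsLocalRing.mem_maximalIdeal, mem_nonunits_iff, ← mem_nonunitsIn_iff] at h2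
  exact h2

theorem Setup.loc_le_loc (S : Setup K) (I I' J : Fin 3 → Bool) (hJ : ∃ k, J k = false) :
    S.loc I J hJ ≤ S.loc I' J hJ := by
  have hl := S.loc_isLocalRing I J hJ
  have hinv : ∀ i, (S.a I i)⁻¹ ∈ S.loc I J hJ := fun i =>
    inv_mem_of_notMem_nonunits (S.ring_le_loc I J hJ (S.a_mem_ring I i))
      (S.a_notMem_nonunits_loc I J hJ i)
  have h1 : S.ring I' ≤ S.loc I J hJ := S.ring_le I I' (S.ring_le_loc I J hJ) hinv
  apply S.le_loc_of I' J hJ (S.loc_isPoint I J hJ) h1
  intro i hi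
  have h2 := (S.a_sub_one_mem_loc I J hJ i).2 hi
  have h0 : S.a I i ≠ 0 := by
    intro h
    exact S.a_notMem_nonunits_loc I J hJ i (by rw [h]; exact ⟨Subalgebra.zero_mem _, Or.inl rfl⟩)
  rcases S.a_cases I I' i with h3 | h3
  · rw [h3]; exact h2
  · rw [h3]; exact sub_one_nonunit_inv h0 (hinv i) h2

theorem Setup.loc_eq_loc (S : Setup K) (I I' J : Fin 3 → Bool) (hJ : ∃ k, J k = false) :
    S.loc I J hJ = S.loc I' J hJ :=
  le_antisymm (S.loc_le_loc I I' J hJ) (S.loc_le_loc I' I J hJ)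

/-- The local ring of the stratum `J` (for `J` not everything). -/
noncomputable def Setup.OJ (S : Setup K) (J : Fin 3 → Bool) (hJ : ∃ k, J k = false) :
    Subalgebra ℂ K := S.loc I0 J hJ

theorem Setup.OJ_eq (S : Setup K) (I J : Fin 3 → Bool) (hJ : ∃ k, J k = false) :
    S.OJ J hJ = S.loc I J hJ := S.loc_eq_loc _ _ _ _

/-- One-element subsets. -/
def sgl (i : Fin 3) : Fin 3 → Bool := fun j => decide (j = i)

theorem sgl_ne (i : Fin 3) : ∃ k, sgl i k = false := by
  revert i; decide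

/-- The components of the boundary: `B_i = {x_i = 1}`. -/
noncomputable def Setup.Bd (S : Setup K) (i : Fin 3) : Subalgebra ℂ K := S.OJ (sgl i) (sgl_ne i)

/-- A point on the chart `I` lies on `B_i` iff `a_i - 1` vanishes there. -/
theorem Setup.le_Bd_iff (S : Setup K) (I : Fin 3 → Bool) (i : Fin 3)
    {O : Subalgebra ℂ K} (hO : S.model.IsPoint O) (h : S.ring I ≤ O) :
    O ≤ S.Bd i ↔ S.a I i - 1 ∈ nonunitsIn O := by
  constructor
  · intro hle
    refine nonunits_of_le hle (O.sub_mem (h (S.a_mem_ring I i)) O.one_mem) ?_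
    unfold Setup.Bd
    rw [S.OJ_eq I, S.a_sub_one_mem_loc]
    simp [sgl]
  · intro ha
    unfold Setup.Bd
    rw [S.OJ_eq I]
    apply S.le_loc_of I _ _ hO h
    intro j hj
    have : j = i := by simpa [sgl] using hj
    rw [this]; exact ha

/-- Points on the stratum `J`. -/
theorem Setup.le_OJ_iff (S : Setup K) (J : Fin 3 → Bool) (hJ : ∃ k, J k = false)
    {O : Subalgebra ℂ K} (hO : S.model.IsPoint O) :
    O ≤ S.OJ J hJ ↔ ∀ i, J i = true → O ≤ S.Bd i := by
  obtain ⟨I, hI⟩ := S.exists_chart hO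
  constructor
  · intro hle i hi
    rw [S.le_Bd_iff I i hO hI]
    refine nonunits_of_le hle (O.sub_mem (hI (S.a_mem_ring I i)) O.one_mem) ?_
    rw [S.OJ_eq I, S.a_sub_one_mem_loc]
    exact hi
  · intro ha
    rw [S.OJ_eq I]
    apply S.le_loc_of I _ _ hO hI
    intro i hi
    exact (S.le_Bd_iff I i hO hI).1 (ha i hi)

end Pool.Agent.Lib.MP_0bb41e_ag
end

section

/-!
# The zero-dimensional strata, and the classification of strata
-/

namespace Pool.Agent.Lib.MP_0bb41e_ag

variable {K : Type} [Field K] [Algebra ℂ K]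

/-- Evaluation at `(1, 1, 1)`. -/
noncomputable def ev1 : MvPolynomial (Fin 3) ℂ →ₐ[ℂ] ℂ := MvPolynomial.aeval fun _ => (1 : ℂ)

theorem map_branch_one {A : Type} [CommRing A] (φ : MvPolynomial (Fin 3) ℂ →+* A)
    (h : ∀ i, φ (MvPolynomial.X i) = 1) (I : Fin 3 → Bool) : φ (branch I) = 3 := by
  unfold branch
  rw [map_sum, Finset.sum_congr rfl (g := fun _ => (1 : A))]
  · simp
  · intro k _
    rw [map_prod]
    apply Finset.prod_eq_one
    intro i _
    rw [map_pow, h, one_pow]

theorem ev1_branch (I : Fin 3 → Bool) : ev1 (branch I) = 3 :=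
  map_branch_one (ev1 : MvPolynomial (Fin 3) ℂ →+* ℂ) (fun i => by simp [ev1]) I

/-- The ideal of the closed point `(1, 1, 1, s)` on the chart `I`. -/
noncomputable def Setup.Ps (S : Setup K) (I : Fin 3 → Bool) (s : ℂ) (hs : s ^ 2 = 3) :
    Ideal (S.ring I) where
  carrier := {b | ∃ p q, (b : K) = S.el I p q ∧ ev1 p + s * ev1 q = 0}
  zero_mem' := ⟨0, 0, by simp [Setup.el], by simp⟩
  add_mem' := by
    rintro x y ⟨p, q, hx, hp⟩ ⟨p', q', hy, hp'⟩
    refine ⟨p + p', q + q', ?_, ?_⟩
    · push_cast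
      rw [hx, hy, S.el_add]
    · rw [map_add, map_add]
      linear_combination hp + hp'
  smul_mem' := by
    rintro c x ⟨p, q, hx, hp⟩
    obtain ⟨p', q', hc⟩ := S.exists_el I c
    refine ⟨p' * p + q' * q * branch I, p' * q + q' * p, ?_, ?_⟩
    · rw [smul_eq_mul]
      push_cast
      rw [hx, hc, S.el_mul]
    · simp only [map_add, map_mul, ev1_branch]
      linear_combination (ev1 p' + s * ev1 q') * hp - (ev1 q' * ev1 q) * hs

theorem Setup.mem_Ps (S : Setup K) (I : Fin 3 → Bool) (s : ℂ) (hs : s ^ 2 = 3) {b : S.ring I}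
    {p q : MvPolynomial (Fin 3) ℂ} (h : (b : K) = S.el I p q) :
    b ∈ S.Ps I s hs ↔ ev1 p + s * ev1 q = 0 := by
  constructor
  · rintro ⟨p', q', h', hp'⟩
    obtain ⟨rfl, rfl⟩ := S.el_inj I (h.symm.trans h')
    exact hp'
  · intro hp
    exact ⟨p, q, h, hp⟩

theorem Setup.Ps_isPrime (S : Setup K) (I : Fin 3 → Bool) (s : ℂ) (hs : s ^ 2 = 3) :
    (S.Ps I s hs).IsPrime := by
  refine ⟨?_, ?_⟩
  · rw [Ideal.ne_top_iff_one]
    intro h
    have h1 : ((1 : S.ring I) : K) = S.el I 1 0 := by simp [Setup.el]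
    have := (S.mem_Ps I s hs h1).1 h
    simp at this
  · intro x y hxy
    obtain ⟨p, q, hx⟩ := S.exists_el I x
    obtain ⟨p', q', hy⟩ := S.exists_el I y
    have hm : ((x * y : S.ring I) : K) =
        S.el I (p * p' + q * q' * branch I) (p * q' + q * p') := by
      push_cast
      rw [hx, hy, S.el_mul]
    have h1 := (S.mem_Ps I s hs hm).1 hxy
    simp only [map_add, map_mul, ev1_branch] at h1
    have h3 : (ev1 p + s * ev1 q) * (ev1 p' + s * ev1 q') = 0 := by
      linear_combination h1 + ev1 q * ev1 q' * hs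
    rcases mul_eq_zero.1 h3 with h | h
    · left
      rw [S.mem_Ps I s hs hx]
      exact h
    · right
      rw [S.mem_Ps I s hs hy]
      exact h

/-- The local ring of the closed point. -/
noncomputable def Setup.pt (S : Setup K) (I : Fin 3 → Bool) (s : ℂ) (hs : s ^ 2 = 3) :
    Subalgebra ℂ K := localize (S.ring I) (S.Ps I s hs) (S.Ps_isPrime I s hs)

theorem Setup.pt_isLocalRing (S : Setup K) (I : Fin 3 → Bool) (s : ℂ) (hs : s ^ 2 = 3) :
    IsLocalRing (S.pt I s hs) := isLocalRing_localize _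

theorem Setup.ring_le_pt (S : Setup K) (I : Fin 3 → Bool) (s : ℂ) (hs : s ^ 2 = 3) :
    S.ring I ≤ S.pt I s hs := le_localize _ _ _

theorem Setup.pt_isPoint (S : Setup K) (I : Fin 3 → Bool) (s : ℂ) (hs : s ^ 2 = 3) :
    S.model.IsPoint (S.pt I s hs) := S.isPoint_localize I _ _

theorem Setup.mem_nonunits_pt (S : Setup K) (I : Fin 3 → Bool) (s : ℂ) (hs : s ^ 2 = 3)
    (p q : MvPolynomial (Fin 3) ℂ) :
    S.el I p q ∈ nonunitsIn (S.pt I s hs) ↔ ev1 p + s * ev1 q = 0 := by
  have h := coe_mem_nonunits_localize (A := S.ring I) (P := S.Ps I s hs) (S.Ps_isPrime I s hs)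
    ⟨S.el I p q, S.el_mem I p q⟩
  exact h.trans (S.mem_Ps I s hs rfl)

theorem Setup.a_notMem_nonunits_pt (S : Setup K) (I : Fin 3 → Bool) (s : ℂ) (hs : s ^ 2 = 3)
    (i : Fin 3) : S.a I i ∉ nonunitsIn (S.pt I s hs) := by
  rw [S.a_eq_el, S.mem_nonunits_pt]
  simp [ev1]

theorem Setup.a_sub_one_mem_pt (S : Setup K) (I : Fin 3 → Bool) (s : ℂ) (hs : s ^ 2 = 3)
    (i : Fin 3) : S.a I i - 1 ∈ nonunitsIn (S.pt I s hs) := by
  have h : S.a I i - 1 = S.el I (MvPolynomial.X i - 1) 0 := by simp [Setup.el]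
  rw [h, S.mem_nonunits_pt]
  simp [ev1]

theorem Setup.w_sub_mem_pt (S : Setup K) (I : Fin 3 → Bool) (s : ℂ) (hs : s ^ 2 = 3) (t : ℂ) :
    S.w I - algebraMap ℂ K t ∈ nonunitsIn (S.pt I s hs) ↔ s = t := by
  have h : S.w I - algebraMap ℂ K t = S.el I (MvPolynomial.C (-t)) 1 := by
    simp [Setup.el]; ring
  rw [h, S.mem_nonunits_pt]
  simp only [ev1, MvPolynomial.aeval_C, map_one, mul_one]
  simp only [Algebra.algebraMap_self, RingHom.id_apply]
  constructor
  · intro h; linear_combination h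
  · intro h; linear_combination h

/-- The point ideal is contained in the centre of `O` if the generators are. -/
theorem Setup.Ps_le_ctr (S : Setup K) (I : Fin 3 → Bool) (s : ℂ) (hs : s ^ 2 = 3)
    {O : Subalgebra ℂ K} [IsLocalRing O] (h : S.ring I ≤ O)
    (ha : ∀ i, S.a I i - 1 ∈ nonunitsIn O) (hw : S.w I - algebraMap ℂ K s ∈ nonunitsIn O) :
    S.Ps I s hs ≤ ctr (S.ring I) O h := by
  rintro b ⟨p, q, hb, hp⟩
  set A : Fin 3 → S.ring I := fun i => ⟨S.a I i, S.a_mem_ring I i⟩ with hA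
  set J : Fin 3 → Bool := fun _ => true with hJ
  have h1 : ∀ i, J i = true → A i - 1 ∈ ctr (S.ring I) O h := by
    intro i _
    rw [mem_ctr]
    exact ha i
  have hev : ∀ r : MvPolynomial (Fin 3) ℂ, evJ J r = MvPolynomial.C (ev1 r) := by
    intro r
    have : evJ J = (MvPolynomial.aeval (R := ℂ) (S₁ := MvPolynomial (Fin 3) ℂ)
        (fun _ : Fin 3 => (1 : MvPolynomial (Fin 3) ℂ))) := by
      apply MvPolynomial.algHom_ext
      intro i
      simp [evJ, hJ]
    rw [this]
    unfold ev1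
    have h2 := MvPolynomial.aeval_algebraMap_apply (A := ℂ) (B := MvPolynomial (Fin 3) ℂ)
      (fun _ : Fin 3 => (1 : ℂ)) r
    have h3 : (algebraMap ℂ (MvPolynomial (Fin 3) ℂ)) ∘ (fun _ : Fin 3 => (1 : ℂ)) =
        fun _ : Fin 3 => (1 : MvPolynomial (Fin 3) ℂ) := by
      funext i
      simp
    rw [h3] at h2
    exact h2
  have hmem : ∀ r : MvPolynomial (Fin 3) ℂ,
      MvPolynomial.aeval A (r - MvPolynomial.C (ev1 r)) ∈ ctr (S.ring I) O h := by
    intro r
    apply aeval_mem_of_evJ J A _ h1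
    rw [map_sub, hev, hev, sub_eq_zero]
    simp [ev1]
  have hcoe : ∀ r : MvPolynomial (Fin 3) ℂ,
      ((MvPolynomial.aeval A r : S.ring I) : K) = MvPolynomial.aeval (S.a I) r := by
    intro r
    have := MvPolynomial.aeval_algebraMap_apply (A := S.ring I) (B := K) A r
    exact this.symm
  set W : S.ring I := ⟨S.w I, S.w_mem_ring I⟩ with hW
  have hWs : W - algebraMap ℂ (S.ring I) s ∈ ctr (S.ring I) O h := by
    rw [mem_ctr]
    exact hw
  have h4 : b = MvPolynomial.aeval A (p - MvPolynomial.C (ev1 p)) +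
      MvPolynomial.aeval A (q - MvPolynomial.C (ev1 q)) * W +
      algebraMap ℂ (S.ring I) (ev1 q) * (W - algebraMap ℂ (S.ring I) s) := by
    have hpe : algebraMap ℂ (S.ring I) (ev1 p) + algebraMap ℂ (S.ring I) (s * ev1 q) = 0 := by
      rw [← map_add, hp, map_zero]
    have hb' : b = MvPolynomial.aeval A p + MvPolynomial.aeval A q * W := by
      apply Subtype.ext
      push_cast
      rw [hcoe, hcoe, hb]
      rfl
    rw [map_mul] at hpe
    rw [hb', map_sub, map_sub, MvPolynomial.aeval_C, MvPolynomial.aeval_C]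
    linear_combination hpe
  rw [h4]
  exact Ideal.add_mem _ (Ideal.add_mem _ (hmem p) (Ideal.mul_mem_right _ _ (hmem q)))
    (Ideal.mul_mem_left _ _ hWs)

theorem Setup.Ps_eq_ctr (S : Setup K) (I : Fin 3 → Bool) (s : ℂ) (hs : s ^ 2 = 3)
    {O : Subalgebra ℂ K} [IsLocalRing O] (h : S.ring I ≤ O)
    (ha : ∀ i, S.a I i - 1 ∈ nonunitsIn O) (hw : S.w I - algebraMap ℂ K s ∈ nonunitsIn O) :
    S.Ps I s hs = ctr (S.ring I) O h := by
  have hle := S.Ps_le_ctr I s hs h ha hw
  apply le_antisymm hle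
  intro b hb
  obtain ⟨p, q, hbe⟩ := S.exists_el I b
  by_contra hcon
  rw [S.mem_Ps I s hs hbe] at hcon
  set c := ev1 p + s * ev1 q with hc
  have h1 : b - algebraMap ℂ (S.ring I) c ∈ S.Ps I s hs := by
    have h2 : ((b - algebraMap ℂ (S.ring I) c : S.ring I) : K) =
        S.el I (p - MvPolynomial.C c) q := by
      push_cast
      rw [hbe]
      unfold Setup.el
      rw [map_sub, MvPolynomial.aeval_C]
      ring
    rw [S.mem_Ps I s hs h2, map_sub]
    have : ev1 (MvPolynomial.C c) = c := by simp [ev1]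
    rw [this, hc]
    ring
  have h2 : algebraMap ℂ (S.ring I) c ∈ ctr (S.ring I) O h := by
    have := Ideal.sub_mem _ hb (hle h1)
    rwa [sub_sub_cancel] at this
  have hu : IsUnit (algebraMap ℂ (S.ring I) c) := by
    have : IsUnit c := isUnit_iff_ne_zero.2 hcon
    exact this.map _
  exact (ctr_isPrime (S.ring I) O h).ne_top (Ideal.eq_top_of_isUnit_mem _ h2 hu)

theorem Setup.eq_pt_of (S : Setup K) (I : Fin 3 → Bool) (s : ℂ) (hs : s ^ 2 = 3)
    {O : Subalgebra ℂ K} (hO : S.model.IsPoint O) (h : S.ring I ≤ O)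
    (ha : ∀ i, S.a I i - 1 ∈ nonunitsIn O) (hw : S.w I - algebraMap ℂ K s ∈ nonunitsIn O) :
    O = S.pt I s hs := by
  have hl := hO.isLocalRing
  have h1 := S.eq_localize hO I h
  have h2 := S.Ps_eq_ctr I s hs h ha hw
  rw [h1]
  unfold Setup.pt
  congr 1
  exact h2.symm

theorem mul_mem_nonunits {O : Subalgebra ℂ K} [IsLocalRing O] {x y : K} (hx : x ∈ nonunitsIn O)
    (hy : y ∈ O) : x * y ∈ nonunitsIn O := by
  have h2 : (⟨x, hx.1⟩ : O) * ⟨y, hy⟩ ∈ IsLocalRing.maximalIdeal O := by
    apply Ideal.mul_mem_right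
    rw [IsLocalRing.mem_maximalIdeal, mem_nonunits_iff, ← mem_nonunitsIn_iff]
    exact hx
  rw [IsLocalRing.mem_maximalIdeal, mem_nonunits_iff, ← mem_nonunitsIn_iff] at h2
  exact h2

theorem add_mem_nonunits {O : Subalgebra ℂ K} [IsLocalRing O] {x y : K} (hx : x ∈ nonunitsIn O)
    (hy : y ∈ nonunitsIn O) : x + y ∈ nonunitsIn O := by
  have h2 : (⟨x, hx.1⟩ : O) + ⟨y, hy.1⟩ ∈ IsLocalRing.maximalIdeal O := by
    apply Ideal.add_mem
    · rw [IsLocalRing.mem_maximalIdeal, mem_nonunits_iff, ← mem_nonunitsIn_iff]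
      exact hx
    · rw [IsLocalRing.mem_maximalIdeal, mem_nonunits_iff, ← mem_nonunitsIn_iff]
      exact hy
  rw [IsLocalRing.mem_maximalIdeal, mem_nonunits_iff, ← mem_nonunitsIn_iff] at h2
  exact h2

theorem mul_mem_nonunits_or {O : Subalgebra ℂ K} [IsLocalRing O] {x y : K} (hx : x ∈ O)
    (hy : y ∈ O) (h : x * y ∈ nonunitsIn O) : x ∈ nonunitsIn O ∨ y ∈ nonunitsIn O := by
  have h2 : (⟨x, hx⟩ : O) * ⟨y, hy⟩ ∈ IsLocalRing.maximalIdeal O := by
    rw [IsLocalRing.mem_maximalIdeal, mem_nonunits_iff, ← mem_nonunitsIn_iff]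
    exact h
  rcases (IsLocalRing.maximalIdeal.isMaximal O).isPrime.mem_or_mem h2 with h3 | h3
  · left
    rw [IsLocalRing.mem_maximalIdeal, mem_nonunits_iff, ← mem_nonunitsIn_iff] at h3
    exact h3
  · right
    rw [IsLocalRing.mem_maximalIdeal, mem_nonunits_iff, ← mem_nonunitsIn_iff] at h3
    exact h3

/-- Points of the chart `I` where all `a_i - 1` vanish. -/
theorem Setup.eq_pt_or (S : Setup K) (I : Fin 3 → Bool) (s : ℂ) (hs : s ^ 2 = 3)
    {O : Subalgebra ℂ K} (hO : S.model.IsPoint O) (h : S.ring I ≤ O)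
    (ha : ∀ i, S.a I i - 1 ∈ nonunitsIn O) :
    O = S.pt I s hs ∨ O = S.pt I (-s) (by rw [neg_sq]; exact hs) := by
  have hl := hO.isLocalRing
  have hw : S.w I ∈ O := h (S.w_mem_ring I)
  have hsO : algebraMap ℂ K s ∈ O := O.algebraMap_mem s
  have key : (S.w I - algebraMap ℂ K s) * (S.w I - algebraMap ℂ K (-s)) ∈ nonunitsIn O := by
    have h1 : (S.w I - algebraMap ℂ K s) * (S.w I - algebraMap ℂ K (-s)) =
        MvPolynomial.aeval (S.a I) (branch I - MvPolynomial.C 3) := by
      rw [map_sub, ← S.w_sq, MvPolynomial.aeval_C, ← hs]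
      simp only [map_neg, map_pow]
      ring
    rw [h1]
    set A : Fin 3 → S.ring I := fun i => ⟨S.a I i, S.a_mem_ring I i⟩ with hA
    set J : Fin 3 → Bool := fun _ => true with hJ
    have h2 : ∀ i, J i = true → A i - 1 ∈ ctr (S.ring I) O h := by
      intro i _
      rw [mem_ctr]
      exact ha i
    have h3 : evJ J (branch I - MvPolynomial.C 3) = 0 := by
      rw [map_sub, sub_eq_zero]
      have h5 := map_branch_one (evJ J : MvPolynomial (Fin 3) ℂ →+* MvPolynomial (Fin 3) ℂ)
        (fun i => by simp [evJ, hJ]) I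
      have h6 : evJ J (MvPolynomial.C 3) = 3 := by
        have : (MvPolynomial.C 3 : MvPolynomial (Fin 3) ℂ) = 3 := map_ofNat _ 3
        rw [this]; exact map_ofNat _ 3
      rw [h6]
      exact h5
    have h4 := aeval_mem_of_evJ J A _ h2 h3
    rw [mem_ctr] at h4
    have h5 := MvPolynomial.aeval_algebraMap_apply (A := S.ring I) (B := K) A
      (branch I - MvPolynomial.C 3)
    have h6 : (algebraMap (S.ring I) K) ∘ A = S.a I := rfl
    rw [h6] at h5
    rw [h5]
    exact h4
  have h1 : S.w I - algebraMap ℂ K s ∈ O := O.sub_mem hw hsO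
  have h2 : S.w I - algebraMap ℂ K (-s) ∈ O := O.sub_mem hw (O.algebraMap_mem _)
  rcases mul_mem_nonunits_or h1 h2 key with h3 | h3
  · left; exact S.eq_pt_of I s hs hO h ha h3
  · right; exact S.eq_pt_of I (-s) _ hO h ha h3

end Pool.Agent.Lib.MP_0bb41e_ag
end
end
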