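import Pool.Agent.Lib.MP_0bb41e_ag.Local
import Pool.Agent.Lib.MP_0bb41e_ag.Strata2
import Pool.Agent.Lib.MP_0bb41e_ag.Sphere
import Pool.Agent.Lib.MP_0bb41e_ag.Val
import Pool.Agent.Lib.MP_0bb41e_ag.Charts

section

/-!
# Orders of the volume form of the double cover, part 2
-/

namespace Pool.Agent.Lib.MP_0bb41e_ag

open MvPolynomial in
/-- In a polynomial relation over a discrete valuation ring we can pass to one with a nonvanishing
derivative. -/
theorem exists_nonvanishing_deriv {K : Type} [Field K] [Algebra ℂ K] {n : ℕ}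
    (a : Fin n → K) (N : Set K) (T : Fin n → Prop)
    (hc : ∀ c : ℂ, c ≠ 0 → algebraMap ℂ K c ∉ N) :
    ∀ (m : ℕ) (P : MvPolynomial (Fin n) ℂ), P.totalDegree ≤ m → P ≠ 0 → (∀ j ∈ P.vars, T j) →
      aeval a P ∈ N →
      ∃ (Q : MvPolynomial (Fin n) ℂ) (j : Fin n), Q ≠ 0 ∧ T j ∧ aeval a Q ∈ N ∧
        aeval a (pderiv j Q) ∉ N := by
  intro m
  induction m with
  | zero =>
    intro P hP hP0 _ hN
    exfalso
    have h0 : P.totalDegree = 0 := Nat.le_zero.1 hP
    rw [totalDegree_eq_zero_iff_eq_C] at h0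
    have hc0 : coeff 0 P ≠ 0 := by
      intro h
      apply hP0
      rw [h0, h, C_0]
    apply hc _ hc0
    rw [h0] at hN
    simpa using hN
  | succ m ih =>
    intro P hP hP0 hv hN
    by_cases hvars : P.vars = ∅
    · exfalso
      obtain ⟨c, hcP⟩ : ∃ c, P = C c := by
        rw [vars_eq_empty_iff_eq_C] at hvars
        exact ⟨_, hvars⟩
      have hc0 : c ≠ 0 := by
        rintro rfl
        exact hP0 (by rw [hcP, C_0])
      apply hc _ hc0
      rw [hcP] at hN
      simpa using hN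
    · obtain ⟨j, hj⟩ := Finset.nonempty_iff_ne_empty.2 hvars
      have hj' := hj
      rw [mem_vars_iff_mem_support] at hj
      obtain ⟨s, hs, hjs⟩ := hj
      have hsj : 1 ≤ s j := by
        rw [Finsupp.mem_support_iff] at hjs
        omega
      have hs1 : s - Finsupp.single j 1 + Finsupp.single j 1 = s := by
        ext k
        by_cases hk : k = j
        · subst hk
          simp only [Finsupp.coe_add, Finsupp.coe_tsub, Pi.add_apply, Pi.sub_apply,
            Finsupp.single_eq_same]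
          omega
        · simp [Ne.symm hk]
      have hd0 : pderiv j P ≠ 0 := by
        intro h
        have h1 := coeff_pderiv (i := j) P (s - Finsupp.single j 1)
        rw [h, hs1, coeff_zero] at h1
        rw [mem_support_iff] at hs
        have h2 : ((s - Finsupp.single j 1 : Fin n →₀ ℕ) j : ℂ) + 1 ≠ 0 :=
          Nat.cast_add_one_ne_zero _
        exact (mul_ne_zero hs h2) h1.symm
      by_cases hdN : aeval a (pderiv j P) ∈ N
      · have hdeg : ∀ t ∈ (pderiv j P).support, t + Finsupp.single j 1 ∈ P.support := by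
          intro t ht
          rw [mem_support_iff] at ht ⊢
          rw [coeff_pderiv] at ht
          exact left_ne_zero_of_mul ht
        refine ih (pderiv j P) ?_ hd0 ?_ hdN
        · refine Finset.sup_le (fun t ht => ?_)
          have := le_totalDegree (hdeg t ht)
          have h3 : ((t + Finsupp.single j 1).sum fun _ e => e) = (t.sum fun _ e => e) + 1 := by
            rw [Finsupp.sum_add_index'] <;> simp
          omega
        · intro k hk
          rw [mem_vars_iff_mem_support] at hk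
          obtain ⟨t, ht, hkt⟩ := hk
          apply hv
          rw [mem_vars_iff_mem_support]
          refine ⟨_, hdeg t ht, ?_⟩
          rw [Finsupp.mem_support_iff] at hkt ⊢
          simp only [Finsupp.coe_add, Pi.add_apply]
          omega
      · exact ⟨P, j, hP0, hv j hj', hN, hdN⟩

variable {K : Type} [Field K] [Algebra ℂ K] {R : Subalgebra ℂ K}
variable {E V : Type} [AddCommGroup E] [Module K E] [Module ℂ E] [AddCommGroup V] [Module K V]
variable {d : Derivation ℂ K E} {f : E [⋀^Fin 3]→ₗ[K] V}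

theorem IsDVR.algebraMap_notMem_nonunits (hR : IsDVR R) {c : ℂ} (hc : c ≠ 0) :
    algebraMap ℂ K c ∉ nonunitsIn R := by
  intro h
  have h0 : algebraMap ℂ K c ≠ 0 := by simpa using hc
  rw [hR.mem_nonunits_iff h0, hR.valZ_algebraMap hc] at h
  exact lt_irrefl _ h

/-- An element of `R` which is not a nonunit is nonzero of valuation zero. -/
theorem IsDVR.unit_of (hR : IsDVR R) {x : K} (hx : x ∈ R) (h : x ∉ nonunitsIn R) :
    x ≠ 0 ∧ valZ R x = 0 := by
  have h0 : x ≠ 0 := by
    rintro rfl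
    exact h ⟨R.zero_mem, Or.inl rfl⟩
  refine ⟨h0, ?_⟩
  rw [hR.mem_nonunits_iff h0] at h
  have := (hR.mem_iff h0).1 hx
  omega

theorem nonunits_zero : (0 : K) ∈ nonunitsIn R := ⟨R.zero_mem, Or.inl rfl⟩

theorem IsDVR.nonunits_mul (hR : IsDVR R) {x y : K} (hx : x ∈ nonunitsIn R) (hy : y ∈ R) :
    x * y ∈ nonunitsIn R := by
  rcases eq_or_ne x 0 with rfl | hx0
  · rw [zero_mul]; exact nonunits_zero
  rcases eq_or_ne y 0 with rfl | hy0
  · rw [mul_zero]; exact nonunits_zero
  rw [hR.mem_nonunits_iff (mul_ne_zero hx0 hy0), hR.valZ_mul hx0 hy0]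
  have h1 := (hR.mem_nonunits_iff hx0).1 hx
  have h2 := (hR.mem_iff hy0).1 hy
  omega

theorem IsDVR.nonunits_add (hR : IsDVR R) {x y : K} (hx : x ∈ nonunitsIn R)
    (hy : y ∈ nonunitsIn R) : x + y ∈ nonunitsIn R := by
  rcases eq_or_ne x 0 with rfl | hx0
  · rw [zero_add]; exact hy
  rcases eq_or_ne y 0 with rfl | hy0
  · rw [add_zero]; exact hx
  rcases eq_or_ne (x + y) 0 with h | h
  · rw [h]; exact nonunits_zero
  rw [hR.mem_nonunits_iff h]
  have h1 := (hR.mem_nonunits_iff hx0).1 hx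
  have h2 := (hR.mem_nonunits_iff hy0).1 hy
  have := hR.valZ_add_ge h (k := 1) (by omega) (by omega)
  omega

theorem IsDVR.nonunits_neg (hR : IsDVR R) {x : K} (hx : x ∈ nonunitsIn R) :
    -x ∈ nonunitsIn R := by
  have := hR.nonunits_mul hx (R.neg_mem R.one_mem)
  simpa using this

/-- A unit plus a nonunit is a unit. -/
theorem IsDVR.unit_add (hR : IsDVR R) {x y : K} (hx : x ∉ nonunitsIn R)
    (hy : y ∈ nonunitsIn R) : x + y ∉ nonunitsIn R := by
  intro h
  apply hx
  have := hR.nonunits_add h (hR.nonunits_neg hy)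
  simpa using this

theorem IsDVR.one_notMem (hR : IsDVR R) : (1 : K) ∉ nonunitsIn R := by
  have := hR.algebraMap_notMem_nonunits (c := 1) one_ne_zero
  simpa using this

theorem IsDVR.pow_mem_iff (hR : IsDVR R) {x : K} (hx : x ^ 2 ∈ R) : x ∈ R := by
  rcases eq_or_ne x 0 with rfl | h0
  · exact R.zero_mem
  rw [hR.mem_iff h0]
  have := (hR.mem_iff (pow_ne_zero 2 h0)).1 hx
  rw [hR.valZ_pow h0] at this
  push_cast at this
  omega

theorem nonunits_le {x : K} (hx : x ∈ nonunitsIn R) : x ∈ R := hx.1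

theorem IsDVR.aeval_mem {n : ℕ} {a : Fin n → K} (ha : ∀ i, a i ∈ R)
    (P : MvPolynomial (Fin n) ℂ) : MvPolynomial.aeval a P ∈ R := by
  have h1 : MvPolynomial.aeval a P ∈ Algebra.adjoin ℂ (Set.range a) := by
    rw [Algebra.adjoin_range_eq_range_aeval]
    exact ⟨P, rfl⟩
  exact (Algebra.adjoin_le (by rintro _ ⟨i, rfl⟩; exact ha i)) h1

/-- The unit case on a chart. -/
theorem OGE_unit_case (hR : IsDVR R) {a : Fin 3 → K} (ha : AlgebraicIndependent ℂ a)
    (haR : ∀ i, a i ∈ R) (ha1 : ∀ i, a i - 1 ≠ 0) :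
    OGE R d f (f fun i => (a i - 1)⁻¹ • d (a i)) (-1) ∧
    (¬ OGE R d f (f fun i => (a i - 1)⁻¹ • d (a i)) 0 → (∃ i, a i - 1 ∈ nonunitsIn R) ∧
      ∀ P : MvPolynomial (Fin 3) ℂ, P ≠ 0 → (∀ j ∈ P.vars, a j - 1 ∉ nonunitsIn R) →
        MvPolynomial.aeval a P ∉ nonunitsIn R) := by
  refine ⟨OGE_f_log hR (fun i => dlog_sub_one_mem (ha1 i)), fun h => ⟨?_, ?_⟩⟩
  · by_contra hcon
    push Not at hcon
    apply h
    apply OGE_f_reg hR
    intro i
    have h1 := hR.unit_of (R.sub_mem (haR i) R.one_mem) (hcon i)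
    refine smul_mem_sub ?_ (d_mem_L1 (haR i))
    rw [hR.mem_iff (inv_ne_zero h1.1), hR.valZ_inv h1.1, h1.2]
    simp
  · intro P hP hv hN
    obtain ⟨Q, j, hQ0, hTj, hQN, hQj⟩ := exists_nonvanishing_deriv a (nonunitsIn R)
      (fun j => a j - 1 ∉ nonunitsIn R) (fun c hc => hR.algebraMap_notMem_nonunits hc)
      _ P le_rfl hP hv hN
    apply h
    have hQne : MvPolynomial.aeval a Q ≠ 0 := by
      intro h0
      exact hQ0 ((algebraicIndependent_iff.1 ha) Q h0)
    have h1 := hR.unit_of (IsDVR.aeval_mem haR _) hQj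
    have h2 := hR.unit_of (R.sub_mem (haR j) R.one_mem) hTj
    have h3 := OGE_slot (f := f) (d := d) hR a ha1 Q hQne j h1.1 h1.2 h2.2
    have h4 := (hR.mem_nonunits_iff hQne).1 hQN
    exact h3.mono hR (by omega)

/-- The case of the finite chart. -/
theorem Setup.case0 (S : Setup K) (hR : IsDVR R) (hx : ∀ i, S.x i ∈ R)
    (hn : ¬ ∀ i, S.x i ∈ nonunitsIn R) :
    OGE R d f (S.vol d f) (-1) ∧
    (¬ OGE R d f (S.vol d f) 0 → valZ R S.z = 0 ∧ (∃ i, S.x i - 1 ∈ nonunitsIn R) ∧
      ∀ P : MvPolynomial (Fin 3) ℂ, P ≠ 0 → (∀ j ∈ P.vars, S.x j - 1 ∉ nonunitsIn R) →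
        MvPolynomial.aeval S.x P ∉ nonunitsIn R) := by
  have hz0 := S.z_ne_zero
  have hz2 : S.z ^ 2 ∈ R := by
    rw [S.rel]
    exact R.add_mem (R.add_mem (R.mul_mem (R.pow_mem (hx 0) 2) (hx 1))
      (R.mul_mem (R.pow_mem (hx 1) 2) (hx 2))) (R.mul_mem (R.pow_mem (hx 2) 2) (hx 0))
  have hz : S.z ∈ R := hR.pow_mem_iff hz2
  have hvz := (hR.mem_iff hz0).1 hz
  by_cases hzn : S.z ∈ nonunitsIn R
  · -- the nonunit case: order ≥ 0
    have key : OGE R d f (S.vol d f) 0 := by
      have hvz' := (hR.mem_nonunits_iff hz0).1 hzn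
      set Q : MvPolynomial (Fin 3) ℂ := MvPolynomial.X 0 ^ 2 * MvPolynomial.X 1 +
        MvPolynomial.X 1 ^ 2 * MvPolynomial.X 2 + MvPolynomial.X 2 ^ 2 * MvPolynomial.X 0 with hQ
      have hQz : MvPolynomial.aeval S.x Q = S.z ^ 2 := by
        rw [S.rel, hQ]; simp
      have hD0 : MvPolynomial.aeval S.x (MvPolynomial.pderiv 0 Q) =
          2 * S.x 0 * S.x 1 + S.x 2 ^ 2 := by
        rw [hQ]
        simp [MvPolynomial.pderiv_X]
        ring
      have hD1 : MvPolynomial.aeval S.x (MvPolynomial.pderiv 1 Q) =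
          S.x 0 ^ 2 + 2 * S.x 1 * S.x 2 := by
        rw [hQ]
        simp [MvPolynomial.pderiv_X]
        ring
      have hD2 : MvPolynomial.aeval S.x (MvPolynomial.pderiv 2 Q) =
          S.x 1 ^ 2 + 2 * S.x 2 * S.x 0 := by
        rw [hQ]
        simp [MvPolynomial.pderiv_X]
        ring
      obtain ⟨j, hj1, hj2⟩ : ∃ j, S.x j - 1 ∉ nonunitsIn R ∧
          MvPolynomial.aeval S.x (MvPolynomial.pderiv j Q) ∉ nonunitsIn R := by
        by_contra hcon
        push Not at hcon
        apply hn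
        have := hR.1
        set κ := IsLocalRing.ResidueField R
        set ρ : R →+* κ := IsLocalRing.residue R with hρ
        have hres : ∀ y : R, ρ y = 0 ↔ (y : K) ∈ nonunitsIn R := by
          intro y
          rw [hρ, IsLocalRing.residue_eq_zero_iff, IsLocalRing.mem_maximalIdeal,
            mem_nonunits_iff, mem_nonunitsIn_iff]
        have : CharZero κ := charZero_of_injective_ringHom
          (ρ.comp (algebraMap ℂ R)).injective
        set X : Fin 3 → R := fun i => ⟨S.x i, hx i⟩ with hX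
        have e : (ρ (X 0)) ^ 2 * ρ (X 1) + (ρ (X 1)) ^ 2 * ρ (X 2) + (ρ (X 2)) ^ 2 * ρ (X 0) = 0 := by
          rw [← map_pow, ← map_pow, ← map_pow, ← map_mul, ← map_mul, ← map_mul, ← map_add,
            ← map_add, hres]
          change S.x 0 ^ 2 * S.x 1 + S.x 1 ^ 2 * S.x 2 + S.x 2 ^ 2 * S.x 0 ∈ nonunitsIn R
          rw [← S.rel, pow_two]
          exact hR.nonunits_mul hzn hz
        have one : ∀ i, S.x i - 1 ∈ nonunitsIn R → ρ (X i) = 1 := by
          intro i hi
          have : ρ (X i - 1) = 0 := by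
            rw [hres]
            exact hi
          rw [map_sub, map_one] at this
          exact sub_eq_zero.1 this
        have two : ρ 2 = 2 := map_ofNat ρ 2
        have e0 : ρ (X 0) = 1 ∨ 2 * ρ (X 0) * ρ (X 1) + ρ (X 2) ^ 2 = 0 := by
          by_cases h : S.x 0 - 1 ∈ nonunitsIn R
          · exact Or.inl (one 0 h)
          · right
            have h2 := hcon 0 h
            rw [hD0] at h2
            have : ρ (2 * X 0 * X 1 + X 2 ^ 2) = 0 := by
              rw [hres]; exact h2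
            simpa [two] using this
        have e1 : ρ (X 1) = 1 ∨ ρ (X 0) ^ 2 + 2 * ρ (X 1) * ρ (X 2) = 0 := by
          by_cases h : S.x 1 - 1 ∈ nonunitsIn R
          · exact Or.inl (one 1 h)
          · right
            have h2 := hcon 1 h
            rw [hD1] at h2
            have : ρ (X 0 ^ 2 + 2 * X 1 * X 2) = 0 := by
              rw [hres]; exact h2
            simpa [two] using this
        have e2 : ρ (X 2) = 1 ∨ ρ (X 1) ^ 2 + 2 * ρ (X 2) * ρ (X 0) = 0 := by
          by_cases h : S.x 2 - 1 ∈ nonunitsIn R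
          · exact Or.inl (one 2 h)
          · right
            have h2 := hcon 2 h
            rw [hD2] at h2
            have : ρ (X 1 ^ 2 + 2 * X 2 * X 0) = 0 := by
              rw [hres]; exact h2
            simpa [two] using this
        obtain ⟨h0, h1, h2⟩ := alg_chart0 _ _ _ e e0 e1 e2
        intro i
        have : ρ (X i) = 0 := by
          fin_cases i
          · exact h0
          · exact h1
          · exact h2
        rw [hres] at this
        exact this
      have hQne : MvPolynomial.aeval S.x Q ≠ 0 := by rw [hQz]; exact pow_ne_zero 2 hz0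
      have h1 := hR.unit_of (IsDVR.aeval_mem hx _) hj2
      have h2 := hR.unit_of (R.sub_mem (hx j) R.one_mem) hj1
      have h3 := OGE_slot (f := f) (d := d) hR S.x S.x_sub_one_ne Q hQne j h1.1 h1.2 h2.2
      have h4 := h3.smul hR (inv_ne_zero hz0)
      rw [hQz, hR.valZ_inv hz0, hR.valZ_pow hz0] at h4
      exact h4.mono hR (by push_cast; omega)
    exact ⟨key.mono hR (by omega), fun h => absurd key h⟩
  · have hu := hR.unit_of hz hzn
    have h1 := OGE_unit_case (f := f) (d := d) hR S.indep hx S.x_sub_one_ne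
    have hzi : valZ R (S.z)⁻¹ = 0 := by rw [hR.valZ_inv hz0, hu.2, neg_zero]
    refine ⟨?_, ?_⟩
    · have := h1.1.smul hR (inv_ne_zero hz0)
      rw [hzi, add_zero] at this
      exact this
    · intro h
      refine ⟨hu.2, h1.2 ?_⟩
      intro h5
      apply h
      have := h5.smul hR (inv_ne_zero hz0)
      rw [hzi, add_zero] at this
      exact this

end Pool.Agent.Lib.MP_0bb41e_ag
end

section

section

/-!
# Orders of the volume form of the double cover, part 3: all discrete valuation rings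
-/

namespace Pool.Agent.Lib.MP_0bb41e_ag

variable {K : Type} [Field K] [Algebra ℂ K] {R : Subalgebra ℂ K}
variable {E V : Type} [AddCommGroup E] [Module K E] [Module ℂ E] [AddCommGroup V] [Module K V]
variable {d : Derivation ℂ K E} {f : E [⋀^Fin 3]→ₗ[K] V}

theorem Setup.a_ne_zero (S : Setup K) (I : Fin 3 → Bool) (i : Fin 3) : S.a I i ≠ 0 := by
  unfold Setup.a
  split_ifs
  · exact inv_ne_zero (S.x_ne_zero i)
  · exact S.x_ne_zero i

theorem Setup.a_sub_one_ne (S : Setup K) (I : Fin 3 → Bool) (i : Fin 3) : S.a I i - 1 ≠ 0 := by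
  unfold Setup.a
  split_ifs
  · rw [sub_ne_zero]
    intro h
    rw [inv_eq_one] at h
    exact S.x_ne_one i h
  · exact S.x_sub_one_ne i

theorem Setup.w_ne_zero (S : Setup K) (I : Fin 3 → Bool) : S.w I ≠ 0 := by
  unfold Setup.w
  refine mul_ne_zero S.z_ne_zero (Finset.prod_ne_zero_iff.2 (fun i _ => ?_))
  split_ifs
  · exact inv_ne_zero (S.x_ne_zero i)
  · exact one_ne_zero

theorem Setup.a_indep' (S : Setup K) (I : Fin 3 → Bool) : AlgebraicIndependent ℂ (S.a I) := by
  apply S.indep_of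
  intro i
  have key : IsAlgebraic (Algebra.adjoin ℂ (Set.range (S.a I))) (S.a I i) :=
    isAlgebraic_algebraMap
      (⟨_, Algebra.subset_adjoin ⟨i, rfl⟩⟩ : Algebra.adjoin ℂ (Set.range (S.a I)))
  unfold Setup.a at key ⊢
  by_cases h : I i = true
  · simp only [h, if_true] at key
    exact IsAlgebraic.inv_iff.1 key
  · simp only [h] at key
    exact key

/-- The volume form in the coordinates of the chart `I`. -/
theorem Setup.vol_chart (S : Setup K) (I : Fin 3 → Bool) :
    S.vol d f = (S.w I)⁻¹ • f fun i => (S.a I i - 1)⁻¹ • d (S.a I i) := by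
  unfold Setup.vol
  have h1 : (fun i => (S.x i - 1)⁻¹ • d (S.x i)) =
      fun i => (if I i then S.x i else 1 : K) • ((S.a I i - 1)⁻¹ • d (S.a I i)) := by
    funext i
    unfold Setup.a
    split_ifs
    · rw [dlog_inv (S.x_ne_zero i) (S.x_sub_one_ne i), smul_smul (S.x i),
        mul_inv_cancel₀ (S.x_ne_zero i), one_smul]
    · rw [one_smul]
  rw [h1]
  have h2 := f.toMultilinearMap.map_smul_univ (fun i => (if I i then S.x i else 1 : K))
    (fun i => (S.a I i - 1)⁻¹ • d (S.a I i))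
  have h3 : f (fun i => (if I i then S.x i else 1 : K) • ((S.a I i - 1)⁻¹ • d (S.a I i))) =
      (∏ i, (if I i then S.x i else 1 : K)) • f (fun i => (S.a I i - 1)⁻¹ • d (S.a I i)) := h2
  rw [h3, smul_smul]
  congr 1
  unfold Setup.w
  rw [mul_inv]
  congr 1
  rw [← Finset.prod_inv_distrib]
  refine Finset.prod_congr rfl (fun i _ => ?_)
  split_ifs <;> simp

theorem Setup.w_mem (_S : Setup K) (hR : IsDVR R) {w : K} (h : w ^ 2 ∈ R) : w ∈ R :=
  hR.pow_mem_iff h

/-- Case of exactly one coordinate at infinity. -/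
theorem Setup.case1 (S : Setup K) (hR : IsDVR R) (h0 : (S.x 0)⁻¹ ∈ nonunitsIn R)
    (h1 : S.x 1 ∈ R) (h2 : S.x 2 ∈ R) : OGE R d f (S.vol d f) 0 := by
  set I : Fin 3 → Bool := ![true, false, false] with hI
  have a0 : S.a I 0 = (S.x 0)⁻¹ := rfl
  have a1 : S.a I 1 = S.x 1 := rfl
  have a2 : S.a I 2 = S.x 2 := rfl
  have hx0 := S.x_ne_zero 0
  have haR : ∀ i, S.a I i ∈ R := by
    intro i
    fin_cases i
    · exact h0.1
    · exact h1
    · exact h2
  have hw0 := S.w_ne_zero I
  have hw2 : S.w I ^ 2 = S.x 1 + (S.x 0)⁻¹ ^ 2 * S.x 1 ^ 2 * S.x 2 + (S.x 0)⁻¹ * S.x 2 ^ 2 := by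
    unfold Setup.w
    simp only [Fin.prod_univ_three, hI]
    simp only [Matrix.cons_val_zero, Matrix.cons_val_one, Matrix.cons_val, if_true]
    rw [mul_pow, S.rel]
    simp
    field_simp
  have hn : (S.x 0)⁻¹ ^ 2 * S.x 1 ^ 2 * S.x 2 + (S.x 0)⁻¹ * S.x 2 ^ 2 ∈ nonunitsIn R := by
    apply hR.nonunits_add
    · have : (S.x 0)⁻¹ ^ 2 * S.x 1 ^ 2 * S.x 2 = (S.x 0)⁻¹ * ((S.x 0)⁻¹ * S.x 1 ^ 2 * S.x 2) := by
        ring
      rw [this]
      exact hR.nonunits_mul h0 (R.mul_mem (R.mul_mem h0.1 (R.pow_mem h1 2)) h2)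
    · exact hR.nonunits_mul h0 (R.pow_mem h2 2)
  have hwR : S.w I ∈ R := by
    apply hR.pow_mem_iff
    rw [hw2, add_assoc]
    exact R.add_mem h1 hn.1
  rw [S.vol_chart I]
  by_cases hw : S.w I ∈ nonunitsIn R
  · have hvw := (hR.mem_nonunits_iff hw0).1 hw
    have hx1n : S.x 1 ∈ nonunitsIn R := by
      have h3 : S.w I ^ 2 ∈ nonunitsIn R := by rw [pow_two]; exact hR.nonunits_mul hw hwR
      rw [hw2, add_assoc] at h3
      have := hR.nonunits_add h3 (hR.nonunits_neg hn)
      rwa [add_neg_cancel_right] at this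
    set Q : MvPolynomial (Fin 3) ℂ := MvPolynomial.X 1 + MvPolynomial.X 0 ^ 2 *
      MvPolynomial.X 1 ^ 2 * MvPolynomial.X 2 + MvPolynomial.X 0 * MvPolynomial.X 2 ^ 2 with hQ
    have hQw : MvPolynomial.aeval (S.a I) Q = S.w I ^ 2 := by
      rw [hw2, hQ]; simp [a0, a1, a2]
    have hD1 : MvPolynomial.aeval (S.a I) (MvPolynomial.pderiv 1 Q) =
        1 + S.x 1 * (2 * (S.x 0)⁻¹ ^ 2 * S.x 2) := by
      rw [hQ]
      simp [MvPolynomial.pderiv_X, a0, a1, a2]
      ring
    have hQne : MvPolynomial.aeval (S.a I) Q ≠ 0 := by rw [hQw]; exact pow_ne_zero 2 hw0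
    have two : (2 : K) ∈ R := by simp
    have h5 : MvPolynomial.aeval (S.a I) (MvPolynomial.pderiv 1 Q) ∉ nonunitsIn R := by
      rw [hD1]
      exact hR.unit_add hR.one_notMem (hR.nonunits_mul hx1n
        (R.mul_mem (R.mul_mem two (R.pow_mem h0.1 2)) h2))
    have h6 : S.a I 1 - 1 ∉ nonunitsIn R := by
      rw [a1]
      intro h
      apply hR.one_notMem
      have := hR.nonunits_add hx1n (hR.nonunits_neg h)
      simpa using this
    have h7 := hR.unit_of (IsDVR.aeval_mem haR _) h5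
    have h8 := hR.unit_of (R.sub_mem (haR 1) R.one_mem) h6
    have h9 := OGE_slot (f := f) (d := d) hR (S.a I) (S.a_sub_one_ne I) Q hQne 1 h7.1 h7.2 h8.2
    have h10 := h9.smul hR (inv_ne_zero hw0)
    rw [hQw, hR.valZ_inv hw0, hR.valZ_pow hw0] at h10
    exact h10.mono hR (by push_cast; omega)
  · have hu := hR.unit_of hwR hw
    set Q : MvPolynomial (Fin 3) ℂ := MvPolynomial.X 0 with hQ
    have hQw : MvPolynomial.aeval (S.a I) Q = (S.x 0)⁻¹ := by
      rw [hQ]; simp [a0]
    have hQne : MvPolynomial.aeval (S.a I) Q ≠ 0 := by rw [hQw]; exact inv_ne_zero hx0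
    have h5 : MvPolynomial.aeval (S.a I) (MvPolynomial.pderiv 0 Q) = 1 := by
      rw [hQ]; simp
    have h6 : S.a I 0 - 1 ∉ nonunitsIn R := by
      rw [a0]
      intro h
      apply hR.one_notMem
      have := hR.nonunits_add h0 (hR.nonunits_neg h)
      simpa using this
    have h8 := hR.unit_of (R.sub_mem (haR 0) R.one_mem) h6
    have h9 := OGE_slot (f := f) (d := d) hR (S.a I) (S.a_sub_one_ne I) Q hQne 0
      (by rw [h5]; exact one_ne_zero) (by rw [h5]; exact hR.valZ_one) h8.2
    have h10 := h9.smul hR (inv_ne_zero hw0)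
    rw [hQw, hR.valZ_inv hw0, hu.2] at h10
    have h11 := (hR.mem_nonunits_iff (inv_ne_zero hx0)).1 h0
    exact h10.mono hR (by omega)

/-- Case of exactly two coordinates at infinity. -/
theorem Setup.case2 (S : Setup K) (hR : IsDVR R) (h0 : (S.x 0)⁻¹ ∈ nonunitsIn R)
    (h1 : (S.x 1)⁻¹ ∈ nonunitsIn R) (h2 : S.x 2 ∈ R) : OGE R d f (S.vol d f) 0 := by
  set I : Fin 3 → Bool := ![true, true, false] with hI
  have a0 : S.a I 0 = (S.x 0)⁻¹ := rfl
  have a1 : S.a I 1 = (S.x 1)⁻¹ := rfl
  have a2 : S.a I 2 = S.x 2 := rfl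
  have hx0 := S.x_ne_zero 0
  have hx1 := S.x_ne_zero 1
  have haR : ∀ i, S.a I i ∈ R := by
    intro i
    fin_cases i
    · exact h0.1
    · exact h1.1
    · exact h2
  have hw0 := S.w_ne_zero I
  have hw2 : S.w I ^ 2 = (S.x 1)⁻¹ + (S.x 0)⁻¹ ^ 2 * S.x 2 +
      (S.x 0)⁻¹ * (S.x 1)⁻¹ ^ 2 * S.x 2 ^ 2 := by
    unfold Setup.w
    simp only [Fin.prod_univ_three, hI]
    simp only [Matrix.cons_val_zero, Matrix.cons_val_one, Matrix.cons_val, if_true]
    rw [mul_pow, S.rel]
    simp
    field_simp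
  have hn : S.w I ^ 2 ∈ nonunitsIn R := by
    rw [hw2]
    apply hR.nonunits_add
    · apply hR.nonunits_add h1
      have : (S.x 0)⁻¹ ^ 2 * S.x 2 = (S.x 0)⁻¹ * ((S.x 0)⁻¹ * S.x 2) := by
        ring
      rw [this]
      exact hR.nonunits_mul h0 (R.mul_mem h0.1 h2)
    · have : (S.x 0)⁻¹ * (S.x 1)⁻¹ ^ 2 * S.x 2 ^ 2 = (S.x 0)⁻¹ * ((S.x 1)⁻¹ ^ 2 * S.x 2 ^ 2) := by
        ring
      rw [this]
      exact hR.nonunits_mul h0 (R.mul_mem (R.pow_mem h1.1 2) (R.pow_mem h2 2))
  have hvw : 0 < valZ R (S.w I) := by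
    have := (hR.mem_nonunits_iff (pow_ne_zero 2 hw0)).1 hn
    rw [hR.valZ_pow hw0] at this
    push_cast at this
    omega
  rw [S.vol_chart I]
  set Q : MvPolynomial (Fin 3) ℂ := MvPolynomial.X 1 + MvPolynomial.X 0 ^ 2 *
    MvPolynomial.X 2 + MvPolynomial.X 0 * MvPolynomial.X 1 ^ 2 * MvPolynomial.X 2 ^ 2 with hQ
  have hQw : MvPolynomial.aeval (S.a I) Q = S.w I ^ 2 := by
    rw [hw2, hQ]; simp [a0, a1, a2]
  have hD1 : MvPolynomial.aeval (S.a I) (MvPolynomial.pderiv 1 Q) =
      1 + (S.x 0)⁻¹ * (2 * (S.x 1)⁻¹ * S.x 2 ^ 2) := by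
    rw [hQ]
    simp [MvPolynomial.pderiv_X, a0, a1, a2]
    ring
  have hQne : MvPolynomial.aeval (S.a I) Q ≠ 0 := by rw [hQw]; exact pow_ne_zero 2 hw0
  have two : (2 : K) ∈ R := by simp
  have h5 : MvPolynomial.aeval (S.a I) (MvPolynomial.pderiv 1 Q) ∉ nonunitsIn R := by
    rw [hD1]
    exact hR.unit_add hR.one_notMem (hR.nonunits_mul h0
      (R.mul_mem (R.mul_mem two h1.1) (R.pow_mem h2 2)))
  have h6 : S.a I 1 - 1 ∉ nonunitsIn R := by
    rw [a1]
    intro h
    apply hR.one_notMem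
    have := hR.nonunits_add h1 (hR.nonunits_neg h)
    simpa using this
  have h7 := hR.unit_of (IsDVR.aeval_mem haR _) h5
  have h8 := hR.unit_of (R.sub_mem (haR 1) R.one_mem) h6
  have h9 := OGE_slot (f := f) (d := d) hR (S.a I) (S.a_sub_one_ne I) Q hQne 1 h7.1 h7.2 h8.2
  have h10 := h9.smul hR (inv_ne_zero hw0)
  rw [hQw, hR.valZ_inv hw0, hR.valZ_pow hw0] at h10
  exact h10.mono hR (by push_cast; omega)

/-- Case of the singular point, with `x 0` of minimal valuation. -/
theorem Setup.caseQ0 (S : Setup K) (hR : IsDVR R) (hx : ∀ i, S.x i ∈ nonunitsIn R)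
    (h1 : S.x 1 / S.x 0 ∈ R) (h2 : S.x 2 / S.x 0 ∈ R) : OGE R d f (S.vol d f) 1 := by
  have hx0 := S.x_ne_zero 0
  have hz0 := S.z_ne_zero
  set β := S.x 1 / S.x 0 with hβ
  set γ := S.x 2 / S.x 0 with hγ
  set φ := β + β ^ 2 * γ + γ ^ 2 with hφ
  have e1 : S.x 1 = S.x 0 * β := by rw [hβ]; field_simp
  have e2 : S.x 2 = S.x 0 * γ := by rw [hγ]; field_simp
  have hz2 : S.z ^ 2 = S.x 0 ^ 3 * φ := by
    rw [S.rel, e1, e2, hφ]; ring
  have hφ0 : φ ≠ 0 := by
    intro h
    rw [h, mul_zero] at hz2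
    exact pow_ne_zero 2 hz0 hz2
  have two : (2 : K) ∈ R := by simp
  have hφR : φ ∈ R := R.add_mem (R.add_mem h1 (R.mul_mem (R.pow_mem h1 2) h2)) (R.pow_mem h2 2)
  have hvφ := (hR.mem_iff hφ0).1 hφR
  have hvx0 := (hR.mem_nonunits_iff hx0).1 (hx 0)
  have hval : 2 * valZ R S.z = 3 * valZ R (S.x 0) + valZ R φ := by
    have := congrArg (valZ R) hz2
    rw [hR.valZ_pow hz0, hR.valZ_mul (pow_ne_zero 3 hx0) hφ0, hR.valZ_pow hx0] at this
    push_cast at this
    exact this
  -- differential of φ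
  have hdφ : d φ = (1 + 2 * β * γ) • d β + (β ^ 2 + 2 * γ) • d γ := by
    rw [hφ]
    simp only [map_add, Derivation.leibniz, d_pow]
    simp only [Nat.cast_ofNat, Nat.add_one_sub_one, pow_one, smul_smul, add_smul, one_smul]
    have : γ * (2 * β) = 2 * β * γ := by ring
    rw [this]
    abel
  have key : OGE R d f (wd f ((S.x 0)⁻¹ • d (S.x 0)) (d β) (d γ)) (-1 + valZ R φ) := by
    by_cases hφn : φ ∈ nonunitsIn R
    · have hor : (1 + 2 * β * γ ∉ nonunitsIn R) ∨ (β ^ 2 + 2 * γ ∉ nonunitsIn R) := by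
        by_contra hcon
        push Not at hcon
        obtain ⟨n1, n2⟩ := hcon
        apply hR.one_notMem
        have hc : ∀ c : ℂ, algebraMap ℂ K c ∈ R := fun c => R.algebraMap_mem c
        have hthird : (algebraMap ℂ K (1 / 3)) = 1 / 3 := by
          rw [map_div₀, map_one, map_ofNat]
        have third : (1 / 3 : K) ∈ R := by rw [← hthird]; exact hc _
        have four : (4 : K) ∈ R := by simp
        have hβ' : β ∈ R := h1
        have hγ' : γ ∈ R := h2
        have hchar : CharZero K := charZero_of_injective_algebraMap (algebraMap ℂ K).injective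
        have three0 : (3 : K) ≠ 0 := by norm_num
        -- 1 = combination
        have hid : (1 : K) = (1 + 2 * β * γ) * (1 - 1 / 3 * β ^ 3) + φ * (4 * (1 / 3) * β ^ 2) +
            (β ^ 2 + 2 * γ) * (-(1 / 3) * (2 * β ^ 2 * γ + β ^ 4) - β + 1 / 3 * β ^ 4) := by
          rw [hφ]
          field_simp
          ring
        rw [hid]
        apply hR.nonunits_add
        · apply hR.nonunits_add
          · apply hR.nonunits_mul n1
            exact R.sub_mem R.one_mem (R.mul_mem third (R.pow_mem hβ' 3))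
          · apply hR.nonunits_mul hφn
            exact R.mul_mem (R.mul_mem four third) (R.pow_mem hβ' 2)
        · apply hR.nonunits_mul n2
          refine R.add_mem (R.sub_mem (R.mul_mem (R.neg_mem third) (R.add_mem (R.mul_mem
            (R.mul_mem two (R.pow_mem hβ' 2)) hγ') (R.pow_mem hβ' 4))) hβ')
            (R.mul_mem third (R.pow_mem hβ' 4))
      rcases hor with hu | hu
      · have hu' := hR.unit_of (R.add_mem R.one_mem (R.mul_mem (R.mul_mem two h1) h2)) hu
        have h3 : wd f ((S.x 0)⁻¹ • d (S.x 0)) (d β) (d γ) =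
            ((1 + 2 * β * γ)⁻¹ * φ) • wd f ((S.x 0)⁻¹ • d (S.x 0)) (φ⁻¹ • d φ) (d γ) := by
          rw [wd_smul1, smul_smul, mul_assoc, mul_inv_cancel₀ hφ0, mul_one, hdφ, wd_add1, wd_smul1,
            wd_smul1, wd_self12, smul_zero, add_zero, smul_smul, inv_mul_cancel₀ hu'.1, one_smul]
        rw [h3]
        have h4 : OGE R d f (wd f ((S.x 0)⁻¹ • d (S.x 0)) (φ⁻¹ • d φ) (d γ)) (-1) :=
          OGE_wd_log hR (dlog_mem_Llog hx0) (dlog_mem_Llog hφ0) (d_mem_Llog h2)
        have h5 := h4.smul hR (mul_ne_zero (inv_ne_zero hu'.1) hφ0)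
        rw [hR.valZ_mul (inv_ne_zero hu'.1) hφ0, hR.valZ_inv hu'.1, hu'.2, neg_zero,
          zero_add] at h5
        exact h5
      · have hu' := hR.unit_of (R.add_mem (R.pow_mem h1 2) (R.mul_mem two h2)) hu
        have h3 : wd f ((S.x 0)⁻¹ • d (S.x 0)) (d β) (d γ) =
            ((β ^ 2 + 2 * γ)⁻¹ * φ) • wd f ((S.x 0)⁻¹ • d (S.x 0)) (d β) (φ⁻¹ • d φ) := by
          rw [wd_smul2, smul_smul, mul_assoc, mul_inv_cancel₀ hφ0, mul_one, hdφ, wd_add2, wd_smul2,
            wd_smul2, wd_self12, smul_zero, zero_add, smul_smul, inv_mul_cancel₀ hu'.1, one_smul]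
        rw [h3]
        have h4 : OGE R d f (wd f ((S.x 0)⁻¹ • d (S.x 0)) (d β) (φ⁻¹ • d φ)) (-1) :=
          OGE_wd_log hR (dlog_mem_Llog hx0) (d_mem_Llog h1) (dlog_mem_Llog hφ0)
        have h5 := h4.smul hR (mul_ne_zero (inv_ne_zero hu'.1) hφ0)
        rw [hR.valZ_mul (inv_ne_zero hu'.1) hφ0, hR.valZ_inv hu'.1, hu'.2, neg_zero,
          zero_add] at h5
        exact h5
    · have hu := hR.unit_of hφR hφn
      rw [hu.2, add_zero]
      exact OGE_wd_log hR (dlog_mem_Llog hx0) (d_mem_Llog h1) (d_mem_Llog h2)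
  have hun : ∀ i, valZ R (S.x i - 1) = 0 := by
    intro i
    refine (hR.unit_of (R.sub_mem (hx i).1 R.one_mem) ?_).2
    intro h
    apply hR.one_notMem
    have := hR.nonunits_add (hx i) (hR.nonunits_neg h)
    simpa using this
  have hvol : S.vol d f = (S.z⁻¹ * ((S.x 0 - 1)⁻¹ * (S.x 1 - 1)⁻¹ * (S.x 2 - 1)⁻¹ *
      S.x 0 ^ 3)) • wd f ((S.x 0)⁻¹ • d (S.x 0)) (d β) (d γ) := by
    unfold Setup.vol
    rw [← wd_eq]
    have d1 : d (S.x 1) = S.x 0 • d β + β • d (S.x 0) := by
      rw [e1, Derivation.leibniz]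
    have d2 : d (S.x 2) = S.x 0 • d γ + γ • d (S.x 0) := by
      rw [e2, Derivation.leibniz]
    rw [d1, d2]
    simp only [wd_smul0, wd_smul1, wd_smul2, wd_add1, wd_add2, wd_self01, wd_self02, smul_zero,
      add_zero, zero_add, smul_add, smul_smul]
    congr 1
    field_simp
  rw [hvol]
  have n0 := inv_ne_zero (S.x_sub_one_ne 0)
  have n1 := inv_ne_zero (S.x_sub_one_ne 1)
  have n2 := inv_ne_zero (S.x_sub_one_ne 2)
  have hc := mul_ne_zero (mul_ne_zero (mul_ne_zero n0 n1) n2) (pow_ne_zero 3 hx0)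
  have h6 := key.smul hR (mul_ne_zero (inv_ne_zero hz0) hc)
  have h7 : valZ R (S.z⁻¹ * ((S.x 0 - 1)⁻¹ * (S.x 1 - 1)⁻¹ * (S.x 2 - 1)⁻¹ * S.x 0 ^ 3)) =
      - valZ R S.z + 3 * valZ R (S.x 0) := by
    rw [hR.valZ_mul (inv_ne_zero hz0) hc, hR.valZ_mul (mul_ne_zero (mul_ne_zero n0 n1) n2)
      (pow_ne_zero 3 hx0), hR.valZ_mul (mul_ne_zero n0 n1) n2, hR.valZ_mul n0 n1,
      hR.valZ_inv (S.x_sub_one_ne 0), hR.valZ_inv (S.x_sub_one_ne 1),
      hR.valZ_inv (S.x_sub_one_ne 2), hun 0, hun 1, hun 2, hR.valZ_pow hx0, hR.valZ_inv hz0]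
    push_cast
    ring
  rw [h7] at h6
  exact h6.mono hR (by omega)

end Pool.Agent.Lib.MP_0bb41e_ag
end

section

/-!
# The pair has simple normal crossings at the strata
-/

namespace Pool.Agent.Lib.MP_0bb41e_ag

variable {K : Type} [Field K] [Algebra ℂ K]

theorem snc_isNoetherianRing_localize (A : Subalgebra ℂ K) [IsNoetherianRing A] (P : Ideal A)
    (hP : P.IsPrime) : IsNoetherianRing (localize A P hP) := by
  letI : Algebra A (localize A P hP) :=
    (Subalgebra.inclusion (le_localize A P hP)).toRingHom.toAlgebra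
  have hmap : ∀ a : A,
      ((algebraMap A (localize A P hP) a : localize A P hP) : K) = (a : K) := fun a => rfl
  have hloc : IsLocalization P.primeCompl (localize A P hP) := by
    refine ⟨?_, ?_, ?_⟩
    · rintro ⟨b, hb⟩
      have hb' : b ∉ P := hb
      have h0 : (b : K) ≠ 0 := coe_ne_zero_of_notMem hb'
      rw [isUnit_iff_inv_mem]
      exact ⟨h0, inv_mem_localize hP hb'⟩
    · rintro ⟨y, a, b, hb, hy⟩
      refine ⟨(a, ⟨b, hb⟩), ?_⟩
      apply Subtype.ext
      rw [MulMemClass.coe_mul, hmap, hmap]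
      have := coe_ne_zero_of_notMem hb
      simp only [hy]
      field_simp
    · intro a b h
      refine ⟨1, ?_⟩
      have h' := congrArg Subtype.val h
      rw [hmap, hmap] at h'
      simpa using Subtype.ext h'
  exact IsLocalization.isNoetherianRing P.primeCompl (localize A P hP) inferInstance

theorem snc_krullDim_eq_of {O : Subalgebra ℂ K} [IsLocalRing O] [IsNoetherianRing O] {d : ℕ}
    (x : Fin d → O)
    (hx : ∀ y : O, (y : K) ∈ nonunitsIn O ↔ y ∈ Ideal.span (Set.range x))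
    (chain : Fin (d + 1) → PrimeSpectrum O) (hc : StrictMono chain) : ringKrullDim O = d := by
  apply le_antisymm
  · have hmax : IsLocalRing.maximalIdeal O = Ideal.span (Set.range x) := by
      ext y
      rw [IsLocalRing.mem_maximalIdeal, mem_nonunits_iff, ← mem_nonunitsIn_iff, hx]
    have h1 := ringKrullDim_le_spanFinrank_maximalIdeal O
    refine h1.trans ?_
    rw [hmax]
    have h2 := Submodule.spanFinrank_span_le_ncard_of_finite (R := O) (Set.finite_range x)
    have h3 : (Set.range x).ncard ≤ d := by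
      rw [← Set.image_univ]
      refine (Set.ncard_image_le Set.finite_univ).trans ?_
      rw [Set.ncard_univ, Nat.card_eq_fintype_card, Fintype.card_fin]
    exact_mod_cast h2.trans h3
  · exact Order.LTSeries.length_le_krullDim (LTSeries.mk d chain hc)

/-- Elements of the chart ring which vanish on the stratum `J`. -/
theorem Setup.snc_mem_span_of_mem_PJ (S : Setup K) (J : Fin 3 → Bool) {b : S.ring I0}
    (hb : b ∈ S.PJ I0 J) (P : Ideal (S.ring I0))
    (hP : ∀ i, J i = true → (⟨S.a I0 i, S.a_mem_ring I0 i⟩ : S.ring I0) - 1 ∈ P) : b ∈ P := by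
  obtain ⟨p, q, hb, hp, hq⟩ := hb
  set A : Fin 3 → S.ring I0 := fun i => ⟨S.a I0 i, S.a_mem_ring I0 i⟩ with hA
  have h2 := aeval_mem_of_evJ J A P hP hp
  have h3 := aeval_mem_of_evJ J A P hP hq
  have hcoe : ∀ r : MvPolynomial (Fin 3) ℂ,
      ((MvPolynomial.aeval A r : S.ring I0) : K) = MvPolynomial.aeval (S.a I0) r := by
    intro r
    have := MvPolynomial.aeval_algebraMap_apply (A := S.ring I0) (B := K) A r
    exact this.symm
  have h4 : b = MvPolynomial.aeval A p + MvPolynomial.aeval A q * ⟨S.w I0, S.w_mem_ring I0⟩ := by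
    apply Subtype.ext
    push_cast
    rw [hcoe, hcoe, hb]
    rfl
  rw [h4]
  exact Ideal.add_mem _ h2 (Ideal.mul_mem_right _ _ h3)

/-- The equation `x_i - 1` of a component of the boundary in a local ring over the chart. -/
noncomputable def Setup.snc_par (S : Setup K) {O : Subalgebra ℂ K} (h : S.ring I0 ≤ O) (i : Fin 3) :
    O := ⟨S.a I0 i, h (S.a_mem_ring I0 i)⟩ - 1

theorem Setup.snc_par_coe (S : Setup K) {O : Subalgebra ℂ K} (h : S.ring I0 ≤ O) (i : Fin 3) :
    ((S.snc_par h i : O) : K) = S.a I0 i - 1 := rfl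

instance Setup.snc_OJ_isLocalRing (S : Setup K) (J : Fin 3 → Bool) (hJ : ∃ k, J k = false) :
    IsLocalRing (S.OJ J hJ) := S.loc_isLocalRing I0 J hJ

instance Setup.snc_Bd_isLocalRing (S : Setup K) (i : Fin 3) : IsLocalRing (S.Bd i) :=
  S.snc_OJ_isLocalRing _ _

theorem Setup.snc_OJ_isPoint (S : Setup K) (J : Fin 3 → Bool) (hJ : ∃ k, J k = false) :
    S.model.IsPoint (S.OJ J hJ) := S.loc_isPoint I0 J hJ

theorem Setup.snc_Bd_nonunits (S : Setup K) {P : Ideal (S.ring I0)} (hP : P.IsPrime) (i : Fin 3)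
    (hle : localize (S.ring I0) P hP ≤ S.Bd i) (y : localize (S.ring I0) P hP) :
    (y : K) ∈ nonunitsIn (S.Bd i) ↔
      y ∈ Ideal.span {S.snc_par (le_localize (S.ring I0) P hP) i} := by
  constructor
  · intro hy
    obtain ⟨a, b, hb, hyab⟩ := y.2
    have hb0 := coe_ne_zero_of_notMem hb
    have ha : (a : K) = (y : K) * b := by rw [hyab]; field_simp
    have hbB : (b : K) ∈ S.Bd i := hle (le_localize _ _ _ b.2)
    have haB : (a : K) ∈ nonunitsIn (S.Bd i) := by
      rw [ha]
      exact mul_mem_nonunits hy hbB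
    have haP : a ∈ S.PJ I0 (sgl i) :=
      (coe_mem_nonunits_localize (S.PJ_isPrime I0 (sgl i)
        (k := (sgl_ne i).choose) (sgl_ne i).choose_spec) a).1 haB
    have h1 := S.snc_mem_span_of_mem_PJ (sgl i) haP
      (Ideal.span {(⟨S.a I0 i, S.a_mem_ring I0 i⟩ : S.ring I0) - 1}) (by
        intro j hj
        have : j = i := by simpa [sgl] using hj
        rw [this]
        exact Ideal.mem_span_singleton_self _)
    rw [Ideal.mem_span_singleton] at h1
    obtain ⟨c, hc⟩ := h1
    rw [Ideal.mem_span_singleton]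
    refine ⟨⟨(c : K) / b, c, b, hb, rfl⟩, ?_⟩
    apply Subtype.ext
    rw [MulMemClass.coe_mul, S.snc_par_coe, hyab, hc]
    push_cast
    ring
  · intro hy
    rw [Ideal.mem_span_singleton] at hy
    obtain ⟨c, hc⟩ := hy
    rw [hc, MulMemClass.coe_mul, S.snc_par_coe]
    apply mul_mem_nonunits _ (hle c.2)
    have := (S.a_sub_one_mem_loc I0 (sgl i) (sgl_ne i) i).2 (by simp [sgl])
    exact this

theorem Setup.snc_OJ_le_OJ (S : Setup K) {J J' : Fin 3 → Bool} (hJ : ∃ k, J k = false)
    (hJ' : ∃ k, J' k = false) (h : ∀ i, J i = true → J' i = true) :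
    S.OJ J' hJ' ≤ S.OJ J hJ := by
  rw [S.le_OJ_iff J hJ (S.snc_OJ_isPoint J' hJ')]
  intro i hi
  exact (S.le_OJ_iff J' hJ' (S.snc_OJ_isPoint J' hJ')).1 le_rfl i (h i hi)

/-- The prime ideal of the stratum `J` in a local ring `O`. -/
noncomputable def Setup.snc_pr (S : Setup K) {O : Subalgebra ℂ K} (J : Fin 3 → Bool)
    (hJ : ∃ k, J k = false) (h : O ≤ S.OJ J hJ) : PrimeSpectrum O :=
  ⟨ctr O (S.OJ J hJ) h, inferInstance⟩

theorem Setup.snc_mem_pr (S : Setup K) {O : Subalgebra ℂ K} (J : Fin 3 → Bool)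
    (hJ : ∃ k, J k = false) (h : O ≤ S.OJ J hJ) (y : O) :
    y ∈ (S.snc_pr J hJ h).asIdeal ↔ (y : K) ∈ nonunitsIn (S.OJ J hJ) := mem_ctr h y

theorem Setup.snc_pr_lt (S : Setup K) {O : Subalgebra ℂ K} (hO : S.ring I0 ≤ O)
    {J J' : Fin 3 → Bool}
    (hJ : ∃ k, J k = false) (hJ' : ∃ k, J' k = false)
    (h : O ≤ S.OJ J hJ) (h' : O ≤ S.OJ J' hJ') (hle : ∀ i, J i = true → J' i = true)
    (hne : ∃ i, J' i = true ∧ J i = false) : S.snc_pr J hJ h < S.snc_pr J' hJ' h' := by
  rw [← PrimeSpectrum.asIdeal_lt_asIdeal]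
  refine lt_of_le_of_ne ?_ ?_
  · intro y hy
    rw [S.snc_mem_pr] at hy ⊢
    exact nonunits_of_le (S.snc_OJ_le_OJ hJ hJ' hle) (h' y.2) hy
  · intro heq
    obtain ⟨i, hi', hi⟩ := hne
    have h1 : S.snc_par hO i ∈ (S.snc_pr J' hJ' h').asIdeal := by
      rw [S.snc_mem_pr, S.snc_par_coe]
      exact (S.a_sub_one_mem_loc I0 J' hJ' i).2 hi'
    rw [← heq, S.snc_mem_pr, S.snc_par_coe] at h1
    have := (S.a_sub_one_mem_loc I0 J hJ i).1 h1
    rw [hi] at this
    exact Bool.false_ne_true this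

/-- The stratum `J` is a simple normal crossing point. -/
theorem Setup.snc_OJ_snc_aux (S : Setup K) (J : Fin 3 → Bool) (hJ : ∃ k, J k = false) {d : ℕ}
    (idx : Fin d → Fin 3) (hidx : ∀ i, J i = true ↔ ∃ k, idx k = i)
    (chain : Fin (d + 1) → PrimeSpectrum (S.OJ J hJ)) (hc : StrictMono chain) :
    S.model.IsSNCAt (Set.range S.Bd) (S.OJ J hJ) := by
  have hP : (S.PJ I0 J).IsPrime := by obtain ⟨k, hk⟩ := hJ; exact S.PJ_isPrime I0 J hk
  have hA : S.ring I0 ≤ S.OJ J hJ := S.ring_le_loc I0 J hJ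
  have hx : ∀ y : S.OJ J hJ, (y : K) ∈ nonunitsIn (S.OJ J hJ) ↔
      y ∈ Ideal.span (Set.range fun k => S.snc_par hA (idx k)) := by
    intro y
    constructor
    · intro hy
      have hy' : (y : K) ∈ nonunitsIn (localize (S.ring I0) (S.PJ I0 J) hP) := hy
      rw [mem_nonunits_localize] at hy'
      obtain ⟨a, b, ha, hb, hyab⟩ := hy'
      have hb1 : (b : K)⁻¹ ∈ S.OJ J hJ := inv_mem_localize hP hb
      have h1 := S.snc_mem_span_of_mem_PJ J ha
        ((Ideal.span (Set.range fun k => S.snc_par hA (idx k))).comap (Subalgebra.inclusion hA)) (by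
          intro i hi
          obtain ⟨k, hk⟩ := (hidx i).1 hi
          rw [Ideal.mem_comap]
          apply Ideal.subset_span
          refine ⟨k, ?_⟩
          rw [← hk]
          rfl)
      rw [Ideal.mem_comap] at h1
      have h2 : y = (Subalgebra.inclusion hA a) * ⟨(b : K)⁻¹, hb1⟩ := by
        apply Subtype.ext
        rw [MulMemClass.coe_mul, hyab, div_eq_mul_inv]
        rfl
      rw [h2]
      exact Ideal.mul_mem_right _ _ h1
    · intro hy
      rw [mem_nonunitsIn_iff, ← mem_nonunits_iff, ← IsLocalRing.mem_maximalIdeal]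
      revert hy
      apply Ideal.span_le.2
      rintro _ ⟨k, rfl⟩
      rw [SetLike.mem_coe, IsLocalRing.mem_maximalIdeal, mem_nonunits_iff, ← mem_nonunitsIn_iff,
        S.snc_par_coe]
      exact (S.a_sub_one_mem_loc I0 J hJ (idx k)).2 ((hidx _).2 ⟨k, rfl⟩)
  have hN : IsNoetherianRing (S.OJ J hJ) := snc_isNoetherianRing_localize (S.ring I0) (S.PJ I0 J) hP
  refine ⟨d, _, snc_krullDim_eq_of _ hx chain hc, hx, ?_⟩
  rintro D ⟨i, rfl⟩ hD
  have hi : J i = true := by
    rw [S.le_Bd_iff I0 i (S.snc_OJ_isPoint J hJ) hA] at hD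
    exact (S.a_sub_one_mem_loc I0 J hJ i).1 hD
  obtain ⟨k, hk⟩ := (hidx i).1 hi
  refine ⟨k, fun y => ?_⟩
  rw [hk]
  exact S.snc_Bd_nonunits hP i hD y

theorem snc_cases_J : ∀ J : Fin 3 → Bool, (∃ k, J k = false) → (∃ k, J k = true) →
    (∃ i, J = sgl i) ∨ (∃ i j, i ≠ j ∧ J = fun k => decide (k = i ∨ k = j)) := by
  decide

theorem Setup.snc_le_OJ_empty (S : Setup K) {O : Subalgebra ℂ K} (hO : S.model.IsPoint O) :
    O ≤ S.OJ (fun _ => false) ⟨0, rfl⟩ := by
  rw [S.le_OJ_iff _ _ hO]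
  intro i hi
  exact absurd hi (by simp)

theorem Setup.OJ_snc (S : Setup K) (J : Fin 3 → Bool) (hJ : ∃ k, J k = false)
    (hJ' : ∃ k, J k = true) : S.model.IsSNCAt (Set.range S.Bd) (S.OJ J hJ) := by
  have hA : S.ring I0 ≤ S.OJ J hJ := S.ring_le_loc I0 J hJ
  have h0 := S.snc_le_OJ_empty (S.snc_OJ_isPoint J hJ)
  rcases snc_cases_J J hJ hJ' with ⟨i, rfl⟩ | ⟨i, j, hij, hJe⟩
  · refine S.snc_OJ_snc_aux (sgl i) hJ (d := 1) ![i] ?_ ![S.snc_pr _ ⟨0, rfl⟩ h0, S.snc_pr _ hJ le_rfl] ?_
    · intro k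
      simp [sgl, eq_comm]
    · rw [Fin.strictMono_iff_lt_succ]
      intro k
      fin_cases k
      exact S.snc_pr_lt hA _ _ _ _ (by simp) ⟨i, by simp [sgl], rfl⟩
  · have h1 : S.OJ J hJ ≤ S.OJ (sgl i) (sgl_ne i) := by
      apply S.snc_OJ_le_OJ
      intro k hk
      have : k = i := by simpa [sgl] using hk
      rw [hJe]
      simp [this]
    refine S.snc_OJ_snc_aux J hJ (d := 2) ![i, j] ?_
      ![S.snc_pr _ ⟨0, rfl⟩ h0, S.snc_pr _ (sgl_ne i) h1, S.snc_pr _ hJ le_rfl] ?_
    · intro k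
      rw [hJe]
      simp only [decide_eq_true_eq]
      constructor
      · rintro (rfl | rfl)
        · exact ⟨0, rfl⟩
        · exact ⟨1, rfl⟩
      · rintro ⟨l, hl⟩
        fin_cases l
        · left; exact hl.symm
        · right; exact hl.symm
    · rw [Fin.strictMono_iff_lt_succ]
      intro k
      fin_cases k
      · exact S.snc_pr_lt hA _ _ _ _ (by simp) ⟨i, by simp [sgl], rfl⟩
      · refine S.snc_pr_lt hA _ _ _ _ ?_ ⟨j, ?_, ?_⟩
        · intro k hk
          have : k = i := by simpa [sgl] using hk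
          rw [hJe]
          simp [this]
        · rw [hJe]; simp
        · simp [sgl, hij.symm]

theorem Setup.pt_snc (S : Setup K) (s : ℂ) (hs : s ^ 2 = 3) :
    S.model.IsSNCAt (Set.range S.Bd) (S.pt I0 s hs) := by
  have hl := S.pt_isLocalRing I0 s hs
  have hP := S.Ps_isPrime I0 s hs
  have hA : S.ring I0 ≤ S.pt I0 s hs := S.ring_le_pt I0 s hs
  have hpt := S.pt_isPoint I0 s hs
  have hN : IsNoetherianRing (S.pt I0 s hs) := snc_isNoetherianRing_localize (S.ring I0) _ hP
  have hBd : ∀ i, S.pt I0 s hs ≤ S.Bd i := fun i => by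
    rw [S.le_Bd_iff I0 i hpt hA]
    exact S.a_sub_one_mem_pt I0 s hs i
  have hle : ∀ (J : Fin 3 → Bool) (hJ : ∃ k, J k = false), S.pt I0 s hs ≤ S.OJ J hJ := by
    intro J hJ
    rw [S.le_OJ_iff J hJ hpt]
    exact fun i _ => hBd i
  have hx : ∀ y : S.pt I0 s hs, (y : K) ∈ nonunitsIn (S.pt I0 s hs) ↔
      y ∈ Ideal.span (Set.range fun k => S.snc_par hA k) := by
    intro y
    set 𝔞 : Ideal (S.pt I0 s hs) := Ideal.span (Set.range fun k => S.snc_par hA k) with h𝔞
    constructor
    · intro hy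
      have hy' : (y : K) ∈ nonunitsIn (localize (S.ring I0) (S.Ps I0 s hs) hP) := hy
      rw [mem_nonunits_localize] at hy'
      obtain ⟨a, b, ha, hb, hyab⟩ := hy'
      have hb1 : (b : K)⁻¹ ∈ S.pt I0 s hs := inv_mem_localize hP hb
      obtain ⟨p, q, hapq, hpq⟩ := ha
      -- evaluation in the local ring
      set A : Fin 3 → S.pt I0 s hs := fun i => ⟨S.a I0 i, hA (S.a_mem_ring I0 i)⟩ with hAdef
      set W : S.pt I0 s hs := ⟨S.w I0, hA (S.w_mem_ring I0)⟩ with hW
      set J : Fin 3 → Bool := fun _ => true with hJ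
      have hA1 : ∀ i, J i = true → A i - 1 ∈ 𝔞 := fun i _ => Ideal.subset_span ⟨i, rfl⟩
      have hcoe : ∀ r : MvPolynomial (Fin 3) ℂ,
          ((MvPolynomial.aeval A r : S.pt I0 s hs) : K) = MvPolynomial.aeval (S.a I0) r := by
        intro r
        have := MvPolynomial.aeval_algebraMap_apply (A := S.pt I0 s hs) (B := K) A r
        exact this.symm
      have hev : ∀ r : MvPolynomial (Fin 3) ℂ, evJ J (r - MvPolynomial.C (ev1 r)) = 0 := by
        intro r
        induction r using MvPolynomial.induction_on with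
        | C c => simp [ev1]
        | add p q hp hq =>
          have : p + q - MvPolynomial.C (ev1 (p + q)) =
              (p - MvPolynomial.C (ev1 p)) + (q - MvPolynomial.C (ev1 q)) := by
            rw [map_add, map_add]; ring
          rw [this, map_add, hp, hq, add_zero]
        | mul_X p i hp =>
          have : p * MvPolynomial.X i - MvPolynomial.C (ev1 (p * MvPolynomial.X i)) =
              (p - MvPolynomial.C (ev1 p)) * MvPolynomial.X i +
                MvPolynomial.C (ev1 p) * (MvPolynomial.X i - 1) := by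
            rw [map_mul]
            have : ev1 (MvPolynomial.X i) = 1 := by simp [ev1]
            rw [this, mul_one]; ring
          rw [this, map_add, map_mul, hp, zero_mul, zero_add, map_mul, map_sub]
          have : evJ J (MvPolynomial.X i) = 1 := by simp [evJ, hJ]
          rw [this, map_one, sub_self, mul_zero]
      have hmem : ∀ r : MvPolynomial (Fin 3) ℂ,
          MvPolynomial.aeval A r - algebraMap ℂ (S.pt I0 s hs) (ev1 r) ∈ 𝔞 := by
        intro r
        have := aeval_mem_of_evJ J A 𝔞 hA1 (hev r)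
        rw [map_sub, MvPolynomial.aeval_C] at this
        exact this
      have hs0 : s ≠ 0 := by
        rintro rfl
        norm_num at hs
      -- W + s is a unit
      have hu : IsUnit (W + algebraMap ℂ (S.pt I0 s hs) s) := by
        by_contra hcon
        rw [← mem_nonunitsIn_iff] at hcon
        have h1 : ((W + algebraMap ℂ (S.pt I0 s hs) s : S.pt I0 s hs) : K) =
            S.w I0 - algebraMap ℂ K (-s) := by
          rw [map_neg, sub_neg_eq_add]
          rfl
        rw [h1, S.w_sub_mem_pt] at hcon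
        have : (2 : ℂ) * s = 0 := by linear_combination hcon
        simp [hs0] at this
      have hWs : W - algebraMap ℂ (S.pt I0 s hs) s ∈ 𝔞 := by
        have h1 := hmem (branch I0)
        rw [ev1_branch] at h1
        have h2 : MvPolynomial.aeval A (branch I0) - algebraMap ℂ (S.pt I0 s hs) 3 =
            (W + algebraMap ℂ (S.pt I0 s hs) s) * (W - algebraMap ℂ (S.pt I0 s hs) s) := by
          have h3 : MvPolynomial.aeval A (branch I0) = W ^ 2 := by
            apply Subtype.ext
            rw [hcoe, ← S.w_sq]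
            rfl
          rw [h3, ← hs, map_pow]
          ring
        rw [h2] at h1
        obtain ⟨v, hv⟩ := hu.exists_left_inv
        have h4 := Ideal.mul_mem_left 𝔞 v h1
        rw [← mul_assoc, hv, one_mul] at h4
        exact h4
      have ha' : (⟨(a : K), hA a.2⟩ : S.pt I0 s hs) ∈ 𝔞 := by
        have h1 : (⟨(a : K), hA a.2⟩ : S.pt I0 s hs) =
            (MvPolynomial.aeval A p - algebraMap ℂ (S.pt I0 s hs) (ev1 p)) +
            (MvPolynomial.aeval A q - algebraMap ℂ (S.pt I0 s hs) (ev1 q)) * W +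
            algebraMap ℂ (S.pt I0 s hs) (ev1 q) * (W - algebraMap ℂ (S.pt I0 s hs) s) := by
          have hpe : algebraMap ℂ (S.pt I0 s hs) (ev1 p) +
              algebraMap ℂ (S.pt I0 s hs) s * algebraMap ℂ (S.pt I0 s hs) (ev1 q) = 0 := by
            rw [← map_mul, ← map_add, hpq, map_zero]
          have h2 : (⟨(a : K), hA a.2⟩ : S.pt I0 s hs) =
              MvPolynomial.aeval A p + MvPolynomial.aeval A q * W := by
            apply Subtype.ext
            push_cast
            rw [hcoe, hcoe, hapq]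
            rfl
          rw [h2]
          linear_combination hpe
        rw [h1]
        exact Ideal.add_mem _ (Ideal.add_mem _ (hmem p) (Ideal.mul_mem_right _ _ (hmem q)))
          (Ideal.mul_mem_left _ _ hWs)
      have h2 : y = (⟨(a : K), hA a.2⟩ : S.pt I0 s hs) * ⟨(b : K)⁻¹, hb1⟩ := by
        apply Subtype.ext
        rw [MulMemClass.coe_mul, hyab, div_eq_mul_inv]
      rw [h2]
      exact Ideal.mul_mem_right _ _ ha'
    · intro hy
      rw [mem_nonunitsIn_iff, ← mem_nonunits_iff, ← IsLocalRing.mem_maximalIdeal]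
      revert hy
      apply Ideal.span_le.2
      rintro _ ⟨k, rfl⟩
      rw [SetLike.mem_coe, IsLocalRing.mem_maximalIdeal, mem_nonunits_iff, ← mem_nonunitsIn_iff,
        S.snc_par_coe]
      exact S.a_sub_one_mem_pt I0 s hs k
  -- the chain
  set J2 : Fin 3 → Bool := fun k => decide (k = 0 ∨ k = 1) with hJ2
  have hJ2' : ∃ k, J2 k = false := ⟨2, by decide⟩
  set mx : PrimeSpectrum (S.pt I0 s hs) :=
    ⟨IsLocalRing.maximalIdeal _, (IsLocalRing.maximalIdeal.isMaximal _).isPrime⟩ with hmx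
  refine ⟨3, _, snc_krullDim_eq_of _ hx
    ![S.snc_pr (fun _ => false) ⟨0, rfl⟩ (hle _ _), S.snc_pr (sgl 0) (sgl_ne 0) (hle _ _),
      S.snc_pr J2 hJ2' (hle _ _), mx] ?_, hx, ?_⟩
  · rw [Fin.strictMono_iff_lt_succ]
    intro k
    fin_cases k
    · exact S.snc_pr_lt hA _ _ _ _ (by simp) ⟨0, by simp [sgl], rfl⟩
    · refine S.snc_pr_lt hA _ _ _ _ ?_ ⟨1, ?_, ?_⟩
      · decide
      · decide
      · decide
    · change S.snc_pr J2 hJ2' (hle _ _) < mx
      rw [← PrimeSpectrum.asIdeal_lt_asIdeal]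
      refine lt_of_le_of_ne (IsLocalRing.le_maximalIdeal (S.snc_pr J2 hJ2' (hle _ _)).isPrime.ne_top) ?_
      intro heq
      have h1 : S.snc_par hA 2 ∈ mx.asIdeal := by
        change S.snc_par hA 2 ∈ IsLocalRing.maximalIdeal _
        rw [IsLocalRing.mem_maximalIdeal, mem_nonunits_iff, ← mem_nonunitsIn_iff, S.snc_par_coe]
        exact S.a_sub_one_mem_pt I0 s hs 2
      rw [← heq, S.snc_mem_pr, S.snc_par_coe] at h1
      have := (S.a_sub_one_mem_loc I0 J2 hJ2' 2).1 h1
      exact absurd this (by decide)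
  · rintro D ⟨i, rfl⟩ hD
    exact ⟨i, fun y => S.snc_Bd_nonunits hP i hD y⟩

end Pool.Agent.Lib.MP_0bb41e_ag
end

section

/-!
# Centre of the discrete valuation rings at which the quaternion symbol is ramified
-/

namespace Pool.Agent.Lib.MP_0bb41e_ag

variable {K : Type} [Field K] [Algebra ℂ K] {R : Subalgebra ℂ K}

/-- `x` is a square modulo `ϖ`. -/
def Sq (ϖ x : R) : Prop := ∃ s t : R, x = s ^ 2 + ϖ * t

theorem Sq.sq (ϖ x : R) : Sq ϖ (x ^ 2) := ⟨x, 0, by ring⟩

theorem Sq.one (ϖ : R) : Sq ϖ (1 : R) := ⟨1, 0, by ring⟩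

theorem Sq.mul {ϖ x y : R} (hx : Sq ϖ x) (hy : Sq ϖ y) : Sq ϖ (x * y) := by
  obtain ⟨s, t, rfl⟩ := hx
  obtain ⟨s', t', rfl⟩ := hy
  exact ⟨s * s', s ^ 2 * t' + s' ^ 2 * t + ϖ * t * t', by ring⟩

theorem Sq.pow {ϖ x : R} (hx : Sq ϖ x) (n : ℕ) : Sq ϖ (x ^ n) := by
  induction n with
  | zero => simpa using Sq.one ϖ
  | succ n ih => rw [pow_succ]; exact ih.mul hx

theorem Sq.even (ϖ x : R) {n : ℕ} (h : Even n) : Sq ϖ (x ^ n) := by
  obtain ⟨m, rfl⟩ := h
  exact ⟨x ^ m, 0, by ring⟩

theorem Sq.congr {ϖ x y : R} (hy : Sq ϖ y) (t : R) (h : x = y + ϖ * t) : Sq ϖ x := by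
  obtain ⟨s, t', rfl⟩ := hy
  exact ⟨s, t' + t, by rw [h]; ring⟩

theorem Sq.cancel {ϖ x y : R} (hy : Sq ϖ y) (hu : IsUnit y) (h : Sq ϖ (x * y)) : Sq ϖ x := by
  obtain ⟨z, rfl⟩ := hu
  have : x = (x * z) * z * ((z⁻¹ : Rˣ) : R) ^ 2 := by
    have : (z : R) * ((z⁻¹ : Rˣ) : R) = 1 := z.mul_inv
    calc x = x * ((z : R) * ((z⁻¹ : Rˣ) : R)) ^ 2 := by rw [this]; ring
      _ = _ := by ring
  rw [this]
  exact (h.mul hy).mul (Sq.sq _ _)

theorem exists_complex_sqrt (c : ℂ) : ∃ d : ℂ, d ^ 2 = c :=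
  IsAlgClosed.exists_pow_nat_eq c (by norm_num)

theorem Sq.const (ϖ : R) (c : ℂ) : Sq ϖ (algebraMap ℂ R c) := by
  obtain ⟨d, rfl⟩ := exists_complex_sqrt c
  rw [map_pow]
  exact Sq.sq _ _

theorem IsDVR.eq_mul_of_nonunit (hR : IsDVR R) {ϖ : R} (hϖ : Irreducible ϖ) {x : K}
    (hx : x ∈ nonunitsIn R) : ∃ t : R, x = (ϖ : K) * (t : K) := by
  have hϖ0 := coe_ne_zero_of_irreducible hϖ
  rcases eq_or_ne x 0 with rfl | h0
  · exact ⟨0, by simp⟩
  · have h1 := (hR.mem_nonunits_iff h0).1 hx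
    have h2 := hR.zpow_neg_mul_mem hϖ (x := x) (k := 1) (Or.inr (by omega))
    refine ⟨⟨_, h2⟩, ?_⟩
    simp only [zpow_neg, zpow_one]
    field_simp

/-- Steinberg relation: `{A, B}` is trivial if `A + B` is a square. -/
theorem IsDVR.tameTrivial_of_add_eq_sq (hR : IsDVR R) {A B Y : K} (hA : A ≠ 0) (hB : B ≠ 0)
    (h : A + B = Y ^ 2) : TameTrivial R A B := by
  intro ϖ u v i j hϖ hu hv hAi hBj
  change Sq ϖ _
  have hϖ0 := coe_ne_zero_of_irreducible hϖ
  have hvA : valZ R A = i := HasVal.valZ_eq hR ⟨ϖ, u, hϖ, hu, hAi⟩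
  have hvB : valZ R B = j := HasVal.valZ_eq hR ⟨ϖ, v, hϖ, hv, hBj⟩
  -- the case of different valuations
  have key : ∀ (A B : K) (u v : R) (i j : ℤ), A ≠ 0 → B ≠ 0 → IsUnit u → IsUnit v →
      A = (ϖ : K) ^ i * (u : K) → B = (ϖ : K) ^ j * (v : K) → A + B = Y ^ 2 → i < j →
      Even i ∧ Sq ϖ u := by
    intro A B u v i j hA hB hu hv hAi hBj h hij
    have hvA : valZ R A = i := HasVal.valZ_eq hR ⟨ϖ, u, hϖ, hu, hAi⟩
    have hvB : valZ R B = j := HasVal.valZ_eq hR ⟨ϖ, v, hϖ, hv, hBj⟩
    have h1 := hR.valZ_add_eq hA hB (by rw [hvA, hvB]; exact hij)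
    rw [h, hvA] at h1
    have hY : Y ≠ 0 := by
      rintro rfl
      exact h1.1 (by simp)
    have h2 := h1.2
    rw [hR.valZ_pow hY] at h2
    push_cast at h2
    obtain ⟨y, hy, hYy⟩ := hR.rep hϖ hY
    set k := valZ R Y with hk
    refine ⟨⟨k, by omega⟩, ?_⟩
    refine (Sq.sq ϖ y).congr (-(⟨(ϖ : K) ^ (j - i - 1), zpow_mem_of_nonneg ϖ.2 (by omega)⟩ * v)) ?_
    apply Subtype.ext
    push_cast
    have e1 : (ϖ : K) ^ i * (u : K) + (ϖ : K) ^ j * (v : K) = ((ϖ : K) ^ k * (y : K)) ^ 2 := by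
      rw [← hAi, ← hBj, h, ← hYy]
    have e2 : (ϖ : K) ^ j = (ϖ : K) ^ i * ((ϖ : K) * (ϖ : K) ^ (j - i - 1)) := by
      rw [← zpow_one_add₀ hϖ0, ← zpow_add₀ hϖ0]
      congr 1; ring
    have e3 : ((ϖ : K) ^ k * (y : K)) ^ 2 = (ϖ : K) ^ i * (y : K) ^ 2 := by
      have : (ϖ : K) ^ i = ((ϖ : K) ^ k) ^ 2 := by
        rw [← h2, two_mul, zpow_add₀ hϖ0]; ring
      rw [this]; ring
    rw [e2, e3] at e1
    have hz : (ϖ : K) ^ i ≠ 0 := zpow_ne_zero _ hϖ0
    have e4 : (ϖ : K) ^ i * ((u : K) + (ϖ : K) * (ϖ : K) ^ (j - i - 1) * (v : K)) =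
        (ϖ : K) ^ i * (y : K) ^ 2 := by
      rw [← e1]; ring
    have e5 := mul_left_cancel₀ hz e4
    linear_combination e5
  rcases lt_trichotomy i j with hij | hij | hij
  · obtain ⟨h1, h2⟩ := key A B u v i j hA hB hu hv hAi hBj h hij
    exact (h2.pow _).mul (Sq.even _ _ (Int.natAbs_even.2 h1))
  · subst hij
    rcases Int.even_or_odd i with he | ho
    · exact (Sq.even _ _ (Int.natAbs_even.2 he)).mul (Sq.even _ _ (Int.natAbs_even.2 he))
    · -- `u + v ≡ 0`
      have h1 : ∃ r : R, u + v = ϖ * r := by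
        have e1 : (ϖ : K) ^ i * ((u : K) + (v : K)) = Y ^ 2 := by
          rw [← h, hAi, hBj]; ring
        rcases eq_or_ne Y 0 with rfl | hY
        · refine ⟨0, ?_⟩
          apply Subtype.ext
          push_cast
          have hz : (ϖ : K) ^ i ≠ 0 := zpow_ne_zero _ hϖ0
          have := e1
          rw [zero_pow (by norm_num)] at this
          simpa using (mul_eq_zero.1 this).resolve_left hz
        · have hsum : (u : K) + (v : K) ≠ 0 := by
            intro h0
            rw [h0, mul_zero] at e1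
            exact (pow_ne_zero 2 hY) e1.symm
          have h2 := congrArg (valZ R) e1
          rw [hR.valZ_mul (zpow_ne_zero _ hϖ0) hsum, hR.valZ_zpow hϖ0, hR.valZ_irreducible hϖ,
            hR.valZ_pow hY] at h2
          push_cast at h2
          have h3 : 0 ≤ valZ R ((u : K) + (v : K)) := by
            rw [← hR.mem_iff hsum]
            exact R.add_mem u.2 v.2
          obtain ⟨m, hm⟩ := ho
          have h4 : (u : K) + (v : K) ∈ nonunitsIn R := by
            rw [hR.mem_nonunits_iff hsum]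
            omega
          obtain ⟨t, ht⟩ := hR.eq_mul_of_nonunit hϖ h4
          exact ⟨t, Subtype.ext (by push_cast; exact ht)⟩
      obtain ⟨r, hr⟩ := h1
      have hv' : v = -u + ϖ * r := by linear_combination hr
      rw [← mul_pow]
      apply Sq.pow
      obtain ⟨I, hI⟩ := exists_complex_sqrt (-1)
      have hI' : (algebraMap ℂ R I) ^ 2 = -1 := by
        rw [← map_pow, hI]; simp
      refine ⟨algebraMap ℂ R I * u, u * r, ?_⟩
      rw [mul_pow, hI', hv']
      ring
  · obtain ⟨h1, h2⟩ := key B A v u j i hB hA hv hu hBj hAi (by rw [add_comm]; exact h) hij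
    exact (Sq.even _ _ (Int.natAbs_even.2 h1)).mul (h2.pow _)

theorem Setup.tame_center {K : Type} [Field K] [Algebra ℂ K] (S : Setup K) (a : ℂ)
    (ha : a ^ 3 = 4) (R : Subalgebra ℂ K) (hR : IsDVR R)
    (h : ¬ TameTrivial R (S.z ^ 2 / S.x 0 ^ 3)
      (S.x 1 / S.x 0 * (S.x 1 / S.x 0 - algebraMap ℂ K a))) :
    (∀ i, S.x i ∈ nonunitsIn R) ∨ (∀ i, (S.x i)⁻¹ ∈ nonunitsIn R) := by
  by_contra hcon
  apply h
  clear h
  have hx0 := S.x_ne_zero 0
  have hx1 := S.x_ne_zero 1
  have hx2 := S.x_ne_zero 2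
  have hz := S.z_ne_zero
  have c2 : algebraMap ℂ K 2 = 2 := map_ofNat _ 2
  have c3 : algebraMap ℂ K 3 = 3 := map_ofNat _ 3
  have c4 : algebraMap ℂ K 4 = 4 := map_ofNat _ 4
  have ha0 : a ≠ 0 := by
    rintro rfl
    norm_num at ha
  set α : K := algebraMap ℂ K a with hα
  have hα0 : α ≠ 0 := by simpa [hα] using ha0
  have hα3 : α ^ 3 = 4 := by
    rw [hα, ← map_pow, ha]; exact c4
  set t : K := S.x 1 / S.x 0 with ht
  set s : K := S.x 2 / S.x 0 with hs
  set q : K := S.z ^ 2 / S.x 0 ^ 3 with hq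
  have ht0 : t ≠ 0 := div_ne_zero hx1 hx0
  have hs0 : s ≠ 0 := div_ne_zero hx2 hx0
  have hq0 : q ≠ 0 := div_ne_zero (pow_ne_zero 2 hz) (pow_ne_zero 3 hx0)
  have hqst : q = s ^ 2 + t ^ 2 * s + t := by
    rw [hq, hs, ht, S.rel]
    field_simp
    ring
  have htc : ∀ c : ℂ, t - algebraMap ℂ K c ≠ 0 := by
    intro c hc
    have h1 : (MvPolynomial.X 1 - MvPolynomial.C c * MvPolynomial.X 0 :
        MvPolynomial (Fin 3) ℂ) ≠ 0 := by
      intro h0
      have h2 := congrArg (MvPolynomial.eval (![0, 1, 0] : Fin 3 → ℂ)) h0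
      simp at h2
    apply S.aeval_ne_zero h1
    simp only [map_sub, map_mul, MvPolynomial.aeval_X, MvPolynomial.aeval_C]
    have h3 : t = algebraMap ℂ K c := sub_eq_zero.1 hc
    rw [← h3, ht]
    field_simp
    ring
  have hta : t - α ≠ 0 := htc a
  set G : K := t ^ 2 + α * t + α ^ 2 with hG
  obtain ⟨d, hd⟩ := exists_complex_sqrt (-3)
  have hfac : G = (t - algebraMap ℂ K ((-1 + d) / 2 * a)) *
      (t - algebraMap ℂ K ((-1 - d) / 2 * a)) := by
    have h1 : algebraMap ℂ K ((-1 + d) / 2 * a) = (-1 + algebraMap ℂ K d) / 2 * α := by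
      simp only [map_mul, map_div₀, map_add, map_neg, map_one, c2, hα]
    have h2 : algebraMap ℂ K ((-1 - d) / 2 * a) = (-1 - algebraMap ℂ K d) / 2 * α := by
      simp only [map_mul, map_div₀, map_sub, map_neg, map_one, c2, hα]
    have h3 : (algebraMap ℂ K d) ^ 2 = -3 := by
      rw [← map_pow, hd, map_neg, c3]
    rw [h1, h2, hG]
    have : CharZero K := charZero_of_injective_algebraMap (algebraMap ℂ K).injective
    field_simp
    linear_combination (α ^ 2) * h3
  have hchar : CharZero K := charZero_of_injective_algebraMap (algebraMap ℂ K).injective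
  have hG0 : G ≠ 0 := by
    rw [hfac]
    exact mul_ne_zero (htc _) (htc _)
  set Y : K := s + t ^ 2 / 2 with hY
  have hqp : q + t * (t - α) * (G / 4) = Y ^ 2 := by
    rw [hqst, hY, hG]
    linear_combination (-t / 4) * hα3
  set g : K := t * (t - α) with hg
  have hg0 : g ≠ 0 := mul_ne_zero ht0 hta
  have h4 : (4 : K) ≠ 0 := by norm_num
  have hval4 : valZ R (4 : K) = 0 := by
    have := hR.valZ_algebraMap (K := K) (c := 4) (by norm_num)
    rwa [c4] at this
  have hvalα : valZ R α = 0 := hR.valZ_algebraMap ha0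
  intro ϖ u w i j hϖ hu hw hqi hgj
  change Sq ϖ _
  have hϖ0 := coe_ne_zero_of_irreducible hϖ
  have hvq : valZ R q = i := HasVal.valZ_eq hR ⟨ϖ, u, hϖ, hu, hqi⟩
  have hvg : valZ R g = j := HasVal.valZ_eq hR ⟨ϖ, w, hϖ, hw, hgj⟩
  rcases lt_or_ge (valZ R t) 0 with hneg | hnonneg
  · -- case (i): `v(t) < 0`
    obtain ⟨τ, hτ, htτ⟩ := hR.rep hϖ ht0
    set k := valZ R t with hk
    have h1 : α / t ∈ nonunitsIn R := by
      rw [hR.mem_nonunits_iff (div_ne_zero hα0 ht0), hR.valZ_div hα0 ht0, hvalα]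
      omega
    obtain ⟨r, hr⟩ := hR.eq_mul_of_nonunit hϖ h1
    have hg2 : g = t ^ 2 * (1 - α / t) := by
      rw [hg]; field_simp
    have hva : valZ R (t - α) = k := by
      have := (hR.valZ_add_eq ht0 (neg_ne_zero.2 hα0) (by
        rw [hR.valZ_neg hα0, hvalα]; exact hneg)).2
      rw [← sub_eq_add_neg] at this
      exact this
    have hj : j = k + k := by
      rw [← hvg, hg, hR.valZ_mul ht0 hta, hva]
    have hw2 : w = τ ^ 2 * (1 - ϖ * r) := by
      apply Subtype.ext
      push_cast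
      have e1 : (ϖ : K) ^ j * (w : K) = ((ϖ : K) ^ k * (τ : K)) ^ 2 * (1 - (ϖ : K) * (r : K)) := by
        rw [← hgj, ← htτ, ← hr]; exact hg2
      rw [hj, zpow_add₀ hϖ0] at e1
      have hzk : (ϖ : K) ^ k ≠ 0 := zpow_ne_zero _ hϖ0
      have e2 : ((ϖ : K) ^ k * (ϖ : K) ^ k) * (w : K) =
          ((ϖ : K) ^ k * (ϖ : K) ^ k) * ((τ : K) ^ 2 * (1 - (ϖ : K) * (r : K))) := by
        rw [e1]; ring
      exact mul_left_cancel₀ (mul_ne_zero hzk hzk) e2
    have hsw : Sq ϖ w := ⟨τ, -(τ ^ 2 * r), by rw [hw2]; ring⟩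
    exact (Sq.even _ _ (Int.natAbs_even.2 ⟨k, hj⟩)).mul (hsw.pow _)
  · have htR : t ∈ R := (hR.mem_iff ht0).2 hnonneg
    by_cases hres : ∃ c : ℂ, t - algebraMap ℂ K c ∈ nonunitsIn R
    · -- case (ii)
      obtain ⟨c, hc⟩ := hres
      obtain ⟨n, hn⟩ := hR.eq_mul_of_nonunit hϖ hc
      have htn : t = algebraMap ℂ K c + (ϖ : K) * (n : K) := by linear_combination hn
      by_cases hcc : c * (c - a) = 0
      · -- use `G`
        have hc' : c ^ 2 + a * c + a ^ 2 ≠ 0 := by
          rcases mul_eq_zero.1 hcc with h0 | h0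
          · rw [h0]; simpa using ha0
          · have : c = a := by linear_combination h0
            rw [this]
            have : a ^ 2 + a * a + a ^ 2 = 3 * a ^ 2 := by ring
            rw [this]
            exact mul_ne_zero (by norm_num) (pow_ne_zero 2 ha0)
        have hGc : ∃ r : R, G / 4 = algebraMap ℂ K ((c ^ 2 + a * c + a ^ 2) / 4) +
            (ϖ : K) * (r : K) := by
          refine ⟨algebraMap ℂ R (1 / 4) * (2 * algebraMap ℂ R c * n + ϖ * n ^ 2 +
            algebraMap ℂ R a * n), ?_⟩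
          have e1 : ((algebraMap ℂ R (1 / 4) * (2 * algebraMap ℂ R c * n + ϖ * n ^ 2 +
            algebraMap ℂ R a * n) : R) : K) = 1 / 4 * (2 * algebraMap ℂ K c * n + ϖ * n ^ 2 +
            α * n) := by
            have e0 : ((algebraMap ℂ R (1 / 4) : R) : K) = 1 / 4 := by
              change algebraMap ℂ K (1 / 4) = 1 / 4
              rw [map_div₀, map_one, c4]
            have e00 : ((2 : R) : K) = 2 := rfl
            rw [Subalgebra.coe_mul, e0]
            rfl
          rw [e1, hG, htn]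
          have e2 : algebraMap ℂ K ((c ^ 2 + a * c + a ^ 2) / 4) =
            ((algebraMap ℂ K c) ^ 2 + α * algebraMap ℂ K c + α ^ 2) / 4 := by
            simp only [map_mul, map_div₀, map_add, map_pow, c4, hα]
          rw [e2]
          ring
        obtain ⟨r, hr⟩ := hGc
        set κ : ℂ := (c ^ 2 + a * c + a ^ 2) / 4 with hκ
        have hκ0 : κ ≠ 0 := div_ne_zero hc' (by norm_num)
        have hG4R : G / 4 ∈ R := by
          rw [hr]
          exact R.add_mem (R.algebraMap_mem κ) (R.mul_mem ϖ.2 r.2)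
        set w4 : R := ⟨G / 4, hG4R⟩ with hw4
        have hw4eq : w4 = algebraMap ℂ R κ + ϖ * r := by
          apply Subtype.ext
          rw [hw4]
          exact hr
        have hsw4 : Sq ϖ w4 := (Sq.const ϖ κ).congr r hw4eq
        have hϖnon : (ϖ : K) * (r : K) ∈ nonunitsIn R := by
          apply hR.nonunits_mul _ r.2
          rw [hR.mem_nonunits_iff hϖ0, hR.valZ_irreducible hϖ]
          norm_num
        have hw4unit : IsUnit w4 := by
          have h1 : (w4 : K) ∉ nonunitsIn R := by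
            have := hR.unit_add (hR.algebraMap_notMem_nonunits hκ0) hϖnon
            rw [← hr] at this
            exact this
          have h2 := hR.unit_of w4.2 h1
          exact (hR.isUnit_iff w4 h2.1).2 h2.2
        have h1 := hR.tameTrivial_of_add_eq_sq hq0
          (mul_ne_zero hg0 (div_ne_zero hG0 h4)) hqp
        have h2 : Sq ϖ (u ^ j.natAbs * (w * w4) ^ i.natAbs) := by
          refine h1 ϖ u (w * w4) i j hϖ hu (hw.mul hw4unit) hqi ?_
          push_cast
          rw [hgj]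
          ring
        rw [mul_pow, ← mul_assoc] at h2
        exact Sq.cancel (hsw4.pow _) (hw4unit.pow _) h2
      · -- `g` is a unit with residue in `ℂ`
        have hgc : ∃ r : R, g = algebraMap ℂ K (c * (c - a)) + (ϖ : K) * (r : K) := by
          refine ⟨2 * algebraMap ℂ R c * n + ϖ * n ^ 2 - algebraMap ℂ R a * n, ?_⟩
          have e1 : ((2 * algebraMap ℂ R c * n + ϖ * n ^ 2 - algebraMap ℂ R a * n : R) : K) =
            2 * algebraMap ℂ K c * n + ϖ * n ^ 2 - α * n := rfl
          rw [e1, hg, htn]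
          have e2 : algebraMap ℂ K (c * (c - a)) =
            algebraMap ℂ K c * (algebraMap ℂ K c - α) := by
            simp only [map_mul, map_sub, hα]
          rw [e2]
          ring
        obtain ⟨r, hr⟩ := hgc
        have hϖnon : (ϖ : K) * (r : K) ∈ nonunitsIn R := by
          apply hR.nonunits_mul _ r.2
          rw [hR.mem_nonunits_iff hϖ0, hR.valZ_irreducible hϖ]
          norm_num
        have hgR : g ∈ R := by
          rw [hr]
          exact R.add_mem (R.algebraMap_mem _) (R.mul_mem ϖ.2 r.2)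
        have h1 : g ∉ nonunitsIn R := by
          have := hR.unit_add (hR.algebraMap_notMem_nonunits hcc) hϖnon
          rw [← hr] at this
          exact this
        have h2 := hR.unit_of hgR h1
        have hj : j = 0 := by rw [← hvg]; exact h2.2
        subst hj
        have hweq : w = algebraMap ℂ R (c * (c - a)) + ϖ * r := by
          apply Subtype.ext
          rw [zpow_zero, one_mul] at hgj
          rw [← hgj]
          exact hr
        have hsw : Sq ϖ w := (Sq.const ϖ _).congr r hweq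
        simpa using hsw.pow _
    · -- case (iii)
      push Not at hres
      have hunit : ∀ c : ℂ, valZ R (t - algebraMap ℂ K c) = 0 := by
        intro c
        exact (hR.unit_of (R.sub_mem htR (R.algebraMap_mem c)) (hres c)).2
      have hvt : valZ R t = 0 := by
        have := hunit 0
        simpa using this
      have hvta : valZ R (t - α) = 0 := hunit a
      have hj : j = 0 := by
        rw [← hvg, hg, hR.valZ_mul ht0 hta, hvt, hvta]; rfl
      have hvG : valZ R G = 0 := by
        rw [hfac, hR.valZ_mul (htc _) (htc _), hunit, hunit]; rfl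
      have hp0 : g * (G / 4) ≠ 0 := mul_ne_zero hg0 (div_ne_zero hG0 h4)
      have hvp : valZ R (g * (G / 4)) = 0 := by
        rw [hR.valZ_mul hg0 (div_ne_zero hG0 h4), hR.valZ_div hG0 h4, hvg, hj, hvG, hval4]; rfl
      rcases Int.even_or_odd i with he | ho
      · subst hj
        have := Sq.even ϖ w (Int.natAbs_even.2 he)
        simpa using this
      · exfalso
        have hi : 0 < i := by
          by_contra hle
          have hne : i ≠ 0 := by
            rintro rfl
            exact absurd ho (by decide)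
          have hlt : i < 0 := by omega
          have h1 := hR.valZ_add_eq hq0 hp0 (by rw [hvq, hvp]; exact hlt)
          rw [hqp, hvq] at h1
          have hY0 : Y ≠ 0 := by
            intro h0
            exact h1.1 (by rw [h0]; ring)
          have h2 := h1.2
          rw [hR.valZ_pow hY0] at h2
          push_cast at h2
          obtain ⟨m, hm⟩ := ho
          omega
        have h1 := hR.valZ_add_eq hp0 hq0 (by rw [hvq, hvp]; exact hi)
        rw [add_comm, hqp, hvp] at h1
        have hY0 : Y ≠ 0 := by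
          intro h0
          exact h1.1 (by rw [h0]; ring)
        have hvY : valZ R Y = 0 := by
          have h2 := h1.2
          rw [hR.valZ_pow hY0] at h2
          push_cast at h2
          omega
        have hYR : Y ∈ R := (hR.mem_iff hY0).2 (by omega)
        have h2R : t ^ 2 / 2 ∈ R := by
          have : t ^ 2 / 2 = t ^ 2 * algebraMap ℂ K (1 / 2) := by
            rw [map_div₀, map_one, c2]; ring
          rw [this]
          exact R.mul_mem (R.pow_mem htR 2) (R.algebraMap_mem _)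
        have hsR : s ∈ R := by
          have : s = Y - t ^ 2 / 2 := by rw [hY]; ring
          rw [this]
          exact R.sub_mem hYR h2R
        have hqt : s * (s + t ^ 2) = q + (-t) := by rw [hqst]; ring
        have h3 := hR.valZ_add_eq (neg_ne_zero.2 ht0) hq0 (by
          rw [hR.valZ_neg ht0, hvt, hvq]; exact hi)
        rw [add_comm, ← hqt, hR.valZ_neg ht0, hvt] at h3
        have hst0 : s + t ^ 2 ≠ 0 := right_ne_zero_of_mul h3.1
        have hstR : 0 ≤ valZ R (s + t ^ 2) :=
          (hR.mem_iff hst0).1 (R.add_mem hsR (R.pow_mem htR 2))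
        have hvs' : 0 ≤ valZ R s := (hR.mem_iff hs0).1 hsR
        have hvs : valZ R s = 0 := by
          have h4 := h3.2
          rw [hR.valZ_mul hs0 hst0] at h4
          omega
        have e1 : valZ R (S.x 1) = valZ R (S.x 0) := by
          have := hvt
          rw [ht, hR.valZ_div hx1 hx0] at this
          omega
        have e2 : valZ R (S.x 2) = valZ R (S.x 0) := by
          have := hvs
          rw [hs, hR.valZ_div hx2 hx0] at this
          omega
        have e3 : 2 * valZ R S.z - 3 * valZ R (S.x 0) = i := by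
          have := hvq
          rw [hq, hR.valZ_div (pow_ne_zero 2 hz) (pow_ne_zero 3 hx0), hR.valZ_pow hz,
            hR.valZ_pow hx0] at this
          push_cast at this
          exact this
        obtain ⟨m, hm⟩ := ho
        have hne : valZ R (S.x 0) ≠ 0 := by
          intro h0
          rw [h0] at e3
          omega
        apply hcon
        rcases lt_or_gt_of_ne hne with hlt | hgt
        · right
          intro k
          fin_cases k
          · change (S.x 0)⁻¹ ∈ _
            rw [hR.mem_nonunits_iff (inv_ne_zero hx0), hR.valZ_inv hx0]; omega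
          · change (S.x 1)⁻¹ ∈ _
            rw [hR.mem_nonunits_iff (inv_ne_zero hx1), hR.valZ_inv hx1]; omega
          · change (S.x 2)⁻¹ ∈ _
            rw [hR.mem_nonunits_iff (inv_ne_zero hx2), hR.valZ_inv hx2]; omega
        · left
          intro k
          fin_cases k
          · change S.x 0 ∈ _
            rw [hR.mem_nonunits_iff hx0]; omega
          · change S.x 1 ∈ _
            rw [hR.mem_nonunits_iff hx1]; omega
          · change S.x 2 ∈ _
            rw [hR.mem_nonunits_iff hx2]; omega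

end Pool.Agent.Lib.MP_0bb41e_ag
end

section

/-!
# Prime divisors of factorial affine charts
-/

namespace Pool.Agent.Lib.MP_0bb41e_ag

variable {K : Type} [Field K] [Algebra ℂ K]

theorem isFractionRing_of_le {A O : Subalgebra ℂ K} (h : A ≤ O) (hA : IsFractionRing A K) :
    IsFractionRing O K := by
  refine IsFractionRing.of_field O K (fun z => ?_)
  obtain ⟨a, b, _, hz⟩ := IsFractionRing.div_surjective (A := A) z
  exact ⟨⟨a, h a.2⟩, ⟨b, h b.2⟩, hz.symm⟩

theorem isFractionRing_localize {A : Subalgebra ℂ K} {P : Ideal A} (hP : P.IsPrime)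
    (hA : IsFractionRing A K) : IsFractionRing (localize A P hP) K :=
  isFractionRing_of_le (le_localize A P hP) hA

theorem span_singleton_isPrime {A : Subalgebra ℂ K} {g : A} (hg : Prime g) :
    (Ideal.span {g}).IsPrime := (Ideal.span_singleton_prime hg.ne_zero).2 hg

/-- Localization of a factorial ring at a prime element is a discrete valuation ring. -/
theorem isDVR_localize_prime {A : Subalgebra ℂ K} (hA : IsFractionRing A K)
    (hU : UniqueFactorizationMonoid A) {g : A} (hg : Prime g)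
    (hP : (Ideal.span {g}).IsPrime) : IsDVR (localize A (Ideal.span {g}) hP) := by
  refine ⟨?_, isFractionRing_localize hP hA⟩
  set O := localize A (Ideal.span {g}) hP with hO
  set γ : O := ⟨(g : K), le_localize A _ hP g.2⟩ with hγ
  have hγn : (γ : K) ∈ nonunitsIn O :=
    (coe_mem_nonunits_localize hP g).2 (Ideal.mem_span_singleton_self g)
  have hγ0 : (γ : K) ≠ 0 := by
    intro h
    exact hg.ne_zero (Subtype.ext h)
  -- factorization
  have hfac : ∀ x : O, x ≠ 0 → ∃ n : ℕ, Associated (γ ^ n) x := by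
    intro x hx
    obtain ⟨a, b, hb, hxab⟩ := x.2
    have hx0 : (x : K) ≠ 0 := fun h => hx (Subtype.ext h)
    have ha0 : a ≠ 0 := by
      rintro rfl
      exact hx0 (by rw [hxab]; simp)
    have hfin : FiniteMultiplicity g a :=
      FiniteMultiplicity.of_prime_left hg ha0
    obtain ⟨c, hc, hgc⟩ := hfin.exists_eq_pow_mul_and_not_dvd
    have hcP : c ∉ Ideal.span {g} := fun h => hgc (Ideal.mem_span_singleton.1 h)
    have hc0 := coe_ne_zero_of_notMem hcP
    have hb0 := coe_ne_zero_of_notMem hb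
    have hu : IsUnit (⟨(c : K) / b, ⟨c, b, hb, rfl⟩⟩ : O) := by
      rw [isUnit_iff_inv_mem]
      refine ⟨div_ne_zero hc0 hb0, ⟨b, c, hcP, ?_⟩⟩
      simp
    refine ⟨multiplicity g a, hu.unit, ?_⟩
    apply Subtype.ext
    have h1 : ((a : A) : K) = (g : K) ^ (multiplicity g a) * (c : K) := by
      conv_lhs => rw [hc]
      simp
    simp only [IsUnit.unit_spec, Subalgebra.coe_mul, Subalgebra.coe_pow]
    rw [hxab, h1]
    ring
  apply IsDiscreteValuationRing.ofHasUnitMulPowIrreducibleFactorization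
  refine ⟨γ, ?_, fun {x} hx => hfac x hx⟩
  -- γ is irreducible
  have hloc : IsLocalRing O := isLocalRing_localize hP
  have hprime : Prime γ := by
    refine ⟨fun h => hγ0 (congrArg Subtype.val h), ?_, ?_⟩
    · rw [mem_nonunitsIn_iff] at hγn
      exact hγn
    · intro x y hxy
      obtain ⟨a, b, hb, hx⟩ := x.2
      obtain ⟨c, d, hd, hy⟩ := y.2
      obtain ⟨z, hz⟩ := hxy
      obtain ⟨e, e', he', hz'⟩ := z.2
      have hb0 := coe_ne_zero_of_notMem hb
      have hd0 := coe_ne_zero_of_notMem hd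
      have he0 := coe_ne_zero_of_notMem he'
      have h1 : (a : K) / b * ((c : K) / d) = (g : K) * ((e : K) / e') := by
        have := congrArg Subtype.val hz
        simp only [Subalgebra.coe_mul] at this
        rw [hx, hy, hz'] at this
        exact this
      have h2 : a * c * e' = g * (e * b * d) := by
        apply Subtype.ext
        push_cast
        field_simp at h1
        linear_combination h1
      have h3 : g ∣ a * c * e' := ⟨_, h2⟩
      have h4 : ¬ g ∣ e' := fun h => he' (Ideal.mem_span_singleton.2 h)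
      rcases (hg.dvd_or_dvd h3) with h5 | h5
      · rcases hg.dvd_or_dvd h5 with ⟨a', ha'⟩ | ⟨c', hc'⟩
        · left
          refine ⟨⟨(a' : K) / b, ⟨a', b, hb, rfl⟩⟩, ?_⟩
          apply Subtype.ext
          simp only [Subalgebra.coe_mul]
          rw [hx, ha']
          push_cast
          ring
        · right
          refine ⟨⟨(c' : K) / d, ⟨c', d, hd, rfl⟩⟩, ?_⟩
          apply Subtype.ext
          simp only [Subalgebra.coe_mul]
          rw [hy, hc']
          push_cast
          ring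
      · exact absurd h5 h4
  exact hprime.irreducible

/-- A discrete valuation ring of `K` is a maximal proper subring. -/
theorem IsDVR.eq_of_le {D O : Subalgebra ℂ K} (hD : IsDVR D) (h : D ≤ O) {y : K}
    (hy : y ∈ nonunitsIn O) (hy0 : y ≠ 0) : O = D := by
  apply le_antisymm _ h
  intro x hx
  by_contra hxD
  have hx0 : x ≠ 0 := by
    rintro rfl
    exact hxD D.zero_mem
  have hv : valZ D x < 0 := by
    rw [hD.mem_iff hx0] at hxD
    omega
  -- then y⁻¹ = x ^ n * (element of D) for large n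
  have hyinv : y⁻¹ ∉ O := by
    rcases hy.2 with h | h
    · exact absurd h hy0
    · exact h
  apply hyinv
  set n := (valZ D y).toNat with hn
  have h1 : (x ^ n)⁻¹ * y⁻¹ ∈ D := by
    have e1 := pow_ne_zero n hx0
    rw [hD.mem_iff (mul_ne_zero (inv_ne_zero e1) (inv_ne_zero hy0)),
      hD.valZ_mul (inv_ne_zero e1) (inv_ne_zero hy0), hD.valZ_inv e1, hD.valZ_inv hy0,
      hD.valZ_pow hx0]
    have h2 : valZ D y ≤ n := by omega
    nlinarith
  have h3 : y⁻¹ = x ^ n * ((x ^ n)⁻¹ * y⁻¹) := by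
    have e1 := pow_ne_zero n hx0
    field_simp
  rw [h3]
  exact O.mul_mem (O.pow_mem hx n) (h h1)

/-- Prime divisors on a factorial affine chart correspond to prime elements. -/
theorem exists_prime_of_isDVR {A : Subalgebra ℂ K} (hU : UniqueFactorizationMonoid A)
    {P : Ideal A} (hP : P.IsPrime) (hD : IsDVR (localize A P hP)) :
    ∃ g : A, Prime g ∧ P = Ideal.span {g} := by
  have hP0 : P ≠ ⊥ := by
    rintro rfl
    obtain ⟨ϖ, hϖ⟩ := hD.exists_irreducible
    have h0 := coe_ne_zero_of_irreducible hϖ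
    have h1 : (ϖ : K) ∈ nonunitsIn (localize A ⊥ hP) := by
      rw [mem_nonunitsIn_iff]
      exact hϖ.not_isUnit
    rw [mem_nonunits_localize] at h1
    obtain ⟨a, b, ha, hb, h2⟩ := h1
    rw [Ideal.mem_bot] at ha
    apply h0
    rw [h2, ha]
    simp
  obtain ⟨g, hgP, hg⟩ := (UniqueFactorizationMonoid.iff_exists_prime_mem_of_isPrime.1 hU) P hP0 hP
  have hP' := span_singleton_isPrime hg
  refine ⟨g, hg, ?_⟩
  have hle : Ideal.span {g} ≤ P := (Ideal.span_singleton_le_iff_mem P).2 hgP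
  have hle2 : localize A P hP ≤ localize A (Ideal.span {g}) hP' := by
    rintro x ⟨a, b, hb, rfl⟩
    exact ⟨a, b, fun h => hb (hle h), rfl⟩
  have heq := hD.eq_of_le hle2 (y := (g : K))
    ((coe_mem_nonunits_localize hP' g).2 (Ideal.mem_span_singleton_self g))
    (fun h => hg.ne_zero (Subtype.ext h))
  apply le_antisymm _ hle
  intro a ha
  rw [← coe_mem_nonunits_localize hP'] 
  rw [heq, coe_mem_nonunits_localize]
  exact ha

end Pool.Agent.Lib.MP_0bb41e_ag
end
end
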