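import Pool.Agent.Lib.MP_0bb41e_ag.Strata2
import Pool.Agent.Lib.MP_0bb41e_ag.Sphere
import Pool.Agent.Lib.MP_0bb41e_ag.Ufd
import Pool.Agent.Lib.MP_0bb41e_ag.Kaehler
import Pool.Agent.Lib.MP_0bb41e_ag.Ramified
import Pool.Agent.Lib.MP_0bb41e_ag.KTwo

section

/-!
# Classification of the strata and the dual complex
-/

namespace Pool.Agent.Lib.MP_0bb41e_ag

variable {K : Type} [Field K] [Algebra ℂ K]

/-- Complements of one-element subsets. -/
def cmp (i : Fin 3) : Fin 3 → Bool := fun j => decide (j ≠ i)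

theorem cmp_ne (i : Fin 3) : ∃ k, cmp i k = false := by
  revert i; decide

theorem J_cases_cmp : ∀ J : Fin 3 → Bool, (∃ k, J k = false) → (∃ k, J k = true) →
    ∃ i, J = sgl i ∨ J = cmp i := by
  decide

theorem Setup.OJ_isPoint (S : Setup K) (J : Fin 3 → Bool) (hJ : ∃ k, J k = false) :
    S.model.IsPoint (S.OJ J hJ) := S.loc_isPoint I0 J hJ

theorem Setup.OJ_isLocalRing (S : Setup K) (J : Fin 3 → Bool) (hJ : ∃ k, J k = false) :
    IsLocalRing (S.OJ J hJ) := S.loc_isLocalRing I0 J hJ

theorem Setup.x_sub_one_mem_OJ (S : Setup K) (J : Fin 3 → Bool) (hJ : ∃ k, J k = false)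
    (i : Fin 3) : S.x i - 1 ∈ nonunitsIn (S.OJ J hJ) ↔ J i = true :=
  S.a_sub_one_mem_loc I0 J hJ i

theorem Setup.ring_le_OJ (S : Setup K) (J : Fin 3 → Bool) (hJ : ∃ k, J k = false) :
    S.ring I0 ≤ S.OJ J hJ := S.ring_le_loc I0 J hJ

theorem Setup.x_mem_ring (S : Setup K) (i : Fin 3) : S.x i ∈ S.ring I0 := S.a_mem_ring I0 i

theorem Setup.z_mem_ring (S : Setup K) : S.z ∈ S.ring I0 := by
  have := S.w_mem_ring I0
  rwa [S.w_I0] at this

theorem Setup.OJ_le_Bd_iff (S : Setup K) (J : Fin 3 → Bool) (hJ : ∃ k, J k = false)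
    (i : Fin 3) : S.OJ J hJ ≤ S.Bd i ↔ J i = true := by
  rw [S.le_Bd_iff I0 i (S.OJ_isPoint J hJ) (S.ring_le_OJ J hJ)]
  exact S.x_sub_one_mem_OJ J hJ i

theorem Setup.Bd_isPoint (S : Setup K) (i : Fin 3) : S.model.IsPoint (S.Bd i) :=
  S.OJ_isPoint _ _

theorem Setup.pt_le_Bd (S : Setup K) (s : ℂ) (hs : s ^ 2 = 3) (i : Fin 3) :
    S.pt I0 s hs ≤ S.Bd i := by
  rw [S.le_Bd_iff I0 i (S.pt_isPoint I0 s hs) (S.ring_le_pt I0 s hs)]
  exact S.a_sub_one_mem_pt I0 s hs i

theorem Setup.pt_le_OJ (S : Setup K) (s : ℂ) (hs : s ^ 2 = 3) (J : Fin 3 → Bool)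
    (hJ : ∃ k, J k = false) : S.pt I0 s hs ≤ S.OJ J hJ := by
  rw [S.le_OJ_iff J hJ (S.pt_isPoint I0 s hs)]
  intro i _
  exact S.pt_le_Bd s hs i

theorem Setup.pt_le_pt (S : Setup K) (s t : ℂ) (hs : s ^ 2 = 3) (ht : t ^ 2 = 3)
    (h : S.pt I0 s hs ≤ S.pt I0 t ht) : s = t := by
  have h1 := (S.w_sub_mem_pt I0 t ht t).2 rfl
  have h2 : S.w I0 - algebraMap ℂ K t ∈ S.pt I0 s hs :=
    Subalgebra.sub_mem _ (S.ring_le_pt I0 s hs (S.w_mem_ring I0)) (Subalgebra.algebraMap_mem _ t)
  have h3 := nonunits_of_le h h2 h1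
  exact (S.w_sub_mem_pt I0 s hs t).1 h3

theorem neg_sq_three {s : ℂ} (hs : s ^ 2 = 3) : (-s) ^ 2 = 3 := by rw [neg_sq]; exact hs

/-- A point of the model lying on all three boundary components is one of two points. -/
theorem Setup.eq_pt_of_le (S : Setup K) (s : ℂ) (hs : s ^ 2 = 3) {O : Subalgebra ℂ K}
    (hO : S.model.IsPoint O) (h : ∀ i, O ≤ S.Bd i) :
    O = S.pt I0 s hs ∨ O = S.pt I0 (-s) (neg_sq_three hs) := by
  obtain ⟨I, hI⟩ := S.exists_chart hO
  have hl := hO.isLocalRing
  have ha : ∀ i, S.a I i - 1 ∈ nonunitsIn O := fun i => (S.le_Bd_iff I i hO hI).1 (h i)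
  -- pass to the standard chart
  have hu : ∀ i, S.a I i ∉ nonunitsIn O := by
    intro i hn
    have h1 : (1 : K) ∈ nonunitsIn O := by
      have h2 := add_mem_nonunits hn (mul_mem_nonunits (ha i) (O.neg_mem O.one_mem))
      have h3 : S.a I i + (S.a I i - 1) * -1 = 1 := by ring
      rwa [h3] at h2
    rcases h1.2 with h2 | h2
    · exact one_ne_zero h2
    · rw [inv_one] at h2; exact h2 O.one_mem
  have h0 : S.ring I0 ≤ O := S.ring_le I I0 hI (fun i =>
    inv_mem_of_notMem_nonunits (hI (S.a_mem_ring I i)) (hu i))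
  have ha0 : ∀ i, S.a I0 i - 1 ∈ nonunitsIn O := fun i => (S.le_Bd_iff I0 i hO h0).1 (h i)
  exact S.eq_pt_or I0 s hs hO h0 ha0

/-- The boundary of the pair. -/
def Setup.bdry (S : Setup K) : Set (Subalgebra ℂ K) := Set.range S.Bd

theorem Setup.Bd_inj (S : Setup K) {i j : Fin 3} (h : S.Bd i ≤ S.Bd j) : i = j := by
  have h1 := (S.OJ_le_Bd_iff (sgl i) (sgl_ne i) j).1 h
  simp only [sgl, decide_eq_true_eq] at h1
  exact h1.symm

/-- Classification of the strata. -/
theorem Setup.isStratum_iff (S : Setup K) (s : ℂ) (hs : s ^ 2 = 3) (W : Subalgebra ℂ K) :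
    IsStratum S.model S.bdry W ↔
      ((∃ (J : Fin 3 → Bool) (hJ : ∃ k, J k = false), (∃ k, J k = true) ∧ W = S.OJ J hJ) ∨
        W = S.pt I0 s hs ∨ W = S.pt I0 (-s) (neg_sq_three hs)) := by
  classical
  constructor
  · rintro ⟨Js, ⟨D, hD⟩, hsub, hW, hWle, hmax⟩
    set J : Fin 3 → Bool := fun i => decide (S.Bd i ∈ Js) with hJdef
    have hJt : ∀ i, J i = true ↔ S.Bd i ∈ Js := by intro i; simp [hJdef]
    have hle : ∀ W' : Subalgebra ℂ K, (∀ D ∈ Js, W' ≤ D) ↔ ∀ i, J i = true → W' ≤ S.Bd i := by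
      intro W'
      constructor
      · intro h i hi
        exact h _ ((hJt i).1 hi)
      · intro h D hD
        obtain ⟨i, rfl⟩ := hsub hD
        exact h i ((hJt i).2 hD)
    have hne : ∃ k, J k = true := by
      obtain ⟨i, rfl⟩ := hsub hD
      exact ⟨i, (hJt i).2 hD⟩
    by_cases hJ : ∃ k, J k = false
    · left
      refine ⟨J, hJ, hne, ?_⟩
      have h1 : W ≤ S.OJ J hJ := (S.le_OJ_iff J hJ hW).2 ((hle W).1 hWle)
      refine (hmax _ (S.OJ_isPoint J hJ) ((hle _).2 (fun i hi => ?_)) h1).symm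
      exact (S.OJ_le_Bd_iff J hJ i).2 hi
    · right
      push Not at hJ
      apply S.eq_pt_of_le s hs hW
      intro i
      apply (hle W).1 hWle
      simpa using hJ i
  · rintro (⟨J, hJ, ⟨k, hk⟩, rfl⟩ | h)
    · refine ⟨{D | ∃ i, J i = true ∧ D = S.Bd i}, ⟨S.Bd k, k, hk, rfl⟩, ?_, S.OJ_isPoint J hJ,
        ?_, ?_⟩
      · rintro _ ⟨i, _, rfl⟩
        exact ⟨i, rfl⟩
      · rintro _ ⟨i, hi, rfl⟩
        exact (S.OJ_le_Bd_iff J hJ i).2 hi
      · intro W' hW' hle hOW
        apply le_antisymm _ hOW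
        rw [S.le_OJ_iff J hJ hW']
        intro i hi
        exact hle _ ⟨i, hi, rfl⟩
    · have key : ∀ (t : ℂ) (ht : t ^ 2 = 3), IsStratum S.model S.bdry (S.pt I0 t ht) := by
        intro t ht
        refine ⟨S.bdry, ⟨S.Bd 0, 0, rfl⟩, le_rfl, S.pt_isPoint I0 t ht, ?_, ?_⟩
        · rintro _ ⟨i, rfl⟩
          exact S.pt_le_Bd t ht i
        · intro W' hW' hle htW
          rcases S.eq_pt_of_le t ht hW' (fun i => hle _ ⟨i, rfl⟩) with h1 | h1
          · exact h1
          · exfalso
            rw [h1] at htW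
            have h2 := S.pt_le_pt _ _ _ _ htW
            have h3 : t = 0 := by
              have : 2 * t = 0 := by linear_combination h2
              simpa using this
            rw [h3] at ht
            norm_num at ht
      rcases h with rfl | rfl
      · exact key s hs
      · exact key (-s) (neg_sq_three hs)

/-- The dual complex is a PL sphere. -/
theorem Setup.dual_sphere (S : Setup K) :
    PLHomeomorphic (dualComplex S.model S.bdry) (plSphere 2) := by
  obtain ⟨s, hs⟩ := IsAlgClosed.exists_pow_nat_eq (3 : ℂ) (n := 2) (by norm_num)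
  have hs0 : s ≠ 0 := by
    rintro rfl
    norm_num at hs
  have hns : s ≠ -s := by
    intro h
    apply hs0
    have : 2 * s = 0 := by linear_combination h
    simpa using this
  set e : Fin 3 → Subalgebra ℂ K := fun i => S.OJ (cmp i) (cmp_ne i) with he
  set p : Fin 2 → Subalgebra ℂ K := ![S.pt I0 s hs, S.pt I0 (-s) (neg_sq_three hs)] with hp
  have hpk : ∀ k, ∃ (t : ℂ) (ht : t ^ 2 = 3), p k = S.pt I0 t ht := by
    intro k
    fin_cases k
    · exact ⟨s, hs, rfl⟩
    · exact ⟨-s, neg_sq_three hs, rfl⟩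
  have hpne : ∀ k l, p k ≤ p l → k = l := by
    intro k l h
    fin_cases k <;> fin_cases l
    · rfl
    · exact absurd (S.pt_le_pt _ _ _ _ h) hns
    · exact absurd (S.pt_le_pt _ _ _ _ h) (fun h' => hns h'.symm)
    · rfl
  have hset : {W | IsStratum S.model S.bdry W} = Set.range S.Bd ∪ Set.range e ∪ Set.range p := by
    ext W
    rw [Set.mem_ofPred_eq, S.isStratum_iff s hs]
    constructor
    · rintro (⟨J, hJ, hJ', rfl⟩ | rfl | rfl)
      · obtain ⟨i, hi | hi⟩ := J_cases_cmp J hJ hJ'
        · subst hi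
          exact Or.inl (Or.inl ⟨i, rfl⟩)
        · subst hi
          exact Or.inl (Or.inr ⟨i, rfl⟩)
      · exact Or.inr ⟨0, rfl⟩
      · exact Or.inr ⟨1, rfl⟩
    · rintro ((⟨i, rfl⟩ | ⟨i, rfl⟩) | ⟨k, rfl⟩)
      · exact Or.inl ⟨sgl i, sgl_ne i, ⟨i, by simp [sgl]⟩, rfl⟩
      · exact Or.inl ⟨cmp i, cmp_ne i, by revert i; decide, rfl⟩
      · fin_cases k
        · exact Or.inr (Or.inl rfl)
        · exact Or.inr (Or.inr rfl)
  unfold dualComplex
  rw [hset]
  apply orderComplex_sphere
  · intro k l h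
    exact hpne k l h.le
  · intro i j
    rw [lt_iff_le_and_ne]
    change (S.OJ (cmp i) (cmp_ne i) ≤ S.Bd j ∧ S.OJ (cmp i) (cmp_ne i) ≠ S.Bd j) ↔ i ≠ j
    rw [S.OJ_le_Bd_iff]
    constructor
    · rintro ⟨h, _⟩ rfl
      simp [cmp] at h
    · intro h
      refine ⟨by simp [cmp, Ne.symm h], ?_⟩
      intro heq
      have hle : S.Bd j ≤ S.OJ (cmp i) (cmp_ne i) := heq.symm.le
      rw [S.le_OJ_iff _ _ (S.Bd_isPoint j)] at hle
      obtain ⟨l, hl1, hl2⟩ : ∃ l, cmp i l = true ∧ l ≠ j := by
        clear hle heq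
        revert i j
        decide
      exact hl2 (S.Bd_inj (hle l hl1)).symm
  · intro k i
    obtain ⟨t, ht, hk⟩ := hpk k
    rw [hk]
    refine lt_of_le_of_ne (S.pt_le_OJ t ht _ _) ?_
    intro heq
    have h1 := S.a_sub_one_mem_pt I0 t ht i
    have h2 := S.x_sub_one_mem_OJ (cmp i) (cmp_ne i) i
    change S.pt I0 t ht = S.OJ (cmp i) (cmp_ne i) at heq
    rw [← heq] at h2
    have h3 := h2.1 h1
    simp [cmp] at h3
  · intro i j h
    have h1 := S.Bd_inj h.le
    subst h1
    exact lt_irrefl _ h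
  · intro i j h
    have h1 : i = j := by
      have h2 := h.le
      change S.OJ (cmp i) (cmp_ne i) ≤ S.OJ (cmp j) (cmp_ne j) at h2
      rw [S.le_OJ_iff _ _ (S.OJ_isPoint _ _)] at h2
      by_contra hne
      have h3 := (S.OJ_le_Bd_iff _ _ _).1 (h2 i (by simp [cmp, hne]))
      simp [cmp] at h3
    subst h1
    exact lt_irrefl _ h
  · intro k l h
    have h1 := hpne k l h.le
    subst h1
    exact lt_irrefl _ h

end Pool.Agent.Lib.MP_0bb41e_ag
end

section

/-!
# Orders of the volume form of the double cover, part 4: summary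
-/

namespace Pool.Agent.Lib.MP_0bb41e_ag

variable {K : Type} [Field K] [Algebra ℂ K] {R : Subalgebra ℂ K}
variable {E V : Type} [AddCommGroup E] [Module K E] [Module ℂ E] [AddCommGroup V] [Module K V]
variable {d : Derivation ℂ K E} {f : E [⋀^Fin 3]→ₗ[K] V}

theorem IsDVR.div_mem (hR : IsDVR R) {x y : K} (hx : x ≠ 0) (hy : y ≠ 0)
    (h : valZ R y ≤ valZ R x) : x / y ∈ R := by
  rw [hR.mem_iff (div_ne_zero hx hy), hR.valZ_div hx hy]
  omega

theorem Setup.rot_mem (S : Setup K) {p : K → Prop} (h : ∀ i, p (S.x i)) (i : Fin 3) :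
    p (S.rot.x i) := by
  fin_cases i
  · exact h 1
  · exact h 2
  · exact h 0

/-- The order at the singular point `x = 0` is positive. -/
theorem Setup.caseQ (S : Setup K) (hR : IsDVR R) (hx : ∀ i, S.x i ∈ nonunitsIn R) :
    OGE R d f (S.vol d f) 1 := by
  have n := S.x_ne_zero
  by_cases h1 : valZ R (S.x 0) ≤ valZ R (S.x 1)
  · by_cases h2 : valZ R (S.x 0) ≤ valZ R (S.x 2)
    · exact S.caseQ0 hR hx (hR.div_mem (n 1) (n 0) h1) (hR.div_mem (n 2) (n 0) h2)
    · -- v 2 < v 0 ≤ v 1
      have := S.rot.rot.caseQ0 (d := d) (f := f) hR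
        (S.rot.rot_mem (p := fun x => x ∈ nonunitsIn R) (S.rot_mem hx))
        (hR.div_mem (n 0) (n 2) (show valZ R (S.x 2) ≤ valZ R (S.x 0) by omega))
        (hR.div_mem (n 1) (n 2) (show valZ R (S.x 2) ≤ valZ R (S.x 1) by omega))
      rwa [Setup.rot_vol, Setup.rot_vol] at this
  · by_cases h2 : valZ R (S.x 1) ≤ valZ R (S.x 2)
    · have := S.rot.caseQ0 (d := d) (f := f) hR
        (S.rot_mem (p := fun x => x ∈ nonunitsIn R) hx)
        (hR.div_mem (n 2) (n 1) (show valZ R (S.x 1) ≤ valZ R (S.x 2) by omega))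
        (hR.div_mem (n 0) (n 1) (show valZ R (S.x 1) ≤ valZ R (S.x 0) by omega))
      rwa [Setup.rot_vol] at this
    · have := S.rot.rot.caseQ0 (d := d) (f := f) hR
        (S.rot.rot_mem (p := fun x => x ∈ nonunitsIn R) (S.rot_mem hx))
        (hR.div_mem (n 0) (n 2) (show valZ R (S.x 2) ≤ valZ R (S.x 0) by omega))
        (hR.div_mem (n 1) (n 2) (show valZ R (S.x 2) ≤ valZ R (S.x 1) by omega))
      rwa [Setup.rot_vol, Setup.rot_vol] at this

/-- The order at the singular point `x = ∞` is positive. -/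
theorem Setup.caseQinf (S : Setup K) (hR : IsDVR R) (hx : ∀ i, (S.x i)⁻¹ ∈ nonunitsIn R) :
    OGE R d f (S.vol d f) 1 := by
  have h : ∀ i, S.inv.x i ∈ nonunitsIn R := by
    intro i
    fin_cases i
    · exact hx 1
    · exact hx 0
    · exact hx 2
  have := (S.inv.caseQ (d := d) (f := f) hR h).neg hR
  rwa [Setup.inv_vol, neg_neg] at this

theorem IsDVR.inv_nonunit_of_notMem (hR : IsDVR R) {x : K} (hx : x ∉ R) :
    x⁻¹ ∈ nonunitsIn R := by
  have h0 : x ≠ 0 := by
    rintro rfl
    exact hx R.zero_mem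
  rw [hR.mem_nonunits_iff (inv_ne_zero h0), hR.valZ_inv h0]
  rw [hR.mem_iff h0] at hx
  omega

/-- Main local result: `vol` has at most simple poles, and the divisorial valuations with a pole
are centred at the generic points of strata. -/
theorem Setup.main_local (S : Setup K) (hR : IsDVR R) :
    OGE R d f (S.vol d f) (-1) ∧
    (¬ OGE R d f (S.vol d f) 0 → (∀ i, S.x i ∈ R) ∧ valZ R S.z = 0 ∧
      (∃ i, S.x i - 1 ∈ nonunitsIn R) ∧
      ∀ P : MvPolynomial (Fin 3) ℂ, P ≠ 0 → (∀ j ∈ P.vars, S.x j - 1 ∉ nonunitsIn R) →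
        MvPolynomial.aeval S.x P ∉ nonunitsIn R) := by
  have good : ∀ k : ℤ, 0 ≤ k → OGE R d f (S.vol d f) k → OGE R d f (S.vol d f) (-1) ∧
    (¬ OGE R d f (S.vol d f) 0 → (∀ i, S.x i ∈ R) ∧ valZ R S.z = 0 ∧
      (∃ i, S.x i - 1 ∈ nonunitsIn R) ∧
      ∀ P : MvPolynomial (Fin 3) ℂ, P ≠ 0 → (∀ j ∈ P.vars, S.x j - 1 ∉ nonunitsIn R) →
        MvPolynomial.aeval S.x P ∉ nonunitsIn R) := by
    intro k hk h
    exact ⟨h.mono hR (by omega), fun h' => absurd (h.mono hR hk) h'⟩
  by_cases h0 : S.x 0 ∈ R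
  · by_cases h1 : S.x 1 ∈ R
    · by_cases h2 : S.x 2 ∈ R
      · have hall : ∀ i, S.x i ∈ R := by
          intro i
          fin_cases i
          · exact h0
          · exact h1
          · exact h2
        by_cases hn : ∀ i, S.x i ∈ nonunitsIn R
        · exact good 1 (by norm_num) (S.caseQ hR hn)
        · have := S.case0 (d := d) (f := f) hR hall hn
          exact ⟨this.1, fun h => ⟨hall, this.2 h⟩⟩
      · apply good 0 le_rfl
        have := S.rot.rot.case1 (d := d) (f := f) hR (hR.inv_nonunit_of_notMem h2) h0 h1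
        rwa [Setup.rot_vol, Setup.rot_vol] at this
    · by_cases h2 : S.x 2 ∈ R
      · apply good 0 le_rfl
        have := S.rot.case1 (d := d) (f := f) hR (hR.inv_nonunit_of_notMem h1) h2 h0
        rwa [Setup.rot_vol] at this
      · apply good 0 le_rfl
        have := S.rot.case2 (d := d) (f := f) hR (hR.inv_nonunit_of_notMem h1)
          (hR.inv_nonunit_of_notMem h2) h0
        rwa [Setup.rot_vol] at this
  · by_cases h1 : S.x 1 ∈ R
    · by_cases h2 : S.x 2 ∈ R
      · apply good 0 le_rfl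
        exact S.case1 (d := d) (f := f) hR (hR.inv_nonunit_of_notMem h0) h1 h2
      · apply good 0 le_rfl
        have := S.rot.rot.case2 (d := d) (f := f) hR (hR.inv_nonunit_of_notMem h2)
          (hR.inv_nonunit_of_notMem h0) h1
        rwa [Setup.rot_vol, Setup.rot_vol] at this
    · by_cases h2 : S.x 2 ∈ R
      · apply good 0 le_rfl
        exact S.case2 (d := d) (f := f) hR (hR.inv_nonunit_of_notMem h0)
          (hR.inv_nonunit_of_notMem h1) h2
      · apply good 1 (by norm_num)
        apply S.caseQinf hR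
        intro i
        fin_cases i
        · exact hR.inv_nonunit_of_notMem h0
        · exact hR.inv_nonunit_of_notMem h1
        · exact hR.inv_nonunit_of_notMem h2

end Pool.Agent.Lib.MP_0bb41e_ag
end

section

/-!
# Upper bounds for the order of the volume form at prime divisors of the model
-/

namespace Pool.Agent.Lib.MP_0bb41e_ag

variable {K : Type} [Field K] [Algebra ℂ K] {R : Subalgebra ℂ K}
variable {E V : Type} [AddCommGroup E] [Module K E] [Module ℂ E] [AddCommGroup V] [Module K V]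
variable {d : Derivation ℂ K E} {f : E [⋀^Fin 3]→ₗ[K] V}

/-- The wedge of three elements of the `R`-module spanned by `e 0, e 1, e 2` is an `R`-multiple of
`f e`. -/
theorem wd_mem_span (f : E [⋀^Fin 3]→ₗ[K] V) (e : Fin 3 → E) {a b c : E}
    (ha : a ∈ Submodule.span R (Set.range e)) (hb : b ∈ Submodule.span R (Set.range e))
    (hc : c ∈ Submodule.span R (Set.range e)) :
    wd f a b c ∈ Submodule.span R {f e} := by
  have key : ∀ i j k : Fin 3, wd f (e i) (e j) (e k) ∈ Submodule.span R {f e} := by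
    have h0 : wd f (e 0) (e 1) (e 2) ∈ Submodule.span R {f e} := by
      rw [wd_eq]; exact Submodule.mem_span_singleton_self _
    have hn := Submodule.neg_mem _ h0
    intro i j k
    fin_cases i <;> fin_cases j <;> fin_cases k
    all_goals
      first
      | (change wd f (e 0) (e 0) _ ∈ _; rw [wd_self01]; exact Submodule.zero_mem _)
      | (change wd f (e 1) (e 1) _ ∈ _; rw [wd_self01]; exact Submodule.zero_mem _)
      | (change wd f (e 2) (e 2) _ ∈ _; rw [wd_self01]; exact Submodule.zero_mem _)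
      | (change wd f (e 0) _ (e 0) ∈ _; rw [wd_self02]; exact Submodule.zero_mem _)
      | (change wd f (e 1) _ (e 1) ∈ _; rw [wd_self02]; exact Submodule.zero_mem _)
      | (change wd f (e 2) _ (e 2) ∈ _; rw [wd_self02]; exact Submodule.zero_mem _)
      | (change wd f _ (e 0) (e 0) ∈ _; rw [wd_self12]; exact Submodule.zero_mem _)
      | (change wd f _ (e 1) (e 1) ∈ _; rw [wd_self12]; exact Submodule.zero_mem _)
      | (change wd f _ (e 2) (e 2) ∈ _; rw [wd_self12]; exact Submodule.zero_mem _)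
      | exact h0
      | (change wd f (e 0) (e 2) (e 1) ∈ _; rw [wd_swap12]; exact hn)
      | (change wd f (e 1) (e 0) (e 2) ∈ _; rw [wd_swap01]; exact hn)
      | (change wd f (e 1) (e 2) (e 0) ∈ _; rw [wd_rot]; exact h0)
      | (change wd f (e 2) (e 0) (e 1) ∈ _; rw [wd_rot f (e 1) (e 2) (e 0), wd_rot]; exact h0)
      | (change wd f (e 2) (e 1) (e 0) ∈ _; rw [wd_swap02]; exact hn)
  refine Submodule.span_induction (p := fun a _ => wd f a b c ∈ Submodule.span R {f e})
    ?_ ?_ ?_ ?_ ha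
  · rintro _ ⟨i, rfl⟩
    refine Submodule.span_induction (p := fun b _ => wd f (e i) b c ∈ Submodule.span R {f e})
      ?_ ?_ ?_ ?_ hb
    · rintro _ ⟨j, rfl⟩
      refine Submodule.span_induction
        (p := fun c _ => wd f (e i) (e j) c ∈ Submodule.span R {f e}) ?_ ?_ ?_ ?_ hc
      · rintro _ ⟨k, rfl⟩
        exact key i j k
      · rw [wd_zero2]; exact Submodule.zero_mem _
      · intro x y _ _ h h'; rw [wd_add2]; exact Submodule.add_mem _ h h'
      · intro r x _ h; rw [coe_smulE, wd_smul2]; exact smul_mem_sub r.2 h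
    · rw [wd_zero1]; exact Submodule.zero_mem _
    · intro x y _ _ h h'; rw [wd_add1]; exact Submodule.add_mem _ h h'
    · intro r x _ h; rw [coe_smulE, wd_smul1]; exact smul_mem_sub r.2 h
  · rw [wd_zero0]; exact Submodule.zero_mem _
  · intro x y _ _ h h'; rw [wd_add0]; exact Submodule.add_mem _ h h'
  · intro r x _ h; rw [coe_smulE, wd_smul0]; exact smul_mem_sub r.2 h

theorem L3_le_of_L1_le {e : Fin 3 → E} (h : L1 R d ≤ Submodule.span R (Set.range e)) :
    L3 R d f ≤ Submodule.span R {f e} := by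
  refine Submodule.span_le.2 ?_
  rintro _ ⟨a, rfl⟩
  have h1 := wd_mem_span f e (h (d_mem_L1 (d := d) (a 0).2)) (h (d_mem_L1 (d := d) (a 1).2))
    (h (d_mem_L1 (d := d) (a 2).2))
  have h2 : wd f (d (a 0 : K)) (d (a 1 : K)) (d (a 2 : K)) = f fun i => d (a i : K) :=
    wd_eq (f := f) (fun i => d (a i : K))
  rw [h2] at h1
  exact h1

/-- Upper bound for orders. -/
theorem OGE_le_of_L1_le (hR : IsDVR R) {e : Fin 3 → E}
    (h : L1 R d ≤ Submodule.span R (Set.range e)) (hfe : f e ≠ 0) {u : K} (hu : u ≠ 0) {k : ℤ}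
    (hk : OGE R d f (u • f e) k) : k ≤ valZ R u := by
  obtain ⟨ϖ, hϖ⟩ := hR.exists_irreducible
  have h1 := L3_le_of_L1_le (f := f) h (hk.mem hϖ)
  rw [Submodule.mem_span_singleton] at h1
  obtain ⟨r, hr⟩ := h1
  have h2 : (r : K) = (ϖ : K) ^ (-k) * u := by
    have h3 : ((r : K) - (ϖ : K) ^ (-k) * u) • f e = 0 := by
      rw [sub_smul, mul_smul, ← hr]
      exact sub_self _
    rcases smul_eq_zero.1 h3 with h4 | h4
    · exact sub_eq_zero.1 h4
    · exact absurd h4 hfe
  have hϖ0 := coe_ne_zero_of_irreducible hϖ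
  have hz : (ϖ : K) ^ (-k) ≠ 0 := zpow_ne_zero _ hϖ0
  have h5 : (ϖ : K) ^ (-k) * u ∈ R := by rw [← h2]; exact r.2
  rw [hR.mem_iff (mul_ne_zero hz hu), hR.valZ_mul hz hu, hR.valZ_zpow hϖ0,
    hR.valZ_irreducible hϖ] at h5
  omega

/-- The differentials of elements of the localization of a chart ring. -/
theorem Setup.L1_le (S : Setup K) (I : Fin 3 → Bool) {P : Ideal (S.ring I)} (hP : P.IsPrime)
    {N : Submodule (localize (S.ring I) P hP) E} (ha : ∀ i, d (S.a I i) ∈ N)
    (hw : d (S.w I) ∈ N) : L1 (localize (S.ring I) P hP) d ≤ N := by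
  have hle : S.ring I ≤ localize (S.ring I) P hP := le_localize _ _ _
  have hA : ∀ b : K, b ∈ S.ring I → d b ∈ N := by
    intro b hb
    obtain ⟨p, q, rfl⟩ := (S.mem_ring_iff I b).1 hb
    have hpq : ∀ r : MvPolynomial (Fin 3) ℂ,
        MvPolynomial.aeval (S.a I) r ∈ localize (S.ring I) P hP := by
      intro r
      apply hle
      have := S.el_mem I r 0
      simpa [Setup.el] using this
    have hdp : ∀ r : MvPolynomial (Fin 3) ℂ, d (MvPolynomial.aeval (S.a I) r) ∈ N := by
      intro r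
      rw [d_aeval]
      exact Submodule.sum_mem _ (fun i _ => smul_mem_sub (hpq _) (ha i))
    rw [map_add, Derivation.leibniz]
    exact Submodule.add_mem _ (hdp p) (Submodule.add_mem _ (smul_mem_sub (hpq q) hw)
      (smul_mem_sub (hle (S.w_mem_ring I)) (hdp q)))
  refine Submodule.span_le.2 ?_
  rintro _ ⟨x, rfl⟩
  obtain ⟨a, b, hb, hx⟩ := x.2
  have hb0 := coe_ne_zero_of_notMem hb
  change d (x : K) ∈ N
  rw [hx, div_eq_mul_inv, Derivation.leibniz, d_inv d hb0, smul_neg, smul_smul]
  have hbinv : (b : K)⁻¹ ∈ localize (S.ring I) P hP := inv_mem_localize hP hb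
  exact Submodule.add_mem _ (Submodule.neg_mem _ (smul_mem_sub (Subalgebra.mul_mem _ (hle a.2)
    (Subalgebra.mul_mem _ hbinv hbinv)) (hA _ b.2))) (smul_mem_sub hbinv (hA _ a.2))

/-- The relation between the differentials of the coordinates. -/
theorem Setup.d_w (S : Setup K) (I : Fin 3 → Bool) (d : Derivation ℂ K E) :
    (2 * S.w I) • d (S.w I) =
      ∑ j, MvPolynomial.aeval (S.a I) (MvPolynomial.pderiv j (branch I)) • d (S.a I j) := by
  rw [← d_aeval, ← S.w_sq, d_pow]
  simp

theorem Setup.f_da_ne (S : Setup K) (I : Fin 3 → Bool) (hne : f (fun i => d (S.x i)) ≠ 0) :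
    f (fun i => d (S.a I i)) ≠ 0 := by
  have h1 : (fun i => d (S.a I i)) =
      fun i => (if I i then -((S.x i)⁻¹ * (S.x i)⁻¹) else 1 : K) • d (S.x i) := by
    funext i
    unfold Setup.a
    split_ifs
    · rw [d_inv d (S.x_ne_zero i), neg_smul]
    · rw [one_smul]
  rw [h1]
  have h2 := f.toMultilinearMap.map_smul_univ
    (fun i => (if I i then -((S.x i)⁻¹ * (S.x i)⁻¹) else 1 : K)) (fun i => d (S.x i))
  have h3 : f (fun i => (if I i then -((S.x i)⁻¹ * (S.x i)⁻¹) else 1 : K) • d (S.x i)) =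
      (∏ i, (if I i then -((S.x i)⁻¹ * (S.x i)⁻¹) else 1 : K)) • f (fun i => d (S.x i)) := h2
  rw [h3]
  refine smul_ne_zero ?_ hne
  refine Finset.prod_ne_zero_iff.2 (fun i _ => ?_)
  have := S.x_ne_zero i
  split_ifs
  · exact neg_ne_zero.2 (mul_ne_zero (inv_ne_zero this) (inv_ne_zero this))
  · exact one_ne_zero

end Pool.Agent.Lib.MP_0bb41e_ag
end

section

/-!
# Smooth charts, and the divisor of the volume form on the model
-/

namespace Pool.Agent.Lib.MP_0bb41e_ag

variable {K : Type} [Field K] [Algebra ℂ K] {R : Subalgebra ℂ K}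
variable {E V : Type} [AddCommGroup E] [Module K E] [Module ℂ E] [AddCommGroup V] [Module K V]
variable {d : Derivation ℂ K E} {f : E [⋀^Fin 3]→ₗ[K] V}

/-- In the polynomial ring, a common divisor of `X 0 ^ 2` and `X 1 ^ 2` is a unit. -/
theorem isUnit_of_dvd_sq {N : MvPolynomial (Fin 3) ℂ} (h0 : N ∣ MvPolynomial.X 0 ^ 2)
    (h1 : N ∣ MvPolynomial.X 1 ^ 2) : IsUnit N := by
  have hp : Prime (MvPolynomial.X 0 : MvPolynomial (Fin 3) ℂ) := MvPolynomial.X_prime
  obtain ⟨k, _, hk⟩ := (dvd_prime_pow hp 2).1 h0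
  rcases Nat.eq_zero_or_pos k with rfl | hk0
  · rw [pow_zero] at hk
    exact hk.symm.isUnit isUnit_one
  · exfalso
    have h2 : (MvPolynomial.X 0 : MvPolynomial (Fin 3) ℂ) ∣ N :=
      (dvd_pow_self _ hk0.ne').trans hk.symm.dvd
    have h3 := hp.dvd_of_dvd_pow (h2.trans h1)
    rw [MvPolynomial.X_dvd_X] at h3
    exact absurd h3 (by decide)

/-- The singular points are not divisors. -/
theorem Setup.not_all_nonunits (S : Setup K) (I : Fin 3 → Bool) {D : Subalgebra ℂ K}
    (hD : S.model.IsPrimeDivisor D) (hI : S.ring I ≤ D) :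
    ¬ ∀ i, S.a I i ∈ nonunitsIn D := by
  intro h
  have hl := hD.1.isLocalRing
  have heq := S.eq_localize hD.1 I hI
  have hU := S.ufd I
  have hdvr : IsDVR (localize (S.ring I) (ctr (S.ring I) D hI) inferInstance) := by
    rw [← heq]; exact hD.2
  obtain ⟨g, hg, hgP⟩ := exists_prime_of_isDVR hU _ hdvr
  obtain ⟨p, q, hgel⟩ := S.exists_el I g
  set N := p ^ 2 - q ^ 2 * branch I with hN
  have key : ∀ i, N ∣ MvPolynomial.X i ^ 2 := by
    intro i
    have h1 : (⟨S.a I i, S.a_mem_ring I i⟩ : S.ring I) ∈ ctr (S.ring I) D hI := by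
      rw [mem_ctr]; exact h i
    rw [hgP, Ideal.mem_span_singleton] at h1
    obtain ⟨b, hb⟩ := h1
    obtain ⟨p', q', hbel⟩ := S.exists_el I b
    have h2 : S.el I (MvPolynomial.X i) 0 = S.el I (p * p' + q * q' * branch I)
        (p * q' + q * p') := by
      rw [← S.el_mul, ← hgel, ← hbel, ← S.a_eq_el]
      exact congrArg Subtype.val hb
    obtain ⟨h3, h4⟩ := S.el_inj I h2
    refine ⟨p' ^ 2 - q' ^ 2 * branch I, ?_⟩
    rw [h3, hN]
    linear_combination (-(branch I) * (p * q' + q * p')) * h4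
  have hu : IsUnit N := isUnit_of_dvd_sq (key 0) (key 1)
  have h5 : IsUnit g := by
    have h6 : g * ⟨S.el I p (-q), S.el_mem I _ _⟩ = ⟨S.el I N 0, S.el_mem I _ _⟩ := by
      apply Subtype.ext
      push_cast
      rw [hgel, S.el_mul, hN]
      congr 1
      · ring
      · ring
    obtain ⟨M, hM⟩ := hu.exists_right_inv
    have h7 : IsUnit (⟨S.el I N 0, S.el_mem I _ _⟩ : S.ring I) := by
      refine IsUnit.of_mul_eq_one ⟨S.el I M 0, S.el_mem I _ _⟩ ?_
      apply Subtype.ext
      push_cast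
      rw [S.el_mul]
      have : N * M + 0 * 0 * branch I = 1 := by rw [hM]; ring
      rw [this]
      simp [Setup.el]
    rw [← h6] at h7
    exact isUnit_of_mul_isUnit_left h7
  exact hg.not_isUnit h5

/-- Existence of a chart on which a discrete valuation ring has a smooth centre, unless the centre
is one of the two singular points. -/
theorem Setup.smooth_chart (S : Setup K) (hR : IsDVR R) (h0 : ¬ ∀ i, S.x i ∈ nonunitsIn R)
    (hinf : ¬ ∀ i, (S.x i)⁻¹ ∈ nonunitsIn R) :
    ∃ I, (∀ i, S.a I i ∈ R) ∧ (S.w I ∉ nonunitsIn R ∨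
      ∃ k, MvPolynomial.aeval (S.a I) (MvPolynomial.pderiv k (branch I)) ∉ nonunitsIn R) := by
  have two : (2 : K) ∈ R := by simp
  -- an element of the form 1 + y * r with y a nonunit is not a nonunit
  have one_add : ∀ y r : K, y ∈ nonunitsIn R → r ∈ R → 1 + y * r ∉ nonunitsIn R := by
    intro y r hy hr
    exact hR.unit_add hR.one_notMem (hR.nonunits_mul hy hr)
  by_cases m0 : S.x 0 ∈ R
  · by_cases m1 : S.x 1 ∈ R
    · by_cases m2 : S.x 2 ∈ R
      · have hall : ∀ i, S.x i ∈ R := by
          intro i; fin_cases i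
          · exact m0
          · exact m1
          · exact m2
        refine ⟨I0, hall, ?_⟩
        by_contra hcon
        push Not at hcon
        obtain ⟨hw, hk⟩ := hcon
        rw [S.w_I0] at hw
        have hD0 : MvPolynomial.aeval (S.a I0) (MvPolynomial.pderiv 0 (branch I0)) =
            2 * S.x 0 * S.x 1 + S.x 2 ^ 2 := by
          simp [branch, I0, Fin.sum_univ_three, Fin.prod_univ_three, expo, MvPolynomial.pderiv_X,
            Setup.a]
          ring
        have hD1 : MvPolynomial.aeval (S.a I0) (MvPolynomial.pderiv 1 (branch I0)) =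
            S.x 0 ^ 2 + 2 * S.x 1 * S.x 2 := by
          simp [branch, I0, Fin.sum_univ_three, Fin.prod_univ_three, expo, MvPolynomial.pderiv_X,
            Setup.a]
          ring
        have hD2 : MvPolynomial.aeval (S.a I0) (MvPolynomial.pderiv 2 (branch I0)) =
            S.x 1 ^ 2 + 2 * S.x 2 * S.x 0 := by
          simp [branch, I0, Fin.sum_univ_three, Fin.prod_univ_three, expo, MvPolynomial.pderiv_X,
            Setup.a]
          ring
        apply h0
        have := hR.1
        set κ := IsLocalRing.ResidueField R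
        set ρ : R →+* κ := IsLocalRing.residue R with hρ
        have hres : ∀ y : R, ρ y = 0 ↔ (y : K) ∈ nonunitsIn R := by
          intro y
          rw [hρ, IsLocalRing.residue_eq_zero_iff, IsLocalRing.mem_maximalIdeal,
            mem_nonunits_iff, mem_nonunitsIn_iff]
        have : CharZero κ := charZero_of_injective_ringHom
          (ρ.comp (algebraMap ℂ R)).injective
        set X : Fin 3 → R := fun i => ⟨S.x i, hall i⟩ with hX
        have e : (ρ (X 0)) ^ 2 * ρ (X 1) + (ρ (X 1)) ^ 2 * ρ (X 2) + (ρ (X 2)) ^ 2 * ρ (X 0) = 0 := by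
          rw [← map_pow, ← map_pow, ← map_pow, ← map_mul, ← map_mul, ← map_mul, ← map_add,
            ← map_add, hres]
          change S.x 0 ^ 2 * S.x 1 + S.x 1 ^ 2 * S.x 2 + S.x 2 ^ 2 * S.x 0 ∈ nonunitsIn R
          rw [← S.rel, pow_two]
          exact hR.nonunits_mul hw hw.1
        have two' : ρ 2 = 2 := map_ofNat ρ 2
        have e0 : 2 * ρ (X 0) * ρ (X 1) + ρ (X 2) ^ 2 = 0 := by
          have h2 := hk 0
          rw [hD0] at h2
          have : ρ (2 * X 0 * X 1 + X 2 ^ 2) = 0 := by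
            rw [hres]; exact h2
          simpa [two'] using this
        have e1 : ρ (X 0) ^ 2 + 2 * ρ (X 1) * ρ (X 2) = 0 := by
          have h2 := hk 1
          rw [hD1] at h2
          have : ρ (X 0 ^ 2 + 2 * X 1 * X 2) = 0 := by
            rw [hres]; exact h2
          simpa [two'] using this
        have e2 : ρ (X 1) ^ 2 + 2 * ρ (X 2) * ρ (X 0) = 0 := by
          have h2 := hk 2
          rw [hD2] at h2
          have : ρ (X 1 ^ 2 + 2 * X 2 * X 0) = 0 := by
            rw [hres]; exact h2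
          simpa [two'] using this
        obtain ⟨h0, h1, h2⟩ := alg_chart0 _ _ _ e (Or.inr e0) (Or.inr e1) (Or.inr e2)
        intro i
        have : ρ (X i) = 0 := by
          fin_cases i
          · exact h0
          · exact h1
          · exact h2
        rw [hres] at this
        exact this
      · have n2 := hR.inv_nonunit_of_notMem m2
        refine ⟨![false, false, true], ?_, Or.inr ⟨0, ?_⟩⟩
        · intro i; fin_cases i
          · exact m0
          · exact m1
          · exact n2.1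
        · have h : MvPolynomial.aeval (S.a ![false, false, true])
              (MvPolynomial.pderiv 0 (branch ![false, false, true])) =
              1 + (S.x 2)⁻¹ * (2 * S.x 0 * S.x 1 * (S.x 2)⁻¹) := by
            simp [branch, Fin.sum_univ_three, Fin.prod_univ_three, expo, MvPolynomial.pderiv_X,
              Setup.a]
            ring
          rw [h]
          exact one_add _ _ n2 (R.mul_mem (R.mul_mem (R.mul_mem two m0) m1) n2.1)
    · have n1 := hR.inv_nonunit_of_notMem m1
      by_cases m2 : S.x 2 ∈ R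
      · refine ⟨![false, true, false], ?_, Or.inr ⟨2, ?_⟩⟩
        · intro i; fin_cases i
          · exact m0
          · exact n1.1
          · exact m2
        · have h : MvPolynomial.aeval (S.a ![false, true, false])
              (MvPolynomial.pderiv 2 (branch ![false, true, false])) =
              1 + (S.x 1)⁻¹ * (2 * S.x 0 * (S.x 1)⁻¹ * S.x 2) := by
            simp [branch, Fin.sum_univ_three, Fin.prod_univ_three, expo, MvPolynomial.pderiv_X,
              Setup.a]
            ring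
          rw [h]
          exact one_add _ _ n1 (R.mul_mem (R.mul_mem (R.mul_mem two m0) n1.1) m2)
      · have n2 := hR.inv_nonunit_of_notMem m2
        refine ⟨![false, true, true], ?_, Or.inr ⟨2, ?_⟩⟩
        · intro i; fin_cases i
          · exact m0
          · exact n1.1
          · exact n2.1
        · have h : MvPolynomial.aeval (S.a ![false, true, true])
              (MvPolynomial.pderiv 2 (branch ![false, true, true])) =
              1 + (S.x 1)⁻¹ * (2 * S.x 0 ^ 2 * (S.x 2)⁻¹) := by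
            simp [branch, Fin.sum_univ_three, Fin.prod_univ_three, expo, MvPolynomial.pderiv_X,
              Setup.a]
            ring
          rw [h]
          exact one_add _ _ n1 (R.mul_mem (R.mul_mem two (R.pow_mem m0 2)) n2.1)
  · have n0 := hR.inv_nonunit_of_notMem m0
    by_cases m1 : S.x 1 ∈ R
    · by_cases m2 : S.x 2 ∈ R
      · refine ⟨![true, false, false], ?_, Or.inr ⟨1, ?_⟩⟩
        · intro i; fin_cases i
          · exact n0.1
          · exact m1
          · exact m2
        · have h : MvPolynomial.aeval (S.a ![true, false, false])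
              (MvPolynomial.pderiv 1 (branch ![true, false, false])) =
              1 + (S.x 0)⁻¹ * (2 * (S.x 0)⁻¹ * S.x 1 * S.x 2) := by
            simp [branch, Fin.sum_univ_three, Fin.prod_univ_three, expo, MvPolynomial.pderiv_X,
              Setup.a]
            ring
          rw [h]
          exact one_add _ _ n0 (R.mul_mem (R.mul_mem (R.mul_mem two n0.1) m1) m2)
      · have n2 := hR.inv_nonunit_of_notMem m2
        refine ⟨![true, false, true], ?_, Or.inr ⟨0, ?_⟩⟩
        · intro i; fin_cases i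
          · exact n0.1
          · exact m1
          · exact n2.1
        · have h : MvPolynomial.aeval (S.a ![true, false, true])
              (MvPolynomial.pderiv 0 (branch ![true, false, true])) =
              1 + (S.x 0)⁻¹ * (2 * S.x 1 ^ 2 * (S.x 2)⁻¹) := by
            simp [branch, Fin.sum_univ_three, Fin.prod_univ_three, expo, MvPolynomial.pderiv_X,
              Setup.a]
            ring
          rw [h]
          exact one_add _ _ n0 (R.mul_mem (R.mul_mem two (R.pow_mem m1 2)) n2.1)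
    · have n1 := hR.inv_nonunit_of_notMem m1
      by_cases m2 : S.x 2 ∈ R
      · refine ⟨![true, true, false], ?_, Or.inr ⟨1, ?_⟩⟩
        · intro i; fin_cases i
          · exact n0.1
          · exact n1.1
          · exact m2
        · have h : MvPolynomial.aeval (S.a ![true, true, false])
              (MvPolynomial.pderiv 1 (branch ![true, true, false])) =
              1 + (S.x 0)⁻¹ * (2 * (S.x 1)⁻¹ * S.x 2 ^ 2) := by
            simp [branch, Fin.sum_univ_three, Fin.prod_univ_three, expo, MvPolynomial.pderiv_X,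
              Setup.a]
            ring
          rw [h]
          exact one_add _ _ n0 (R.mul_mem (R.mul_mem two n1.1) (R.pow_mem m2 2))
      · exfalso
        apply hinf
        intro i; fin_cases i
        · exact n0
        · exact n1
        · exact hR.inv_nonunit_of_notMem m2

end Pool.Agent.Lib.MP_0bb41e_ag
end

section

/-!
# The log Calabi-Yau pair
-/

namespace Pool.Agent.Lib.MP_0bb41e_ag

variable {K : Type} [Field K] [Algebra ℂ K] {R : Subalgebra ℂ K}
variable {E V : Type} [AddCommGroup E] [Module K E] [Module ℂ E] [AddCommGroup V] [Module K V]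
variable {d : Derivation ℂ K E} {f : E [⋀^Fin 3]→ₗ[K] V}

theorem Setup.model_isNormal (S : Setup K) : S.model.IsNormal := by
  intro O hO
  obtain ⟨I, hI⟩ := S.exists_chart hO
  have hl := hO.isLocalRing
  have heq := S.eq_localize hO I hI
  rw [heq]
  have hU := S.ufd I
  have hP : (ctr (S.ring I) O hI).IsPrime := inferInstance
  let _ := (Subalgebra.inclusion (le_localize (S.ring I) _ hP)).toRingHom.toAlgebra
  have := Crep.isLocalization_localize (S.ring I) (ctr (S.ring I) O hI)
  exact isIntegrallyClosed_of_isLocalization (R := S.ring I)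
    (localize (S.ring I) (ctr (S.ring I) O hI) hP) (ctr (S.ring I) O hI).primeCompl
    (Ideal.primeCompl_le_nonZeroDivisors _)

theorem Setup.Bd_isPrimeDivisor (S : Setup K) (i : Fin 3) : S.model.IsPrimeDivisor (S.Bd i) := by
  refine ⟨S.Bd_isPoint i, ?_⟩
  -- the ideal is generated by `x_i - 1`
  set g : S.ring I0 := ⟨S.x i - 1, Subalgebra.sub_mem _ (S.x_mem_ring i) (Subalgebra.one_mem _)⟩
    with hg
  have hk : ∃ k, sgl i k = false := sgl_ne i
  obtain ⟨k, hk⟩ := hk
  have hprime := S.PJ_isPrime I0 (sgl i) hk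
  have hspan : S.PJ I0 (sgl i) = Ideal.span {g} := by
    apply le_antisymm
    · rintro b ⟨p, q, hb, hp, hq⟩
      set A : Fin 3 → S.ring I0 := fun j => ⟨S.x j, S.x_mem_ring j⟩ with hA
      have h1 : ∀ j, sgl i j = true → A j - 1 ∈ Ideal.span {g} := by
        intro j hj
        have : j = i := by simpa [sgl] using hj
        subst this
        exact Ideal.mem_span_singleton_self _
      have h2 := aeval_mem_of_evJ (sgl i) A _ h1 hp
      have h3 := aeval_mem_of_evJ (sgl i) A _ h1 hq
      have hcoe : ∀ r : MvPolynomial (Fin 3) ℂ,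
          ((MvPolynomial.aeval A r : S.ring I0) : K) = MvPolynomial.aeval (S.a I0) r := by
        intro r
        have := MvPolynomial.aeval_algebraMap_apply (A := S.ring I0) (B := K) A r
        exact this.symm
      have h4 : b = MvPolynomial.aeval A p +
          MvPolynomial.aeval A q * ⟨S.w I0, S.w_mem_ring I0⟩ := by
        apply Subtype.ext
        push_cast
        rw [hcoe, hcoe, hb]
        rfl
      rw [h4]
      exact Ideal.add_mem _ h2 (Ideal.mul_mem_right _ _ h3)
    · rw [Ideal.span_singleton_le_iff_mem]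
      have h1 : (g : K) = S.el I0 (MvPolynomial.X i - 1) 0 := by
        simp [hg, Setup.el, S.a_I0]
      rw [S.mem_PJ I0 (sgl i) h1]
      simp [evJ, sgl]
  have hg0 : g ≠ 0 := by
    intro h
    exact S.x_sub_one_ne i (congrArg Subtype.val h)
  have hgp : Prime g := by
    rw [← Ideal.span_singleton_prime hg0, ← hspan]
    exact hprime
  have hP : (Ideal.span {g}).IsPrime := span_singleton_isPrime hgp
  have h5 := isDVR_localize_prime (S.isFractionRing I0) (S.ufd I0) hgp hP
  have h6 : S.Bd i = localize (S.ring I0) (Ideal.span {g}) hP := by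
    unfold Setup.Bd Setup.OJ Setup.loc
    congr 1
  rw [h6]
  exact h5

/-- A prime divisor of the model contained in no larger local ring. -/
theorem Setup.eq_Bd_of_le (S : Setup K) {D : Subalgebra ℂ K} (hD : S.model.IsPrimeDivisor D)
    {i : Fin 3} (h : D ≤ S.Bd i) : D = S.Bd i := by
  have h1 : S.x i - 1 ∈ nonunitsIn (S.Bd i) :=
    (S.x_sub_one_mem_OJ (sgl i) (sgl_ne i) i).2 (by simp [sgl])
  exact (hD.2.eq_of_le h h1 (S.x_sub_one_ne i)).symm

theorem Setup.w_mem_of_a_mem (S : Setup K) (hR : IsDVR R) (I : Fin 3 → Bool)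
    (ha : ∀ i, S.a I i ∈ R) : S.w I ∈ R := by
  apply hR.pow_mem_iff
  rw [S.w_sq]
  exact IsDVR.aeval_mem ha _

theorem Setup.ring_le_of_a_mem (S : Setup K) (hR : IsDVR R) (I : Fin 3 → Bool)
    (ha : ∀ i, S.a I i ∈ R) : S.ring I ≤ R := by
  refine Algebra.adjoin_le ?_
  rintro _ (rfl | ⟨i, rfl⟩)
  · exact S.w_mem_of_a_mem hR I ha
  · exact ha i

theorem Setup.L1_le_of (S : Setup K) (I : Fin 3 → Bool) {D : Subalgebra ℂ K}
    (hD : ∃ (P : Ideal (S.ring I)) (hP : P.IsPrime), D = localize (S.ring I) P hP)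
    {N : Submodule D E} (ha : ∀ i, d (S.a I i) ∈ N) (hw : d (S.w I) ∈ N) : L1 D d ≤ N := by
  obtain ⟨P, hP, rfl⟩ := hD
  exact S.L1_le I hP ha hw

/-- Upper bound for the order of the volume form along prime divisors of the model. -/
theorem Setup.upper (S : Setup K) {D : Subalgebra ℂ K} (hD : S.model.IsPrimeDivisor D)
    (hne : f (fun i => d (S.x i)) ≠ 0) :
    ∃ I, S.ring I ≤ D ∧ ∀ k : ℤ, OGE D d f (S.vol d f) k →
      k ≤ - ∑ i, valZ D (S.a I i - 1) := by
  have hR := hD.2
  -- the centre is not a singular point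
  have n0 : ¬ ∀ i, S.x i ∈ nonunitsIn D := by
    intro h
    have hI : S.ring I0 ≤ D := S.ring_le_of_a_mem hR I0 (fun i => (h i).1)
    exact S.not_all_nonunits I0 hD hI h
  have ninf : ¬ ∀ i, (S.x i)⁻¹ ∈ nonunitsIn D := by
    intro h
    have hI : S.ring (fun _ => true) ≤ D :=
      S.ring_le_of_a_mem hR _ (fun i => (h i).1)
    exact S.not_all_nonunits _ hD hI h
  obtain ⟨I, ha, hsm⟩ := S.smooth_chart hR n0 ninf
  have hI : S.ring I ≤ D := S.ring_le_of_a_mem hR I ha
  refine ⟨I, hI, fun k hk => ?_⟩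
  have hl := hD.1.isLocalRing
  have heq := S.eq_localize hD.1 I hI
  have hw0 := S.w_ne_zero I
  have hwD : S.w I ∈ D := hI (S.w_mem_ring I)
  have hfa := S.f_da_ne I hne
  have hchar : CharZero K := charZero_of_injective_algebraMap (algebraMap ℂ K).injective
  have hvol : S.vol d f = ((S.w I)⁻¹ * ∏ i, (S.a I i - 1)⁻¹) • f (fun i => d (S.a I i)) := by
    rw [S.vol_chart I, mul_smul]
    congr 1
    exact f.toMultilinearMap.map_smul_univ (fun i => (S.a I i - 1)⁻¹) (fun i => d (S.a I i))
  have hprod0 : ∏ i, (S.a I i - 1)⁻¹ ≠ 0 :=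
    Finset.prod_ne_zero_iff.2 (fun i _ => inv_ne_zero (S.a_sub_one_ne I i))
  have hvprod : valZ D (∏ i, (S.a I i - 1)⁻¹) = - ∑ i, valZ D (S.a I i - 1) := by
    rw [Fin.prod_univ_three, Fin.sum_univ_three]
    have e0 := inv_ne_zero (S.a_sub_one_ne I 0)
    have e1 := inv_ne_zero (S.a_sub_one_ne I 1)
    have e2 := inv_ne_zero (S.a_sub_one_ne I 2)
    rw [hR.valZ_mul (mul_ne_zero e0 e1) e2, hR.valZ_mul e0 e1, hR.valZ_inv (S.a_sub_one_ne I 0),
      hR.valZ_inv (S.a_sub_one_ne I 1), hR.valZ_inv (S.a_sub_one_ne I 2)]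
    ring
  have hL1 : ∀ N : Submodule D E, (∀ i, d (S.a I i) ∈ N) → d (S.w I) ∈ N → L1 D d ≤ N :=
    fun N h1 h2 => S.L1_le_of I ⟨_, _, heq⟩ h1 h2
  rcases hsm with hw | ⟨j, hj⟩
  · -- w is a unit
    have hu := hR.unit_of hwD hw
    have hwinv : (S.w I)⁻¹ ∈ D := inv_mem_of_notMem_nonunits hwD hw
    have hspan : L1 D d ≤ Submodule.span D (Set.range fun i => d (S.a I i)) := by
      apply hL1
      · intro i
        exact Submodule.subset_span ⟨i, rfl⟩
      · have h1 := S.d_w I d
        have h2 : d (S.w I) = ∑ j, ((algebraMap ℂ K (1 / 2)) * (S.w I)⁻¹ *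
            MvPolynomial.aeval (S.a I) (MvPolynomial.pderiv j (branch I))) • d (S.a I j) := by
          have h3 : ∀ j, ((algebraMap ℂ K (1 / 2)) * (S.w I)⁻¹ *
            MvPolynomial.aeval (S.a I) (MvPolynomial.pderiv j (branch I))) • d (S.a I j) =
            ((algebraMap ℂ K (1 / 2)) * (S.w I)⁻¹) •
              (MvPolynomial.aeval (S.a I) (MvPolynomial.pderiv j (branch I)) • d (S.a I j)) :=
            fun j => by rw [mul_smul]
          simp only [h3]
          rw [← Finset.smul_sum, ← h1, smul_smul]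
          have h4 : (algebraMap ℂ K (1 / 2)) * (S.w I)⁻¹ * (2 * S.w I) = 1 := by
            rw [map_div₀, map_one, map_ofNat]
            field_simp
          rw [h4, one_smul]
        rw [h2]
        refine Submodule.sum_mem _ (fun j _ => ?_)
        refine smul_mem_sub ?_ (Submodule.subset_span ⟨j, rfl⟩)
        exact D.mul_mem (D.mul_mem (D.algebraMap_mem _) hwinv) (IsDVR.aeval_mem ha _)
    rw [hvol] at hk
    have h5 := OGE_le_of_L1_le hR hspan hfa (mul_ne_zero (inv_ne_zero hw0) hprod0) hk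
    rw [hR.valZ_mul (inv_ne_zero hw0) hprod0, hR.valZ_inv hw0, hu.2, hvprod] at h5
    omega
  · -- a partial derivative is a unit
    set F : Fin 3 → K := fun j => MvPolynomial.aeval (S.a I) (MvPolynomial.pderiv j (branch I))
      with hF
    have hFD : ∀ j, F j ∈ D := fun j => IsDVR.aeval_mem ha _
    have hu := hR.unit_of (hFD j) hj
    have hFinv : (F j)⁻¹ ∈ D := inv_mem_of_notMem_nonunits (hFD j) hj
    have hdw : (2 * S.w I) • d (S.w I) = ∑ j, F j • d (S.a I j) := S.d_w I d
    set e : Fin 3 → E := Function.update (fun i => d (S.a I i)) j (d (S.w I)) with he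
    have hew : d (S.w I) ∈ Submodule.span D (Set.range e) :=
      Submodule.subset_span ⟨j, by rw [he, Function.update_self]⟩
    have hei : ∀ i, i ≠ j → d (S.a I i) ∈ Submodule.span D (Set.range e) := fun i hij =>
      Submodule.subset_span ⟨i, by rw [he, Function.update_of_ne hij]⟩
    have hej : d (S.a I j) ∈ Submodule.span D (Set.range e) := by
      have h1 : d (S.a I j) = (F j)⁻¹ • ((2 * S.w I) • d (S.w I) -
          ∑ i ∈ Finset.univ.erase j, F i • d (S.a I i)) := by
        rw [hdw, ← Finset.add_sum_erase _ _ (Finset.mem_univ j), add_sub_cancel_right, smul_smul,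
          inv_mul_cancel₀ hu.1, one_smul]
      rw [h1]
      refine smul_mem_sub hFinv (Submodule.sub_mem _ (smul_mem_sub ?_ hew)
        (Submodule.sum_mem _ (fun i hi => smul_mem_sub (hFD i) (hei i (Finset.ne_of_mem_erase hi)))))
      exact D.mul_mem (by simp) hwD
    have hspan : L1 D d ≤ Submodule.span D (Set.range e) := by
      apply hL1
      · intro i
        by_cases hij : i = j
        · rw [hij]; exact hej
        · exact hei i hij
      · exact hew
    have hfe : F j • f (fun i => d (S.a I i)) = (2 * S.w I) • f e := by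
      have h1 : f (Function.update (fun i => d (S.a I i)) j ((2 * S.w I) • d (S.w I))) =
          (2 * S.w I) • f e := by
        rw [f.map_update_smul]
      rw [← h1, hdw, f.map_update_sum, Finset.sum_eq_single j]
      · rw [f.map_update_smul, Function.update_eq_self]
      · intro i _ hij
        rw [f.map_update_smul, f.map_update_self _ (Ne.symm hij), smul_zero]
      · simp
    have h2w : (2 * S.w I) ≠ 0 := mul_ne_zero two_ne_zero hw0
    have hfe0 : f e ≠ 0 := by
      intro h
      rw [h, smul_zero] at hfe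
      exact (smul_ne_zero hu.1 hfa) hfe
    have hvol2 : S.vol d f = ((2 * (F j)⁻¹) * ∏ i, (S.a I i - 1)⁻¹) • f e := by
      rw [hvol]
      have h1 : f (fun i => d (S.a I i)) = ((F j)⁻¹ * (2 * S.w I)) • f e := by
        rw [mul_smul, ← hfe, smul_smul, inv_mul_cancel₀ hu.1, one_smul]
      rw [h1, smul_smul]
      congr 1
      field_simp
    rw [hvol2] at hk
    have h20 : (2 : K) ≠ 0 := two_ne_zero
    have hv2 : valZ D (2 : K) = 0 := by
      have := hR.valZ_algebraMap (c := 2) two_ne_zero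
      rwa [map_ofNat] at this
    have h5 := OGE_le_of_L1_le hR hspan hfe0
      (mul_ne_zero (mul_ne_zero h20 (inv_ne_zero hu.1)) hprod0) hk
    rw [hR.valZ_mul (mul_ne_zero h20 (inv_ne_zero hu.1)) hprod0,
      hR.valZ_mul h20 (inv_ne_zero hu.1), hR.valZ_inv hu.1, hu.2, hv2, hvprod] at h5
    omega

end Pool.Agent.Lib.MP_0bb41e_ag
end

section

/-!
# The log Calabi-Yau pair, part 2: dlt and factoriality
-/

namespace Pool.Agent.Lib.MP_0bb41e_ag

variable {K : Type} [Field K] [Algebra ℂ K] {R : Subalgebra ℂ K}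

/-- The model is factorial. -/
theorem Setup.model_isQFactorial (S : Setup K) : S.model.IsQFactorial := by
  intro D hD
  refine ⟨1, Nat.one_pos, fun O hO => ?_⟩
  by_cases hOD : O ≤ D
  · obtain ⟨I, hI⟩ := S.exists_chart hO
    have hU := S.ufd I
    have hl := hD.1.isLocalRing
    have heq := S.eq_localize hD.1 I (hI.trans hOD)
    have hdvr : IsDVR (localize (S.ring I) (ctr (S.ring I) D (hI.trans hOD)) inferInstance) := by
      rw [← heq]; exact hD.2
    obtain ⟨g, hg, hgP⟩ := exists_prime_of_isDVR hU _ hdvr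
    have hg0 : (g : K) ≠ 0 := fun h => hg.ne_zero (Subtype.ext h)
    refine ⟨g, hg0, fun E hE hOE => ⟨?_, ?_⟩⟩
    · rintro rfl
      -- `g` is a uniformizer
      have hR := hD.2
      have h1 : (g : K) ∈ nonunitsIn E := by
        rw [← mem_ctr (hI.trans hOD), hgP]
        exact Ideal.mem_span_singleton_self g
      have h2 := (hR.mem_nonunits_iff hg0).1 h1
      obtain ⟨ϖ, hϖ⟩ := hR.exists_irreducible
      have hϖ0 := coe_ne_zero_of_irreducible hϖ
      have h3 : (ϖ : K) ∈ nonunitsIn E := by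
        rw [mem_nonunitsIn_iff]; exact hϖ.not_isUnit
      have h4 : (ϖ : K) ∈ nonunitsIn (localize (S.ring I)
          (ctr (S.ring I) E (hI.trans hOD)) inferInstance) := by
        rw [← heq]; exact h3
      rw [mem_nonunits_localize] at h4
      obtain ⟨a, b, ha, hb, h5⟩ := h4
      rw [hgP, Ideal.mem_span_singleton] at ha
      obtain ⟨c, hc⟩ := ha
      have hb0 := coe_ne_zero_of_notMem hb
      have hcb : (c : K) / b ∈ E := by
        rw [heq]
        exact ⟨c, b, hb, rfl⟩
      have h6 : (ϖ : K) = (g : K) * ((c : K) / b) := by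
        rw [h5, hc]; push_cast; ring
      have hcb0 : (c : K) / b ≠ 0 := by
        intro h
        rw [h, mul_zero] at h6
        exact hϖ0 h6
      have h7 := hR.valZ_irreducible hϖ
      rw [h6, hR.valZ_mul hg0 hcb0] at h7
      have h8 := (hR.mem_iff hcb0).1 hcb
      have h9 : valZ E (g : K) = ((1 : ℕ) : ℤ) := by push_cast; omega
      rw [← h9]
      exact hR.hasVal hg0
    · intro hne
      have hR := hE.2
      have hlE := hE.1.isLocalRing
      have heqE := S.eq_localize hE.1 I (hI.trans hOE)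
      have hdvrE : IsDVR (localize (S.ring I) (ctr (S.ring I) E (hI.trans hOE)) inferInstance) := by
        rw [← heqE]; exact hE.2
      obtain ⟨h, hh, hhP⟩ := exists_prime_of_isDVR hU _ hdvrE
      have h1 : (g : K) ∉ nonunitsIn E := by
        rw [← mem_ctr (hI.trans hOE), hhP, Ideal.mem_span_singleton]
        intro hdvd
        have hassoc : Associated h g := (hh.dvd_prime_iff_associated hg).1 hdvd
        apply hne
        rw [heq, heqE]
        congr 1
        rw [hgP, hhP]
        exact Ideal.span_singleton_eq_span_singleton.2 hassoc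
      have hgE : (g : K) ∈ E := (hI.trans hOE) g.2
      have h2 := (hR.unit_of hgE h1).2
      have h3 := hR.hasVal hg0
      rw [h2] at h3
      exact h3
  · refine ⟨1, one_ne_zero, fun E hE hOE => ⟨?_, ?_⟩⟩
    · rintro rfl
      exact absurd hOE hOD
    · intro _
      have h3 := hE.2.hasVal (one_ne_zero (α := K))
      rw [hE.2.valZ_one] at h3
      exact h3

/-- The volume form of the pair. -/
noncomputable def Setup.volK (S : Setup K) : RatForm K 3 :=
  S.vol (KaehlerDifferential.D ℂ K) (gmap K 3)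

theorem Setup.ordGE_volK_iff (S : Setup K) (R : Subalgebra ℂ K) (k : ℤ) :
    OrdGE R S.volK k ↔
      OGE R (KaehlerDifferential.D ℂ K) (gmap K 3)
        (S.vol (KaehlerDifferential.D ℂ K) (gmap K 3)) k := ordGE_iff_OGE _ _

theorem Setup.hasOrd_in (S : Setup K) (D : Subalgebra ℂ K) (hD : D ∈ S.bdry) :
    HasOrd D S.volK (-1) := by
  obtain ⟨i, rfl⟩ := hD
  have hP := S.Bd_isPrimeDivisor i
  have hR := hP.2
  refine ⟨(S.ordGE_volK_iff _ _).2 (S.main_local hR).1, ?_⟩
  intro h
  rw [S.ordGE_volK_iff] at h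
  obtain ⟨I, hI, hk⟩ := S.upper hP S.f_dx_ne
  have h1 := hk 0 h
  have h2 : S.a I i - 1 ∈ nonunitsIn (S.Bd i) := (S.le_Bd_iff I i hP.1 hI).1 le_rfl
  have h3 := (hR.mem_nonunits_iff (S.a_sub_one_ne I i)).1 h2
  have h4 : ∀ j, 0 ≤ valZ (S.Bd i) (S.a I j - 1) := by
    intro j
    rw [← hR.mem_iff (S.a_sub_one_ne I j)]
    exact Subalgebra.sub_mem _ (hI (S.a_mem_ring I j)) (Subalgebra.one_mem _)
  have h5 : valZ (S.Bd i) (S.a I i - 1) ≤ ∑ j, valZ (S.Bd i) (S.a I j - 1) :=
    Finset.single_le_sum (fun j _ => h4 j) (Finset.mem_univ i)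
  omega

theorem Setup.hasOrd_out (S : Setup K) (D : Subalgebra ℂ K) (hD : S.model.IsPrimeDivisor D)
    (hDB : D ∉ S.bdry) : HasOrd D S.volK 0 := by
  have hR := hD.2
  constructor
  · by_contra hcon
    rw [S.ordGE_volK_iff] at hcon
    obtain ⟨hx, _, ⟨i, hi⟩, _⟩ := (S.main_local hR).2 hcon
    have hI : S.ring I0 ≤ D := S.ring_le_of_a_mem hR I0 hx
    have h1 : D ≤ S.Bd i := (S.le_Bd_iff I0 i hD.1 hI).2 hi
    exact hDB ⟨i, (S.eq_Bd_of_le hD h1).symm⟩
  · intro h
    rw [S.ordGE_volK_iff] at h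
    obtain ⟨I, hI, hk⟩ := S.upper hD S.f_dx_ne
    have h1 := hk 1 h
    have h2 : ∀ j, valZ D (S.a I j - 1) = 0 := by
      intro j
      have h3 : S.a I j - 1 ∈ D :=
        Subalgebra.sub_mem _ (hI (S.a_mem_ring I j)) (Subalgebra.one_mem _)
      refine (hR.unit_of h3 ?_).2
      intro h4
      have h5 : D ≤ S.Bd j := (S.le_Bd_iff I j hD.1 hI).2 h4
      exact hDB ⟨j, (S.eq_Bd_of_le hD h5).symm⟩
    simp only [h2, Finset.sum_const_zero] at h1
    omega

/-- The log Calabi-Yau pair. -/
noncomputable def Setup.pair (S : Setup K) : LogCYPair K 3 where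
  X := S.model
  B := S.bdry
  vol := S.volK
  dim := by rw [S.trdeg_eq]; norm_num
  normal := S.model_isNormal
  finite := Set.finite_range _
  prime := by rintro _ ⟨i, rfl⟩; exact S.Bd_isPrimeDivisor i
  div_in := S.hasOrd_in
  div_out := S.hasOrd_out
  lc := fun R hR => (S.ordGE_volK_iff _ _).2
    (S.main_local (by obtain ⟨Y, _, _, h⟩ := hR; exact h.2)).1

theorem evJ_idem (J : Fin 3 → Bool) (p : MvPolynomial (Fin 3) ℂ) : evJ J (evJ J p) = evJ J p := by
  have : (evJ J).comp (evJ J) = evJ J := by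
    apply MvPolynomial.algHom_ext
    intro i
    simp only [AlgHom.comp_apply, evJ, MvPolynomial.aeval_X]
    by_cases hi : J i = true
    · simp [hi]
    · simp [hi]
  exact DFunLike.congr_fun this p

theorem vars_evJ (J : Fin 3 → Bool) (p : MvPolynomial (Fin 3) ℂ) (j : Fin 3)
    (hj : j ∈ (evJ J p).vars) : J j = false := by
  classical
  have h := MvPolynomial.vars_bind₁ (fun i : Fin 3 => if J i then (1 : MvPolynomial (Fin 3) ℂ)
    else MvPolynomial.X i) p hj
  rw [Finset.mem_biUnion] at h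
  obtain ⟨i, _, hi⟩ := h
  by_cases hJi : J i = true
  · simp [hJi] at hi
  · simp only [hJi] at hi
    have : j = i := by simpa using hi
    rw [this]
    simpa using hJi

/-- Divisorial valuations with a pole of the volume form are centred at strata. -/
theorem Setup.dlt_center (S : Setup K) (hR : IsDVR R)
    (h : ¬ OrdGE R S.volK 0) {O : Subalgebra ℂ K} (hO : S.model.IsPoint O) (hRO : Dominates R O) :
    S.model.IsSNCAt S.bdry O := by
  classical
  rw [S.ordGE_volK_iff] at h
  obtain ⟨hx, hz, ⟨i0, hi0⟩, hP⟩ := (S.main_local hR).2 h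
  have hl := hO.isLocalRing
  have hlR := hR.isLocalRing
  -- all x_i are units of R
  have hxu : ∀ i, S.x i ∉ nonunitsIn R := by
    intro i hn
    by_cases hi : S.x i - 1 ∈ nonunitsIn R
    · apply hR.one_notMem
      have := hR.nonunits_add hn (hR.nonunits_neg hi)
      simpa using this
    · have h1 := hP (MvPolynomial.X i) (MvPolynomial.X_ne_zero i) (by
        intro j hj
        have : j = i := by simpa using hj
        rw [this]; exact hi)
      rw [MvPolynomial.aeval_X] at h1
      exact h1 hn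
  have hxinv : ∀ i, (S.x i)⁻¹ ∈ R := fun i => inv_mem_of_notMem_nonunits (hx i) (hxu i)
  have hau : ∀ I i, S.a I i ∉ nonunitsIn R := by
    intro I i hn
    unfold Setup.a at hn
    split_ifs at hn
    · rcases hn.2 with h1 | h1
      · exact inv_ne_zero (S.x_ne_zero i) h1
      · rw [inv_inv] at h1; exact h1 (hx i)
    · exact hxu i hn
  obtain ⟨I, hI⟩ := S.exists_chart hO
  have h0 : S.ring I0 ≤ O := S.ring_le I I0 hI (fun i =>
    inv_mem_of_notMem_nonunits (hI (S.a_mem_ring I i)) (fun hn => hau I i (hRO.2 hn)))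
  have heq := S.eq_localize hO I0 h0
  set J : Fin 3 → Bool := fun i => decide (S.x i - 1 ∈ nonunitsIn R) with hJdef
  have hJt : ∀ i, J i = true ↔ S.x i - 1 ∈ nonunitsIn R := by intro i; simp [hJdef]
  have hxO : ∀ i, S.x i - 1 ∈ O := fun i => O.sub_mem (h0 (S.x_mem_ring i)) O.one_mem
  have hxRO : ∀ i, S.x i - 1 ∈ nonunitsIn R → S.x i - 1 ∈ nonunitsIn O := fun i hi =>
    nonunits_of_le hRO.1 (hxO i) hi
  by_cases hJ : ∃ k, J k = false
  · have hle : O ≤ S.OJ J hJ := S.le_loc_of I0 J hJ hO h0 (fun i hi => hxRO i ((hJt i).1 hi))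
    have hge : S.OJ J hJ ≤ O := by
      rw [heq]
      obtain ⟨k, hk⟩ := id hJ
      refine localize_mono inferInstance (S.PJ_isPrime I0 J hk) (fun b hb => ?_)
      rw [mem_ctr] at hb
      have hbR := hRO.2 hb
      obtain ⟨p, q, hbel⟩ := S.exists_el I0 b
      rw [S.mem_PJ I0 J hbel]
      set N := p ^ 2 - q ^ 2 * branch I0 with hN
      have hxR : S.ring I0 ≤ R := h0.trans hRO.1
      have hNR : MvPolynomial.aeval S.x N ∈ nonunitsIn R := by
        have h1 : MvPolynomial.aeval S.x N = (b : K) * S.el I0 p (-q) := by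
          rw [hbel, S.el_mul]
          have e1 : p * p + q * -q * branch I0 = N := by rw [hN]; ring
          have e2 : p * -q + q * p = 0 := by ring
          rw [e1, e2]
          unfold Setup.el
          rw [map_zero, zero_mul, add_zero]
          rfl
        rw [h1]
        exact hR.nonunits_mul hbR (hxR (S.el_mem I0 _ _))
      set X : Fin 3 → R := fun i => ⟨S.x i, hx i⟩ with hX
      have hcoe : ∀ r : MvPolynomial (Fin 3) ℂ,
          ((MvPolynomial.aeval X r : R) : K) = MvPolynomial.aeval S.x r := by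
        intro r
        have := MvPolynomial.aeval_algebraMap_apply (A := R) (B := K) X r
        exact this.symm
      have h2 : MvPolynomial.aeval X (N - evJ J N) ∈ IsLocalRing.maximalIdeal R := by
        apply aeval_mem_of_evJ J X
        · intro i hi
          rw [IsLocalRing.mem_maximalIdeal, mem_nonunits_iff, ← mem_nonunitsIn_iff]
          exact (hJt i).1 hi
        · rw [map_sub, evJ_idem, sub_self]
      rw [IsLocalRing.mem_maximalIdeal, mem_nonunits_iff, ← mem_nonunitsIn_iff, hcoe] at h2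
      have h3 : MvPolynomial.aeval S.x (evJ J N) ∈ nonunitsIn R := by
        rw [map_sub (MvPolynomial.aeval S.x) N (evJ J N)] at h2
        have := hR.nonunits_add hNR (hR.nonunits_neg h2)
        have e : MvPolynomial.aeval S.x N + -(MvPolynomial.aeval S.x N -
          MvPolynomial.aeval S.x (evJ J N)) = MvPolynomial.aeval S.x (evJ J N) := by ring
        rwa [e] at this
      have h4 : evJ J N = 0 := by
        by_contra hne
        refine hP _ hne (fun j hj => ?_) h3
        intro hcon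
        have := vars_evJ J N j hj
        rw [(hJt j).2 hcon] at this
        exact Bool.noConfusion this
      rw [hN, map_sub, map_mul, map_pow, map_pow, sub_eq_zero] at h4
      exact evJ_branch_sq hk h4
    have hOJ : O = S.OJ J hJ := le_antisymm hle hge
    rw [hOJ]
    exact S.OJ_snc J hJ ⟨i0, (hJt i0).2 hi0⟩
  · push Not at hJ
    have hall : ∀ i, S.a I0 i - 1 ∈ nonunitsIn O := by
      intro i
      apply hxRO i
      rw [← hJt]
      simpa using hJ i
    obtain ⟨s, hs⟩ := IsAlgClosed.exists_pow_nat_eq (3 : ℂ) (n := 2) (by norm_num)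
    rcases S.eq_pt_or I0 s hs hO h0 hall with h1 | h1
    · rw [h1]; exact S.pt_snc s hs
    · rw [h1]; exact S.pt_snc (-s) _

/-- The pair is its own dlt modification. -/
theorem Setup.dlt (S : Setup K) : IsDltModification S.pair S.model S.bdry where
  normal := S.model_isNormal
  mapsTo := fun O hO => ⟨O, hO, le_rfl, subset_rfl⟩
  boundary := by
    intro D
    constructor
    · intro hD
      exact ⟨by obtain ⟨i, rfl⟩ := hD; exact S.Bd_isPrimeDivisor i, Or.inl hD⟩
    · rintro ⟨hD, h | h⟩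
      · exact h
      · exact absurd hD.1 h
  div_in := S.hasOrd_in
  div_out := S.hasOrd_out
  qfact := S.model_isQFactorial
  dlt := fun R hR h O hO hRO => S.dlt_center (by obtain ⟨Y, _, _, h⟩ := hR; exact h.2) h hO hRO

end Pool.Agent.Lib.MP_0bb41e_ag
end

section

/-!
# The pair is not log rational
-/

namespace Pool.Agent.Lib.MP_0bb41e_ag

open KaehlerDifferential

variable {K : Type} [Field K] [Algebra ℂ K]

theorem L1_le_of_stable {R : Subalgebra ℂ K} (t : Fin 3 → K) (b : Module.Basis (Fin 3) K Ω[K⁄ℂ])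
    (hb : ∀ i, b i = KaehlerDifferential.D ℂ K (t i))
    (hst : ∀ D : Derivation ℂ K K, (∀ i, D (t i) ∈ R) → ∀ x ∈ R, D x ∈ R) :
    L1 R (KaehlerDifferential.D ℂ K) ≤ Submodule.span R (Set.range b) := by
  refine Submodule.span_le.2 ?_
  rintro _ ⟨x, rfl⟩
  have h1 : KaehlerDifferential.D ℂ K (x : K) =
      ∑ i, (b.repr (KaehlerDifferential.D ℂ K (x : K)) i) • b i := (b.sum_repr _).symm
  have h2 : ∀ i, b.repr (KaehlerDifferential.D ℂ K (x : K)) i ∈ R := by
    intro i
    refine hst ((b.coord i).compDer (KaehlerDifferential.D ℂ K)) (fun j => ?_) x x.2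
    change b.coord i (KaehlerDifferential.D ℂ K (t j)) ∈ R
    rw [← hb, Module.Basis.coord_apply, Module.Basis.repr_self, Finsupp.single_apply]
    split_ifs
    · exact R.one_mem
    · exact R.zero_mem
  change KaehlerDifferential.D ℂ K (x : K) ∈ _
  rw [h1]
  exact Submodule.sum_mem _ (fun i _ => smul_mem_sub (h2 i) (Submodule.subset_span ⟨i, rfl⟩))

theorem Setup.vol_eq (S : Setup K) {V : Type} [AddCommGroup V] [Module K V]
    (f : Ω[K⁄ℂ] [⋀^Fin 3]→ₗ[K] V) :
    S.vol (KaehlerDifferential.D ℂ K) f = ((S.z)⁻¹ * ∏ i, (S.x i - 1)⁻¹) •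
      f (fun i => KaehlerDifferential.D ℂ K (S.x i)) := by
  unfold Setup.vol
  rw [mul_smul]
  congr 1
  exact f.toMultilinearMap.map_smul_univ (fun i => (S.x i - 1)⁻¹)
    (fun i => KaehlerDifferential.D ℂ K (S.x i))

theorem Setup.volK_ne_zero (S : Setup K) : S.volK ≠ 0 := by
  unfold Setup.volK
  rw [S.vol_eq]
  refine smul_ne_zero (mul_ne_zero (inv_ne_zero S.z_ne_zero) ?_) S.f_dx_ne
  exact Finset.prod_ne_zero_iff.2 (fun i _ => inv_ne_zero (S.x_sub_one_ne i))

theorem Setup.Phi_vol (S : Setup K) :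
    Phi K (S.vol (KaehlerDifferential.D ℂ K) (exteriorPower.ιMulti K 3)) = S.volK := by
  unfold Setup.volK
  rw [S.vol_eq, S.vol_eq, map_smul, Phi_ιMulti]

theorem Setup.not_isLogRational (S : Setup K) : ¬ S.pair.IsLogRational := by
  rintro ⟨t, h0, hg, Y, hind, hY, _, _, hord⟩
  change ∀ D, Y.IsPrimeDivisor D → ∀ k : ℤ, HasOrd D S.volK k ↔ HasOrd D (dlogForm t) k at hord
  obtain ⟨b, hb⟩ := exists_basis_of_gen t hind hg
  have hfb : gmap K 3 b ≠ 0 := gmap_basis_ne_zero b
  have hbt : gmap K 3 b = dwedge t := by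
    rw [← gmap_D]
    congr 1
    exact funext hb
  have hprod : (∏ i, (t i)⁻¹) ≠ 0 := Finset.prod_ne_zero_iff.2 (fun i _ => inv_ne_zero (h0 i))
  have hdl : dlogForm t = (∏ i, (t i)⁻¹) • gmap K 3 b := by
    rw [hbt]; rfl
  have hdlE : Phi K ((∏ i, (t i)⁻¹) • exteriorPower.ιMulti K 3 b) = dlogForm t := by
    rw [map_smul, Phi_ιMulti, hdl]
  have hinj := S.Phi_injective
  have hω' : (∏ i, (t i)⁻¹) • exteriorPower.ιMulti K 3 b ≠ 0 :=
    smul_ne_zero hprod (iMulti_basis_ne_zero b)
  obtain ⟨h, hh⟩ := exists_smul_eq_of_finrank_eq_one S.finrank_ext hω'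
    (S.vol (KaehlerDifferential.D ℂ K) (exteriorPower.ιMulti K 3))
  have hvh : S.volK = h • dlogForm t := by
    rw [← S.Phi_vol, ← hh, map_smul, hdlE]
  have hh0 : h ≠ 0 := by
    rintro rfl
    rw [zero_smul] at hvh
    exact S.volK_ne_zero hvh
  obtain ⟨c, hc⟩ := crepant_form Y hY (S.vol (KaehlerDifferential.D ℂ K)
    (exteriorPower.ιMulti K 3)) ((∏ i, (t i)⁻¹) • exteriorPower.ιMulti K 3 b) h hh0 hh.symm hω'
    S.finrank_ext (fun D hD k => by
      rw [← hasOrd_Phi_iff hinj, ← hasOrd_Phi_iff hinj, S.Phi_vol, hdlE]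
      exact hord D hD k)
  have hc0 : c ≠ 0 := by
    rintro rfl
    rw [map_zero] at hc
    exact hh0 hc
  obtain ⟨a, ha⟩ := IsAlgClosed.exists_pow_nat_eq (4 : ℂ) (n := 3) (by norm_num)
  obtain ⟨R, hR, hram⟩ := S.ramified a ha
  apply hram
  have hx0 := S.x_ne_zero 0
  have hx1 := S.x_ne_zero 1
  have hz := S.z_ne_zero
  have hg0 : S.x 1 / S.x 0 - algebraMap ℂ K a ≠ 0 := by
    intro hcon
    have h1 : S.x 1 = algebraMap ℂ K a * S.x 0 := by
      rw [sub_eq_zero, div_eq_iff hx0] at hcon
      exact hcon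
    have h2 : MvPolynomial.aeval S.x (MvPolynomial.X 1 - MvPolynomial.C a * MvPolynomial.X 0 :
        MvPolynomial (Fin 3) ℂ) = 0 := by
      simp [h1, MvPolynomial.algebraMap_eq]
    have h3 := (injective_iff_map_eq_zero _).1 (algebraicIndependent_iff_injective_aeval.1 S.indep)
      _ h2
    have h4 := congrArg (MvPolynomial.eval ![0, 1, 0]) h3
    simp at h4
  refine unramified_trivial t hind hg _ _ (div_ne_zero (pow_ne_zero _ hz) (pow_ne_zero _ hx0))
    (mul_ne_zero (div_ne_zero hx1 hx0) hg0) ?_ R hR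
  intro R' hR' htR hst
  by_contra hcon
  have hcase := S.tame_center a ha R' hR' hcon
  have hOGE : OGE R' (KaehlerDifferential.D ℂ K) (gmap K 3) S.volK 1 := by
    rcases hcase with h1 | h1
    · exact S.caseQ hR' h1
    · exact S.caseQinf hR' h1
  have hle := L1_le_of_stable t b hb hst
  have hvol : S.volK = (algebraMap ℂ K c * ∏ i, (t i)⁻¹) • gmap K 3 b := by
    rw [hvh, hdl, hc, smul_smul]
  have hcK : algebraMap ℂ K c ≠ 0 := by rw [← hc]; exact hh0
  rw [hvol] at hOGE
  have hk := OGE_le_of_L1_le hR' hle hfb (mul_ne_zero hcK hprod) hOGE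
  rw [hR'.valZ_mul hcK hprod, hR'.valZ_algebraMap hc0, Fin.prod_univ_three,
    hR'.valZ_mul (mul_ne_zero (inv_ne_zero (h0 0)) (inv_ne_zero (h0 1))) (inv_ne_zero (h0 2)),
    hR'.valZ_mul (inv_ne_zero (h0 0)) (inv_ne_zero (h0 1)), hR'.valZ_inv (h0 0),
    hR'.valZ_inv (h0 1), hR'.valZ_inv (h0 2)] at hk
  have v0 := (hR'.mem_iff (h0 0)).1 (htR 0)
  have v1 := (hR'.mem_iff (h0 1)).1 (htR 1)
  have v2 := (hR'.mem_iff (h0 2)).1 (htR 2)
  omega

end Pool.Agent.Lib.MP_0bb41e_ag
end
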