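import Pool.Agent.Lib.MP_0bb41e_ag.Sphere
import Pool.Agent.Lib.MP_0bb41e_ag.Ramified
import Pool.Agent.Lib.MP_0bb41e_ag.Charts
import Pool.Agent.Lib.MP_0bb41e_ag.Strata2

section

/-!
# Forms as alternating functions of derivations
-/

namespace Pool.Agent.Lib.MP_0bb41e_ag

open KaehlerDifferential

variable {K : Type} [Field K] [Algebra ℂ K] {R : Subalgebra ℂ K}

theorem dwedge_apply {n : ℕ} (a : Fin n → K) (D : Fin n → Derivation ℂ K K) :
    dwedge a D = Matrix.det (Matrix.of fun i j => D i (a j)) := rfl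

/-- Evaluation of one-forms at a derivation. -/
noncomputable def evalE {n : ℕ} (η : Fin n → Ω[K⁄ℂ]) : Derivation ℂ K K →ₗ[K] Fin n → K where
  toFun D i := D.liftKaehlerDifferential (η i)
  map_add' D D' := by
    funext i
    have : (D + D').liftKaehlerDifferential =
        D.liftKaehlerDifferential + D'.liftKaehlerDifferential := by
      apply Derivation.liftKaehlerDifferential_unique
      ext x
      simp
    rw [this]
    rfl
  map_smul' c D := by
    funext i
    have : (c • D).liftKaehlerDifferential = c • D.liftKaehlerDifferential := by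
      apply Derivation.liftKaehlerDifferential_unique
      ext x
      simp
    rw [this]
    rfl

/-- The wedge product of one-forms, as an alternating function of derivations. -/
noncomputable def gmap (K : Type) [Field K] [Algebra ℂ K] (n : ℕ) :
    Ω[K⁄ℂ] [⋀^Fin n]→ₗ[K] RatForm K n where
  toFun η := Matrix.detRowAlternating.compLinearMap (evalE η)
  map_update_add' {inst} η i a b := by
    have : inst = instDecidableEqFin n := Subsingleton.elim _ _
    subst this
    ext D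
    change Matrix.det (Matrix.of fun k j => (D k).liftKaehlerDifferential
      (Function.update η i (a + b) j)) = Matrix.det (Matrix.of fun k j =>
      (D k).liftKaehlerDifferential (Function.update η i a j)) +
      Matrix.det (Matrix.of fun k j => (D k).liftKaehlerDifferential (Function.update η i b j))
    have key : ∀ c : Ω[K⁄ℂ], (Matrix.of fun k j =>
        (D k).liftKaehlerDifferential (Function.update η i c j)) =
        (Matrix.of fun k j => (D k).liftKaehlerDifferential (η j)).updateCol i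
          (fun k => (D k).liftKaehlerDifferential c) := by
      intro c
      ext k j
      rcases eq_or_ne j i with rfl | hj
      · simp
      · simp [hj]
    rw [key, key, key, ← Matrix.det_updateCol_add]
    congr 2
    funext k
    simp
  map_update_smul' {inst} η i c a := by
    have : inst = instDecidableEqFin n := Subsingleton.elim _ _
    subst this
    ext D
    change Matrix.det (Matrix.of fun k j => (D k).liftKaehlerDifferential
      (Function.update η i (c • a) j)) = c • Matrix.det (Matrix.of fun k j =>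
      (D k).liftKaehlerDifferential (Function.update η i a j))
    have key : ∀ c : Ω[K⁄ℂ], (Matrix.of fun k j =>
        (D k).liftKaehlerDifferential (Function.update η i c j)) =
        (Matrix.of fun k j => (D k).liftKaehlerDifferential (η j)).updateCol i
          (fun k => (D k).liftKaehlerDifferential c) := by
      intro c
      ext k j
      rcases eq_or_ne j i with rfl | hj
      · simp
      · simp [hj]
    rw [key, key, smul_eq_mul, ← Matrix.det_updateCol_smul]
    congr 2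
    funext k
    simp
  map_eq_zero_of_eq' η i j hij hne := by
    ext D
    change Matrix.det (Matrix.of fun k j => (D k).liftKaehlerDifferential (η j)) = 0
    apply Matrix.det_zero_of_column_eq hne
    intro k
    simp [hij]

theorem gmap_apply {n : ℕ} (η : Fin n → Ω[K⁄ℂ]) (D : Fin n → Derivation ℂ K K) :
    gmap K n η D = Matrix.det (Matrix.of fun k j => (D k).liftKaehlerDifferential (η j)) := rfl

theorem gmap_D {n : ℕ} (a : Fin n → K) :
    gmap K n (fun i => KaehlerDifferential.D ℂ K (a i)) = dwedge a := by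
  ext D
  rw [gmap_apply, dwedge_apply]
  simp

theorem formLattice_eq (R : Subalgebra ℂ K) :
    formLattice 3 R = L3 R (KaehlerDifferential.D ℂ K) (gmap K 3) := by
  unfold formLattice L3
  congr 1
  apply congrArg Set.range
  funext a
  exact (gmap_D fun i => (a i : K)).symm

theorem ordGE_iff_OGE (ω : RatForm K 3) (k : ℤ) :
    OrdGE R ω k ↔ OGE R (KaehlerDifferential.D ℂ K) (gmap K 3) ω k := by
  unfold OrdGE OGE
  rw [formLattice_eq]

theorem extOrdGE_iff_OGE (ω : ⋀[K]^3 Ω[K⁄ℂ]) (k : ℤ) :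
    ExtOrdGE R ω k ↔ OGE R (KaehlerDifferential.D ℂ K) (exteriorPower.ιMulti K 3) ω k := Iff.rfl

/-- The linear map from the exterior power to alternating functions. -/
noncomputable def Phi (K : Type) [Field K] [Algebra ℂ K] : ⋀[K]^3 Ω[K⁄ℂ] →ₗ[K] RatForm K 3 :=
  exteriorPower.alternatingMapLinearEquiv (gmap K 3)

theorem Phi_ιMulti (η : Fin 3 → Ω[K⁄ℂ]) :
    Phi K (exteriorPower.ιMulti K 3 η) = gmap K 3 η :=
  exteriorPower.alternatingMapLinearEquiv_apply_ιMulti _ _

/-- The image of the lattice. -/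
theorem mem_L3_Phi {ω : ⋀[K]^3 Ω[K⁄ℂ]}
    (h : ω ∈ L3 R (KaehlerDifferential.D ℂ K) (exteriorPower.ιMulti K 3)) :
    Phi K ω ∈ L3 R (KaehlerDifferential.D ℂ K) (gmap K 3) := by
  refine Submodule.span_induction
    (p := fun ω _ => Phi K ω ∈ L3 R (KaehlerDifferential.D ℂ K) (gmap K 3)) ?_ ?_ ?_ ?_ h
  · rintro _ ⟨a, rfl⟩
    exact Submodule.subset_span ⟨a, (Phi_ιMulti _).symm⟩
  · rw [map_zero]; exact Submodule.zero_mem _
  · intro x y _ _ hx hy
    rw [map_add]; exact Submodule.add_mem _ hx hy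
  · intro r x _ hx
    have : Phi K (r • x) = (r : K) • Phi K x := (Phi K).map_smul (r : K) x
    rw [this]
    exact smul_mem_sub r.2 hx

theorem exists_mem_L3_of_Phi {η : RatForm K 3}
    (h : η ∈ L3 R (KaehlerDifferential.D ℂ K) (gmap K 3)) :
    ∃ ω ∈ L3 R (KaehlerDifferential.D ℂ K) (exteriorPower.ιMulti K 3 (M := Ω[K⁄ℂ])),
      Phi K ω = η := by
  refine Submodule.span_induction
    (p := fun η _ => ∃ ω ∈ L3 R (KaehlerDifferential.D ℂ K)
      (exteriorPower.ιMulti K 3 (M := Ω[K⁄ℂ])), Phi K ω = η) ?_ ?_ ?_ ?_ h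
  · rintro _ ⟨a, rfl⟩
    exact ⟨_, Submodule.subset_span ⟨a, rfl⟩, Phi_ιMulti _⟩
  · exact ⟨0, Submodule.zero_mem _, map_zero _⟩
  · rintro x y _ _ ⟨a, ha, rfl⟩ ⟨b, hb, rfl⟩
    exact ⟨a + b, Submodule.add_mem _ ha hb, map_add _ _ _⟩
  · rintro r x _ ⟨a, ha, rfl⟩
    exact ⟨(r : K) • a, smul_mem_sub r.2 ha, (Phi K).map_smul (r : K) a⟩

theorem ordGE_Phi_iff (hinj : Function.Injective (Phi K)) (ω : ⋀[K]^3 Ω[K⁄ℂ]) (k : ℤ) :
    OrdGE R (Phi K ω) k ↔ ExtOrdGE R ω k := by
  rw [ordGE_iff_OGE, extOrdGE_iff_OGE]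
  constructor
  · intro h ϖ hϖ
    obtain ⟨η, hη, h1⟩ := h ϖ hϖ
    obtain ⟨ω', hω', rfl⟩ := exists_mem_L3_of_Phi hη
    refine ⟨ω', hω', hinj ?_⟩
    rw [h1, map_smul]
  · intro h ϖ hϖ
    obtain ⟨ω', hω', rfl⟩ := h ϖ hϖ
    exact ⟨Phi K ω', mem_L3_Phi hω', map_smul _ _ _⟩

theorem hasOrd_Phi_iff (hinj : Function.Injective (Phi K)) (ω : ⋀[K]^3 Ω[K⁄ℂ]) (k : ℤ) :
    HasOrd R (Phi K ω) k ↔ ExtHasOrd R ω k := by
  unfold HasOrd ExtHasOrd
  rw [ordGE_Phi_iff hinj, ordGE_Phi_iff hinj]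

end Pool.Agent.Lib.MP_0bb41e_ag
end

section

section

/-!
# Existence of the explicit `Setup`
-/

namespace Pool.Agent.Lib.MP_0bb41e_ag

open MvPolynomial in
theorem exists_setup_aux (K : Type) [Field K] [Algebra ℂ K] [Algebra (MvPolynomial (Fin 3) ℂ) K]
    [IsFractionRing (MvPolynomial (Fin 3) ℂ) K] [IsScalarTower ℂ (MvPolynomial (Fin 3) ℂ) K] :
    Nonempty (Setup K) := by
  set y : Fin 3 → K := fun i => algebraMap (MvPolynomial (Fin 3) ℂ) K (X i) with hy
  have hinj : Function.Injective (algebraMap (MvPolynomial (Fin 3) ℂ) K) :=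
    IsFractionRing.injective _ _
  set c : K := y 0 ^ 2 * y 1 + y 1 ^ 2 * y 2 + y 2 ^ 2 * y 0 with hc
  have hc0 : c ≠ 0 := by
    have h1 : (X 0 ^ 2 * X 1 + X 1 ^ 2 * X 2 + X 2 ^ 2 * X 0 : MvPolynomial (Fin 3) ℂ) ≠ 0 := by
      intro h0
      have := congrArg (MvPolynomial.eval (fun _ => (1 : ℂ))) h0
      norm_num at this
    have h2 : c = algebraMap (MvPolynomial (Fin 3) ℂ) K
        (X 0 ^ 2 * X 1 + X 1 ^ 2 * X 2 + X 2 ^ 2 * X 0) := by
      simp only [map_add, map_mul, map_pow, hc, hy]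
    rw [h2]
    intro h0
    exact h1 (hinj (by rw [h0, map_zero]))
  set x : Fin 3 → K := fun i => y i / c with hx
  set z : K := 1 / c with hz
  have hrel : z ^ 2 = x 0 ^ 2 * x 1 + x 1 ^ 2 * x 2 + x 2 ^ 2 * x 0 := by
    have h0 : ∀ c' : K, (y 0 / c') ^ 2 * (y 1 / c') + (y 1 / c') ^ 2 * (y 2 / c') +
        (y 2 / c') ^ 2 * (y 0 / c') =
        (y 0 ^ 2 * y 1 + y 1 ^ 2 * y 2 + y 2 ^ 2 * y 0) / c' ^ 3 := by
      intro c'
      ring
    have h1 : x 0 ^ 2 * x 1 + x 1 ^ 2 * x 2 + x 2 ^ 2 * x 0 = c / c ^ 3 := h0 c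
    rw [h1, hz]
    field_simp
  have hgen : IntermediateField.adjoin ℂ (insert z (Set.range x)) = ⊤ := by
    rw [eq_top_iff]
    intro w _
    set F := IntermediateField.adjoin ℂ (insert z (Set.range x)) with hF
    have hyF : ∀ i, y i ∈ F := by
      intro i
      have h1 : x i ∈ F := IntermediateField.subset_adjoin _ _ (Or.inr ⟨i, rfl⟩)
      have h2 : z ∈ F := IntermediateField.subset_adjoin _ _ (Or.inl rfl)
      have h3 : y i = x i / z := by
        simp only [hx, hz]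
        field_simp
      rw [h3]
      exact F.div_mem h1 h2
    have hpF : ∀ p : MvPolynomial (Fin 3) ℂ, algebraMap (MvPolynomial (Fin 3) ℂ) K p ∈ F := by
      intro p
      induction p using MvPolynomial.induction_on with
      | C a =>
        have : algebraMap (MvPolynomial (Fin 3) ℂ) K (C a) = algebraMap ℂ K a := by
          rw [IsScalarTower.algebraMap_apply ℂ (MvPolynomial (Fin 3) ℂ) K]
          rfl
        rw [this]
        exact F.algebraMap_mem a
      | add p q hp hq =>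
        rw [map_add]
        exact F.add_mem hp hq
      | mul_X p i hp =>
        rw [map_mul]
        exact F.mul_mem hp (hyF i)
    obtain ⟨p, q, -, rfl⟩ := IsFractionRing.div_surjective (A := MvPolynomial (Fin 3) ℂ) w
    exact F.div_mem (hpF p) (hpF q)
  refine ⟨⟨x, z, ?_, hrel, hgen⟩⟩
  have hyind : AlgebraicIndependent ℂ y := by
    have h1 := MvPolynomial.algebraicIndependent_X (Fin 3) ℂ
    exact h1.map' (f := IsScalarTower.toAlgHom ℂ (MvPolynomial (Fin 3) ℂ) K) hinj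
  have htr : (3 : Cardinal) ≤ Algebra.trdeg ℂ K := by
    have := hyind.cardinalMk_le_trdeg
    simpa using this
  have hxa : ∀ i, IsAlgebraic (Algebra.adjoin ℂ (Set.range x)) (x i) := fun i =>
    isAlgebraic_algebraMap (⟨x i, Algebra.subset_adjoin ⟨i, rfl⟩⟩ : Algebra.adjoin ℂ (Set.range x))
  have : Algebra.IsAlgebraic (Algebra.adjoin ℂ (Set.range x)) K := by
    refine ⟨isAlgebraic_of_adjoin_eq_top hgen ?_⟩
    rintro _ (rfl | ⟨i, rfl⟩)
    · apply IsAlgebraic.of_pow (n := 2) (by norm_num)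
      rw [hrel]
      exact ((((hxa 0).pow 2).mul (hxa 1)).add (((hxa 1).pow 2).mul (hxa 2))).add
        (((hxa 2).pow 2).mul (hxa 0))
    · exact hxa i
  refine (Algebra.IsAlgebraic.isTranscendenceBasis_of_le_trdeg_of_finite ℂ x ?_).1
  simpa using htr

theorem exists_setup : Nonempty (Setup (FractionRing (MvPolynomial (Fin 3) ℂ))) :=
  exists_setup_aux _

theorem isRationalPoint_top :
    IsRationalPoint (⊤ : Subalgebra ℂ (FractionRing (MvPolynomial (Fin 3) ℂ))) :=
  ⟨3, Subalgebra.val ⊤, fun y => ⟨⟨y, trivial⟩, rfl⟩⟩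

end Pool.Agent.Lib.MP_0bb41e_ag
end

section

/-!
# Rationality of the strata
-/

namespace Pool.Agent.Lib.MP_0bb41e_ag

variable {K : Type} [Field K] [Algebra ℂ K]

/-- A homomorphism with kernel `P` extends to the localization at `P`. -/
theorem exists_hom_localize {L : Type} [Field L] [Algebra ℂ L] {A : Subalgebra ℂ K} {P : Ideal A}
    (hP : P.IsPrime) (ψ : A →ₐ[ℂ] L) (hψ : ∀ b, ψ b = 0 ↔ b ∈ P) :
    ∃ Φ : localize A P hP →ₐ[ℂ] L, ∀ (x : localize A P hP) (a b : A), b ∉ P →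
      (x : K) = (a : K) / (b : K) → Φ x = ψ a / ψ b := by
  classical
  have hx : ∀ x : localize A P hP, ∃ c : A × A, c.2 ∉ P ∧ (x : K) = (c.1 : K) / (c.2 : K) := by
    intro x
    obtain ⟨a, b, hb, h⟩ := x.2
    exact ⟨(a, b), hb, h⟩
  choose c hc1 hc2 using hx
  have hne : ∀ b : A, b ∉ P → ψ b ≠ 0 := fun b hb h => hb ((hψ b).1 h)
  have key : ∀ (x : localize A P hP) (a b : A), b ∉ P →
      (x : K) = (a : K) / (b : K) → ψ (c x).1 / ψ (c x).2 = ψ a / ψ b := by
    intro x a b hb h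
    have h1 := hc2 x
    rw [h, div_eq_div_iff (coe_ne_zero_of_notMem hb) (coe_ne_zero_of_notMem (hc1 x))] at h1
    have h2 : a * (c x).2 = (c x).1 * b := Subtype.ext (by push_cast; exact h1)
    have h3 := congrArg ψ h2
    rw [map_mul, map_mul] at h3
    rw [div_eq_div_iff (hne _ (hc1 x)) (hne _ hb)]
    exact h3.symm
  have h1P : (1 : A) ∉ P := fun h => hP.ne_top ((Ideal.eq_top_iff_one P).2 h)
  have hmulP : ∀ {b d : A}, b ∉ P → d ∉ P → b * d ∉ P := fun hb hd h =>
    (hP.mem_or_mem h).elim hb hd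
  refine ⟨{ toFun := fun x => ψ (c x).1 / ψ (c x).2
            map_one' := ?_, map_mul' := ?_, map_zero' := ?_, map_add' := ?_, commutes' := ?_ },
    key⟩
  · rw [key 1 1 1 h1P (by simp)]; simp
  · intro x y
    rw [key (x * y) ((c x).1 * (c y).1) ((c x).2 * (c y).2) (hmulP (hc1 x) (hc1 y)) (by
      push_cast
      rw [hc2 x, hc2 y, div_mul_div_comm])]
    rw [map_mul, map_mul, div_mul_div_comm]
  · rw [key 0 0 1 h1P (by simp)]; simp
  · intro x y
    have hx0 := coe_ne_zero_of_notMem (hc1 x)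
    have hy0 := coe_ne_zero_of_notMem (hc1 y)
    rw [key (x + y) ((c x).1 * (c y).2 + (c x).2 * (c y).1) ((c x).2 * (c y).2)
      (hmulP (hc1 x) (hc1 y)) (by
        push_cast
        rw [hc2 x, hc2 y, div_add_div _ _ hx0 hy0])]
    rw [map_mul, map_add, map_mul, map_mul, div_add_div _ _ (hne _ (hc1 x)) (hne _ (hc1 y))]
  · intro r
    rw [key (algebraMap ℂ _ r) (algebraMap ℂ A r) 1 h1P (by simp)]
    simp

/-- Criterion for rationality. -/
theorem isRational_of_hom_aux {L : Type} [Field L] [Algebra ℂ L] {d : ℕ}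
    [Algebra (MvPolynomial (Fin d) ℂ) L] [IsFractionRing (MvPolynomial (Fin d) ℂ) L]
    [IsScalarTower ℂ (MvPolynomial (Fin d) ℂ) L] {A : Subalgebra ℂ K} {P : Ideal A}
    (hP : P.IsPrime) (ψ : A →ₐ[ℂ] L) (hψ : ∀ b, ψ b = 0 ↔ b ∈ P)
    (hX : ∀ i : Fin d, ∃ a b : A, b ∉ P ∧
      algebraMap (MvPolynomial (Fin d) ℂ) L (MvPolynomial.X i) * ψ b = ψ a) :
    ∃ Φ : localize A P hP →ₐ[ℂ] L, Function.Surjective Φ := by
  obtain ⟨Φ, hΦ⟩ := exists_hom_localize hP ψ hψ
  refine ⟨Φ, ?_⟩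
  have hne : ∀ b : A, b ∉ P → ψ b ≠ 0 := fun b hb h => hb ((hψ b).1 h)
  have hinv : ∀ y ∈ Φ.range, y⁻¹ ∈ Φ.range := by
    rintro _ ⟨x, rfl⟩
    obtain ⟨a, b, hb, h⟩ := x.2
    have h1 := hΦ x a b hb h
    change (Φ x)⁻¹ ∈ _
    by_cases ha : a ∈ P
    · rw [h1, (hψ a).2 ha, zero_div, inv_zero]
      exact Φ.range.zero_mem
    · refine ⟨⟨(b : K) / (a : K), ⟨b, a, ha, rfl⟩⟩, ?_⟩
      change Φ _ = _
      rw [hΦ _ b a ha rfl, h1, inv_div]
  have hXr : ∀ i : Fin d, algebraMap (MvPolynomial (Fin d) ℂ) L (MvPolynomial.X i) ∈ Φ.range := by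
    intro i
    obtain ⟨a, b, hb, h⟩ := hX i
    refine ⟨⟨(a : K) / (b : K), ⟨a, b, hb, rfl⟩⟩, ?_⟩
    change Φ _ = _
    rw [hΦ _ a b hb rfl, div_eq_iff (hne b hb), h]
  have hpF : ∀ p : MvPolynomial (Fin d) ℂ, algebraMap (MvPolynomial (Fin d) ℂ) L p ∈ Φ.range := by
    intro p
    induction p using MvPolynomial.induction_on with
    | C a =>
      have : algebraMap (MvPolynomial (Fin d) ℂ) L (MvPolynomial.C a) = algebraMap ℂ L a := by
        rw [IsScalarTower.algebraMap_apply ℂ (MvPolynomial (Fin d) ℂ) L]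
        rfl
      rw [this]
      exact Φ.range.algebraMap_mem a
    | add p q hp hq =>
      rw [map_add]
      exact Φ.range.add_mem hp hq
    | mul_X p i hp =>
      rw [map_mul]
      exact Φ.range.mul_mem hp (hXr i)
  intro y
  obtain ⟨p, q, -, rfl⟩ := IsFractionRing.div_surjective (A := MvPolynomial (Fin d) ℂ) y
  have : algebraMap (MvPolynomial (Fin d) ℂ) L p / algebraMap (MvPolynomial (Fin d) ℂ) L q ∈
      Φ.range := by
    rw [div_eq_mul_inv]
    exact Φ.range.mul_mem (hpF p) (hinv _ (hpF q))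
  exact this

/-- The universal property of the chart ring. -/
theorem Setup.exists_hom_ring (S : Setup K) (I : Fin 3 → Bool) {L : Type} [Field L] [Algebra ℂ L]
    (ξ : Fin 3 → L) (ζ : L) (hζ : ζ ^ 2 = MvPolynomial.aeval ξ (branch I)) :
    ∃ ψ : S.ring I →ₐ[ℂ] L, ∀ (b : S.ring I) (p q : MvPolynomial (Fin 3) ℂ),
      (b : K) = S.el I p q → ψ b = MvPolynomial.aeval ξ p + MvPolynomial.aeval ξ q * ζ := by
  classical
  have hx : ∀ b : S.ring I, ∃ c : MvPolynomial (Fin 3) ℂ × MvPolynomial (Fin 3) ℂ,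
      (b : K) = S.el I c.1 c.2 := by
    intro b
    obtain ⟨p, q, h⟩ := S.exists_el I b
    exact ⟨(p, q), h⟩
  choose c hc using hx
  have key : ∀ (b : S.ring I) (p q : MvPolynomial (Fin 3) ℂ), (b : K) = S.el I p q →
      MvPolynomial.aeval ξ (c b).1 + MvPolynomial.aeval ξ (c b).2 * ζ =
        MvPolynomial.aeval ξ p + MvPolynomial.aeval ξ q * ζ := by
    intro b p q h
    obtain ⟨h1, h2⟩ := S.el_inj I ((hc b).symm.trans h)
    rw [h1, h2]
  refine ⟨{ toFun := fun b => MvPolynomial.aeval ξ (c b).1 + MvPolynomial.aeval ξ (c b).2 * ζ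
            map_one' := ?_, map_mul' := ?_, map_zero' := ?_, map_add' := ?_, commutes' := ?_ },
    key⟩
  · rw [key 1 1 0 (by simp [Setup.el])]; simp
  · intro x y
    rw [key (x * y) _ _ (by push_cast; rw [hc x, hc y, S.el_mul])]
    simp only [map_add, map_mul]
    rw [← hζ]
    ring
  · rw [key 0 0 0 (by simp [Setup.el])]; simp
  · intro x y
    rw [key (x + y) _ _ (by push_cast; rw [hc x, hc y, S.el_add])]
    simp only [map_add]
    ring
  · intro r
    rw [key (algebraMap ℂ _ r) (MvPolynomial.C r) 0 (by simp [Setup.el])]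
    simp

theorem aeval_evJ {L : Type} [Field L] [Algebra ℂ L] (J : Fin 3 → Bool) (ξ : Fin 3 → L)
    (hξ : ∀ i, J i = true → ξ i = 1) (p : MvPolynomial (Fin 3) ℂ) :
    MvPolynomial.aeval ξ (evJ J p) = MvPolynomial.aeval ξ p := by
  have : (MvPolynomial.aeval ξ).comp (evJ J) = MvPolynomial.aeval ξ := by
    apply MvPolynomial.algHom_ext
    intro i
    simp only [AlgHom.comp_apply, evJ, MvPolynomial.aeval_X]
    by_cases hi : J i = true
    · simp [hi, hξ i hi]
    · simp [hi]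
  exact DFunLike.congr_fun this p

theorem evJ_evJ (J : Fin 3 → Bool) (p : MvPolynomial (Fin 3) ℂ) : evJ J (evJ J p) = evJ J p := by
  have : (evJ J).comp (evJ J) = evJ J := by
    apply MvPolynomial.algHom_ext
    intro i
    simp only [AlgHom.comp_apply, evJ, MvPolynomial.aeval_X]
    by_cases hi : J i = true
    · simp [hi]
    · simp [hi]
  exact DFunLike.congr_fun this p

/-- The kernel of the specialization to a conic bundle parametrization. -/
theorem aeval_eq_zero_iff {L : Type} [Field L] [Algebra ℂ L] {I J : Fin 3 → Bool}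
    (hJ : ∃ k, J k = false) (ξ : Fin 3 → L) (ζ : L)
    (hζ : ζ ^ 2 = MvPolynomial.aeval ξ (branch I))
    (hξ : ∀ i, J i = true → ξ i = 1)
    (hker : ∀ R, MvPolynomial.aeval ξ (evJ J R) = 0 → evJ J R = 0)
    (p q : MvPolynomial (Fin 3) ℂ) :
    MvPolynomial.aeval ξ p + MvPolynomial.aeval ξ q * ζ = 0 ↔ evJ J p = 0 ∧ evJ J q = 0 := by
  obtain ⟨k, hk⟩ := hJ
  constructor
  · intro h
    apply evJ_branch_sq hk (I := I)
    rw [← sub_eq_zero, ← map_pow, ← map_pow, ← map_mul, ← map_sub]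
    apply hker
    rw [aeval_evJ J ξ hξ, map_sub, map_mul, map_pow, map_pow, ← hζ]
    linear_combination (MvPolynomial.aeval ξ p - MvPolynomial.aeval ξ q * ζ) * h
  · rintro ⟨h1, h2⟩
    rw [← aeval_evJ J ξ hξ p, ← aeval_evJ J ξ hξ q, h1, h2]
    simp

/-- Independence of the remaining coordinates gives the kernel condition. -/
theorem ker_of_indep {L : Type} [Field L] [Algebra ℂ L] {J : Fin 3 → Bool} {d : ℕ}
    (ξ : Fin 3 → L) (e : Fin d → Fin 3) (ρ : Fin 3 → MvPolynomial (Fin d) ℂ)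
    (h1 : ∀ i, MvPolynomial.rename e (ρ i) = evJ J (MvPolynomial.X i))
    (h2 : ∀ i, MvPolynomial.aeval (ξ ∘ e) (ρ i) = ξ i)
    (hind : AlgebraicIndependent ℂ (ξ ∘ e)) (R : MvPolynomial (Fin 3) ℂ)
    (h : MvPolynomial.aeval ξ (evJ J R) = 0) : evJ J R = 0 := by
  have e1 : (MvPolynomial.rename e).comp (MvPolynomial.aeval ρ) = evJ J := by
    apply MvPolynomial.algHom_ext
    intro i
    simp only [AlgHom.comp_apply, MvPolynomial.aeval_X]
    exact h1 i
  have e2 : (MvPolynomial.aeval (ξ ∘ e)).comp (MvPolynomial.aeval ρ) = MvPolynomial.aeval ξ := by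
    apply MvPolynomial.algHom_ext
    intro i
    simp only [AlgHom.comp_apply, MvPolynomial.aeval_X]
    exact h2 i
  have h3 := DFunLike.congr_fun e2 (evJ J R)
  rw [h] at h3
  have h4 : MvPolynomial.aeval ρ (evJ J R) = 0 := (algebraicIndependent_iff.1 hind) _ h3
  have h5 := DFunLike.congr_fun e1 (evJ J R)
  rw [AlgHom.comp_apply, h4, map_zero, evJ_evJ] at h5
  exact h5.symm

/-- A transcendental parametrization from a rational one. -/
theorem indep_of_generated {L : Type} [Field L] [Algebra ℂ L] {d : ℕ}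
    [Algebra (MvPolynomial (Fin d) ℂ) L] [IsFractionRing (MvPolynomial (Fin d) ℂ) L]
    [IsScalarTower ℂ (MvPolynomial (Fin d) ℂ) L] (y : Fin d → L)
    (h : ∀ i : Fin d, IsAlgebraic (Algebra.adjoin ℂ (Set.range y))
      (algebraMap (MvPolynomial (Fin d) ℂ) L (MvPolynomial.X i))) :
    AlgebraicIndependent ℂ y := by
  set x : Fin d → L := fun i => algebraMap (MvPolynomial (Fin d) ℂ) L (MvPolynomial.X i) with hx
  have hinj : Function.Injective (algebraMap (MvPolynomial (Fin d) ℂ) L) :=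
    IsFractionRing.injective _ _
  have hxind : AlgebraicIndependent ℂ x := by
    have h1 := MvPolynomial.algebraicIndependent_X (Fin d) ℂ
    exact h1.map' (f := IsScalarTower.toAlgHom ℂ (MvPolynomial (Fin d) ℂ) L) hinj
  have htr : (d : Cardinal) ≤ Algebra.trdeg ℂ L := by
    have := hxind.cardinalMk_le_trdeg
    simpa using this
  have hgen : IntermediateField.adjoin ℂ (Set.range x) = ⊤ := by
    rw [eq_top_iff]
    intro w _
    set F := IntermediateField.adjoin ℂ (Set.range x) with hF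
    have hpF : ∀ p : MvPolynomial (Fin d) ℂ, algebraMap (MvPolynomial (Fin d) ℂ) L p ∈ F := by
      intro p
      induction p using MvPolynomial.induction_on with
      | C a =>
        have : algebraMap (MvPolynomial (Fin d) ℂ) L (MvPolynomial.C a) = algebraMap ℂ L a := by
          rw [IsScalarTower.algebraMap_apply ℂ (MvPolynomial (Fin d) ℂ) L]
          rfl
        rw [this]
        exact F.algebraMap_mem a
      | add p q hp hq =>
        rw [map_add]
        exact F.add_mem hp hq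
      | mul_X p i hp =>
        rw [map_mul]
        exact F.mul_mem hp (IntermediateField.subset_adjoin _ _ ⟨i, rfl⟩)
    obtain ⟨p, q, -, rfl⟩ := IsFractionRing.div_surjective (A := MvPolynomial (Fin d) ℂ) w
    exact F.div_mem (hpF p) (hpF q)
  have : Algebra.IsAlgebraic (Algebra.adjoin ℂ (Set.range y)) L := by
    refine ⟨isAlgebraic_of_adjoin_eq_top hgen ?_⟩
    rintro _ ⟨i, rfl⟩
    exact h i
  refine (Algebra.IsAlgebraic.isTranscendenceBasis_of_le_trdeg_of_finite ℂ y ?_).1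
  simpa using htr

theorem aeval_branch_I0 {L : Type} [Field L] [Algebra ℂ L] (ξ : Fin 3 → L) :
    MvPolynomial.aeval ξ (branch I0) = ξ 0 ^ 2 * ξ 1 + ξ 1 ^ 2 * ξ 2 + ξ 2 ^ 2 * ξ 0 := by
  unfold branch
  simp only [Fin.sum_univ_three, Fin.prod_univ_three, I0]
  simp [expo]
  ring

theorem Setup.rational_of (S : Setup K) (J : Fin 3 → Bool) (hJ : ∃ k, J k = false)
    {L : Type} [Field L] [Algebra ℂ L] {d : ℕ}
    [Algebra (MvPolynomial (Fin d) ℂ) L] [IsFractionRing (MvPolynomial (Fin d) ℂ) L]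
    [IsScalarTower ℂ (MvPolynomial (Fin d) ℂ) L] (ξ : Fin 3 → L) (ζ : L)
    (hζ : ζ ^ 2 = ξ 0 ^ 2 * ξ 1 + ξ 1 ^ 2 * ξ 2 + ξ 2 ^ 2 * ξ 0)
    (hξ : ∀ i, J i = true → ξ i = 1)
    (hker : ∀ R, MvPolynomial.aeval ξ (evJ J R) = 0 → evJ J R = 0)
    (hX : ∀ i : Fin d, ∃ p q : MvPolynomial (Fin 3) ℂ,
      algebraMap (MvPolynomial (Fin d) ℂ) L (MvPolynomial.X i) =
        MvPolynomial.aeval ξ p + MvPolynomial.aeval ξ q * ζ) :
    ∃ Φ : S.OJ J hJ →ₐ[ℂ] L, Function.Surjective Φ := by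
  have hζ' : ζ ^ 2 = MvPolynomial.aeval ξ (branch I0) := by rw [aeval_branch_I0]; exact hζ
  obtain ⟨ψ, hψ⟩ := S.exists_hom_ring I0 ξ ζ hζ'
  have hP : (S.PJ I0 J).IsPrime := by obtain ⟨k, hk⟩ := hJ; exact S.PJ_isPrime I0 J hk
  refine isRational_of_hom_aux (d := d) hP ψ ?_ ?_
  · intro b
    obtain ⟨p, q, hb⟩ := S.exists_el I0 b
    rw [hψ b p q hb, S.mem_PJ I0 J hb]
    exact aeval_eq_zero_iff hJ ξ ζ hζ' hξ hker p q
  · intro i
    obtain ⟨p, q, h⟩ := hX i
    refine ⟨⟨S.el I0 p q, S.el_mem I0 p q⟩, 1, fun h1 => hP.ne_top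
      ((Ideal.eq_top_iff_one _).2 h1), ?_⟩
    rw [map_one, mul_one, h, hψ _ p q rfl]

theorem Setup.rational_one (S : Setup K) (i : Fin 3) (hJ : ∃ k, sgl i k = false)
    {L : Type} [Field L] [Algebra ℂ L]
    [Algebra (MvPolynomial (Fin 2) ℂ) L] [IsFractionRing (MvPolynomial (Fin 2) ℂ) L]
    [IsScalarTower ℂ (MvPolynomial (Fin 2) ℂ) L] :
    ∃ Φ : S.OJ (sgl i) hJ →ₐ[ℂ] L, Function.Surjective Φ := by
  have hinj : Function.Injective (algebraMap (MvPolynomial (Fin 2) ℂ) L) :=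
    IsFractionRing.injective _ _
  set u : L := algebraMap (MvPolynomial (Fin 2) ℂ) L (MvPolynomial.X 0) with hu
  set r : L := algebraMap (MvPolynomial (Fin 2) ℂ) L (MvPolynomial.X 1) with hr
  have hD : 2 * r - u ^ 2 ≠ 0 := by
    have h1 : (2 * MvPolynomial.X 1 - MvPolynomial.X 0 ^ 2 : MvPolynomial (Fin 2) ℂ) ≠ 0 := by
      intro h0
      have := congrArg (MvPolynomial.eval (![0, 1] : Fin 2 → ℂ)) h0
      simp at this
    have h2 : 2 * r - u ^ 2 = algebraMap (MvPolynomial (Fin 2) ℂ) L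
        (2 * MvPolynomial.X 1 - MvPolynomial.X 0 ^ 2) := by
      simp only [map_sub, map_mul, map_pow, map_ofNat, hu, hr]
    rw [h2]
    intro h0
    exact h1 (hinj (by rw [h0, map_zero]))
  set τ : L := (u - r ^ 2) / (2 * r - u ^ 2) with hτ
  have hτD : τ * (2 * r - u ^ 2) = u - r ^ 2 := by
    rw [hτ]; exact div_mul_cancel₀ _ hD
  have hrel : (r + τ) ^ 2 = u + u ^ 2 * τ + τ ^ 2 := by
    linear_combination hτD
  set ξ : Fin 3 → L := fun k => if k = i then 1 else if k = i + 1 then u else τ with hξ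
  have hζ : (r + τ) ^ 2 = ξ 0 ^ 2 * ξ 1 + ξ 1 ^ 2 * ξ 2 + ξ 2 ^ 2 * ξ 0 := by
    rw [hrel]
    fin_cases i <;> simp [hξ] <;> ring
  refine S.rational_of (sgl i) hJ (d := 2) ξ (r + τ) hζ ?_ ?_ ?_
  · intro k hk
    have : k = i := by simpa [sgl] using hk
    simp [hξ, this]
  · intro R hR
    refine ker_of_indep (d := 2) ξ ![i + 1, i + 2]
      (fun k => if k = i then 1 else if k = i + 1 then MvPolynomial.X 0 else MvPolynomial.X 1)
      ?_ ?_ ?_ R hR
    · intro k
      fin_cases i <;> fin_cases k <;> simp [evJ, sgl]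
    · intro k
      fin_cases i <;> fin_cases k <;> simp [hξ]
    · have e0 : (ξ ∘ ![i + 1, i + 2]) 0 = u := by
        fin_cases i <;> simp [hξ]
      have e1 : (ξ ∘ ![i + 1, i + 2]) 1 = τ := by
        fin_cases i <;> simp [hξ]
      apply indep_of_generated
      have hu' : u ∈ Algebra.adjoin ℂ (Set.range (ξ ∘ ![i + 1, i + 2])) :=
        Algebra.subset_adjoin ⟨0, e0⟩
      have hτ' : τ ∈ Algebra.adjoin ℂ (Set.range (ξ ∘ ![i + 1, i + 2])) :=
        Algebra.subset_adjoin ⟨1, e1⟩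
      intro k
      fin_cases k
      · exact isAlgebraic_algebraMap
          (⟨u, hu'⟩ : Algebra.adjoin ℂ (Set.range (ξ ∘ ![i + 1, i + 2])))
      · have h1 : IsAlgebraic (Algebra.adjoin ℂ (Set.range (ξ ∘ ![i + 1, i + 2]))) (r + τ) := by
          apply IsAlgebraic.of_pow (n := 2) (by norm_num)
          rw [hrel]
          exact isAlgebraic_algebraMap
            (⟨u + u ^ 2 * τ + τ ^ 2, Subalgebra.add_mem _ (Subalgebra.add_mem _ hu'
              (Subalgebra.mul_mem _ (Subalgebra.pow_mem _ hu' 2) hτ'))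
              (Subalgebra.pow_mem _ hτ' 2)⟩ :
                Algebra.adjoin ℂ (Set.range (ξ ∘ ![i + 1, i + 2])))
        have h2 : IsAlgebraic (Algebra.adjoin ℂ (Set.range (ξ ∘ ![i + 1, i + 2]))) τ :=
          isAlgebraic_algebraMap
            (⟨τ, hτ'⟩ : Algebra.adjoin ℂ (Set.range (ξ ∘ ![i + 1, i + 2])))
        have h3 := h1.sub h2
        rw [add_sub_cancel_right] at h3
        exact h3
  · intro k
    have e0 : ξ (i + 1) = u := by fin_cases i <;> simp [hξ]
    have e1 : ξ (i + 2) = τ := by fin_cases i <;> simp [hξ]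
    fin_cases k
    · refine ⟨MvPolynomial.X (i + 1), 0, ?_⟩
      simp only [MvPolynomial.aeval_X, e0, map_zero, zero_mul, add_zero]
      rfl
    · refine ⟨-MvPolynomial.X (i + 2), 1, ?_⟩
      simp only [MvPolynomial.aeval_X, e1, map_neg, map_one, one_mul]
      change r = _
      ring

/-- Complements of one-element sets. -/
def cpl (i : Fin 3) : Fin 3 → Bool := fun j => !(decide (j = i))

theorem Setup.rational_two (S : Setup K) (i : Fin 3) (hJ : ∃ k, cpl i k = false)
    {L : Type} [Field L] [Algebra ℂ L]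
    [Algebra (MvPolynomial (Fin 1) ℂ) L] [IsFractionRing (MvPolynomial (Fin 1) ℂ) L]
    [IsScalarTower ℂ (MvPolynomial (Fin 1) ℂ) L] :
    ∃ Φ : S.OJ (cpl i) hJ →ₐ[ℂ] L, Function.Surjective Φ := by
  have hinj : Function.Injective (algebraMap (MvPolynomial (Fin 1) ℂ) L) :=
    IsFractionRing.injective _ _
  set r : L := algebraMap (MvPolynomial (Fin 1) ℂ) L (MvPolynomial.X 0) with hr
  have hD : 2 * r - 1 ≠ 0 := by
    have h1 : (2 * MvPolynomial.X 0 - 1 : MvPolynomial (Fin 1) ℂ) ≠ 0 := by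
      intro h0
      have := congrArg (MvPolynomial.eval (fun _ => (0 : ℂ))) h0
      simp at this
    have h2 : 2 * r - 1 = algebraMap (MvPolynomial (Fin 1) ℂ) L
        (2 * MvPolynomial.X 0 - 1) := by
      simp only [map_sub, map_mul, map_one, map_ofNat, hr]
    rw [h2]
    intro h0
    exact h1 (hinj (by rw [h0, map_zero]))
  set τ : L := (1 - r ^ 2) / (2 * r - 1) with hτ
  have hτD : τ * (2 * r - 1) = 1 - r ^ 2 := by
    rw [hτ]; exact div_mul_cancel₀ _ hD
  have hrel : (r + τ) ^ 2 = 1 + τ + τ ^ 2 := by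
    linear_combination hτD
  set ξ : Fin 3 → L := fun k => if k = i then τ else 1 with hξ
  have hζ : (r + τ) ^ 2 = ξ 0 ^ 2 * ξ 1 + ξ 1 ^ 2 * ξ 2 + ξ 2 ^ 2 * ξ 0 := by
    rw [hrel]
    fin_cases i <;> simp [hξ] <;> ring
  refine S.rational_of (cpl i) hJ (d := 1) ξ (r + τ) hζ ?_ ?_ ?_
  · intro k hk
    have : k ≠ i := by simpa [cpl] using hk
    simp [hξ, this]
  · intro R hR
    refine ker_of_indep (d := 1) ξ ![i]
      (fun k => if k = i then MvPolynomial.X 0 else 1)
      ?_ ?_ ?_ R hR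
    · intro k
      fin_cases i <;> fin_cases k <;> simp [evJ, cpl]
    · intro k
      fin_cases i <;> fin_cases k <;> simp [hξ]
    · have e0 : (ξ ∘ ![i]) 0 = τ := by
        fin_cases i <;> simp [hξ]
      apply indep_of_generated
      have hτ' : τ ∈ Algebra.adjoin ℂ (Set.range (ξ ∘ ![i])) :=
        Algebra.subset_adjoin ⟨0, e0⟩
      intro k
      fin_cases k
      have h1 : IsAlgebraic (Algebra.adjoin ℂ (Set.range (ξ ∘ ![i]))) (r + τ) := by
        apply IsAlgebraic.of_pow (n := 2) (by norm_num)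
        rw [hrel]
        exact isAlgebraic_algebraMap
          (⟨1 + τ + τ ^ 2, Subalgebra.add_mem _ (Subalgebra.add_mem _ (Subalgebra.one_mem _)
            hτ') (Subalgebra.pow_mem _ hτ' 2)⟩ : Algebra.adjoin ℂ (Set.range (ξ ∘ ![i])))
      have h2 : IsAlgebraic (Algebra.adjoin ℂ (Set.range (ξ ∘ ![i]))) τ :=
        isAlgebraic_algebraMap (⟨τ, hτ'⟩ : Algebra.adjoin ℂ (Set.range (ξ ∘ ![i])))
      have h3 := h1.sub h2
      rw [add_sub_cancel_right] at h3
      exact h3
  · intro k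
    have e1 : ξ i = τ := by simp [hξ]
    fin_cases k
    refine ⟨-MvPolynomial.X i, 1, ?_⟩
    simp only [MvPolynomial.aeval_X, e1, map_neg, map_one, one_mul]
    change r = _
    ring

theorem J_cases : ∀ J : Fin 3 → Bool, (∃ k, J k = false) → (∃ k, J k = true) →
    (∃ i, J = sgl i) ∨ ∃ i, J = cpl i := by decide

theorem Setup.OJ_rational {K : Type} [Field K] [Algebra ℂ K] (S : Setup K) (J : Fin 3 → Bool)
    (hJ : ∃ k, J k = false) (hJ' : ∃ k, J k = true) : IsRationalPoint (S.OJ J hJ) := by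
  rcases J_cases J hJ hJ' with ⟨i, rfl⟩ | ⟨i, rfl⟩
  · obtain ⟨Φ, hΦ⟩ := S.rational_one i hJ (L := FractionRing (MvPolynomial (Fin 2) ℂ))
    exact ⟨2, Φ, hΦ⟩
  · obtain ⟨Φ, hΦ⟩ := S.rational_two i hJ (L := FractionRing (MvPolynomial (Fin 1) ℂ))
    exact ⟨1, Φ, hΦ⟩

theorem Setup.pt_rational_aux (S : Setup K) (s : ℂ) (hs : s ^ 2 = 3)
    {L : Type} [Field L] [Algebra ℂ L]
    [Algebra (MvPolynomial (Fin 0) ℂ) L] [IsFractionRing (MvPolynomial (Fin 0) ℂ) L]
    [IsScalarTower ℂ (MvPolynomial (Fin 0) ℂ) L] :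
    ∃ Φ : S.pt I0 s hs →ₐ[ℂ] L, Function.Surjective Φ := by
  have hζ' : (algebraMap ℂ L s) ^ 2 = MvPolynomial.aeval (fun _ => (1 : L)) (branch I0) := by
    rw [aeval_branch_I0, ← map_pow, hs, map_ofNat]
    norm_num
  obtain ⟨ψ, hψ⟩ := S.exists_hom_ring I0 (fun _ => (1 : L)) (algebraMap ℂ L s) hζ'
  refine isRational_of_hom_aux (d := 0) (S.Ps_isPrime I0 s hs) ψ ?_ (fun i => i.elim0)
  intro b
  obtain ⟨p, q, hb⟩ := S.exists_el I0 b
  rw [hψ b p q hb, S.mem_Ps I0 s hs hb]
  have h1 : ∀ p : MvPolynomial (Fin 3) ℂ,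
      MvPolynomial.aeval (fun _ => (1 : L)) p = algebraMap ℂ L (ev1 p) := by
    intro p
    unfold ev1
    rw [← MvPolynomial.aeval_algebraMap_apply]
    congr 2
    funext i
    simp
  rw [h1, h1, ← map_mul, ← map_add, map_eq_zero]
  rw [mul_comm]

theorem Setup.pt_rational {K : Type} [Field K] [Algebra ℂ K] (S : Setup K) (s : ℂ)
    (hs : s ^ 2 = 3) : IsRationalPoint (S.pt I0 s hs) := by
  obtain ⟨Φ, hΦ⟩ := S.pt_rational_aux s hs (L := FractionRing (MvPolynomial (Fin 0) ℂ))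
  exact ⟨0, Φ, hΦ⟩

end Pool.Agent.Lib.MP_0bb41e_ag
end
end
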