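import Pool.Agent.Lib.MP_0bb41e_ag.Defs

/-!
# The function field of the double cover `z ^ 2 = x₀² x₁ + x₁² x₂ + x₂² x₀` of `(ℙ¹)³`
-/

namespace Pool.Agent.Lib.MP_0bb41e_ag

/-- `K = ℂ(x₀, x₁, x₂, z)` with `x` algebraically independent and
`z ^ 2 = x₀² x₁ + x₁² x₂ + x₂² x₀`. -/
structure Setup (K : Type) [Field K] [Algebra ℂ K] where
  x : Fin 3 → K
  z : K
  indep : AlgebraicIndependent ℂ x
  rel : z ^ 2 = x 0 ^ 2 * x 1 + x 1 ^ 2 * x 2 + x 2 ^ 2 * x 0
  gen : IntermediateField.adjoin ℂ (insert z (Set.range x)) = ⊤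

variable {K : Type} [Field K] [Algebra ℂ K]

/-- Coordinates on the chart `I` of `(ℙ¹)³`: `x_i⁻¹` if `I i`, and `x_i` otherwise. -/
def Setup.a (S : Setup K) (I : Fin 3 → Bool) (i : Fin 3) : K :=
  if I i then (S.x i)⁻¹ else S.x i

/-- The coordinate `w = z ∏_{i ∈ I} x_i⁻¹` on the chart `I` of the double cover. -/
def Setup.w (S : Setup K) (I : Fin 3 → Bool) : K :=
  S.z * ∏ i, (if I i then (S.x i)⁻¹ else 1)

/-- The coordinate ring of the chart `I` of the double cover. -/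
def Setup.ring (S : Setup K) (I : Fin 3 → Bool) : Subalgebra ℂ K :=
  Algebra.adjoin ℂ (insert (S.w I) (Set.range (S.a I)))

/-- Exponents of the three monomials of the cubic `c = x₀² x₁ + x₁² x₂ + x₂² x₀`. -/
def expo : Fin 3 → Fin 3 → ℕ := ![![2, 1, 0], ![0, 2, 1], ![1, 0, 2]]

/-- Equation of the branch locus in the chart `I`: `w ^ 2 = F_I (a)`, where `F_I` is obtained from
the cubic by replacing the exponent `e` of `x_i` by `2 - e` for `i ∈ I`. -/
noncomputable def branch (I : Fin 3 → Bool) : MvPolynomial (Fin 3) ℂ :=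
  ∑ k : Fin 3, ∏ i : Fin 3, MvPolynomial.X i ^ (if I i then 2 - expo k i else expo k i)

end Pool.Agent.Lib.MP_0bb41e_ag
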